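import Pool.Agent.W189.TP.Land

/-! Definitions for project TX: an explicit formula with a Gaussian weight. -/

set_option autoImplicit false

namespace Pool.Agent.TH949.TX

open Pool.Agent.W189.TP (DS)

/-- the Gaussian density of variance `2 κ` -/
noncomputable def gk (κ u : ℝ) : ℝ :=
  (Real.sqrt (4 * Real.pi * κ))⁻¹ * Real.exp (-(u ^ 2 / (4 * κ)))

/-- `exp(κ w² + w Y)` at `w = a + i v` -/
noncomputable def EE (κ Y a v : ℝ) : ℂ :=
  Complex.exp (κ * ((a : ℂ) + v * Complex.I) ^ 2 + ((a : ℂ) + v * Complex.I) * Y)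

/-- `∑ d(x) L(x) e^{-s L(x)}` -/
noncomputable def ZZ {ι : Type*} (d L : ι → ℝ) (s : ℂ) : ℂ := DS (fun i => d i * L i) L s

/-- the same sum with the weight `gk κ (L(x) - Y)` -/
noncomputable def JJ {ι : Type*} (d L : ι → ℝ) (s : ℂ) (κ Y : ℝ) : ℂ :=
  ∑' i, ((d i * L i : ℝ) : ℂ) * Complex.exp (-(s * L i)) * (gk κ (L i - Y) : ℂ)

end Pool.Agent.TH949.TX
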