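import Pool.Agent.TH656.TX.Polar
import Pool.Agent.TH443.TX.Sum
import Pool.Agent.TH443.TX.Extract
import Pool.Agent.TH113.TX.Shift
import Pool.Agent.TH75.TX_Poisson
import Pool.Agent.TH645.TX.Log
import Pool.Agent.TH858.J3045
import Pool.Agent.TH979.TX.Circles

set_option autoImplicit false

open Complex MeasureTheory Set Filter Topology
open Pool.Agent.W189.TP (DS)

namespace Pool.Agent.TH949.TX

theorem t_polar {κ a : ℝ} (hκ : 0 < κ) {z : ℂ} (hz1 : -1 ≤ z.re) (hz : z.re < a) (Y : ℝ) :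
    Integrable (fun v : ℝ => EE κ Y a v / ((a : ℂ) + v * I - z)) ∧
    ‖(∫ v : ℝ, EE κ Y a v / ((a : ℂ) + v * I - z)) - 2 * Real.pi * cexp (κ * z ^ 2 + z * Y)‖ ≤
      2 * Real.pi * Real.exp (κ - Y) := by
  exact _root_.TH656.TX.t_polar hκ hz1 hz Y

theorem t_sum {ι : Type*} [Countable ι] {d L : ι → ℝ} {κ : ℝ} (hκ : 0 < κ) {s : ℂ} {a : ℝ}
    (hs : Summable fun i => |d i * L i| * Real.exp (-((s.re + a) * L i))) (Y : ℝ) :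
    Continuous (fun v : ℝ => ZZ d L (s + ((a : ℂ) + v * I))) ∧
    (∀ v : ℝ, ‖ZZ d L (s + ((a : ℂ) + v * I))‖ ≤ ∑' i, |d i * L i| * Real.exp (-((s.re + a) * L i))) ∧
    Integrable (fun v : ℝ => ZZ d L (s + ((a : ℂ) + v * I)) * EE κ Y a v) ∧
    ∫ v : ℝ, ZZ d L (s + ((a : ℂ) + v * I)) * EE κ Y a v = 2 * Real.pi * JJ d L s κ Y := by
  exact Pool.Agent.TH443.TXSum.t_sum hκ hs Y

theorem t_shift {k1 : ℝ → ℂ} {k : ℂ → ℂ} {a b V η B : ℝ} (hη : 0 < η) (hba : b < a) (hV : 0 < V)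
    (hb : η * b ^ 2 + b < 0) (hV2 : η * (max (a ^ 2) (b ^ 2) - V ^ 2) + a < 0)
    (hk1c : Continuous k1) (hk1 : ∀ v, ‖k1 v‖ ≤ B)
    (hk : ∀ w ∈ Icc b a ×ℂ Icc (-V) V, DifferentiableAt ℂ k w)
    (heq : ∀ v ∈ Icc (-V) V, k ((a : ℂ) + v * I) = k1 v) :
    Tendsto (fun Y : ℝ => ∫ v : ℝ, k1 v * EE (η * Y) Y a v) atTop (𝓝 0) := by
  exact Pool.Agent.TH113.TX.t_shift hη hba hV hb hV2 hk1c hk1 hk heq

theorem t_extract {ι : Type*} [Countable ι] {d L : ι → ℝ} (hL : ∀ i, 0 ≤ L i)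
    (habs : ∀ t : ℝ, 1 < t → Summable fun i => |d i| * Real.exp (-(t * L i)))
    {F : ℂ → ℂ} (hF : MeromorphicOn F univ) (hE : ∀ s : ℂ, 1 < s.re → F s = cexp (DS d L s))
    {c H : ℝ} (hc : c < 1) (hH : 0 < H) :
    ∃ (Z : Finset ℂ) (m : ℂ → ℤ) (h : ℂ → ℂ),
      (∀ ρ ∈ Z, c ≤ ρ.re ∧ ρ.re ≤ 1 ∧ |ρ.im| ≤ H ∧ meromorphicOrderAt F ρ = m ρ ∧ m ρ ≠ 0) ∧
      (∀ ρ : ℂ, c ≤ ρ.re → |ρ.im| ≤ H → meromorphicOrderAt F ρ ≠ 0 → ρ ∈ Z) ∧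
      (∀ s ∈ Icc c 2 ×ℂ Icc (-H) H, DifferentiableAt ℂ h s) ∧
      ∀ s : ℂ, 1 < s.re → s.re ≤ 2 → |s.im| ≤ H →
        h s = ZZ d L s + ∑ ρ ∈ Z, (m ρ : ℂ) / (s - ρ) := by
  exact Pool.Agent.TH443.TXExtract.t_extract hL habs hF hE hc hH

/-- Poisson and Jensen: a bound for `h = log (G / V)` in a disc, from bounds for the entire functions `G`, `V` -/
theorem t_poisson {G V h : ℂ → ℂ} {z0 : ℂ} {r R B : ℝ} (hr : 0 < r) (hrR : r < R)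
    (hG : Differentiable ℂ G) (hV : Differentiable ℂ V) (hV0 : V z0 ≠ 0)
    (hh : ∀ z ∈ Metric.closedBall z0 R, DifferentiableAt ℂ h z)
    (he : ∀ z ∈ Metric.closedBall z0 R, G z = V z * cexp (h z))
    (hB : 0 ≤ B) (hGB : ∀ z ∈ Metric.closedBall z0 R, ‖G z‖ ≤ Real.exp B)
    (hVB : ∀ z ∈ Metric.closedBall z0 R, ‖V z‖ ≤ Real.exp B) :
    ∀ z ∈ Metric.closedBall z0 r, (h z).re ≤ (R + r) / (R - r) * (B - Real.log ‖V z0‖) := by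
  exact Pool.Agent.TH75.TX.t_poisson hr hrR hG hV hV0 hh he hB hGB hVB

/-- Borel-Caratheodory and Hadamard's three circles -/
theorem t_circles {r1 r2 r3 : ℝ} (h1 : 0 < r1) (h12 : r1 < r2) (h23 : r2 < r3) {M1 : ℝ} (hM1 : 1 ≤ M1) :
    ∃ C θ : ℝ, 0 < C ∧ 0 < θ ∧ θ < 1 ∧ ∀ (h : ℂ → ℂ) (z0 : ℂ) (M : ℝ), 1 ≤ M →
      (∀ z ∈ Metric.closedBall z0 r3, DifferentiableAt ℂ h z) →
      (∀ z ∈ Metric.closedBall z0 r3, (h z).re ≤ M) →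
      (∀ z ∈ Metric.closedBall z0 r1, ‖h z‖ ≤ M1) →
      ∀ z ∈ Metric.closedBall z0 r2, ‖h z‖ ≤ C * M ^ θ := by
  exact Pool.Agent.TH979.TX.t_circles h1 h12 h23 hM1

/-- logarithms in a disc -/
theorem t_log {q : ℂ → ℂ} {z0 w0 : ℂ} {R r : ℝ} (hr : 0 < r) (hrR : r < R)
    (hq : ∀ z ∈ Metric.ball z0 R, DifferentiableAt ℂ q z) (hq0 : ∀ z ∈ Metric.ball z0 R, q z ≠ 0)
    {g : ℂ → ℂ} (hg : ∀ z ∈ Metric.ball z0 r, DifferentiableAt ℂ g z)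
    (hgq : ∀ z ∈ Metric.ball z0 r, q z = cexp (g z)) :
    ∃ h : ℂ → ℂ, (∀ z ∈ Metric.ball z0 R, DifferentiableAt ℂ h z) ∧
      (∀ z ∈ Metric.ball z0 R, q z = cexp (h z)) ∧ ∀ z ∈ Metric.ball z0 r, h z = g z := by
  exact Pool.Agent.TH645.TX.t_log (w0 := w0) hr hrR hq hq0 hg hgq

/-- the quotient of two entire functions -/
theorem t_quot {G V : ℂ → ℂ} (hG : Differentiable ℂ G) (hV : Differentiable ℂ V) (hV0 : ∃ z, V z ≠ 0)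
    (hG0 : ∃ z, G z ≠ 0) :
    ∃ F : ℂ → ℂ, MeromorphicOn F univ ∧
      (∀ z, V z ≠ 0 → F z = G z / V z ∧ DifferentiableAt ℂ F z) ∧
      (∀ z, meromorphicOrderAt F z = 0 ↔ analyticOrderAt G z = analyticOrderAt V z) ∧
      ∀ z, meromorphicOrderAt F z = 0 → DifferentiableAt ℂ F z ∧ F z ≠ 0 ∧ G z = V z * F z := by
  exact Pool.Agent.TH858.J3045.t_quot hG hV hV0 hG0

end Pool.Agent.TH949.TX
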