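import Mathlib
import Pool.Agent.TH949.TX.Tools

/-! The explicit formula with a Gaussian weight. -/

set_option autoImplicit false

open Complex MeasureTheory Set Filter Topology
open Pool.Agent.W189.TP (DS)

namespace Pool.Agent.TH949.TX

/-- the exponent attached to a singularity `ρ` at the base point `s` -/
noncomputable def ex (η : ℝ) (s ρ : ℂ) : ℂ := η * (ρ - s) ^ 2 + (ρ - s)

/-- the sum over the singularities -/
noncomputable def SZ (Z : Finset ℂ) (m : ℂ → ℤ) (η : ℝ) (s : ℂ) (Y : ℝ) : ℂ :=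
  ∑ ρ ∈ Z, (m ρ : ℂ) * cexp (Y * ex η s ρ)

theorem le_two_exp (x : ℝ) : x ≤ 2 * Real.exp (x / 2) := by
  have := Real.add_one_le_exp (x / 2)
  linarith

theorem summ_dL {ι : Type*} {d L : ι → ℝ} (hL : ∀ i, 0 ≤ L i)
    (habs : ∀ t : ℝ, 1 < t → Summable fun i => |d i| * Real.exp (-(t * L i))) {t : ℝ} (ht : 1 < t) :
    Summable fun i => |d i * L i| * Real.exp (-(t * L i)) := by
  set r : ℝ := (t - 1) / 2 with hr
  have hr0 : 0 < r := by rw [hr]; linarith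
  have h1 := (habs (t - r) (by rw [hr]; linarith)).mul_left (1 / r)
  refine Summable.of_nonneg_of_le (fun i => by positivity) (fun i => ?_) h1
  have hLi := hL i
  rw [abs_mul, abs_of_nonneg hLi]
  have h2 : r * L i ≤ Real.exp (r * L i) := by
    have := Real.add_one_le_exp (r * L i)
    linarith
  have h3 : Real.exp (-((t - r) * L i)) = Real.exp (r * L i) * Real.exp (-(t * L i)) := by
    rw [← Real.exp_add]
    congr 1
    ring
  rw [h3]
  have h4 : L i ≤ 1 / r * Real.exp (r * L i) := by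
    rw [one_div, ← div_eq_inv_mul, le_div_iff₀ hr0]
    linarith
  have h5 : 0 ≤ |d i| * Real.exp (-(t * L i)) := by positivity
  calc |d i| * L i * Real.exp (-(t * L i)) = L i * (|d i| * Real.exp (-(t * L i))) := by ring
    _ ≤ 1 / r * Real.exp (r * L i) * (|d i| * Real.exp (-(t * L i))) := mul_le_mul_of_nonneg_right h4 h5
    _ = _ := by ring

/-- **The explicit formula.** -/
theorem explicit {ι : Type*} [Countable ι] {d L : ι → ℝ} (hL : ∀ i, 0 ≤ L i)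
    (habs : ∀ t : ℝ, 1 < t → Summable fun i => |d i| * Real.exp (-(t * L i)))
    {c H : ℝ} (hc0 : 0 < c) {Z : Finset ℂ} {m : ℂ → ℤ} {h : ℂ → ℂ}
    (hZ : ∀ ρ ∈ Z, c ≤ ρ.re ∧ ρ.re ≤ 1)
    (hd : ∀ s ∈ Icc c 2 ×ℂ Icc (-H) H, DifferentiableAt ℂ h s)
    (he : ∀ s : ℂ, 1 < s.re → s.re ≤ 2 → |s.im| ≤ H → h s = ZZ d L s + ∑ ρ ∈ Z, (m ρ : ℂ) / (s - ρ))
    {η V : ℝ} (hη : 0 < η) (hη1 : η ≤ 1 / 4) (hV : 4 + 3 / η ≤ V ^ 2) (hV0 : 0 < V) {s0 : ℂ}
    (hs0 : c < s0.re) (hs1 : s0.re < 1) (hsH : |s0.im| + V ≤ H) :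
    Tendsto (fun Y : ℝ => JJ d L s0 (η * Y) Y + SZ Z m η s0 Y) atTop (𝓝 0) := by
  classical
  set a : ℝ := 2 - s0.re with ha
  set b : ℝ := c - s0.re with hb
  have ha1 : 1 < a := by rw [ha]; linarith
  have ha2 : a < 2 := by rw [ha]; linarith
  have hb0 : b < 0 := by rw [hb]; linarith
  have hb1 : -1 < b := by rw [hb]; linarith
  have hsa : s0.re + a = 2 := by rw [ha]; ring
  have hs := summ_dL hL habs (t := 2) (by norm_num)
  -- the function on the line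
  set P : ℂ → ℂ := fun s => ∑ ρ ∈ Z, (m ρ : ℂ) / (s - ρ) with hP
  set k1 : ℝ → ℂ := fun v => ZZ d L (s0 + ((a : ℂ) + v * I)) + P (s0 + ((a : ℂ) + v * I)) with hk1
  have hre : ∀ v : ℝ, (s0 + ((a : ℂ) + v * I)).re = 2 := by
    intro v
    simp [ha]
  have him : ∀ v : ℝ, (s0 + ((a : ℂ) + v * I)).im = s0.im + v := by
    intro v
    simp
  have hne : ∀ ρ ∈ Z, ∀ v : ℝ, s0 + ((a : ℂ) + v * I) - ρ ≠ 0 := by
    intro ρ hρ v h0
    have h1 := congrArg Complex.re h0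
    rw [Complex.sub_re, hre] at h1
    have := (hZ ρ hρ).2
    simp at h1
    linarith
  have hnrm : ∀ ρ ∈ Z, ∀ v : ℝ, 1 ≤ ‖s0 + ((a : ℂ) + v * I) - ρ‖ := by
    intro ρ hρ v
    refine le_trans ?_ (Complex.re_le_norm _)
    rw [Complex.sub_re, hre]
    have := (hZ ρ hρ).2
    linarith
  have hsum : ∀ Y : ℝ, 0 < Y → _ := fun Y hY => t_sum (κ := η * Y) (by positivity) (s := s0) (a := a)
    (d := d) (L := L) (by rw [hsa]; exact hs) Y
  obtain ⟨hZc, hZb, -, -⟩ := hsum 1 one_pos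
  set B0 : ℝ := ∑' i, |d i * L i| * Real.exp (-((s0.re + a) * L i)) with hB0
  have hPc : Continuous fun v : ℝ => P (s0 + ((a : ℂ) + v * I)) := by
    rw [hP]
    refine continuous_finsetSum _ fun ρ hρ => ?_
    refine Continuous.div continuous_const (by fun_prop) fun v => hne ρ hρ v
  have hPb : ∀ v : ℝ, ‖P (s0 + ((a : ℂ) + v * I))‖ ≤ ∑ ρ ∈ Z, ‖(m ρ : ℂ)‖ := by
    intro v
    rw [hP]
    refine (norm_sum_le _ _).trans (Finset.sum_le_sum fun ρ hρ => ?_)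
    rw [norm_div]
    exact div_le_self (norm_nonneg _) (hnrm ρ hρ v)
  have hshift := t_shift (k1 := k1) (k := fun w => h (s0 + w)) (a := a) (b := b) (V := V) (η := η)
    (B := B0 + ∑ ρ ∈ Z, ‖(m ρ : ℂ)‖) hη (by linarith) hV0 (by nlinarith) (by
      have h1 : max (a ^ 2) (b ^ 2) ≤ 4 := by
        refine max_le (by nlinarith) (by nlinarith)
      have h2 : η * (4 + 3 / η) = 4 * η + 3 := by field_simp
      have h3 : η * (4 + 3 / η) ≤ η * V ^ 2 := mul_le_mul_of_nonneg_left hV hη.le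
      nlinarith) (hZc.add hPc) (fun v => (norm_add_le _ _).trans (add_le_add (hZb v) (hPb v)))
    (by
      intro w hw
      obtain ⟨⟨hw1, hw2⟩, hw3, hw4⟩ := Complex.mem_reProdIm.1 hw
      have h1 : DifferentiableAt ℂ h (s0 + w) := by
        refine hd _ (Complex.mem_reProdIm.2 ⟨⟨?_, ?_⟩, ?_, ?_⟩)
        · rw [Complex.add_re]; linarith
        · rw [Complex.add_re]; linarith
        · rw [Complex.add_im]
          have := neg_abs_le s0.im
          linarith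
        · rw [Complex.add_im]
          have := le_abs_self s0.im
          linarith
      exact h1.comp w ((differentiableAt_const _).add differentiableAt_id)) (by
      intro v hv
      rw [he _ (by rw [hre]; norm_num) (by rw [hre]) (by
        rw [him]
        refine (abs_add_le _ _).trans ?_
        have : |v| ≤ V := abs_le.2 ⟨hv.1, hv.2⟩
        linarith)])
  -- the difference
  have key : ∀ Y : ℝ, 1 ≤ Y → ‖2 * Real.pi * (JJ d L s0 (η * Y) Y + SZ Z m η s0 Y) -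
      ∫ v : ℝ, k1 v * EE (η * Y) Y a v‖ ≤ (∑ ρ ∈ Z, ‖(m ρ : ℂ)‖) * (2 * Real.pi * Real.exp (-(1 / 2 * Y))) := by
    intro Y hY
    have hY0 : 0 < Y := by linarith
    obtain ⟨-, -, hi, hv⟩ := hsum Y hY0
    have hpol : ∀ ρ ∈ Z, _ := fun ρ hρ => t_polar (κ := η * Y) (a := a) (by positivity) (z := ρ - s0)
      (by rw [Complex.sub_re]; linarith [(hZ ρ hρ).1]) (by rw [Complex.sub_re]; linarith [(hZ ρ hρ).2]) Y
    have e1 : ∀ v : ℝ, k1 v * EE (η * Y) Y a v = ZZ d L (s0 + ((a : ℂ) + v * I)) * EE (η * Y) Y a v +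
        ∑ ρ ∈ Z, (m ρ : ℂ) * (EE (η * Y) Y a v / ((a : ℂ) + v * I - (ρ - s0))) := by
      intro v
      rw [hk1, hP]
      simp only
      rw [add_mul, Finset.sum_mul]
      congr 1
      refine Finset.sum_congr rfl fun ρ _ => ?_
      rw [show s0 + ((a : ℂ) + v * I) - ρ = (a : ℂ) + v * I - (ρ - s0) by ring]
      ring
    have hi2 : ∀ ρ ∈ Z, Integrable fun v : ℝ => (m ρ : ℂ) * (EE (η * Y) Y a v / ((a : ℂ) + v * I - (ρ - s0))) :=
      fun ρ hρ => (hpol ρ hρ).1.const_mul _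
    rw [integral_congr_ae (Eventually.of_forall e1), integral_add hi (integrable_finsetSum _ hi2), hv,
      integral_finsetSum _ hi2]
    have e2 : 2 * (Real.pi : ℂ) * (JJ d L s0 (η * Y) Y + SZ Z m η s0 Y) - (2 * Real.pi * JJ d L s0 (η * Y) Y +
        ∑ ρ ∈ Z, ∫ v : ℝ, (m ρ : ℂ) * (EE (η * Y) Y a v / ((a : ℂ) + v * I - (ρ - s0)))) =
        ∑ ρ ∈ Z, (m ρ : ℂ) * (2 * Real.pi * cexp (((η * Y : ℝ) : ℂ) * (ρ - s0) ^ 2 + (ρ - s0) * Y) -
          ∫ v : ℝ, EE (η * Y) Y a v / ((a : ℂ) + v * I - (ρ - s0))) := by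
      unfold SZ ex
      simp_rw [integral_const_mul, mul_sub]
      rw [Finset.sum_sub_distrib, mul_add, Finset.mul_sum]
      have e3 : ∑ ρ ∈ Z, 2 * (Real.pi : ℂ) * ((m ρ : ℂ) * cexp (Y * (η * (ρ - s0) ^ 2 + (ρ - s0)))) =
          ∑ ρ ∈ Z, (m ρ : ℂ) * (2 * Real.pi * cexp (((η * Y : ℝ) : ℂ) * (ρ - s0) ^ 2 + (ρ - s0) * Y)) := by
        refine Finset.sum_congr rfl fun ρ _ => ?_
        have e4 : (Y : ℂ) * (η * (ρ - s0) ^ 2 + (ρ - s0)) = ((η * Y : ℝ) : ℂ) * (ρ - s0) ^ 2 + (ρ - s0) * Y := by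
          push_cast
          ring
        rw [e4]
        ring
      rw [e3]
      ring
    rw [e2, Finset.sum_mul]
    refine (norm_sum_le _ _).trans (Finset.sum_le_sum fun ρ hρ => ?_)
    rw [norm_mul, norm_sub_rev]
    refine mul_le_mul_of_nonneg_left ((hpol ρ hρ).2.trans ?_) (norm_nonneg _)
    refine mul_le_mul_of_nonneg_left (Real.exp_le_exp.2 ?_) (by positivity)
    nlinarith
  have h0 : Tendsto (fun Y : ℝ => (∑ ρ ∈ Z, ‖(m ρ : ℂ)‖) * (2 * Real.pi * Real.exp (-(1 / 2 * Y)))) atTop (𝓝 0) := by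
    have h1 : Tendsto (fun Y : ℝ => Real.exp (-(1 / 2 * Y))) atTop (𝓝 0) :=
      Real.tendsto_exp_neg_atTop_nhds_zero.comp (tendsto_id.const_mul_atTop (by norm_num))
    simpa using (h1.const_mul (2 * Real.pi)).const_mul (∑ ρ ∈ Z, ‖(m ρ : ℂ)‖)
  have h2 : Tendsto (fun Y : ℝ => 2 * Real.pi * (JJ d L s0 (η * Y) Y + SZ Z m η s0 Y) -
      ∫ v : ℝ, k1 v * EE (η * Y) Y a v) atTop (𝓝 0) :=
    squeeze_zero_norm' (by filter_upwards [eventually_ge_atTop 1] with Y hY using key Y hY) h0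
  have h3 := (h2.add hshift).const_mul ((2 * (Real.pi : ℂ))⁻¹)
  rw [add_zero, mul_zero] at h3
  refine h3.congr fun Y => ?_
  have hpi : (2 * (Real.pi : ℂ)) ≠ 0 := by
    simp [Real.pi_ne_zero]
  rw [sub_add_cancel, inv_mul_cancel_left₀ hpi]

end Pool.Agent.TH949.TX
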