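import Mathlib
import Pool.Agent.TH949.TX.Expl

/-! Positivity: the negative coefficients near `Y`. -/

set_option autoImplicit false

open Complex MeasureTheory Set Filter Topology

namespace Pool.Agent.TH949.TX

variable {ι : Type*} {d L : ι → ℝ}

theorem gk_nonneg (κ u : ℝ) : 0 ≤ gk κ u := by
  unfold gk
  positivity

theorem gk_le {κ : ℝ} (hκ : 0 < κ) (u : ℝ) :
    gk κ u ≤ (Real.sqrt (4 * Real.pi * κ))⁻¹ * Real.exp (-(2 * u) + 4 * κ) := by
  unfold gk
  refine mul_le_mul_of_nonneg_left (Real.exp_le_exp.2 ?_) (by positivity)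
  have h1 : 0 ≤ (u - 4 * κ) ^ 2 / (4 * κ) := by positivity
  have h2 : (u - 4 * κ) ^ 2 / (4 * κ) = u ^ 2 / (4 * κ) - 2 * u + 4 * κ := by
    field_simp
    ring
  linarith

theorem summ_g (hL : ∀ i, 0 ≤ L i) (h2 : Summable fun i => |d i * L i| * Real.exp (-(2 * L i)))
    {σ κ : ℝ} (hσ : 0 ≤ σ) (hκ : 0 < κ) (Y : ℝ) :
    Summable fun i => |d i * L i| * Real.exp (-(σ * L i)) * gk κ (L i - Y) := by
  refine Summable.of_nonneg_of_le (fun i => mul_nonneg (by positivity) (gk_nonneg _ _)) (fun i => ?_)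
    (h2.mul_left ((Real.sqrt (4 * Real.pi * κ))⁻¹ * Real.exp (2 * Y + 4 * κ)))
  have h3 := gk_le hκ (L i - Y)
  have h4 : Real.exp (-(σ * L i)) ≤ 1 := Real.exp_le_one_iff.2 (by have := hL i; nlinarith)
  have h5 : Real.exp (-(2 * (L i - Y)) + 4 * κ) = Real.exp (2 * Y + 4 * κ) * Real.exp (-(2 * L i)) := by
    rw [← Real.exp_add]
    congr 1
    ring
  rw [h5] at h3
  have h6 : 0 ≤ |d i * L i| := abs_nonneg _
  calc |d i * L i| * Real.exp (-(σ * L i)) * gk κ (L i - Y) ≤ |d i * L i| * 1 * gk κ (L i - Y) := by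
        refine mul_le_mul_of_nonneg_right (mul_le_mul_of_nonneg_left h4 h6) (gk_nonneg _ _)
    _ ≤ |d i * L i| * 1 * ((Real.sqrt (4 * Real.pi * κ))⁻¹ * (Real.exp (2 * Y + 4 * κ) * Real.exp (-(2 * L i)))) := by
        refine mul_le_mul_of_nonneg_left h3 (by positivity)
    _ = _ := by ring

theorem norm_tJ (s : ℂ) (κ Y : ℝ) (i : ι) :
    ‖((d i * L i : ℝ) : ℂ) * Complex.exp (-(s * L i)) * (gk κ (L i - Y) : ℂ)‖ =
      |d i * L i| * Real.exp (-(s.re * L i)) * gk κ (L i - Y) := by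
  rw [norm_mul, norm_mul, Complex.norm_exp, Complex.norm_real, Complex.norm_real, Real.norm_eq_abs,
    Real.norm_of_nonneg (gk_nonneg _ _)]
  simp

theorem norm_JJ_le (hL : ∀ i, 0 ≤ L i) (h2 : Summable fun i => |d i * L i| * Real.exp (-(2 * L i)))
    {s : ℂ} (hs : 0 ≤ s.re) {κ : ℝ} (hκ : 0 < κ) (Y : ℝ) :
    ‖JJ d L s κ Y‖ ≤ ∑' i, |d i * L i| * Real.exp (-(s.re * L i)) * gk κ (L i - Y) := by
  unfold JJ
  refine tsum_of_norm_bounded (summ_g hL h2 hs hκ Y).hasSum fun i => ?_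
  rw [norm_tJ]

theorem re_JJ (hL : ∀ i, 0 ≤ L i) (h2 : Summable fun i => |d i * L i| * Real.exp (-(2 * L i)))
    {σ : ℝ} (hs : 0 ≤ σ) {κ : ℝ} (hκ : 0 < κ) (Y : ℝ) :
    (JJ d L (σ : ℂ) κ Y).re = ∑' i, d i * L i * Real.exp (-(σ * L i)) * gk κ (L i - Y) := by
  have h3 : Summable fun i => ((d i * L i : ℝ) : ℂ) * Complex.exp (-((σ : ℂ) * L i)) * (gk κ (L i - Y) : ℂ) := by
    refine Summable.of_norm ?_
    simp_rw [norm_tJ]
    exact summ_g hL h2 hs hκ Y
  unfold JJ
  rw [Complex.re_tsum h3]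
  refine tsum_congr fun i => ?_
  rw [← Complex.ofReal_mul, ← Complex.ofReal_neg, ← Complex.ofReal_exp, ← Complex.ofReal_mul, ← Complex.ofReal_mul,
    Complex.ofReal_re]

/-- the negative part -/
theorem neg_part (hL : ∀ i, 0 ≤ L i) (h2 : Summable fun i => |d i * L i| * Real.exp (-(2 * L i)))
    {s : ℂ} (hs : 0 ≤ s.re) {κ : ℝ} (hκ : 0 < κ) (Y : ℝ) :
    ‖JJ d L s κ Y‖ - (JJ d L (s.re : ℂ) κ Y).re ≤
      2 * ∑' i, max 0 (-(d i)) * L i * Real.exp (-(s.re * L i)) * gk κ (L i - Y) := by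
  have h3 := norm_JJ_le hL h2 hs hκ Y
  rw [re_JJ hL h2 hs hκ Y]
  have h4 := summ_g hL h2 hs hκ Y
  have h5 : Summable fun i => d i * L i * Real.exp (-(s.re * L i)) * gk κ (L i - Y) := by
    refine Summable.of_norm_bounded h4 fun i => ?_
    rw [norm_mul, norm_mul, Real.norm_eq_abs, Real.norm_of_nonneg (Real.exp_pos _).le,
      Real.norm_of_nonneg (gk_nonneg _ _)]
  have h6 : ∑' i, max 0 (-(d i)) * L i * Real.exp (-(s.re * L i)) * gk κ (L i - Y) =
      (∑' i, (|d i * L i| * Real.exp (-(s.re * L i)) * gk κ (L i - Y) -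
        d i * L i * Real.exp (-(s.re * L i)) * gk κ (L i - Y))) / 2 := by
    rw [← tsum_div_const]
    refine tsum_congr fun i => ?_
    have h7 : |d i * L i| = |d i| * L i := by rw [abs_mul, abs_of_nonneg (hL i)]
    rw [h7]
    rcases le_or_gt 0 (d i) with h | h
    · rw [abs_of_nonneg h, max_eq_left (by linarith)]
      ring
    · rw [abs_of_neg h, max_eq_right (by linarith)]
      ring
  rw [h6, h4.tsum_sub h5]
  linarith

/-- the contribution of the terms outside the window -/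
theorem far {lam η Y σ x : ℝ} (hlam : 0 < lam) (hlam1 : lam ≤ 1) (hη : η = lam ^ 2 / 100) (hY : 0 < Y)
    (hσ : 0 ≤ σ) (hx : 0 ≤ x) (hf : lam * Y < |x - Y|) :
    Real.exp (-(σ * x)) * gk (η * Y) (x - Y) ≤
      (Real.sqrt (4 * Real.pi * (η * Y)))⁻¹ * (Real.exp (-(2 * x)) * Real.exp (-Y)) := by
  have hη0 : 0 < η := by rw [hη]; positivity
  have h1 : Real.exp (-(σ * x)) ≤ 1 := Real.exp_le_one_iff.2 (by nlinarith)
  have h2 : 2 * x + Y ≤ (x - Y) ^ 2 / (4 * (η * Y)) := by
    rw [le_div_iff₀ (by positivity), hη]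
    set u := x - Y with hu
    have e1 : x = u + Y := by rw [hu]; ring
    rw [e1]
    have h3 : lam * Y ≤ |u| := hf.le
    have h4 : (lam * Y) ^ 2 ≤ u ^ 2 := by
      rw [← sq_abs u]
      have : 0 ≤ lam * Y := by positivity
      nlinarith
    have h5 : lam ^ 2 * Y * u ≤ u ^ 2 := by
      have h6 : lam ^ 2 * Y * u ≤ lam * (lam * Y) * |u| := by
        have : u ≤ |u| := le_abs_self u
        have h7 : 0 ≤ lam ^ 2 * Y := by positivity
        calc lam ^ 2 * Y * u ≤ lam ^ 2 * Y * |u| := mul_le_mul_of_nonneg_left this h7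
          _ = _ := by ring
      have h8 : lam * (lam * Y) * |u| ≤ 1 * |u| * |u| := by
        refine mul_le_mul_of_nonneg_right ?_ (abs_nonneg u)
        exact mul_le_mul hlam1 h3 (by positivity) zero_le_one
      have h9 : 1 * |u| * |u| = u ^ 2 := by rw [one_mul, ← sq, sq_abs]
      linarith
    nlinarith
  unfold gk
  have h3 : Real.exp (-((x - Y) ^ 2 / (4 * (η * Y)))) ≤ Real.exp (-(2 * x)) * Real.exp (-Y) := by
    rw [← Real.exp_add]
    exact Real.exp_le_exp.2 (by linarith)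
  have h4 : 0 ≤ (Real.sqrt (4 * Real.pi * (η * Y)))⁻¹ := by positivity
  calc _ ≤ 1 * ((Real.sqrt (4 * Real.pi * (η * Y)))⁻¹ * (Real.exp (-(2 * x)) * Real.exp (-Y))) := by
        refine mul_le_mul h1 (mul_le_mul_of_nonneg_left h3 h4) ?_ zero_le_one
        positivity
    _ = _ := one_mul _

/-- the weight of the coefficients which are negative, in the window -/
noncomputable def WN (d L : ι → ℝ) (lam c Y : ℝ) : ℝ :=
  ∑' i, (open Classical in if |L i - Y| ≤ lam * Y then max 0 (-(d i)) * L i * Real.exp (-(c * L i)) else 0)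

theorem summ_WN (hL : ∀ i, 0 ≤ L i) (h2 : Summable fun i => |d i * L i| * Real.exp (-(2 * L i)))
    {lam c Y : ℝ} (hlam : lam ≤ 1) (hY : 0 < Y) (hc : c ≤ 2) :
    Summable fun i => (open Classical in if |L i - Y| ≤ lam * Y then max 0 (-(d i)) * L i * Real.exp (-(c * L i))
      else 0) := by
  classical
  refine Summable.of_nonneg_of_le (fun i => ?_) (fun i => ?_) (h2.mul_left (Real.exp ((2 - c) * (2 * Y))))
  · split_ifs
    · have := hL i
      positivity
    · exact le_rfl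
  · split_ifs with h
    · have h3 : L i ≤ 2 * Y := by
        have := (abs_le.1 h).2
        nlinarith
      have h4 : max 0 (-(d i)) * L i ≤ |d i * L i| := by
        rw [abs_mul, abs_of_nonneg (hL i)]
        refine mul_le_mul_of_nonneg_right (max_le (abs_nonneg _) (neg_le_abs _)) (hL i)
      have h5 : Real.exp (-(c * L i)) ≤ Real.exp ((2 - c) * (2 * Y)) * Real.exp (-(2 * L i)) := by
        rw [← Real.exp_add]
        refine Real.exp_le_exp.2 ?_
        nlinarith
      calc _ ≤ |d i * L i| * (Real.exp ((2 - c) * (2 * Y)) * Real.exp (-(2 * L i))) :=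
            mul_le_mul h4 h5 (Real.exp_pos _).le (abs_nonneg _)
        _ = _ := by ring
    · positivity

theorem neg_le_WN (hL : ∀ i, 0 ≤ L i) (h2 : Summable fun i => |d i * L i| * Real.exp (-(2 * L i)))
    {lam η σ c Y : ℝ} (hlam : 0 < lam) (hlam1 : lam ≤ 1) (hη : η = lam ^ 2 / 100)
    (hσ : 0 ≤ σ) (hc : c ≤ σ) (hc2 : c ≤ 2) (hY : 0 < Y) (hY1 : 1 ≤ 4 * Real.pi * (η * Y)) :
    ∑' i, max 0 (-(d i)) * L i * Real.exp (-(σ * L i)) * gk (η * Y) (L i - Y) ≤
      WN d L lam c Y + (∑' i, |d i * L i| * Real.exp (-(2 * L i))) * Real.exp (-Y) := by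
  classical
  have hκ : 0 < η * Y := by
    have : 0 < η := by rw [hη]; positivity
    positivity
  have hs1 : 1 ≤ Real.sqrt (4 * Real.pi * (η * Y)) := by
    rw [Real.one_le_sqrt]
    exact hY1
  have hinv : (Real.sqrt (4 * Real.pi * (η * Y)))⁻¹ ≤ 1 := inv_le_one_of_one_le₀ hs1
  have h3 := summ_WN hL h2 hlam1 hY hc2
  have h4 : Summable fun i => |d i * L i| * Real.exp (-(2 * L i)) * Real.exp (-Y) := h2.mul_right _
  unfold WN
  rw [← tsum_mul_right, ← h3.tsum_add h4]
  refine Summable.tsum_le_tsum (fun i => ?_) ?_ (h3.add h4)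
  · have hLi := hL i
    have h5 : max 0 (-(d i)) * L i ≤ |d i * L i| := by
      rw [abs_mul, abs_of_nonneg (hL i)]
      refine mul_le_mul_of_nonneg_right (max_le (abs_nonneg _) (neg_le_abs _)) (hL i)
    have h6 : 0 ≤ max 0 (-(d i)) * L i := mul_nonneg (le_max_left _ _) hLi
    split_ifs with h
    · have h7 : gk (η * Y) (L i - Y) ≤ 1 := by
        unfold gk
        refine mul_le_one₀ hinv (Real.exp_pos _).le (Real.exp_le_one_iff.2 ?_)
        have : 0 ≤ (L i - Y) ^ 2 / (4 * (η * Y)) := by positivity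
        linarith
      have h8 : Real.exp (-(σ * L i)) ≤ Real.exp (-(c * L i)) := Real.exp_le_exp.2 (by nlinarith)
      have h9 : max 0 (-(d i)) * L i * Real.exp (-(σ * L i)) * gk (η * Y) (L i - Y) ≤
          max 0 (-(d i)) * L i * Real.exp (-(c * L i)) * 1 :=
        mul_le_mul (mul_le_mul_of_nonneg_left h8 h6) h7 (gk_nonneg _ _) (by positivity)
      have h10 : 0 ≤ |d i * L i| * Real.exp (-(2 * L i)) * Real.exp (-Y) := by positivity
      linarith
    · push Not at h
      have h7 := far hlam hlam1 hη hY hσ hLi h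
      rw [zero_add]
      calc max 0 (-(d i)) * L i * Real.exp (-(σ * L i)) * gk (η * Y) (L i - Y) =
          max 0 (-(d i)) * L i * (Real.exp (-(σ * L i)) * gk (η * Y) (L i - Y)) := by ring
        _ ≤ |d i * L i| * (1 * (Real.exp (-(2 * L i)) * Real.exp (-Y))) := by
            refine mul_le_mul h5 (h7.trans ?_) (mul_nonneg (Real.exp_pos _).le (gk_nonneg _ _)) (abs_nonneg _)
            exact mul_le_mul_of_nonneg_right hinv (by positivity)
        _ = _ := by ring
  · refine Summable.of_nonneg_of_le (fun i => ?_) (fun i => ?_) (summ_g hL h2 hσ hκ Y)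
    · have := hL i
      exact mul_nonneg (by positivity) (gk_nonneg _ _)
    · refine mul_le_mul_of_nonneg_right (mul_le_mul_of_nonneg_right ?_ (Real.exp_pos _).le) (gk_nonneg _ _)
      rw [abs_mul, abs_of_nonneg (hL i)]
      exact mul_le_mul_of_nonneg_right (max_le (abs_nonneg _) (neg_le_abs _)) (hL i)

end Pool.Agent.TH949.TX
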