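import Mathlib
import Pool.Agent.TH949.TX.Pos

/-! From weights to numbers. -/

set_option autoImplicit false

open Filter Topology

namespace Pool.Agent.TH949.TX

theorem pow_log {c c' : ℝ} (h : c < c') (K : ℝ) : ∀ᶠ X : ℝ in atTop, K * Real.log X * X ^ c ≤ X ^ c' := by
  have h1 := (isLittleO_log_rpow_atTop (show 0 < c' - c by linarith)).tendsto_div_nhds_zero
  have h2 : Tendsto (fun X : ℝ => K * (Real.log X / X ^ (c' - c))) atTop (𝓝 0) := by
    simpa using h1.const_mul K
  filter_upwards [h2.eventually (gt_mem_nhds one_pos), eventually_gt_atTop 0] with X h3 h4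
  have h5 : 0 < X ^ (c' - c) := by positivity
  have h6 : K * Real.log X < X ^ (c' - c) := by
    rw [← mul_div_assoc, div_lt_one h5] at h3
    exact h3
  have h7 : X ^ c' = X ^ (c' - c) * X ^ c := by
    rw [← Real.rpow_add h4]
    congr 1
    ring
  rw [h7]
  exact mul_le_mul_of_nonneg_right h6.le (by positivity)

theorem sum_abs {ι : Type*} {d w L : ι → ℝ} (hL : ∀ i, 0 ≤ L i) (hw0 : ∀ i, 0 ≤ w i) (hw : ∀ i, -(d i) ≤ w i)
    (hfin : ∀ b : ℝ, {i | L i ≤ b}.Finite) {c c' : ℝ} (hc' : 0 < c') (hcc : c < c')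
    (h : ∀ lam : ℝ, 0 < lam → lam ≤ 1 → ∀ᶠ Y : ℝ in atTop, 1 / 16 ≤ WN d L lam c' Y) {lam0 : ℝ} (hlam0 : 0 < lam0) :
    ∀ᶠ X : ℝ in atTop, X ^ c ≤ ∑' i, (open Classical in
      if (1 - lam0) * Real.log X ≤ L i ∧ L i ≤ Real.log X then w i else 0) := by
  classical
  -- the width
  obtain ⟨lam, hlam, hlam1, hlam2, hlam3⟩ : ∃ lam : ℝ, 0 < lam ∧ lam ≤ 1 ∧ 2 * lam ≤ lam0 ∧
      c < c' * ((1 - lam) / (1 + lam)) := by
    have h1 : Tendsto (fun lam : ℝ => c' * ((1 - lam) / (1 + lam))) (𝓝[>] 0) (𝓝 (c' * ((1 - 0) / (1 + 0)))) := by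
      refine Tendsto.mono_left ?_ nhdsWithin_le_nhds
      have h2 : ContinuousAt (fun lam : ℝ => c' * ((1 - lam) / (1 + lam))) 0 := by
        refine ContinuousAt.mul continuousAt_const (ContinuousAt.div (by fun_prop) (by fun_prop) (by norm_num))
      exact h2
    have h3 := h1.eventually (lt_mem_nhds (show c < c' * ((1 - 0) / (1 + 0)) by simpa using hcc))
    obtain ⟨lam, h4, h5, h6⟩ := (h3.and ((Ioo_mem_nhdsGT (show (0 : ℝ) < min 1 (lam0 / 2) by positivity)))).exists
    refine ⟨lam, h5, (h6.trans_le (min_le_left _ _)).le, ?_, h4⟩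
    have := h6.trans_le (min_le_right _ _)
    linarith
  set c'' : ℝ := c' * ((1 - lam) / (1 + lam)) with hc''
  have hY : Tendsto (fun X : ℝ => Real.log X / (1 + lam)) atTop atTop :=
    Real.tendsto_log_atTop.atTop_div_const (by linarith)
  filter_upwards [hY.eventually (h lam hlam hlam1), pow_log hlam3 16, eventually_gt_atTop (Real.exp 1)] with X h1 h2 h3
  have hX0 : 0 < X := (Real.exp_pos 1).trans h3
  have hlog : 1 < Real.log X := by
    rw [Real.lt_log_iff_exp_lt hX0]
    exact h3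
  set Y : ℝ := Real.log X / (1 + lam) with hYd
  have hYX : (1 + lam) * Y = Real.log X := by
    rw [hYd]
    field_simp
  have hY0 : 0 < Y := by rw [hYd]; positivity
  set W : ℝ := ∑' i, (if (1 - lam0) * Real.log X ≤ L i ∧ L i ≤ Real.log X then w i else 0) with hW
  have hs1 : Summable fun i => (if (1 - lam0) * Real.log X ≤ L i ∧ L i ≤ Real.log X then w i else 0) := by
    refine summable_of_hasFiniteSupport ((hfin (Real.log X)).subset fun i hi => ?_)
    by_contra h4
    exact hi (if_neg fun h5 => h4 h5.2)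
  have key : WN d L lam c' Y ≤ W * (Real.log X * X ^ (-c'')) := by
    unfold WN
    rw [hW, ← tsum_mul_right]
    have hnn : 0 ≤ Real.log X * X ^ (-c'') := by positivity
    have hle : ∀ i, (if |L i - Y| ≤ lam * Y then max 0 (-(d i)) * L i * Real.exp (-(c' * L i)) else 0) ≤
        (if (1 - lam0) * Real.log X ≤ L i ∧ L i ≤ Real.log X then w i else 0) * (Real.log X * X ^ (-c'')) := by
      intro i
      by_cases h4 : |L i - Y| ≤ lam * Y
      · have h5 := abs_le.1 h4
        have h6 : L i ≤ Real.log X := by linarith [h5.2]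
        rw [if_pos h4, if_pos ⟨by
          have h7 : (1 - lam0) * Real.log X ≤ (1 - 2 * lam) * Real.log X := by nlinarith
          have h8 : (1 - 2 * lam) * ((1 + lam) * Y) ≤ (1 - lam) * Y := by nlinarith [mul_pos hlam hlam]
          rw [hYX] at h8
          linarith [h5.1], h6⟩]
        have h7 : Real.exp (-(c' * L i)) ≤ X ^ (-c'') := by
          rw [Real.rpow_def_of_pos hX0]
          refine Real.exp_le_exp.2 ?_
          have h8 : c'' * Real.log X = c' * ((1 - lam) * Y) := by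
            rw [hc'', ← hYX]
            field_simp
          have h9 : c' * ((1 - lam) * Y) ≤ c' * L i := mul_le_mul_of_nonneg_left (by linarith [h5.1]) hc'.le
          linarith
        have h8 : max 0 (-(d i)) ≤ w i := max_le (hw0 i) (hw i)
        calc max 0 (-(d i)) * L i * Real.exp (-(c' * L i)) ≤ w i * Real.log X * X ^ (-c'') := by
              have := hL i
              have := hw0 i
              gcongr
          _ = _ := by ring
      · rw [if_neg h4]
        refine mul_nonneg ?_ hnn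
        split_ifs
        · exact hw0 i
        · exact le_rfl
    refine Summable.tsum_le_tsum hle ?_ (hs1.mul_right _)
    refine Summable.of_nonneg_of_le (fun i => ?_) hle (hs1.mul_right _)
    split_ifs
    · have := hL i
      positivity
    · exact le_rfl
  have h4 : 1 / 16 ≤ W * (Real.log X * X ^ (-c'')) := h1.trans key
  have h5 : X ^ c'' ≤ 16 * Real.log X * W := by
    have h6 : X ^ (-c'') * X ^ c'' = 1 := by
      rw [← Real.rpow_add hX0]
      simp
    have h7 : 0 < X ^ c'' := by positivity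
    calc X ^ c'' = 16 * (1 / 16 * X ^ c'') := by ring
      _ ≤ 16 * (W * (Real.log X * X ^ (-c'')) * X ^ c'') := by gcongr
      _ = 16 * Real.log X * W * (X ^ (-c'') * X ^ c'') := by ring
      _ = _ := by rw [h6, mul_one]
  have h8 : 16 * Real.log X * X ^ c ≤ 16 * Real.log X * W := h2.trans h5
  exact le_of_mul_le_mul_left h8 (by positivity)

theorem count_of_sum {ι : Type*} {d w L : ι → ℝ} (hw1 : ∀ i, w i ≤ 1) (hw2 : ∀ i, 0 ≤ d i → w i ≤ 0)
    (hfin : ∀ b : ℝ, {i | L i ≤ b}.Finite) {a b : ℝ} :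
    ∑' i, (open Classical in if a ≤ L i ∧ L i ≤ b then w i else 0) ≤
      (({i | L i ≤ b ∧ d i < 0}.ncard : ℕ) : ℝ) := by
  classical
  set E : Set ι := {i | L i ≤ b ∧ d i < 0} with hE
  have hEf : E.Finite := (hfin b).subset fun i hi => hi.1
  have hs1 : Summable fun i => (if a ≤ L i ∧ L i ≤ b then w i else 0) := by
    refine summable_of_hasFiniteSupport ((hfin b).subset fun i hi => ?_)
    by_contra h4
    exact hi (if_neg fun h5 => h4 h5.2)
  have hs2 : Summable fun i => (if i ∈ E then (1 : ℝ) else 0) := by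
    refine summable_of_hasFiniteSupport (hEf.subset fun i hi => ?_)
    by_contra h4
    exact hi (if_neg h4)
  have h1 : ∑' i, (if a ≤ L i ∧ L i ≤ b then w i else 0) ≤ ∑' i, (if i ∈ E then (1 : ℝ) else 0) := by
    refine Summable.tsum_le_tsum (fun i => ?_) hs1 hs2
    by_cases h4 : a ≤ L i ∧ L i ≤ b
    · rw [if_pos h4]
      by_cases h5 : d i < 0
      · rw [if_pos (show i ∈ E from ⟨h4.2, h5⟩)]
        exact hw1 i
      · rw [if_neg (fun h6 : i ∈ E => h5 h6.2)]
        exact hw2 i (not_lt.1 h5)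
    · rw [if_neg h4]
      split_ifs <;> norm_num
  refine h1.trans (le_of_eq ?_)
  rw [tsum_eq_sum (s := hEf.toFinset) (fun i hi => if_neg (by simpa using hi)), Set.ncard_eq_toFinset_card E hEf]
  have h2 : ∀ i ∈ hEf.toFinset, (if i ∈ E then (1 : ℝ) else 0) = 1 := fun i hi => if_pos (by simpa using hi)
  rw [Finset.sum_congr rfl h2]
  simp

theorem count_primes {P : Type*} {ℓ : P → ℝ} (hℓ : ∀ p, Real.log 2 ≤ ℓ p) (hfin : ∀ b : ℝ, {p | ℓ p ≤ b}.Finite)
    {E : P → Prop} {d : P × ℕ → ℝ} (hd : ∀ x, d x < 0 → E x.1) {c c' : ℝ} (hcc : c < c')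
    (h : ∀ᶠ X : ℝ in atTop, X ^ c' ≤
      (({x : P × ℕ | ((x.2 : ℝ) + 1) * ℓ x.1 ≤ Real.log X ∧ d x < 0}.ncard : ℕ) : ℝ)) :
    ∀ᶠ X : ℝ in atTop, X ^ c ≤ (({p : P | ℓ p ≤ Real.log X ∧ E p}.ncard : ℕ) : ℝ) := by
  classical
  have hlog2 : 0 < Real.log 2 := Real.log_pos (by norm_num)
  filter_upwards [h, pow_log hcc (2 / Real.log 2), eventually_gt_atTop (Real.exp 1)] with X h1 h2 h3
  have hX0 : 0 < X := (Real.exp_pos 1).trans h3
  have hlog : 1 < Real.log X := by
    rw [Real.lt_log_iff_exp_lt hX0]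
    exact h3
  set A : Set P := {p : P | ℓ p ≤ Real.log X ∧ E p} with hA
  have hAf : A.Finite := (hfin (Real.log X)).subset fun p hp => hp.1
  set M : ℕ := ⌊Real.log X / Real.log 2⌋₊ with hM
  have hMle : (M : ℝ) ≤ Real.log X / Real.log 2 := Nat.floor_le (by positivity)
  have hsub : {x : P × ℕ | ((x.2 : ℝ) + 1) * ℓ x.1 ≤ Real.log X ∧ d x < 0} ⊆
      A ×ˢ (Finset.range M : Set ℕ) := by
    rintro x ⟨hx1, hx2⟩
    have hx0 : (0 : ℝ) ≤ x.2 := Nat.cast_nonneg _
    have hl := hℓ x.1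
    refine Set.mem_prod.2 ⟨⟨?_, hd x hx2⟩, ?_⟩
    · nlinarith
    · rw [Finset.coe_range, Set.mem_Iio, ← Nat.succ_le_iff, hM]
      refine Nat.le_floor ?_
      rw [le_div_iff₀ hlog2]
      push_cast
      nlinarith
  have h4 : {x : P × ℕ | ((x.2 : ℝ) + 1) * ℓ x.1 ≤ Real.log X ∧ d x < 0}.ncard ≤ A.ncard * M := by
    refine (Set.ncard_le_ncard hsub (hAf.prod (Finset.finite_toSet _))).trans ?_
    rw [Set.ncard_prod, Set.ncard_coe_finset, Finset.card_range]
  have h5 : ((({x : P × ℕ | ((x.2 : ℝ) + 1) * ℓ x.1 ≤ Real.log X ∧ d x < 0}.ncard : ℕ) : ℝ)) ≤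
      (A.ncard : ℝ) * (Real.log X / Real.log 2) := by
    refine (Nat.cast_le.2 h4).trans ?_
    push_cast
    gcongr
  have h6 : 2 / Real.log 2 * Real.log X * X ^ c ≤ (A.ncard : ℝ) * (Real.log X / Real.log 2) :=
    h2.trans (h1.trans h5)
  have h7 : 0 < Real.log X / Real.log 2 := by positivity
  have h8 : 0 ≤ X ^ c := by positivity
  have h9 : X ^ c * (Real.log X / Real.log 2) ≤ (A.ncard : ℝ) * (Real.log X / Real.log 2) := by
    refine le_trans ?_ h6
    have : 2 / Real.log 2 * Real.log X * X ^ c = 2 * (X ^ c * (Real.log X / Real.log 2)) := by ring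
    rw [this]
    have := mul_nonneg h8 h7.le
    linarith
  exact le_of_mul_le_mul_right h9 h7

end Pool.Agent.TH949.TX
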