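import Mathlib
import Pool.Agent.TH949.TX.Count

/-! From weights to numbers: the prime powers do not matter for exponents at least `1/2`. -/

set_option autoImplicit false

open Filter Topology

namespace Pool.Agent.TH949.TX

theorem sum_first {P : Type*} {ℓ : P → ℝ} (hℓ : ∀ p, Real.log 2 ≤ ℓ p) {K : ℝ} (hK : 0 ≤ K)
    (hfin : ∀ b : ℝ, {p | ℓ p ≤ b}.Finite) (hcnt : ∀ b : ℝ, (({p | ℓ p ≤ b}.ncard : ℕ) : ℝ) ≤ K * Real.exp b)
    {w : P × ℕ → ℝ} (hw0 : ∀ x, 0 ≤ w x) (hw1 : ∀ x, w x ≤ 1) {lam c c' : ℝ} (hc : 1 / 2 ≤ c) (hcc : c < c')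
    (h : ∀ᶠ X : ℝ in atTop, X ^ c' ≤ ∑' x : P × ℕ, (open Classical in
      if (1 - lam) * Real.log X ≤ ((x.2 : ℝ) + 1) * ℓ x.1 ∧ ((x.2 : ℝ) + 1) * ℓ x.1 ≤ Real.log X then w x else 0)) :
    ∀ᶠ X : ℝ in atTop, X ^ c ≤ ∑' p : P, (open Classical in
      if (1 - lam) * Real.log X ≤ ℓ p ∧ ℓ p ≤ Real.log X then w (p, 0) else 0) := by
  classical
  have hlog2 : 0 < Real.log 2 := Real.log_pos (by norm_num)
  filter_upwards [h, pow_log hcc (1 + K / Real.log 2), eventually_gt_atTop (Real.exp 1)] with X h1 h2 h3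
  have hX0 : 0 < X := (Real.exp_pos 1).trans h3
  have hX1 : 1 < X := by
    have : (1 : ℝ) < Real.exp 1 := Real.one_lt_exp_iff.2 one_pos
    linarith
  have hlog : 1 < Real.log X := by
    rw [Real.lt_log_iff_exp_lt hX0]
    exact h3
  set f : P × ℕ → ℝ := fun x =>
    if (1 - lam) * Real.log X ≤ ((x.2 : ℝ) + 1) * ℓ x.1 ∧ ((x.2 : ℝ) + 1) * ℓ x.1 ≤ Real.log X then w x else 0 with hf
  set M : ℕ := ⌊Real.log X / Real.log 2⌋₊ with hM
  have hMle : (M : ℝ) ≤ Real.log X / Real.log 2 := Nat.floor_le (by positivity)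
  set A : Set P := {p : P | ℓ p ≤ Real.log X / 2} with hA
  have hAf : A.Finite := hfin _
  set B : Set (P × ℕ) := {x : P × ℕ | x.2 ≠ 0 ∧ ((x.2 : ℝ) + 1) * ℓ x.1 ≤ Real.log X} with hB
  have hsub : B ⊆ A ×ˢ (Finset.range M : Set ℕ) := by
    rintro x ⟨hx1, hx2⟩
    have hx0 : (1 : ℝ) ≤ x.2 := by exact_mod_cast Nat.one_le_iff_ne_zero.2 hx1
    have hl := hℓ x.1
    refine Set.mem_prod.2 ⟨?_, ?_⟩
    · show ℓ x.1 ≤ Real.log X / 2
      nlinarith
    · rw [Finset.coe_range, Set.mem_Iio, ← Nat.succ_le_iff, hM]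
      refine Nat.le_floor ?_
      rw [le_div_iff₀ hlog2]
      push_cast
      nlinarith
  have hBf : B.Finite := (hAf.prod (Finset.finite_toSet _)).subset hsub
  have hBc : ((B.ncard : ℕ) : ℝ) ≤ K * X ^ (1 / 2 : ℝ) * (Real.log X / Real.log 2) := by
    have h4 : B.ncard ≤ A.ncard * M := by
      refine (Set.ncard_le_ncard hsub (hAf.prod (Finset.finite_toSet _))).trans ?_
      rw [Set.ncard_prod, Set.ncard_coe_finset, Finset.card_range]
    have h5 : ((B.ncard : ℕ) : ℝ) ≤ (A.ncard : ℝ) * M := by exact_mod_cast h4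
    have h6 := hcnt (Real.log X / 2)
    have e1 : Real.exp (Real.log X / 2) = X ^ (1 / 2 : ℝ) := by
      rw [Real.rpow_def_of_pos hX0]
      congr 1
      ring
    rw [e1] at h6
    calc ((B.ncard : ℕ) : ℝ) ≤ (A.ncard : ℝ) * M := h5
      _ ≤ _ := mul_le_mul h6 hMle (Nat.cast_nonneg _) (by positivity)
  have hs1 : Summable fun p : P => f (p, 0) := by
    refine summable_of_hasFiniteSupport ((hfin (Real.log X)).subset fun p hp => ?_)
    by_contra h4
    refine hp ?_
    rw [hf]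
    exact if_neg fun h5 => h4 (by simpa using h5.2)
  have hs2 : Summable fun x => (if x ∈ B then (1 : ℝ) else 0) := by
    refine summable_of_hasFiniteSupport (hBf.subset fun i hi => ?_)
    by_contra h4
    exact hi (if_neg h4)
  set g : P × ℕ → ℝ := fun x => if x.2 = 0 then f x else 0 with hg
  have hinj : Function.Injective (fun p : P => ((p, 0) : P × ℕ)) := fun a b hab => (Prod.mk.inj hab).1
  have hgr : Function.support g ⊆ Set.range (fun p : P => ((p, 0) : P × ℕ)) := by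
    intro x hx
    have h4 : x.2 = 0 := by
      by_contra h5
      exact hx (if_neg h5)
    exact ⟨x.1, Prod.ext rfl h4.symm⟩
  have hgs : Summable g := by
    refine (hinj.summable_iff (fun x hx => ?_)).1 ?_
    · by_contra h4
      exact hx (hgr h4)
    · refine hs1.congr fun p => ?_
      rw [hg]
      simp
  have hgt : ∑' x, g x = ∑' p : P, f (p, 0) := by
    rw [← hinj.tsum_eq hgr]
    refine tsum_congr fun p => ?_
    rw [hg]
    simp
  have hle : ∀ x, f x ≤ g x + (if x ∈ B then (1 : ℝ) else 0) := by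
    intro x
    by_cases h4 : x.2 = 0
    · have e1 : g x = f x := if_pos h4
      rw [e1]
      have : (0 : ℝ) ≤ if x ∈ B then (1 : ℝ) else 0 := by split_ifs <;> norm_num
      linarith
    · have e1 : g x = 0 := if_neg h4
      rw [e1, zero_add, hf]
      simp only
      by_cases h5 : (1 - lam) * Real.log X ≤ ((x.2 : ℝ) + 1) * ℓ x.1 ∧ ((x.2 : ℝ) + 1) * ℓ x.1 ≤ Real.log X
      · rw [if_pos h5, if_pos (show x ∈ B from ⟨h4, h5.2⟩)]
        exact hw1 x
      · rw [if_neg h5]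
        split_ifs <;> norm_num
  have hf0 : ∀ x, 0 ≤ f x := by
    intro x
    rw [hf]
    simp only
    split_ifs
    · exact hw0 x
    · exact le_rfl
  have h4 : ∑' x, f x ≤ ∑' p : P, f (p, 0) + ((B.ncard : ℕ) : ℝ) := by
    have h5 : ∑' x, f x ≤ ∑' x, (g x + (if x ∈ B then (1 : ℝ) else 0)) :=
      Summable.tsum_le_tsum hle (Summable.of_nonneg_of_le hf0 hle (hgs.add hs2)) (hgs.add hs2)
    rw [hgs.tsum_add hs2, hgt] at h5
    refine h5.trans (le_of_eq ?_)
    congr 1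
    rw [tsum_eq_sum (s := hBf.toFinset) (fun i hi => if_neg (by simpa using hi)), Set.ncard_eq_toFinset_card B hBf]
    have h6 : ∀ i ∈ hBf.toFinset, (if i ∈ B then (1 : ℝ) else 0) = 1 := fun i hi => if_pos (by simpa using hi)
    rw [Finset.sum_congr rfl h6]
    simp
  have h5 : ∑' p : P, f (p, 0) = ∑' p : P,
      (if (1 - lam) * Real.log X ≤ ℓ p ∧ ℓ p ≤ Real.log X then w (p, 0) else 0) := by
    refine tsum_congr fun p => ?_
    rw [hf]
    simp
  rw [← h5]
  have h6 : X ^ (1 / 2 : ℝ) ≤ X ^ c := Real.rpow_le_rpow_of_exponent_le hX1.le hc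
  have h7 : 0 ≤ X ^ (1 / 2 : ℝ) := by positivity
  have h8 : K * X ^ (1 / 2 : ℝ) * (Real.log X / Real.log 2) ≤ K / Real.log 2 * Real.log X * X ^ c := by
    have e1 : K * X ^ (1 / 2 : ℝ) * (Real.log X / Real.log 2) = K / Real.log 2 * Real.log X * X ^ (1 / 2 : ℝ) := by
      ring
    rw [e1]
    exact mul_le_mul_of_nonneg_left h6 (by positivity)
  have h9 : X ^ c ≤ Real.log X * X ^ c := le_mul_of_one_le_left (by positivity) hlog.le
  have h10 : X ^ c' ≤ ∑' x, f x := h1
  have e2 : (1 + K / Real.log 2) * Real.log X * X ^ c = Real.log X * X ^ c + K / Real.log 2 * Real.log X * X ^ c := by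
    ring
  rw [e2] at h2
  linarith

/-- sums over a smaller index set -/
theorem sum_inj {ι κ : Type*} {w : ι → ℝ} (hw0 : ∀ i, 0 ≤ w i) {L : ι → ℝ} (hfin : ∀ b : ℝ, {i | L i ≤ b}.Finite)
    {g : κ → ι} (hg : Function.Injective g) (a b : ℝ) :
    ∑' i, (open Classical in if a ≤ L (g i) ∧ L (g i) ≤ b then w (g i) else 0) ≤
      ∑' i, (open Classical in if a ≤ L i ∧ L i ≤ b then w i else 0) := by
  classical
  have hs1 : Summable fun i => (if a ≤ L i ∧ L i ≤ b then w i else 0) := by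
    refine summable_of_hasFiniteSupport ((hfin b).subset fun i hi => ?_)
    by_contra h4
    exact hi (if_neg fun h5 => h4 h5.2)
  have h0 : ∀ i, 0 ≤ (if a ≤ L i ∧ L i ≤ b then w i else 0) := fun i => by
    split_ifs
    · exact hw0 i
    · exact le_rfl
  exact tsum_comp_le_tsum_of_inj hs1 h0 hg

end Pool.Agent.TH949.TX
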