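import Mathlib
import Pool.Agent.TH949.TX.Expl

/-! The sum over the singularities, at a real and at a complex base point. -/

set_option autoImplicit false

open Complex MeasureTheory Set Filter Topology

namespace Pool.Agent.TH949.TX

theorem ex_re (η : ℝ) (s ρ : ℂ) :
    (ex η s ρ).re = η * ((ρ.re - s.re) ^ 2 - (ρ.im - s.im) ^ 2) + (ρ.re - s.re) := by
  unfold ex
  simp only [Complex.add_re, Complex.mul_re, Complex.sub_re, Complex.ofReal_re, Complex.ofReal_im, pow_two,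
    Complex.mul_im, Complex.sub_im]
  ring

theorem norm_tm (m : ℂ → ℤ) (η : ℝ) (s ρ : ℂ) (Y : ℝ) :
    ‖(m ρ : ℂ) * cexp (Y * ex η s ρ)‖ = |(m ρ : ℝ)| * Real.exp (Y * (ex η s ρ).re) := by
  rw [norm_mul, Complex.norm_exp, Complex.re_ofReal_mul, Complex.norm_intCast]

theorem tend_neg {x : ℝ} (hx : x < 0) : Tendsto (fun Y : ℝ => Real.exp (Y * x)) atTop (𝓝 0) :=
  Real.tendsto_exp_atBot.comp (tendsto_id.atTop_mul_const_of_neg hx)

/-- at a real base point to the right of all complex singularities the sum is essentially nonnegative -/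
theorem SZ_real {Z : Finset ℂ} {m : ℂ → ℤ} {η σ : ℝ}
    (hr : ∀ ρ ∈ Z, ρ.im = 0 → 0 < m ρ)
    (hc : ∀ ρ ∈ Z, ρ.im ≠ 0 → (ex η (σ : ℂ) ρ).re < 0) {ε : ℝ} (hε : 0 < ε) :
    ∀ᶠ Y : ℝ in atTop, -ε ≤ (SZ Z m η (σ : ℂ) Y).re := by
  have h1 : ∀ ρ ∈ Z, Tendsto (fun Y : ℝ => if ρ.im = 0 then (0 : ℝ) else
      |(m ρ : ℝ)| * Real.exp (Y * (ex η (σ : ℂ) ρ).re)) atTop (𝓝 0) := by
    intro ρ hρ
    split_ifs with h
    · exact tendsto_const_nhds
    · simpa using (tend_neg (hc ρ hρ h)).const_mul |(m ρ : ℝ)|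
  have h2 := tendsto_finsetSum Z h1
  rw [Finset.sum_const_zero] at h2
  filter_upwards [h2.eventually (gt_mem_nhds hε)] with Y hY
  unfold SZ
  rw [Complex.re_sum]
  have h3 : -∑ ρ ∈ Z, (if ρ.im = 0 then (0 : ℝ) else |(m ρ : ℝ)| * Real.exp (Y * (ex η (σ : ℂ) ρ).re)) ≤
      ∑ ρ ∈ Z, ((m ρ : ℂ) * cexp (Y * ex η (σ : ℂ) ρ)).re := by
    rw [← Finset.sum_neg_distrib]
    refine Finset.sum_le_sum fun ρ hρ => ?_
    split_ifs with h
    · rw [neg_zero]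
      have e1 : ex η (σ : ℂ) ρ = ((ex η (σ : ℂ) ρ).re : ℂ) := by
        apply Complex.ext
        · simp
        · have e2 : ρ = (ρ.re : ℂ) := Complex.ext (by simp) (by simpa using h)
          rw [e2]
          unfold ex
          simp [pow_two]
      rw [e1, ← Complex.ofReal_mul, ← Complex.ofReal_exp]
      have e3 : ((m ρ : ℂ) * ((Real.exp (Y * (ex η (σ : ℂ) ρ).re) : ℝ) : ℂ)).re =
          (m ρ : ℝ) * Real.exp (Y * (ex η (σ : ℂ) ρ).re) := by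
        rw [show (m ρ : ℂ) = ((m ρ : ℝ) : ℂ) by norm_cast, ← Complex.ofReal_mul, Complex.ofReal_re]
      rw [e3]
      have : (0 : ℝ) < (m ρ : ℝ) := by exact_mod_cast hr ρ hρ h
      positivity
    · rw [neg_le, ← norm_tm]
      exact (neg_le_abs _).trans (Complex.abs_re_le_norm _)
  linarith

/-- at a base point at which one singularity dominates, the sum is large -/
theorem SZ_large {Z : Finset ℂ} {m : ℂ → ℤ} {η : ℝ} {s : ℂ} (hm : ∀ ρ ∈ Z, m ρ ≠ 0)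
    (hinj : ∀ ρ ∈ Z, ∀ ρ' ∈ Z, (ex η s ρ).re = (ex η s ρ').re → ρ = ρ')
    {ρ1 : ℂ} (h1 : ρ1 ∈ Z) (hpos : 0 < (ex η s ρ1).re) :
    ∀ᶠ Y : ℝ in atTop, 1 / 2 ≤ ‖SZ Z m η s Y‖ := by
  classical
  obtain ⟨ρ0, hρ0, hmax⟩ := Z.exists_max_image (fun ρ => (ex η s ρ).re) ⟨ρ1, h1⟩
  have hφ : 0 < (ex η s ρ0).re := hpos.trans_le (hmax ρ1 h1)
  have h2 : ∀ ρ ∈ Z, Tendsto (fun Y : ℝ => (m ρ : ℂ) * cexp (Y * (ex η s ρ - ex η s ρ0))) atTop
      (𝓝 (if ρ = ρ0 then (m ρ0 : ℂ) else 0)) := by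
    intro ρ hρ
    split_ifs with h
    · rw [h]
      simp
    · have hlt : (ex η s ρ).re - (ex η s ρ0).re < 0 := by
        have a1 := hmax ρ hρ
        rcases a1.lt_or_eq with a2 | a2
        · linarith
        · exact absurd (hinj ρ hρ ρ0 hρ0 a2) h
      refine squeeze_zero_norm (fun Y => ?_) (by simpa using (tend_neg hlt).const_mul |(m ρ : ℝ)|)
      rw [norm_mul, Complex.norm_exp, Complex.re_ofReal_mul, Complex.sub_re, Complex.norm_intCast]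
  have h3 := tendsto_finsetSum Z h2
  rw [Finset.sum_ite_eq' Z ρ0 (fun _ => (m ρ0 : ℂ)), if_pos hρ0] at h3
  have h4 := h3.norm
  have h5 : (1 / 2 : ℝ) < ‖(m ρ0 : ℂ)‖ := by
    have h6 : (1 : ℝ) ≤ |(m ρ0 : ℝ)| := by
      rw [← Int.cast_abs]
      exact_mod_cast Int.one_le_abs (hm ρ0 hρ0)
    rw [Complex.norm_intCast]
    linarith
  filter_upwards [h4.eventually (lt_mem_nhds h5), eventually_ge_atTop 0] with Y hY hY0
  have e1 : SZ Z m η s Y = cexp (Y * ex η s ρ0) * ∑ ρ ∈ Z, (m ρ : ℂ) * cexp (Y * (ex η s ρ - ex η s ρ0)) := by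
    unfold SZ
    rw [Finset.mul_sum]
    refine Finset.sum_congr rfl fun ρ _ => ?_
    rw [mul_left_comm, ← Complex.exp_add]
    congr 2
    ring
  rw [e1, norm_mul, Complex.norm_exp, Complex.re_ofReal_mul]
  have h8 : 1 ≤ Real.exp (Y * (ex η s ρ0).re) := Real.one_le_exp (by positivity)
  nlinarith [norm_nonneg (∑ ρ ∈ Z, (m ρ : ℂ) * cexp (Y * (ex η s ρ - ex η s ρ0)))]

end Pool.Agent.TH949.TX
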