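import Mathlib
import Pool.Agent.TH949.TX.Sing
import Pool.Agent.TH949.TX.Pos

/-! Negative coefficients at every scale. -/

set_option autoImplicit false

open Complex MeasureTheory Set Filter Topology
open Pool.Agent.W189.TP (DS)

namespace Pool.Agent.TH949.TX

theorem exists_gap (Z : Finset ℂ) (P : ℂ → Prop) (f : ℂ → ℝ) (h : ∀ ρ ∈ Z, P ρ → 0 < f ρ) :
    ∃ g : ℝ, 0 < g ∧ g ≤ 1 ∧ ∀ ρ ∈ Z, P ρ → g ≤ f ρ := by
  classical
  induction Z using Finset.induction_on with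
  | empty => exact ⟨1, one_pos, le_rfl, fun ρ hρ => absurd hρ (Finset.notMem_empty _)⟩
  | insert x Z hx ih =>
    obtain ⟨g, hg, hg1, hgZ⟩ := ih fun ρ hρ => h ρ (Finset.mem_insert_of_mem hρ)
    by_cases hP : P x
    · refine ⟨min g (f x), lt_min hg (h x (Finset.mem_insert_self _ _) hP), (min_le_left _ _).trans hg1,
        fun ρ hρ hPρ => ?_⟩
      rcases Finset.mem_insert.1 hρ with rfl | h1
      · exact min_le_right _ _
      · exact (min_le_left _ _).trans (hgZ ρ h1 hPρ)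
    · refine ⟨g, hg, hg1, fun ρ hρ hPρ => ?_⟩
      rcases Finset.mem_insert.1 hρ with rfl | h1
      · exact absurd hPρ hP
      · exact hgZ ρ h1 hPρ

/-- at a generic base point the real parts of the exponents are different -/
theorem exists_generic (Z : Finset ℂ) {η σ : ℝ} (hη : 0 < η) (hη1 : η ≤ 1 / 4) (hσ0 : 0 ≤ σ) (hσ1 : σ ≤ 1)
    (hZ : ∀ ρ ∈ Z, 0 ≤ ρ.re ∧ ρ.re ≤ 1) {u r : ℝ} (hr : 0 < r) :
    ∃ t : ℝ, u < t ∧ t < u + r ∧ ∀ ρ ∈ Z, ∀ ρ' ∈ Z, (ex η ((σ : ℂ) + t * I) ρ).re =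
      (ex η ((σ : ℂ) + t * I) ρ').re → ρ = ρ' := by
  classical
  -- the bad heights
  set bad : Finset ℝ := (Z ×ˢ Z).image fun p =>
    (p.1.im + p.2.im) / 2 - ((p.1.re - σ) ^ 2 - (p.2.re - σ) ^ 2 + (p.1.re - p.2.re) / η) /
      (2 * (p.1.im - p.2.im)) with hbad
  have hinf : (Ioo u (u + r) \ (bad : Set ℝ)).Nonempty :=
    ((Set.Ioo_infinite (by linarith)).diff bad.finite_toSet).nonempty
  obtain ⟨t, ⟨ht1, ht2⟩, htb⟩ := hinf
  refine ⟨t, ht1, ht2, fun ρ hρ ρ' hρ' h => ?_⟩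
  rw [ex_re, ex_re] at h
  have e1 : ((σ : ℂ) + t * I).re = σ := by simp
  have e2 : ((σ : ℂ) + t * I).im = t := by simp
  rw [e1, e2] at h
  by_cases him : ρ.im = ρ'.im
  · have h1 : (ρ.re - ρ'.re) * (η * (ρ.re + ρ'.re - 2 * σ) + 1) = 0 := by
      rw [him] at h
      nlinarith
    rcases mul_eq_zero.1 h1 with h2 | h2
    · exact Complex.ext (by linarith) him
    · exfalso
      have h3 := (hZ ρ hρ).1
      have h4 := (hZ ρ' hρ').1
      nlinarith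
  · exfalso
    apply htb
    rw [hbad]
    refine Finset.mem_coe.2 (Finset.mem_image.2 ⟨(ρ, ρ'), Finset.mem_product.2 ⟨hρ, hρ'⟩, ?_⟩)
    simp only
    have h1 : ρ.im - ρ'.im ≠ 0 := sub_ne_zero.2 him
    field_simp
    have h2 : η * ((ρ.re - σ) ^ 2 - (ρ'.re - σ) ^ 2) + (ρ.re - ρ'.re) =
        η * ((ρ.im - t) ^ 2 - (ρ'.im - t) ^ 2) := by linarith
    linear_combination (-1) * h2

/-- **Main theorem.** If `F = exp(∑ d(x) e^{-s L(x)})` is meromorphic, without real poles in `s ≥ 1/2`, and has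
singularities which are not real and have real part `> c`, then the coefficients `d(x)` with `|L(x) - Y| ≤ lam Y`
which are negative have total weight at least `1/16`, for all large `Y`. -/
theorem main_abs {ι : Type*} [Countable ι] {d L : ι → ℝ} (hL : ∀ i, 0 ≤ L i)
    (habs : ∀ t : ℝ, 1 < t → Summable fun i => |d i| * Real.exp (-(t * L i)))
    {F : ℂ → ℂ} (hF : MeromorphicOn F univ) (hE : ∀ s : ℂ, 1 < s.re → F s = cexp (DS d L s))
    (hreal : ∀ x : ℝ, 1 / 2 ≤ x → 0 ≤ meromorphicOrderAt F (x : ℂ))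
    (hex : ∀ δ : ℝ, 0 < δ → ∃ ρ : ℂ, 1 / 2 - δ < ρ.re ∧ ρ.im ≠ 0 ∧ meromorphicOrderAt F ρ ≠ 0)
    {c : ℝ} (hc : c < 1 / 2 ∨ ∃ ρ : ℂ, c < ρ.re ∧ ρ.im ≠ 0 ∧ meromorphicOrderAt F ρ ≠ 0)
    {lam : ℝ} (hlam : 0 < lam) (hlam1 : lam ≤ 1) :
    ∀ᶠ Y : ℝ in atTop, 1 / 16 ≤ WN d L lam c Y := by
  classical
  have h2 := summ_dL hL habs (t := 2) (by norm_num)
  -- the singularities
  set S : Set ℝ := {x | ∃ ρ : ℂ, ρ.re = x ∧ ρ.im ≠ 0 ∧ meromorphicOrderAt F ρ ≠ 0} with hS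
  have hle1 : ∀ ρ : ℂ, meromorphicOrderAt F ρ ≠ 0 → ρ.re ≤ 1 := by
    intro ρ hρ
    obtain ⟨Z, m, h, hZ1, hZ2, -, -⟩ := t_extract hL habs hF hE (c := min ρ.re 0) (H := |ρ.im| + 1)
      (lt_of_le_of_lt (min_le_right _ _) (by norm_num)) (by positivity)
    exact (hZ1 ρ (hZ2 ρ (min_le_left _ _) (by linarith) hρ)).2.1
  have hSb : BddAbove S := by
    refine ⟨1, ?_⟩
    rintro x ⟨ρ, rfl, -, h⟩
    exact hle1 ρ h
  have hSn : S.Nonempty := by
    obtain ⟨ρ, -, h3, h4⟩ := hex 1 one_pos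
    exact ⟨ρ.re, ρ, rfl, h3, h4⟩
  set b : ℝ := sSup S with hb
  have hb1 : b ≤ 1 := csSup_le hSn (by rintro x ⟨ρ, rfl, -, h⟩; exact hle1 ρ h)
  have hb2 : 1 / 2 ≤ b := by
    by_contra hcon
    push Not at hcon
    obtain ⟨ρ, h3, h4, h5⟩ := hex (1 / 2 - b) (by linarith)
    have : ρ.re ≤ b := le_csSup hSb ⟨ρ, rfl, h4, h5⟩
    linarith
  have hcb : c < b := by
    rcases hc with h3 | ⟨ρ, h3, h4, h5⟩
    · linarith
    · exact h3.trans_le (le_csSup hSb ⟨ρ, rfl, h4, h5⟩)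
  -- small singularities
  obtain ⟨Z0, m0, -, hZ01, hZ02, -, -⟩ := t_extract hL habs hF hE (c := 0) (H := 1) (by norm_num) one_pos
  obtain ⟨g0, hg0, hg01, hg0Z⟩ := exists_gap Z0 (fun ρ => ρ.im ≠ 0) (fun ρ => |ρ.im|)
    (fun ρ _ h => abs_pos.2 h)
  have hgap : ∀ ρ : ℂ, 0 ≤ ρ.re → ρ.im ≠ 0 → meromorphicOrderAt F ρ ≠ 0 → g0 ≤ |ρ.im| := by
    intro ρ h3 h4 h5
    by_cases h6 : |ρ.im| ≤ 1
    · exact hg0Z ρ (hZ02 ρ h3 h6 h5) h4
    · push Not at h6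
      linarith
  obtain ⟨r0, hr0, hr01, hr0Z⟩ := exists_gap Z0 (fun ρ => ρ.im = 0 ∧ m0 ρ < 0) (fun ρ => 1 / 2 - ρ.re)
    (by
      rintro ρ hρ ⟨h3, h4⟩
      by_contra hcon
      push Not at hcon
      have h5 := hreal ρ.re (by linarith)
      have e1 : ((ρ.re : ℝ) : ℂ) = ρ := Complex.ext (by simp) (by simp [h3])
      rw [e1, (hZ01 ρ hρ).2.2.2.1] at h5
      have h6 : (0 : ℤ) ≤ m0 ρ := by exact_mod_cast h5
      omega)
  -- the parameters
  set η : ℝ := lam ^ 2 / 100 with hη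
  have hη0 : 0 < η := by rw [hη]; positivity
  have hη1 : η ≤ 1 / 4 := by
    rw [hη]
    nlinarith
  set V : ℝ := 2 + 2 / η with hV
  have hV0 : 0 < V := by rw [hV]; positivity
  have hV2 : 4 + 3 / η ≤ V ^ 2 := by
    rw [hV]
    have e1 : (2 + 2 / η) ^ 2 = 4 + 8 / η + (2 / η) ^ 2 := by ring
    rw [e1]
    have e2 : 3 / η ≤ 8 / η := by gcongr; norm_num
    have e3 : 0 ≤ (2 / η) ^ 2 := by positivity
    linarith
  set q0 : ℝ := max c (max (1 / 2 - r0) 0) with hq0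
  have hq0b : q0 < b := max_lt hcb (max_lt (by linarith) (by linarith))
  set e : ℝ := min (η * g0 ^ 2 / 4) ((b - q0) / 2) with he
  have he0 : 0 < e := lt_min (by positivity) (by linarith)
  have he1 : e ≤ η * g0 ^ 2 / 4 := min_le_left _ _
  have he2 : e ≤ (b - q0) / 2 := min_le_right _ _
  set σ : ℝ := b - e with hσ
  have hσq : q0 < σ := by rw [hσ]; linarith
  have hσc : c < σ := (le_max_left _ _).trans_lt hσq
  have hσr : 1 / 2 - r0 < σ := ((le_max_left _ _).trans (le_max_right _ _)).trans_lt hσq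
  have hσ0 : 0 < σ := ((le_max_right _ _).trans (le_max_right _ _)).trans_lt hσq
  have hσ1 : σ < 1 := by rw [hσ]; linarith
  set c' : ℝ := (max (1 / 2 - r0) 0 + σ) / 2 with hc'
  have hmσ : max (1 / 2 - r0) 0 < σ := (le_max_right _ _).trans_lt hσq
  have hc'σ : c' < σ := by rw [hc']; linarith
  have hc'0 : 0 < c' := by
    rw [hc']
    have : (0 : ℝ) ≤ max (1 / 2 - r0) 0 := le_max_right _ _
    linarith
  have hc'r : 1 / 2 - r0 < c' := by
    rw [hc']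
    have : 1 / 2 - r0 ≤ max (1 / 2 - r0) 0 := le_max_left _ _
    linarith
  -- a singularity to the right of `σ`
  obtain ⟨x1, ⟨ρ1, rfl, hρ1i, hρ1o⟩, hρ1σ⟩ := exists_lt_of_lt_csSup hSn (show σ < sSup S by
    rw [hσ, ← hb]; linarith)
  set r1 : ℝ := min 1 ((ρ1.re - σ) / 2) with hr1
  have hr10 : 0 < r1 := lt_min one_pos (by linarith)
  set H : ℝ := |ρ1.im| + 1 + V with hH
  obtain ⟨Z, m, h, hZ1, hZ2, hZ3, hZ4⟩ := t_extract hL habs hF hE (c := c') (H := H) (by linarith) (by positivity)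
  have hρ1Z : ρ1 ∈ Z := hZ2 ρ1 (by linarith) (by rw [hH]; linarith) hρ1o
  have hZr : ∀ ρ ∈ Z, c' ≤ ρ.re ∧ ρ.re ≤ 1 := fun ρ hρ => ⟨(hZ1 ρ hρ).1, (hZ1 ρ hρ).2.1⟩
  obtain ⟨t0, ht1, ht2, hinj⟩ := exists_generic Z hη0 hη1 hσ0.le hσ1.le
    (fun ρ hρ => ⟨by linarith [(hZr ρ hρ).1], (hZr ρ hρ).2⟩) (u := ρ1.im) hr10
  -- the complex base point
  set s1 : ℂ := (σ : ℂ) + t0 * I with hs1
  have hs1r : s1.re = σ := by simp [hs1]
  have hs1i : s1.im = t0 := by simp [hs1]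
  have ht0 : |t0| ≤ |ρ1.im| + 1 := by
    have h3 : |t0 - ρ1.im| ≤ 1 := by
      rw [abs_le]
      have : r1 ≤ 1 := min_le_left _ _
      constructor <;> linarith
    have h4 := abs_add_le (t0 - ρ1.im) ρ1.im
    rw [sub_add_cancel] at h4
    linarith
  have hlarge := SZ_large (Z := Z) (m := m) (η := η) (s := s1) (fun ρ hρ => (hZ1 ρ hρ).2.2.2.2) hinj hρ1Z (by
    rw [ex_re, hs1r, hs1i]
    have h3 : (ρ1.im - t0) ^ 2 ≤ r1 ^ 2 := by nlinarith
    have h4 : r1 ^ 2 ≤ (ρ1.re - σ) / 2 := by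
      have h5 : r1 ≤ 1 := min_le_left _ _
      have h6 : r1 ≤ (ρ1.re - σ) / 2 := min_le_right _ _
      nlinarith
    have h5 : η * (ρ1.im - t0) ^ 2 ≤ 1 * ((ρ1.re - σ) / 2) :=
      mul_le_mul (by linarith) (h3.trans h4) (by positivity) zero_le_one
    have h6 : 0 ≤ η * (ρ1.re - σ) ^ 2 := by positivity
    nlinarith)
  -- the real base point
  have hreal' := SZ_real (Z := Z) (m := m) (η := η) (σ := σ) (by
    intro ρ hρ him
    obtain ⟨a1, a2, a3, a4, a5⟩ := hZ1 ρ hρ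
    by_contra hcon
    push Not at hcon
    have h3 : m ρ < 0 := lt_of_le_of_ne hcon a5
    have h4 : ρ ∈ Z0 := hZ02 ρ (by linarith) (by rw [him]; simp) (by
      rw [a4]
      exact_mod_cast a5)
    have h5 : m0 ρ = m ρ := by
      have := (hZ01 ρ h4).2.2.2.1
      rw [a4] at this
      exact_mod_cast this.symm
    have h6 := hr0Z ρ h4 ⟨him, by rw [h5]; exact h3⟩
    linarith) (by
    intro ρ hρ him
    obtain ⟨a1, a2, a3, a4, a5⟩ := hZ1 ρ hρ
    have ho : meromorphicOrderAt F ρ ≠ 0 := by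
      rw [a4]
      exact_mod_cast a5
    have h3 : ρ.re ≤ b := le_csSup hSb ⟨ρ, rfl, him, ho⟩
    have h4 := hgap ρ (by linarith) him ho
    have h5 : g0 ^ 2 ≤ ρ.im ^ 2 := by
      rw [← sq_abs ρ.im]
      exact pow_le_pow_left₀ hg0.le h4 2
    rw [ex_re]
    simp only [Complex.ofReal_re, Complex.ofReal_im, sub_zero]
    have h6 : ρ.re - σ ≤ e := by rw [hσ]; linarith
    have h7 : -1 ≤ ρ.re - σ := by linarith
    have h8 : η * g0 ^ 2 ≤ η * ρ.im ^ 2 := mul_le_mul_of_nonneg_left h5 hη0.le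
    have h9 : 0 < η * g0 ^ 2 := by positivity
    set x := ρ.re - σ with hx
    rcases le_or_gt 0 x with h10 | h10
    · have h11 : x ^ 2 ≤ x * 1 := by nlinarith
      nlinarith
    · have h11 : x ^ 2 ≤ -x := by nlinarith
      nlinarith) (ε := 1 / 100) (by norm_num)
  -- the explicit formula
  have hc'd : ∀ ρ ∈ Z, c' ≤ ρ.re ∧ ρ.re ≤ 1 := hZr
  have hx1 := explicit hL habs hc'0 hc'd hZ3 hZ4 hη0 hη1 hV2 hV0 (s0 := s1) (by rw [hs1r]; exact hc'σ)
    (by rw [hs1r]; exact hσ1) (by rw [hs1i, hH]; linarith)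
  have hx2 := explicit hL habs hc'0 hc'd hZ3 hZ4 hη0 hη1 hV2 hV0 (s0 := (σ : ℂ)) (by simpa using hc'σ)
    (by simpa using hσ1) (by
      simp only [Complex.ofReal_im, abs_zero, zero_add]
      rw [hH]
      have := abs_nonneg ρ1.im
      linarith)
  have hy1 := (tendsto_zero_iff_norm_tendsto_zero.1 hx1).eventually (gt_mem_nhds (show (0 : ℝ) < 1 / 100 by norm_num))
  have hy2 := (tendsto_zero_iff_norm_tendsto_zero.1 hx2).eventually (gt_mem_nhds (show (0 : ℝ) < 1 / 100 by norm_num))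
  set B : ℝ := ∑' i, |d i * L i| * Real.exp (-(2 * L i)) with hB
  have hB0 : Tendsto (fun Y : ℝ => B * Real.exp (-Y)) atTop (𝓝 0) := by
    simpa using Real.tendsto_exp_neg_atTop_nhds_zero.const_mul B
  have hpi : 0 < 4 * Real.pi * η := by positivity
  filter_upwards [hlarge, hreal', hy1, hy2, hB0.eventually (gt_mem_nhds (show (0 : ℝ) < 1 / 100 by norm_num)),
    eventually_gt_atTop 0, eventually_ge_atTop (1 / (4 * Real.pi * η))] with Y a1 a2 a3 a4 a5 a6 a7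
  have hκ : 0 < η * Y := by positivity
  have n1 := neg_part hL h2 (s := s1) (by rw [hs1r]; exact hσ0.le) hκ Y
  rw [hs1r] at n1
  have n2 := neg_le_WN (c := c) hL h2 hlam hlam1 hη hσ0.le hσc.le (by linarith) a6 (by
    rw [div_le_iff₀ hpi] at a7
    linarith)
  rw [← hB] at n2
  have n3 : 1 / 2 - 1 / 100 ≤ ‖JJ d L s1 (η * Y) Y‖ := by
    have := norm_sub_norm_le (SZ Z m η s1 Y) (-(JJ d L s1 (η * Y) Y))
    rw [norm_neg, sub_neg_eq_add, add_comm] at this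
    linarith
  have n4 : (JJ d L (σ : ℂ) (η * Y) Y).re ≤ 1 / 50 := by
    have h3 := Complex.abs_re_le_norm (JJ d L (σ : ℂ) (η * Y) Y + SZ Z m η (σ : ℂ) Y)
    rw [Complex.add_re] at h3
    have h4 := (abs_le.1 h3).2
    linarith
  linarith

end Pool.Agent.TH949.TX
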