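import Mathlib
import Pool.Agent.TH949.TX.Main

/-! Negative coefficients at every scale: the case of a real zero to the right of all complex singularities. -/

set_option autoImplicit false

open Complex MeasureTheory Set Filter Topology
open Pool.Agent.W189.TP (DS)

namespace Pool.Agent.TH949.TX

theorem SZ_real_zero {Z : Finset ℂ} {m : ℂ → ℤ} {η σ : ℝ}
    (hr : ∀ ρ ∈ Z, ρ.im = 0 → 0 < m ρ)
    (hc : ∀ ρ ∈ Z, ρ.im ≠ 0 → (ex η (σ : ℂ) ρ).re < 0) {ρ1 : ℂ} (h1 : ρ1 ∈ Z) (h1i : ρ1.im = 0)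
    (hpos : 0 ≤ (ex η (σ : ℂ) ρ1).re) :
    ∀ᶠ Y : ℝ in atTop, 1 / 2 ≤ (SZ Z m η (σ : ℂ) Y).re := by
  classical
  have h2 := SZ_real (Z := Z.erase ρ1) (m := m) (η := η) (σ := σ)
    (fun ρ hρ => hr ρ (Finset.mem_of_mem_erase hρ)) (fun ρ hρ => hc ρ (Finset.mem_of_mem_erase hρ))
    (ε := 1 / 2) (by norm_num)
  filter_upwards [h2, eventually_ge_atTop 0] with Y hY hY0
  have e0 : SZ Z m η (σ : ℂ) Y = (m ρ1 : ℂ) * cexp (Y * ex η (σ : ℂ) ρ1) + SZ (Z.erase ρ1) m η (σ : ℂ) Y := by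
    unfold SZ
    exact (Finset.add_sum_erase Z (fun ρ => (m ρ : ℂ) * cexp (Y * ex η (σ : ℂ) ρ)) h1).symm
  have e1 : ex η (σ : ℂ) ρ1 = ((ex η (σ : ℂ) ρ1).re : ℂ) := by
    apply Complex.ext
    · simp
    · have e2 : ρ1 = (ρ1.re : ℂ) := Complex.ext (by simp) (by simpa using h1i)
      rw [e2]
      unfold ex
      simp [pow_two]
  have e3 : ((m ρ1 : ℂ) * cexp (Y * ex η (σ : ℂ) ρ1)).re = (m ρ1 : ℝ) * Real.exp (Y * (ex η (σ : ℂ) ρ1).re) := by
    rw [e1, ← Complex.ofReal_mul, ← Complex.ofReal_exp]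
    rw [show (m ρ1 : ℂ) = ((m ρ1 : ℝ) : ℂ) by norm_cast, ← Complex.ofReal_mul, Complex.ofReal_re]
    simp
  rw [e0, Complex.add_re, e3]
  have h4 : (1 : ℝ) ≤ (m ρ1 : ℝ) := by exact_mod_cast hr ρ1 h1 h1i
  have h5 : 1 ≤ Real.exp (Y * (ex η (σ : ℂ) ρ1).re) := Real.one_le_exp (by positivity)
  nlinarith

theorem main_real {ι : Type*} [Countable ι] {d L : ι → ℝ} (hL : ∀ i, 0 ≤ L i)
    (habs : ∀ t : ℝ, 1 < t → Summable fun i => |d i| * Real.exp (-(t * L i)))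
    {F : ℂ → ℂ} (hF : MeromorphicOn F univ) (hE : ∀ s : ℂ, 1 < s.re → F s = cexp (DS d L s))
    (hreal : ∀ x : ℝ, 1 / 2 ≤ x → 0 ≤ meromorphicOrderAt F (x : ℂ))
    {b : ℝ} (hb2 : 1 / 2 ≤ b) (ho : meromorphicOrderAt F (b : ℂ) ≠ 0)
    (hle : ∀ ρ : ℂ, ρ.im ≠ 0 → meromorphicOrderAt F ρ ≠ 0 → ρ.re ≤ b)
    {c : ℝ} (hcb : c < b) {lam : ℝ} (hlam : 0 < lam) (hlam1 : lam ≤ 1) :
    ∀ᶠ Y : ℝ in atTop, 1 / 16 ≤ WN d L lam c Y := by
  classical
  have h2 := summ_dL hL habs (t := 2) (by norm_num)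
  have hb1 : b ≤ 1 := by
    obtain ⟨Z, m, h, hZ1, hZ2, -, -⟩ := t_extract hL habs hF hE (c := 0) (H := 1) (by norm_num) one_pos
    have h3 := (hZ1 _ (hZ2 (b : ℂ) (by simp; linarith) (by simp) ho)).2.1
    simpa using h3
  -- small singularities
  obtain ⟨Z0, m0, -, hZ01, hZ02, -, -⟩ := t_extract hL habs hF hE (c := 0) (H := 1) (by norm_num) one_pos
  obtain ⟨g0, hg0, hg01, hg0Z⟩ := exists_gap Z0 (fun ρ => ρ.im ≠ 0) (fun ρ => |ρ.im|)
    (fun ρ _ h => abs_pos.2 h)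
  have hgap : ∀ ρ : ℂ, 0 ≤ ρ.re → ρ.im ≠ 0 → meromorphicOrderAt F ρ ≠ 0 → g0 ≤ |ρ.im| := by
    intro ρ h3 h4 h5
    by_cases h6 : |ρ.im| ≤ 1
    · exact hg0Z ρ (hZ02 ρ h3 h6 h5) h4
    · push Not at h6
      linarith
  obtain ⟨r0, hr0, hr01, hr0Z⟩ := exists_gap Z0 (fun ρ => ρ.im = 0 ∧ m0 ρ < 0) (fun ρ => 1 / 2 - ρ.re)
    (by
      rintro ρ hρ ⟨h3, h4⟩
      by_contra hcon
      push Not at hcon
      have h5 := hreal ρ.re (by linarith)
      have e1 : ((ρ.re : ℝ) : ℂ) = ρ := Complex.ext (by simp) (by simp [h3])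
      rw [e1, (hZ01 ρ hρ).2.2.2.1] at h5
      have h6 : (0 : ℤ) ≤ m0 ρ := by exact_mod_cast h5
      omega)
  -- the parameters
  set η : ℝ := lam ^ 2 / 100 with hη
  have hη0 : 0 < η := by rw [hη]; positivity
  have hη1 : η ≤ 1 / 4 := by
    rw [hη]
    nlinarith
  set V : ℝ := 2 + 2 / η with hV
  have hV0 : 0 < V := by rw [hV]; positivity
  have hV2 : 4 + 3 / η ≤ V ^ 2 := by
    rw [hV]
    have e1 : (2 + 2 / η) ^ 2 = 4 + 8 / η + (2 / η) ^ 2 := by ring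
    rw [e1]
    have e2 : 3 / η ≤ 8 / η := by gcongr; norm_num
    have e3 : 0 ≤ (2 / η) ^ 2 := by positivity
    linarith
  set q0 : ℝ := max c (max (1 / 2 - r0) 0) with hq0
  have hq0b : q0 < b := max_lt hcb (max_lt (by linarith) (by linarith))
  set e : ℝ := min (η * g0 ^ 2 / 4) ((b - q0) / 2) with he
  have he0 : 0 < e := lt_min (by positivity) (by linarith)
  have he1 : e ≤ η * g0 ^ 2 / 4 := min_le_left _ _
  have he2 : e ≤ (b - q0) / 2 := min_le_right _ _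
  set σ : ℝ := b - e with hσ
  have hσq : q0 < σ := by rw [hσ]; linarith
  have hσc : c < σ := (le_max_left _ _).trans_lt hσq
  have hσ0 : 0 < σ := ((le_max_right _ _).trans (le_max_right _ _)).trans_lt hσq
  have hσ1 : σ < 1 := by rw [hσ]; linarith
  set c' : ℝ := (max (1 / 2 - r0) 0 + σ) / 2 with hc'
  have hmσ : max (1 / 2 - r0) 0 < σ := (le_max_right _ _).trans_lt hσq
  have hc'σ : c' < σ := by rw [hc']; linarith
  have hc'0 : 0 < c' := by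
    rw [hc']
    have : (0 : ℝ) ≤ max (1 / 2 - r0) 0 := le_max_right _ _
    linarith
  have hc'r : 1 / 2 - r0 < c' := by
    rw [hc']
    have : 1 / 2 - r0 ≤ max (1 / 2 - r0) 0 := le_max_left _ _
    linarith
  set H : ℝ := 1 + V with hH
  obtain ⟨Z, m, h, hZ1, hZ2, hZ3, hZ4⟩ := t_extract hL habs hF hE (c := c') (H := H) (by linarith) (by positivity)
  have hbZ : (b : ℂ) ∈ Z := hZ2 (b : ℂ) (by simp; linarith) (by simp; positivity) ho
  have hZr : ∀ ρ ∈ Z, c' ≤ ρ.re ∧ ρ.re ≤ 1 := fun ρ hρ => ⟨(hZ1 ρ hρ).1, (hZ1 ρ hρ).2.1⟩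
  have hreal' := SZ_real_zero (Z := Z) (m := m) (η := η) (σ := σ) (by
    intro ρ hρ him
    obtain ⟨a1, a2, a3, a4, a5⟩ := hZ1 ρ hρ
    by_contra hcon
    push Not at hcon
    have h3 : m ρ < 0 := lt_of_le_of_ne hcon a5
    have h4 : ρ ∈ Z0 := hZ02 ρ (by linarith) (by rw [him]; simp) (by
      rw [a4]
      exact_mod_cast a5)
    have h5 : m0 ρ = m ρ := by
      have := (hZ01 ρ h4).2.2.2.1
      rw [a4] at this
      exact_mod_cast this.symm
    have h6 := hr0Z ρ h4 ⟨him, by rw [h5]; exact h3⟩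
    linarith) (by
    intro ρ hρ him
    obtain ⟨a1, a2, a3, a4, a5⟩ := hZ1 ρ hρ
    have ho : meromorphicOrderAt F ρ ≠ 0 := by
      rw [a4]
      exact_mod_cast a5
    have h3 : ρ.re ≤ b := hle ρ him ho
    have h4 := hgap ρ (by linarith) him ho
    have h5 : g0 ^ 2 ≤ ρ.im ^ 2 := by
      rw [← sq_abs ρ.im]
      exact pow_le_pow_left₀ hg0.le h4 2
    rw [ex_re]
    simp only [Complex.ofReal_re, Complex.ofReal_im, sub_zero]
    have h6 : ρ.re - σ ≤ e := by rw [hσ]; linarith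
    have h7 : -1 ≤ ρ.re - σ := by linarith
    have h8 : η * g0 ^ 2 ≤ η * ρ.im ^ 2 := mul_le_mul_of_nonneg_left h5 hη0.le
    have h9 : 0 < η * g0 ^ 2 := by positivity
    set x := ρ.re - σ with hx
    rcases le_or_gt 0 x with h10 | h10
    · have h11 : x ^ 2 ≤ x * 1 := by nlinarith
      nlinarith
    · have h11 : x ^ 2 ≤ -x := by nlinarith
      nlinarith) hbZ (by simp) (by
    rw [ex_re]
    simp only [Complex.ofReal_re, Complex.ofReal_im, sub_zero]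
    have h3 : 0 ≤ b - σ := by rw [hσ]; linarith
    nlinarith [mul_nonneg hη0.le (sq_nonneg (b - σ))])
  -- the explicit formula
  have hx2 := explicit hL habs hc'0 hZr hZ3 hZ4 hη0 hη1 hV2 hV0 (s0 := (σ : ℂ)) (by simpa using hc'σ)
    (by simpa using hσ1) (by
      simp only [Complex.ofReal_im, abs_zero, zero_add]
      rw [hH]
      linarith)
  have hy2 := (tendsto_zero_iff_norm_tendsto_zero.1 hx2).eventually (gt_mem_nhds (show (0 : ℝ) < 1 / 100 by norm_num))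
  set B : ℝ := ∑' i, |d i * L i| * Real.exp (-(2 * L i)) with hB
  have hB0 : Tendsto (fun Y : ℝ => B * Real.exp (-Y)) atTop (𝓝 0) := by
    simpa using Real.tendsto_exp_neg_atTop_nhds_zero.const_mul B
  have hpi : 0 < 4 * Real.pi * η := by positivity
  filter_upwards [hreal', hy2, hB0.eventually (gt_mem_nhds (show (0 : ℝ) < 1 / 100 by norm_num)),
    eventually_gt_atTop 0, eventually_ge_atTop (1 / (4 * Real.pi * η))] with Y a2 a4 a5 a6 a7
  have hκ : 0 < η * Y := by positivity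
  have n1 := neg_part hL h2 (s := (σ : ℂ)) (by simpa using hσ0.le) hκ Y
  rw [Complex.ofReal_re] at n1
  have n2 := neg_le_WN (c := c) hL h2 hlam hlam1 hη hσ0.le hσc.le (by linarith) a6 (by
    rw [div_le_iff₀ hpi] at a7
    linarith)
  rw [← hB] at n2
  have n4 : (JJ d L (σ : ℂ) (η * Y) Y).re ≤ -(49 / 100) := by
    have h3 := Complex.abs_re_le_norm (JJ d L (σ : ℂ) (η * Y) Y + SZ Z m η (σ : ℂ) Y)
    rw [Complex.add_re] at h3
    have h4 := (abs_le.1 h3).2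
    linarith
  have n5 : 0 ≤ ‖JJ d L (σ : ℂ) (η * Y) Y‖ := norm_nonneg _
  linarith

/-- **Main theorem**, final form: every exponent below the real part of a zero or pole. -/
theorem main_all {ι : Type*} [Countable ι] {d L : ι → ℝ} (hL : ∀ i, 0 ≤ L i)
    (habs : ∀ t : ℝ, 1 < t → Summable fun i => |d i| * Real.exp (-(t * L i)))
    {F : ℂ → ℂ} (hF : MeromorphicOn F univ) (hE : ∀ s : ℂ, 1 < s.re → F s = cexp (DS d L s))
    (hreal : ∀ x : ℝ, 1 / 2 ≤ x → 0 ≤ meromorphicOrderAt F (x : ℂ))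
    (hex : ∀ δ : ℝ, 0 < δ → ∃ ρ : ℂ, 1 / 2 - δ < ρ.re ∧ ρ.im ≠ 0 ∧ meromorphicOrderAt F ρ ≠ 0)
    {c : ℝ} (hc : c < 1 / 2 ∨ ∃ ρ : ℂ, c < ρ.re ∧ meromorphicOrderAt F ρ ≠ 0)
    {lam : ℝ} (hlam : 0 < lam) (hlam1 : lam ≤ 1) :
    ∀ᶠ Y : ℝ in atTop, 1 / 16 ≤ WN d L lam c Y := by
  by_cases h1 : c < 1 / 2 ∨ ∃ ρ : ℂ, c < ρ.re ∧ ρ.im ≠ 0 ∧ meromorphicOrderAt F ρ ≠ 0
  · exact main_abs hL habs hF hE hreal hex h1 hlam hlam1
  · push Not at h1
    obtain ⟨h2, h3⟩ := h1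
    rcases hc with h4 | ⟨ρ, h4, h5⟩
    · linarith
    · have h6 : ρ.im = 0 := by
        by_contra h7
        exact h5 (h3 ρ h4 h7)
      have e1 : ((ρ.re : ℝ) : ℂ) = ρ := Complex.ext (by simp) (by simp [h6])
      refine main_real hL habs hF hE hreal (b := ρ.re) (by linarith) (by rw [e1]; exact h5) (fun z hz1 hz2 => ?_)
        h4 hlam hlam1
      by_contra hcon
      push Not at hcon
      exact hz2 (h3 z (by linarith) hz1)

end Pool.Agent.TH949.TX
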