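import Mathlib
import Pool.Agent.TH949.RES.Main

/-! The size of the two sides of a functional equation. -/

set_option autoImplicit false

open Complex MeasureTheory Set Filter Topology
open Pool.Agent.TH949.RES

namespace Pool.Agent.TH949.TX

/-- growth along horizontal segments, lower bound -/
theorem gr_seg_lower (μ : ℂ) {σ₁ σ₂ : ℝ} (h12 : σ₁ ≤ σ₂) : ∃ K T0 : ℝ, 0 ≤ K ∧ 1 ≤ T0 ∧ ∀ t : ℝ, T0 ≤ t →
    ‖Gammaℝ (σ₁ + t * I + μ)‖ * t ^ ((σ₂ - σ₁) / 2) ≤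
      Real.exp (K * (σ₂ - σ₁)) * ‖Gammaℝ (σ₂ + t * I + μ)‖ := by
  obtain ⟨K, T0, hK, hT0, h⟩ := Pool.Agent.W355.LJ.gr_logd μ
  refine ⟨K, max T0 (2 * (|σ₁| + |σ₂|)), hK, hT0.trans (le_max_left _ _), fun t ht => ?_⟩
  have ht1 : T0 ≤ t := (le_max_left _ _).trans ht
  have ht2 : 2 * (|σ₁| + |σ₂|) ≤ t := (le_max_right _ _).trans ht
  have ht0 : 0 < t := by linarith
  set ell : ℝ := 1 / 2 * Real.log t with hell
  set f : ℝ → ℂ := fun y => Gammaℝ (((σ₁ + σ₂ - y : ℝ) : ℂ) + t * I + μ) * cexp ((ell * y : ℝ) : ℂ) with hf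
  set f' : ℝ → ℂ := fun y => -(Gammaℝ (((σ₁ + σ₂ - y : ℝ) : ℂ) + t * I + μ) *
    (logDeriv (fun s : ℂ => Gammaℝ (s + μ)) (((σ₁ + σ₂ - y : ℝ) : ℂ) + t * I) - (ell : ℂ)) *
      cexp ((ell * y : ℝ) : ℂ)) with hf'
  have hreg : ∀ y ∈ Icc σ₁ σ₂, T0 ≤ (((σ₁ + σ₂ - y : ℝ) : ℂ) + t * I).im ∧
      |(((σ₁ + σ₂ - y : ℝ) : ℂ) + t * I).re| ≤ 3 / 4 * (((σ₁ + σ₂ - y : ℝ) : ℂ) + t * I).im := by
    intro y hy
    have e1 : (((σ₁ + σ₂ - y : ℝ) : ℂ) + t * I).im = t := by simp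
    have e2 : (((σ₁ + σ₂ - y : ℝ) : ℂ) + t * I).re = σ₁ + σ₂ - y := by simp
    rw [e1, e2]
    refine ⟨ht1, ?_⟩
    have h1 : |σ₁ + σ₂ - y| ≤ |σ₁| + |σ₂| := by
      rw [abs_le]
      have := neg_abs_le σ₁
      have := le_abs_self σ₂
      have := abs_nonneg σ₁
      have := abs_nonneg σ₂
      constructor <;> linarith [hy.1, hy.2]
    linarith
  have hder : ∀ y ∈ Icc σ₁ σ₂, HasDerivAt f (f' y) y := by
    intro y hy
    obtain ⟨a1, a2⟩ := hreg y hy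
    obtain ⟨b1, b2, -⟩ := h _ a1 a2
    have h1 := hd_of b2 b1
    have h2 : HasDerivAt (fun y : ℝ => ((σ₁ + σ₂ - y : ℝ) : ℂ) + t * I) (-1) y := by
      have h3 : HasDerivAt (fun y : ℝ => ((σ₁ + σ₂ - y : ℝ) : ℂ)) (((-1 : ℝ) : ℂ)) y := by
        have h4 : HasDerivAt (fun y : ℝ => σ₁ + σ₂ - y) (-1) y := by
          simpa using (hasDerivAt_id y).const_sub (σ₁ + σ₂)
        exact h4.ofReal_comp
      simpa using h3.add_const ((t : ℂ) * I)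
    have h3 := h1.comp y h2
    have h5 : HasDerivAt (fun y : ℝ => cexp ((ell * y : ℝ) : ℂ)) (cexp ((ell * y : ℝ) : ℂ) * (ell : ℂ)) y := by
      have h6 : HasDerivAt (fun y : ℝ => ((ell * y : ℝ) : ℂ)) (ell : ℂ) y := by
        have h7 : HasDerivAt (fun y : ℝ => ell * y) ell y := by
          simpa using (hasDerivAt_id y).const_mul ell
        exact h7.ofReal_comp
      exact h6.cexp
    have h8 := h3.mul h5
    refine h8.congr_deriv ?_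
    rw [hf']
    simp only [Function.comp_apply]
    ring
  have hbd : ∀ y ∈ Icc σ₁ σ₂, ‖f' y‖ ≤ K * ‖f y‖ + 0 := by
    intro y hy
    obtain ⟨a1, a2⟩ := hreg y hy
    obtain ⟨-, -, b3⟩ := h _ a1 a2
    have e1 : (((σ₁ + σ₂ - y : ℝ) : ℂ) + t * I).im = t := by simp
    rw [e1, ← hell] at b3
    rw [hf', hf]
    simp only
    rw [norm_neg, norm_mul, norm_mul, norm_mul, add_zero]
    calc ‖Gammaℝ (((σ₁ + σ₂ - y : ℝ) : ℂ) + t * I + μ)‖ *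
          ‖logDeriv (fun s : ℂ => Gammaℝ (s + μ)) (((σ₁ + σ₂ - y : ℝ) : ℂ) + t * I) - (ell : ℂ)‖ *
          ‖cexp ((ell * y : ℝ) : ℂ)‖ ≤ ‖Gammaℝ (((σ₁ + σ₂ - y : ℝ) : ℂ) + t * I + μ)‖ * K *
          ‖cexp ((ell * y : ℝ) : ℂ)‖ :=
            mul_le_mul_of_nonneg_right (mul_le_mul_of_nonneg_left b3 (norm_nonneg _)) (norm_nonneg _)
      _ = _ := by ring
  have hg := norm_le_gronwallBound_of_norm_deriv_right_le (f := f) (f' := f') (δ := ‖f σ₁‖)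
    (K := K) (ε := 0) (a := σ₁) (b := σ₂)
    (fun x hx => (hder x hx).continuousAt.continuousWithinAt)
    (fun x hx => (hder x (Ico_subset_Icc_self hx)).hasDerivWithinAt) le_rfl
    (fun x hx => hbd x (Ico_subset_Icc_self hx)) σ₂ (right_mem_Icc.2 h12)
  rw [gronwallBound_ε0, hf] at hg
  simp only [norm_mul, Complex.norm_exp, Complex.ofReal_re] at hg
  have e1 : σ₁ + σ₂ - σ₂ = σ₁ := by ring
  have e2 : σ₁ + σ₂ - σ₁ = σ₂ := by ring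
  rw [e1, e2] at hg
  have e3 : Real.exp (ell * σ₂) = t ^ ((σ₂ - σ₁) / 2) * Real.exp (ell * σ₁) := by
    rw [Real.rpow_def_of_pos ht0, ← Real.exp_add, hell]
    congr 1
    ring
  rw [e3, ← mul_assoc] at hg
  have e4 : ‖Gammaℝ ((σ₂ : ℂ) + t * I + μ)‖ * Real.exp (ell * σ₁) * Real.exp (K * (σ₂ - σ₁)) =
      Real.exp (K * (σ₂ - σ₁)) * ‖Gammaℝ ((σ₂ : ℂ) + t * I + μ)‖ * Real.exp (ell * σ₁) := by ring
  rw [e4] at hg
  exact le_of_mul_le_mul_right hg (Real.exp_pos _)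

section
variable {N : ℕ} {κ : Fin N → ℂ}

theorem conj_gam (hκ : Multiset.map (fun j => (starRingEnd ℂ) (κ j)) Finset.univ.val =
    Multiset.map κ Finset.univ.val) (σ t : ℝ) :
    ∏ j, ‖Gammaℝ (1 - ((σ : ℂ) + t * I) + κ j)‖ = ∏ j, ‖Gammaℝ (((1 - σ : ℝ) : ℂ) + t * I + κ j)‖ := by
  rw [Pool.Agent.W189.TP.conj_prod hκ (fun z => ‖Gammaℝ (1 - ((σ : ℂ) + t * I) + z)‖)]
  refine Finset.prod_congr rfl fun j _ => ?_
  rw [← Pool.Agent.W189.TP.norm_Gammaℝ_conj]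
  congr 2
  simp only [map_add, map_sub, map_one, map_mul, Complex.conj_I, Complex.conj_ofReal,
    Complex.conj_conj]
  push_cast
  ring

theorem norm_GF (Q : ℝ) (s : ℂ) : ‖GF κ Q s‖ = Real.exp (s.re * Real.log Q) * ∏ j, ‖Gammaℝ (s + κ j)‖ := by
  unfold GF
  rw [norm_mul, norm_prod, Complex.norm_exp]
  congr 2
  simp

theorem GF_lower (hκ : Multiset.map (fun j => (starRingEnd ℂ) (κ j)) Finset.univ.val =
    Multiset.map κ Finset.univ.val) (Q : ℝ) {σ : ℝ} (hσ : σ ≤ 1 / 2) :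
    ∃ c T1 : ℝ, 0 < c ∧ 1 ≤ T1 ∧ ∀ t : ℝ, T1 ≤ t →
      c * t ^ ((N : ℝ) * (1 / 2 - σ)) * ‖GF κ Q ((σ : ℂ) + t * I)‖ ≤ ‖GF κ Q (1 - ((σ : ℂ) + t * I))‖ := by
  have h12 : σ ≤ 1 - σ := by linarith
  choose K T0 hK hT0 h using fun j => gr_seg_lower (κ j) h12
  have hT : ∀ j, T0 j ≤ ∑ j, T0 j := fun j =>
    Finset.single_le_sum (f := T0) (fun j _ => by linarith [hT0 j]) (Finset.mem_univ j)
  have hS : 0 ≤ ∑ j, T0 j := Finset.sum_nonneg fun j _ => by linarith [hT0 j]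
  refine ⟨Real.exp ((1 - 2 * σ) * Real.log Q) * (∏ j, Real.exp (K j * (1 - σ - σ)))⁻¹, 1 + ∑ j, T0 j,
    by positivity, by linarith, fun t ht => ?_⟩
  have ht0 : 0 < t := by linarith
  rw [norm_GF, norm_GF, conj_gam hκ]
  have e1 : ((σ : ℂ) + t * I).re = σ := by simp
  have e2 : (1 - ((σ : ℂ) + t * I)).re = 1 - σ := by simp
  rw [e1, e2]
  have e3 : t ^ ((N : ℝ) * (1 / 2 - σ)) = ∏ j : Fin N, t ^ ((1 - σ - σ) / 2) := by
    rw [Finset.prod_const, Finset.card_univ, Fintype.card_fin, ← Real.rpow_natCast, ← Real.rpow_mul ht0.le]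
    congr 1
    ring
  have h2 : (∏ j, ‖Gammaℝ ((σ : ℂ) + t * I + κ j)‖) * ∏ j : Fin N, t ^ ((1 - σ - σ) / 2) ≤
      (∏ j, Real.exp (K j * (1 - σ - σ))) * ∏ j, ‖Gammaℝ (((1 - σ : ℝ) : ℂ) + t * I + κ j)‖ := by
    rw [← Finset.prod_mul_distrib, ← Finset.prod_mul_distrib]
    refine Finset.prod_le_prod (fun j _ => by positivity) fun j _ => ?_
    exact h j t ((hT j).trans (by linarith))
  have hP : 0 < ∏ j, Real.exp (K j * (1 - σ - σ)) := by positivity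
  have e4 : Real.exp ((1 - 2 * σ) * Real.log Q) * Real.exp (σ * Real.log Q) = Real.exp ((1 - σ) * Real.log Q) := by
    rw [← Real.exp_add]
    congr 1
    ring
  rw [e3]
  calc Real.exp ((1 - 2 * σ) * Real.log Q) * (∏ j, Real.exp (K j * (1 - σ - σ)))⁻¹ *
        (∏ j : Fin N, t ^ ((1 - σ - σ) / 2)) * (Real.exp (σ * Real.log Q) * ∏ j, ‖Gammaℝ ((σ : ℂ) + t * I + κ j)‖) =
      Real.exp ((1 - 2 * σ) * Real.log Q) * Real.exp (σ * Real.log Q) * ((∏ j, Real.exp (K j * (1 - σ - σ)))⁻¹ *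
        ((∏ j, ‖Gammaℝ ((σ : ℂ) + t * I + κ j)‖) * ∏ j : Fin N, t ^ ((1 - σ - σ) / 2))) := by ring
    _ ≤ Real.exp ((1 - 2 * σ) * Real.log Q) * Real.exp (σ * Real.log Q) * ((∏ j, Real.exp (K j * (1 - σ - σ)))⁻¹ *
        ((∏ j, Real.exp (K j * (1 - σ - σ))) * ∏ j, ‖Gammaℝ (((1 - σ : ℝ) : ℂ) + t * I + κ j)‖)) := by
        gcongr
    _ = _ := by rw [e4, inv_mul_cancel_left₀ hP.ne']

theorem GF_upper (hκ : Multiset.map (fun j => (starRingEnd ℂ) (κ j)) Finset.univ.val =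
    Multiset.map κ Finset.univ.val) (Q : ℝ) {σ : ℝ} (hσ : σ ≤ 1 / 2) :
    ∃ C T1 : ℝ, 0 < C ∧ 1 ≤ T1 ∧ ∀ t : ℝ, T1 ≤ t →
      ‖GF κ Q (1 - ((σ : ℂ) + t * I))‖ ≤ C * t ^ ((N : ℝ) * (1 / 2 - σ)) * ‖GF κ Q ((σ : ℂ) + t * I)‖ := by
  have h12 : σ ≤ 1 - σ := by linarith
  choose K T0 hK hT0 h using fun j => gr_seg (κ j) h12
  have hT : ∀ j, T0 j ≤ ∑ j, T0 j := fun j =>
    Finset.single_le_sum (f := T0) (fun j _ => by linarith [hT0 j]) (Finset.mem_univ j)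
  have hS : 0 ≤ ∑ j, T0 j := Finset.sum_nonneg fun j _ => by linarith [hT0 j]
  refine ⟨Real.exp ((1 - 2 * σ) * Real.log Q) * ∏ j, Real.exp (K j * (1 - σ - σ)), 1 + ∑ j, T0 j,
    by positivity, by linarith, fun t ht => ?_⟩
  have ht0 : 0 < t := by linarith
  rw [norm_GF, norm_GF, conj_gam hκ]
  have e1 : ((σ : ℂ) + t * I).re = σ := by simp
  have e2 : (1 - ((σ : ℂ) + t * I)).re = 1 - σ := by simp
  rw [e1, e2]
  have e3 : t ^ ((N : ℝ) * (1 / 2 - σ)) = ∏ j : Fin N, t ^ ((1 - σ - σ) / 2) := by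
    rw [Finset.prod_const, Finset.card_univ, Fintype.card_fin, ← Real.rpow_natCast, ← Real.rpow_mul ht0.le]
    congr 1
    ring
  have h2 : ∏ j, ‖Gammaℝ (((1 - σ : ℝ) : ℂ) + t * I + κ j)‖ ≤ (∏ j, ‖Gammaℝ ((σ : ℂ) + t * I + κ j)‖) *
      ((∏ j, Real.exp (K j * (1 - σ - σ))) * ∏ j : Fin N, t ^ ((1 - σ - σ) / 2)) := by
    rw [← Finset.prod_mul_distrib, ← Finset.prod_mul_distrib]
    refine Finset.prod_le_prod (fun j _ => by positivity) fun j _ => ?_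
    exact h j t ((hT j).trans (by linarith))
  have e4 : Real.exp ((1 - σ) * Real.log Q) = Real.exp ((1 - 2 * σ) * Real.log Q) * Real.exp (σ * Real.log Q) := by
    rw [← Real.exp_add]
    congr 1
    ring
  rw [e3]
  calc Real.exp ((1 - σ) * Real.log Q) * ∏ j, ‖Gammaℝ (((1 - σ : ℝ) : ℂ) + t * I + κ j)‖ ≤
      Real.exp ((1 - σ) * Real.log Q) * ((∏ j, ‖Gammaℝ ((σ : ℂ) + t * I + κ j)‖) *
      ((∏ j, Real.exp (K j * (1 - σ - σ))) * ∏ j : Fin N, t ^ ((1 - σ - σ) / 2))) :=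
        mul_le_mul_of_nonneg_left h2 (Real.exp_pos _).le
    _ = _ := by rw [e4]; ring

theorem GF_ne {s : ℂ} (hs : KK κ < |s.im|) (Q : ℝ) : GF κ Q s ≠ 0 := by
  unfold GF
  refine mul_ne_zero (Complex.exp_ne_zero _) (Finset.prod_ne_zero_iff.2 fun j _ => gr_ne0 ?_)
  rw [Complex.add_im]
  intro h0
  have a1 := Complex.abs_im_le_norm (κ j)
  have a3 := le_KK κ j
  have a5 : s.im = -(κ j).im := by linarith
  rw [a5, abs_neg] at hs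
  linarith

/-- lower bound from the functional equation -/
theorem fe_lower (hκ : Multiset.map (fun j => (starRingEnd ℂ) (κ j)) Finset.univ.val =
    Multiset.map κ Finset.univ.val) {Q T0 : ℝ} {ω : ℂ} (hω : ω ≠ 0) {Lf : ℂ → ℂ}
    (hFE : ∀ s : ℂ, T0 < |s.im| → Lf s * GF κ Q s = ω * (Lf (1 - s) * GF κ Q (1 - s)))
    (hconj : ∀ s : ℂ, T0 < |s.im| → ‖Lf ((starRingEnd ℂ) s)‖ = ‖Lf s‖) {σ : ℝ} (hσ : σ ≤ 1 / 2) :
    ∃ c T1 : ℝ, 0 < c ∧ 1 ≤ T1 ∧ ∀ t : ℝ, T1 ≤ t →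
      c * t ^ ((N : ℝ) * (1 / 2 - σ)) * ‖Lf (((1 - σ : ℝ) : ℂ) + t * I)‖ ≤ ‖Lf ((σ : ℂ) + t * I)‖ := by
  obtain ⟨c, T1, hc, hT1, h⟩ := GF_lower hκ Q hσ
  have hK := KK_nonneg κ
  refine ⟨‖ω‖ * c, max T1 (|T0| + KK κ + 1), mul_pos (norm_pos_iff.2 hω) hc, hT1.trans (le_max_left _ _),
    fun t ht => ?_⟩
  have ht1 : T1 ≤ t := (le_max_left _ _).trans ht
  have ht2 : |T0| + KK κ + 1 ≤ t := (le_max_right _ _).trans ht
  have ht0 : 0 < t := by linarith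
  set s : ℂ := (σ : ℂ) + t * I with hs
  have him : s.im = t := by simp [hs]
  have habs : |s.im| = t := by rw [him, abs_of_pos ht0]
  have hT0' : T0 < |s.im| := by
    rw [habs]
    have := le_abs_self T0
    linarith
  have h1 := hFE s hT0'
  have e1 : 1 - s = (starRingEnd ℂ) (((1 - σ : ℝ) : ℂ) + t * I) := by
    rw [hs]
    simp only [map_add, map_mul, Complex.conj_I, Complex.conj_ofReal]
    push_cast
    ring
  have h2 : ‖Lf (1 - s)‖ = ‖Lf (((1 - σ : ℝ) : ℂ) + t * I)‖ := by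
    rw [e1]
    refine hconj _ ?_
    have : (((1 - σ : ℝ) : ℂ) + t * I).im = t := by simp
    rw [this, abs_of_pos ht0]
    have := le_abs_self T0
    linarith
  have h3 := congrArg norm h1
  rw [norm_mul, norm_mul, norm_mul, h2] at h3
  have hG : 0 < ‖GF κ Q s‖ := norm_pos_iff.2 (GF_ne (by rw [habs]; have := abs_nonneg T0; linarith) Q)
  have h4 := h t ht1
  rw [← hs] at h4
  refine le_of_mul_le_mul_right ?_ hG
  rw [h3]
  calc ‖ω‖ * c * t ^ ((N : ℝ) * (1 / 2 - σ)) * ‖Lf (((1 - σ : ℝ) : ℂ) + t * I)‖ * ‖GF κ Q s‖ =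
      ‖ω‖ * (‖Lf (((1 - σ : ℝ) : ℂ) + t * I)‖ * (c * t ^ ((N : ℝ) * (1 / 2 - σ)) * ‖GF κ Q s‖)) := by ring
    _ ≤ _ := by gcongr

/-- upper bound from the functional equation -/
theorem fe_upper (hκ : Multiset.map (fun j => (starRingEnd ℂ) (κ j)) Finset.univ.val =
    Multiset.map κ Finset.univ.val) {Q T0 : ℝ} {ω : ℂ} (hω : ω ≠ 0) {Lf : ℂ → ℂ}
    (hFE : ∀ s : ℂ, T0 < |s.im| → Lf s * GF κ Q s = ω * (Lf (1 - s) * GF κ Q (1 - s)))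
    (hconj : ∀ s : ℂ, T0 < |s.im| → ‖Lf ((starRingEnd ℂ) s)‖ = ‖Lf s‖) {σ : ℝ} (hσ : σ ≤ 1 / 2) :
    ∃ C T1 : ℝ, 0 < C ∧ 1 ≤ T1 ∧ ∀ t : ℝ, T1 ≤ t →
      ‖Lf ((σ : ℂ) + t * I)‖ ≤ C * t ^ ((N : ℝ) * (1 / 2 - σ)) * ‖Lf (((1 - σ : ℝ) : ℂ) + t * I)‖ := by
  obtain ⟨c, T1, hc, hT1, h⟩ := GF_upper hκ Q hσ
  have hK := KK_nonneg κ
  refine ⟨‖ω‖ * c, max T1 (|T0| + KK κ + 1), mul_pos (norm_pos_iff.2 hω) hc, hT1.trans (le_max_left _ _),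
    fun t ht => ?_⟩
  have ht1 : T1 ≤ t := (le_max_left _ _).trans ht
  have ht2 : |T0| + KK κ + 1 ≤ t := (le_max_right _ _).trans ht
  have ht0 : 0 < t := by linarith
  set s : ℂ := (σ : ℂ) + t * I with hs
  have him : s.im = t := by simp [hs]
  have habs : |s.im| = t := by rw [him, abs_of_pos ht0]
  have hT0' : T0 < |s.im| := by
    rw [habs]
    have := le_abs_self T0
    linarith
  have h1 := hFE s hT0'
  have e1 : 1 - s = (starRingEnd ℂ) (((1 - σ : ℝ) : ℂ) + t * I) := by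
    rw [hs]
    simp only [map_add, map_mul, Complex.conj_I, Complex.conj_ofReal]
    push_cast
    ring
  have h2 : ‖Lf (1 - s)‖ = ‖Lf (((1 - σ : ℝ) : ℂ) + t * I)‖ := by
    rw [e1]
    refine hconj _ ?_
    have : (((1 - σ : ℝ) : ℂ) + t * I).im = t := by simp
    rw [this, abs_of_pos ht0]
    have := le_abs_self T0
    linarith
  have h3 := congrArg norm h1
  rw [norm_mul, norm_mul, norm_mul, h2] at h3
  have hG : 0 < ‖GF κ Q s‖ := norm_pos_iff.2 (GF_ne (by rw [habs]; have := abs_nonneg T0; linarith) Q)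
  have h4 := h t ht1
  rw [← hs] at h4
  refine le_of_mul_le_mul_right ?_ hG
  rw [h3]
  calc ‖ω‖ * (‖Lf (((1 - σ : ℝ) : ℂ) + t * I)‖ * ‖GF κ Q (1 - s)‖) ≤
      ‖ω‖ * (‖Lf (((1 - σ : ℝ) : ℂ) + t * I)‖ * (c * t ^ ((N : ℝ) * (1 / 2 - σ)) * ‖GF κ Q s‖)) := by gcongr
    _ = _ := by ring

end

end Pool.Agent.TH949.TX
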