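import Mathlib
import Pool.Agent.TH949.TX.Tools

/-! A function of this kind has zeros or poles near the critical line. -/

set_option autoImplicit false

open Complex MeasureTheory Set Filter Topology
open Pool.Agent.W189.TP (DS DS_diff DS_norm_le summ_mono)

namespace Pool.Agent.TH949.TX

theorem pow_small {C A θ β k : ℝ} (hA : 0 < A) (hθ1 : θ < 1) (hβ : 0 < β) (hC : 0 < C) :
    ∀ᶠ y : ℝ in atTop, C * (A * y) ^ θ < β * y + k := by
  have h1 : Tendsto (fun y : ℝ => C * A ^ θ * y ^ (-(1 - θ))) atTop (𝓝 0) := by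
    simpa using (tendsto_rpow_neg_atTop (by linarith : 0 < 1 - θ)).const_mul (C * A ^ θ)
  filter_upwards [h1.eventually (gt_mem_nhds (by positivity : (0 : ℝ) < β / 2)), eventually_gt_atTop 0,
    eventually_gt_atTop (2 * |k| / β)] with y h2 h3 h4
  have e1 : C * (A * y) ^ θ = C * A ^ θ * y ^ (-(1 - θ)) * y := by
    rw [Real.mul_rpow hA.le h3.le]
    have e2 : y ^ θ = y ^ (-(1 - θ)) * y := by
      conv_rhs => rw [← Real.rpow_one y]
      rw [← Real.rpow_mul h3.le, ← Real.rpow_add h3]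
      congr 1
      ring
    rw [e2]
    ring
  rw [e1]
  have h5 : C * A ^ θ * y ^ (-(1 - θ)) * y < β / 2 * y := mul_lt_mul_of_pos_right h2 h3
  have h6 : |k| < β / 2 * y := by
    rw [div_lt_iff₀ hβ] at h4
    linarith
  have h7 := neg_abs_le k
  linarith

theorem zf_core {ι : Type*} [Countable ι] {d L : ι → ℝ} (hL : ∀ i, 0 ≤ L i)
    (habs : ∀ t : ℝ, 1 < t → Summable fun i => |d i| * Real.exp (-(t * L i)))
    {q : ℂ → ℂ} {c0 T : ℝ}
    (hq : ∀ s : ℂ, c0 < s.re → T < s.im → DifferentiableAt ℂ q s ∧ q s ≠ 0)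
    (hE : ∀ s : ℂ, 1 < s.re → q s = cexp (DS d L s))
    (hUB : ∀ R : ℝ, 0 < R → R < 2 - c0 → ∃ A : ℝ, ∀ᶠ t : ℝ in atTop,
      ∀ z ∈ Metric.closedBall ((2 : ℂ) + t * I) R, Real.log ‖q z‖ ≤ A * Real.log t)
    {σ β cc : ℝ} (hσ : c0 < σ) (hσ2 : σ < 1 / 2) (hβ : 0 < β) (hcc : 0 < cc)
    (hFE : ∃ᶠ t : ℝ in atTop, cc * t ^ β * ‖q (((1 - σ : ℝ) : ℂ) + t * I)‖ ≤ ‖q ((σ : ℂ) + t * I)‖) : False := by
  set r2 : ℝ := 2 - σ with hr2
  set r3 : ℝ := r2 + (σ - c0) / 3 with hr3
  set R' : ℝ := r2 + 2 * (σ - c0) / 3 with hR'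
  have hr23 : r2 < r3 := by rw [hr3]; linarith
  have hr3R : r3 < R' := by rw [hR']; linarith
  have hR'c : R' < 2 - c0 := by rw [hR']; linarith
  have hr2h : 3 / 2 < r2 := by rw [hr2]; linarith
  set M0 : ℝ := ∑' i, |d i| * Real.exp (-((3 / 2 : ℝ) * L i)) with hM0
  set M1 : ℝ := max 1 M0 with hM1
  obtain ⟨C, θ, hC, hθ0, hθ1, hcir⟩ := t_circles (r1 := 1 / 2) (r2 := r2) (r3 := r3) (by norm_num) (by linarith)
    hr23 (M1 := M1) (le_max_left _ _)
  obtain ⟨A0, hA0⟩ := hUB r3 (by linarith) (by linarith)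
  set A : ℝ := max A0 1 with hA
  have hA1 : 1 ≤ A := le_max_right _ _
  have hps := pow_small (C := 2 * C) (A := A) (θ := θ) (β := β) (k := Real.log cc) (by linarith) hθ1 hβ (by positivity)
  have hps' := Real.tendsto_log_atTop.eventually hps
  have hev := (hFE.and_eventually (hA0.and (hps'.and ((eventually_gt_atTop (T + R')).and
    (eventually_ge_atTop (Real.exp 1))))))
  obtain ⟨t, hfe, hAt, hpt, htT, hte⟩ := hev.exists
  have ht0 : 0 < t := (Real.exp_pos 1).trans_le hte
  have hlt : 1 ≤ Real.log t := by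
    rw [Real.le_log_iff_exp_le ht0]
    exact hte
  set z0 : ℂ := (2 : ℂ) + t * I with hz0
  have hball : ∀ z ∈ Metric.ball z0 R', c0 < z.re ∧ T < z.im := by
    intro z hz
    rw [Metric.mem_ball, dist_eq_norm] at hz
    have h1 := Complex.abs_re_le_norm (z - z0)
    have h2 := Complex.abs_im_le_norm (z - z0)
    rw [Complex.sub_re, hz0] at h1
    rw [Complex.sub_im, hz0] at h2
    simp only [Complex.add_re, Complex.re_ofNat, Complex.mul_re, Complex.ofReal_re, Complex.I_re, mul_zero,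
      Complex.ofReal_im, Complex.I_im, mul_one, sub_self, add_zero] at h1
    simp only [Complex.add_im, Complex.im_ofNat, Complex.mul_im, Complex.ofReal_re, Complex.I_im, mul_one,
      Complex.ofReal_im, Complex.I_re, mul_zero, add_zero, zero_add] at h2
    have h3 := (abs_lt.1 (h1.trans_lt hz)).1
    have h4 := (abs_lt.1 (h2.trans_lt hz)).1
    constructor <;> linarith
  have hball1 : ∀ z ∈ Metric.ball z0 1, 1 < z.re := by
    intro z hz
    rw [Metric.mem_ball, dist_eq_norm] at hz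
    have h1 := Complex.abs_re_le_norm (z - z0)
    rw [Complex.sub_re, hz0] at h1
    simp only [Complex.add_re, Complex.re_ofNat, Complex.mul_re, Complex.ofReal_re, Complex.I_re, mul_zero,
      Complex.ofReal_im, Complex.I_im, mul_one, sub_self, add_zero] at h1
    have h3 := (abs_lt.1 (h1.trans_lt hz)).1
    linarith
  have hDd := DS_diff hL habs
  have hopen : IsOpen {s : ℂ | 1 < s.re} := isOpen_lt continuous_const Complex.continuous_re
  obtain ⟨h, hh1, hh2, hh3⟩ := t_log (w0 := 0) (q := q) (z0 := z0) (R := R') (r := 1) one_pos (by linarith)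
    (fun z hz => (hq z (hball z hz).1 (hball z hz).2).1) (fun z hz => (hq z (hball z hz).1 (hball z hz).2).2)
    (g := DS d L) (fun z hz => hDd.differentiableAt (hopen.mem_nhds (hball1 z hz)))
    (fun z hz => hE z (hball1 z hz))
  have hsub : Metric.closedBall z0 r3 ⊆ Metric.ball z0 R' := Metric.closedBall_subset_ball hr3R
  have hre : ∀ z ∈ Metric.ball z0 R', (h z).re = Real.log ‖q z‖ := by
    intro z hz
    rw [hh2 z hz, Complex.norm_exp, Real.log_exp]
  have hAlog : 1 ≤ A * Real.log t := by nlinarith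
  have hbd := hcir h z0 (A * Real.log t) hAlog (fun z hz => hh1 z (hsub hz)) (fun z hz => by
    rw [hre z (hsub hz)]
    refine (hAt z hz).trans ?_
    exact mul_le_mul_of_nonneg_right (le_max_left _ _) (by linarith)) (fun z hz => by
    have hz1 : z ∈ Metric.ball z0 1 := Metric.closedBall_subset_ball (by norm_num) hz
    rw [hh3 z hz1]
    have h1 : 3 / 2 ≤ z.re := by
      rw [Metric.mem_closedBall, dist_eq_norm] at hz
      have h1 := Complex.abs_re_le_norm (z - z0)
      rw [Complex.sub_re, hz0] at h1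
      simp only [Complex.add_re, Complex.re_ofNat, Complex.mul_re, Complex.ofReal_re, Complex.I_re, mul_zero,
        Complex.ofReal_im, Complex.I_im, mul_one, sub_self, add_zero] at h1
      have h3 := (abs_le.1 (h1.trans hz)).1
      linarith
    refine (DS_norm_le (habs _ (by linarith))).trans (le_trans ?_ (le_max_right _ _))
    refine Summable.tsum_le_tsum (fun i => ?_) (habs _ (by linarith)) (habs _ (by norm_num))
    have := hL i
    gcongr)
  have hm1 : ((σ : ℂ) + t * I) ∈ Metric.closedBall z0 r2 := by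
    rw [Metric.mem_closedBall, dist_eq_norm, hz0]
    have e1 : (σ : ℂ) + t * I - (2 + t * I) = ((σ - 2 : ℝ) : ℂ) := by push_cast; ring
    rw [e1, Complex.norm_real, Real.norm_eq_abs, abs_of_nonpos (by linarith)]
    linarith
  have hm2 : (((1 - σ : ℝ) : ℂ) + t * I) ∈ Metric.closedBall z0 r2 := by
    rw [Metric.mem_closedBall, dist_eq_norm, hz0]
    have e1 : ((1 - σ : ℝ) : ℂ) + t * I - (2 + t * I) = ((-1 - σ : ℝ) : ℂ) := by push_cast; ring
    rw [e1, Complex.norm_real, Real.norm_eq_abs]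
    refine abs_le.2 ⟨by linarith, ?_⟩
    by_contra hcon
    push Not at hcon
    -- `-1 - σ ≤ 2 - σ`
    linarith
  have hs2 : Metric.closedBall z0 r2 ⊆ Metric.ball z0 R' := Metric.closedBall_subset_ball (by linarith)
  have b1 := (Complex.abs_re_le_norm _).trans (hbd _ hm1)
  have b2 := (Complex.abs_re_le_norm _).trans (hbd _ hm2)
  rw [hre _ (hs2 hm1)] at b1
  rw [hre _ (hs2 hm2)] at b2
  have hq1 := (hq _ (hball _ (hs2 hm1)).1 (hball _ (hs2 hm1)).2).2
  have hq2 := (hq _ (hball _ (hs2 hm2)).1 (hball _ (hs2 hm2)).2).2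
  have hlog := Real.log_le_log (by positivity) hfe
  rw [Real.log_mul (by positivity) (norm_ne_zero_iff.2 hq2), Real.log_mul hcc.ne' (by positivity),
    Real.log_rpow ht0] at hlog
  have c1 := (abs_le.1 b1).2
  have c2 := (abs_le.1 b2).1
  linarith

theorem ball_re {t r : ℝ} {z : ℂ} (hz : z ∈ Metric.ball ((2 : ℂ) + t * I) r) :
    2 - r < z.re ∧ z.re < 2 + r ∧ t - r < z.im ∧ z.im < t + r := by
  rw [Metric.mem_ball, dist_eq_norm] at hz
  have h4 := Complex.abs_re_le_norm (z - ((2 : ℂ) + t * I))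
  have h5 := Complex.abs_im_le_norm (z - ((2 : ℂ) + t * I))
  rw [Complex.sub_re] at h4
  rw [Complex.sub_im] at h5
  simp only [Complex.add_re, Complex.re_ofNat, Complex.mul_re, Complex.ofReal_re, Complex.I_re, mul_zero,
    Complex.ofReal_im, Complex.I_im, mul_one, sub_self, add_zero] at h4
  simp only [Complex.add_im, Complex.im_ofNat, Complex.mul_im, Complex.ofReal_re, Complex.I_im, mul_one,
    Complex.ofReal_im, Complex.I_re, mul_zero, add_zero, zero_add] at h5
  have h6 := abs_lt.1 (h4.trans_lt hz)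
  have h7 := abs_lt.1 (h5.trans_lt hz)
  refine ⟨by linarith, by linarith, by linarith, by linarith⟩

/-- the upper bound for the quotient of two entire functions -/
theorem ub_entire {ι : Type*} [Countable ι] {d L : ι → ℝ} (hL : ∀ i, 0 ≤ L i)
    (habs : ∀ t : ℝ, 1 < t → Summable fun i => |d i| * Real.exp (-(t * L i)))
    {q G V : ℂ → ℂ} {c0 T : ℝ} (_hc0 : 0 ≤ c0)
    (hq : ∀ s : ℂ, c0 < s.re → T < s.im → DifferentiableAt ℂ q s ∧ q s ≠ 0)
    (hE : ∀ s : ℂ, 1 < s.re → q s = cexp (DS d L s))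
    (hGq : ∀ s : ℂ, c0 < s.re → T < s.im → G s = V s * q s)
    (hG : Differentiable ℂ G) (hV : Differentiable ℂ V)
    {C A : ℝ} (hgr : ∀ s : ℂ, c0 < s.re → s.re ≤ 4 → 1 ≤ |s.im| → ‖G s‖ ≤ C * |s.im| ^ A ∧ ‖V s‖ ≤ C * |s.im| ^ A)
    {v0 : ℝ} (hv0 : 0 < v0) (hV2 : ∀ t : ℝ, 1 ≤ t → v0 ≤ ‖V ((2 : ℂ) + t * I)‖) {R : ℝ} (hR : 0 < R)
    (hRc : R < 2 - c0) :
    ∃ A : ℝ, ∀ᶠ t : ℝ in atTop, ∀ z ∈ Metric.closedBall ((2 : ℂ) + t * I) R, Real.log ‖q z‖ ≤ A * Real.log t := by
  set Rm : ℝ := max R 1 with hRm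
  have hc2 : 0 < 2 - c0 := by linarith
  by_cases hc1 : c0 < 1
  swap
  · push Not at hc1
    -- everything happens to the right of `1`
    refine ⟨∑' i, |d i| * Real.exp (-((2 - R) * L i)), ?_⟩
    filter_upwards [eventually_ge_atTop (Real.exp 1)] with t hte z hz
    have ht0 : 0 < t := (Real.exp_pos 1).trans_le hte
    have hlt : 1 ≤ Real.log t := by
      rw [Real.le_log_iff_exp_le ht0]
      exact hte
    have hzr : 2 - R ≤ z.re := by
      by_contra hcon
      push Not at hcon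
      have hz2 : z ∈ Metric.ball ((2 : ℂ) + t * I) (2 - z.re) := Metric.closedBall_subset_ball (by linarith) hz
      have := (ball_re hz2).1
      linarith
    have hz1 : 1 < z.re := by linarith
    rw [hE z hz1, Complex.norm_exp, Real.log_exp]
    have h0 : 0 ≤ ∑' i, |d i| * Real.exp (-((2 - R) * L i)) := tsum_nonneg fun i => by positivity
    refine (Complex.re_le_norm _).trans ((DS_norm_le (habs _ hz1)).trans (le_trans ?_ (le_mul_of_one_le_right h0 hlt)))
    refine Summable.tsum_le_tsum (fun i => ?_) (habs _ hz1) (habs _ (by linarith))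
    have := hL i
    gcongr
  have hRm2 : Rm < 2 - c0 := max_lt hRc (by linarith)
  set R1 : ℝ := (Rm + (2 - c0)) / 2 with hR1
  set R2 : ℝ := (R1 + (2 - c0)) / 2 with hR2
  have hRRm : R ≤ Rm := le_max_left _ _
  have h1Rm : 1 ≤ Rm := le_max_right _ _
  have h1 : Rm < R1 := by rw [hR1]; linarith
  have h2 : R1 < R2 := by rw [hR2]; linarith
  have h3 : R2 < 2 - c0 := by rw [hR2]; linarith
  set C' : ℝ := max C 1 with hC'
  set A' : ℝ := max A 0 with hA'
  have hC'1 : 1 ≤ C' := le_max_right _ _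
  have hA'0 : 0 ≤ A' := le_max_right _ _
  set K : ℝ := (R1 + Rm) / (R1 - Rm) with hK
  have hK0 : 0 < K := div_pos (by linarith) (by linarith)
  have hlC : 0 ≤ Real.log C' := Real.log_nonneg hC'1
  refine ⟨K * (Real.log C' + 2 * A' + |Real.log v0|), ?_⟩
  filter_upwards [eventually_gt_atTop (T + R2), eventually_ge_atTop (Real.exp 1), eventually_ge_atTop (4 : ℝ)]
    with t htT hte ht4 z hz
  have ht0 : 0 < t := by linarith
  have hlt : 1 ≤ Real.log t := by
    rw [Real.le_log_iff_exp_le ht0]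
    exact hte
  set z0 : ℂ := (2 : ℂ) + t * I with hz0
  have hb : ∀ z ∈ Metric.ball z0 R2, c0 < z.re ∧ T < z.im := by
    intro z hz
    obtain ⟨a1, a2, a3, a4⟩ := ball_re hz
    exact ⟨by linarith, by linarith⟩
  have hDd := DS_diff hL habs
  have hopen : IsOpen {s : ℂ | 1 < s.re} := isOpen_lt continuous_const Complex.continuous_re
  have hb1 : ∀ z ∈ Metric.ball z0 1, 1 < z.re := fun z hz => by linarith [(ball_re hz).1]
  obtain ⟨h, hh1, hh2, -⟩ := t_log (w0 := 0) (q := q) (z0 := z0) (R := R2) (r := 1) one_pos (by linarith)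
    (fun z hz => (hq z (hb z hz).1 (hb z hz).2).1) (fun z hz => (hq z (hb z hz).1 (hb z hz).2).2)
    (g := DS d L) (fun z hz => hDd.differentiableAt (hopen.mem_nhds (hb1 z hz))) (fun z hz => hE z (hb1 z hz))
  have hsub : Metric.closedBall z0 R1 ⊆ Metric.ball z0 R2 := Metric.closedBall_subset_ball h2
  -- polynomial growth
  have hgr' : ∀ z ∈ Metric.closedBall z0 R1, C * |z.im| ^ A ≤ Real.exp (Real.log C' + 2 * A' * Real.log t) := by
    intro z hz
    obtain ⟨a1, a2, a3, a4⟩ := ball_re (hsub hz)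
    have hi1 : 1 ≤ |z.im| := by
      rw [abs_of_nonneg (by linarith)]
      linarith
    have hi2 : |z.im| ≤ t ^ 2 := by
      rw [abs_of_nonneg (by linarith)]
      nlinarith
    have e1 : Real.exp (Real.log C' + 2 * A' * Real.log t) = C' * (t ^ 2) ^ A' := by
      rw [Real.exp_add, Real.exp_log (by linarith), Real.rpow_def_of_pos (by positivity), Real.log_pow]
      congr 2
      push_cast
      ring
    rw [e1]
    have hp : 0 ≤ |z.im| ^ A := by positivity
    calc C * |z.im| ^ A ≤ C' * |z.im| ^ A := mul_le_mul_of_nonneg_right (le_max_left _ _) hp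
      _ ≤ C' * |z.im| ^ A' := mul_le_mul_of_nonneg_left (Real.rpow_le_rpow_of_exponent_le hi1 (le_max_left _ _))
          (by linarith)
      _ ≤ _ := mul_le_mul_of_nonneg_left (Real.rpow_le_rpow (by linarith) hi2 hA'0) (by linarith)
  have hG' : ∀ z ∈ Metric.closedBall z0 R1, ‖G z‖ ≤ Real.exp (Real.log C' + 2 * A' * Real.log t) ∧
      ‖V z‖ ≤ Real.exp (Real.log C' + 2 * A' * Real.log t) := by
    intro z hz
    obtain ⟨a1, a2, a3, a4⟩ := ball_re (hsub hz)
    obtain ⟨b1, b2⟩ := hgr z (by linarith) (by linarith) (by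
      rw [abs_of_nonneg (by linarith)]
      linarith)
    exact ⟨b1.trans (hgr' z hz), b2.trans (hgr' z hz)⟩
  have hV0 := hV2 t (by linarith)
  have hpo := t_poisson (G := G) (V := V) (h := h) (z0 := z0) (r := Rm) (R := R1)
    (B := Real.log C' + 2 * A' * Real.log t) (by linarith) h1 hG hV
    (norm_pos_iff.1 (hv0.trans_le hV0)) (fun z hz => hh1 z (hsub hz)) (fun z hz => by
      rw [← hh2 z (hsub hz)]
      exact hGq z (hb z (hsub hz)).1 (hb z (hsub hz)).2) (by positivity) (fun z hz => (hG' z hz).1)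
    (fun z hz => (hG' z hz).2) z (Metric.closedBall_subset_closedBall hRRm hz)
  have hz2 : z ∈ Metric.ball z0 R2 := Metric.closedBall_subset_ball (by linarith) hz
  rw [hh2 z hz2, Complex.norm_exp, Real.log_exp]
  refine hpo.trans ?_
  rw [← hK]
  have h5 : Real.log v0 ≤ Real.log ‖V z0‖ := Real.log_le_log hv0 hV0
  have h6 := neg_abs_le (Real.log v0)
  have h7 : Real.log C' + 2 * A' * Real.log t - Real.log ‖V z0‖ ≤
      (Real.log C' + 2 * A' + |Real.log v0|) * Real.log t := by
    have := abs_nonneg (Real.log v0)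
    nlinarith
  calc K * (Real.log C' + 2 * A' * Real.log t - Real.log ‖V z0‖) ≤
      K * ((Real.log C' + 2 * A' + |Real.log v0|) * Real.log t) := mul_le_mul_of_nonneg_left h7 hK0.le
    _ = _ := by ring

end Pool.Agent.TH949.TX
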