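import Mathlib
import Pool.Agent.TH949.TX.ZF
import Pool.Agent.TH949.TX.FE

/-! Singularities off the real line near `Re s = 1/2`, from a functional equation. -/

set_option autoImplicit false

open Complex MeasureTheory Set Filter Topology
open Pool.Agent.W189.TP (DS DS_diff DS_norm_le summ_mono)
open Pool.Agent.TH949.RES (GF KK KK_nonneg)

namespace Pool.Agent.TH949.TX

theorem hex_abs {ι : Type*} [Countable ι] {d L : ι → ℝ} (hL : ∀ i, 0 ≤ L i)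
    (habs : ∀ t : ℝ, 1 < t → Summable fun i => |d i| * Real.exp (-(t * L i)))
    {F : ℂ → ℂ} (hE : ∀ s : ℂ, 1 < s.re → F s = cexp (DS d L s))
    {N : ℕ} (hN : 1 ≤ N) {κ : Fin N → ℂ}
    (hκ : Multiset.map (fun j => (starRingEnd ℂ) (κ j)) Finset.univ.val = Multiset.map κ Finset.univ.val)
    {Q T : ℝ} (hT : 0 ≤ T) {ω : ℂ} (hω : ω ≠ 0)
    (hreg : ∀ s : ℂ, 0 < s.re → T < s.im → meromorphicOrderAt F s = 0 → DifferentiableAt ℂ F s ∧ F s ≠ 0)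
    (hUB : ∀ c0 : ℝ, 1 / 4 ≤ c0 → c0 < 1 / 2 →
      (∀ s : ℂ, c0 < s.re → T < s.im → DifferentiableAt ℂ F s ∧ F s ≠ 0) →
      ∀ R : ℝ, 0 < R → R < 2 - c0 → ∃ A : ℝ, ∀ᶠ t : ℝ in atTop,
        ∀ z ∈ Metric.closedBall ((2 : ℂ) + t * I) R, Real.log ‖F z‖ ≤ A * Real.log t)
    (hFE : ∀ a : ℝ, 1 / 4 ≤ a → a < 1 / 2 → ∃ σ M m : ℝ, a < σ ∧ σ < 1 / 2 ∧ 0 < M ∧ 0 < m ∧
      ∃ᶠ t : ℝ in atTop, ∃ b1 b2 : ℂ, ‖b1‖ ≤ M ∧ m ≤ ‖b2‖ ∧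
        F ((σ : ℂ) + t * I) * b1 * GF κ Q ((σ : ℂ) + t * I) =
          ω * (F (1 - ((σ : ℂ) + t * I)) * b2 * GF κ Q (1 - ((σ : ℂ) + t * I))) ∧
        ‖F (1 - ((σ : ℂ) + t * I))‖ = ‖F (((1 - σ : ℝ) : ℂ) + t * I)‖) :
    ∀ δ : ℝ, 0 < δ → ∃ ρ : ℂ, 1 / 2 - δ < ρ.re ∧ ρ.im ≠ 0 ∧ meromorphicOrderAt F ρ ≠ 0 := by
  intro δ hδ
  by_contra hcon
  push Not at hcon
  set c0 : ℝ := max (1 / 2 - δ) (1 / 4) with hc0
  have hc00 : 1 / 4 ≤ c0 := le_max_right _ _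
  have hc01 : c0 < 1 / 2 := max_lt (by linarith) (by norm_num)
  have hq : ∀ s : ℂ, c0 < s.re → T < s.im → DifferentiableAt ℂ F s ∧ F s ≠ 0 := by
    intro s h1 h2
    refine hreg s (by linarith) h2 ?_
    exact hcon s ((le_max_left _ _).trans_lt h1) (by
      have : 0 < s.im := hT.trans_lt h2
      exact this.ne')
  obtain ⟨σ, M, m, hσ1, hσ2, hM, hm, hfr⟩ := hFE c0 hc00 hc01
  obtain ⟨c, T1, hc, hT1, hGF⟩ := GF_lower hκ Q hσ2.le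
  have hN' : (0 : ℝ) < N := by exact_mod_cast hN
  refine zf_core hL habs (q := F) (c0 := c0) (T := T) hq hE (hUB c0 hc00 hc01 hq) hσ1 hσ2
    (β := (N : ℝ) * (1 / 2 - σ)) (mul_pos hN' (by linarith)) (cc := ‖ω‖ * m * c / M)
    (by have := norm_pos_iff.2 hω; positivity) ?_
  refine (hfr.and_eventually ((eventually_ge_atTop T1).and (eventually_gt_atTop (KK κ)))).mono ?_
  rintro t ⟨⟨b1, b2, hb1, hb2, hid, hcj⟩, htT, htK⟩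
  have ht0 : 0 < t := by linarith
  set s : ℂ := (σ : ℂ) + t * I with hs
  have him : s.im = t := by simp [hs]
  have hG : 0 < ‖GF κ Q s‖ := norm_pos_iff.2 (GF_ne (by rw [him, abs_of_pos ht0]; exact htK) Q)
  have h4 := hGF t htT
  rw [← hs] at h4
  have h3 := congrArg norm hid
  rw [norm_mul, norm_mul, norm_mul, norm_mul, norm_mul, hcj] at h3
  rw [← hcj] at h3 ⊢
  rw [hcj] at h3 ⊢
  set x := ‖F (((1 - σ : ℝ) : ℂ) + t * I)‖ with hx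
  have hx0 : 0 ≤ x := norm_nonneg _
  have hw : 0 < ‖ω‖ := norm_pos_iff.2 hω
  have hp : 0 < t ^ ((N : ℝ) * (1 / 2 - σ)) := by positivity
  -- `‖F s‖ M ‖GF s‖ ≥ ‖ω‖ x m c t^.. ‖GF s‖`
  have h5 : ‖ω‖ * (x * m * (c * t ^ ((N : ℝ) * (1 / 2 - σ)) * ‖GF κ Q s‖)) ≤ ‖F s‖ * M * ‖GF κ Q s‖ := by
    calc ‖ω‖ * (x * m * (c * t ^ ((N : ℝ) * (1 / 2 - σ)) * ‖GF κ Q s‖)) ≤
          ‖ω‖ * (x * ‖b2‖ * ‖GF κ Q (1 - s)‖) := by gcongr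
      _ = ‖F s‖ * ‖b1‖ * ‖GF κ Q s‖ := h3.symm
      _ ≤ _ := by gcongr
  have h6 : ‖ω‖ * m * c * t ^ ((N : ℝ) * (1 / 2 - σ)) * x ≤ ‖F s‖ * M := by
    refine le_of_mul_le_mul_right ?_ hG
    linarith
  rw [div_mul_eq_mul_div, div_mul_eq_mul_div, div_le_iff₀ hM]
  exact h6

end Pool.Agent.TH949.TX
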