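import Mathlib
import Pool.Agent.TH949.TX.Hex
import Pool.Agent.TH949.TX.Main
import Pool.Agent.TH949.RES.RAM2

/-! Application: `L(s, Π × Π~) / ζ(s)` for a cuspidal representation of `GL_n` over `ℚ`. -/

set_option autoImplicit false

open Complex MeasureTheory Set Filter Topology
open Pool.Agent.W189.TP (DS DS_diff DS_norm_le summ_mono PS LL LL_nonneg exp_LL rexp_LL summable_pp zetaS norm_term
  summable_primes_subtype summ_cplx logRS bad bad_diff bad_le bad_ge exists_line dd dd_le pr_rpow_lt_one)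
open Pool.Agent.TH949.RES (GF KK KK_nonneg CuspidalRep xi_id')

namespace Pool.Agent.TH949.TX

variable {S : Finset Nat.Primes} {n : ℕ}

theorem summable_dd' {α : PS S → Fin n → ℂ} (h : ∀ σ : ℝ, 1 < σ → Summable fun x : PS S × ℕ =>
    ‖∑ i, α x.1 i ^ (x.2 + 1)‖ ^ 2 / ((x.2 : ℝ) + 1) * (((x.1.1 : ℕ) : ℝ) ^ (-σ)) ^ (x.2 + 1)) {t : ℝ}
    (ht : 1 < t) : Summable fun x : PS S × ℕ => |dd α x| * Real.exp (-(t * LL x)) := by
  have h1 := h t ht
  have h2 := summable_pp (S := S) (fun _ => 1) (fun _ => zero_le_one) (by linarith : 0 < t)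
    ((summable_primes_subtype ht).congr fun p => (one_mul _).symm)
  refine Summable.of_nonneg_of_le (fun x => by positivity) (fun x => ?_) (h1.add h2)
  rw [← rexp_LL, ← add_mul]
  exact mul_le_mul_of_nonneg_right (dd_le x) (Real.exp_pos _).le

theorem exp_dd' {α : PS S → Fin n → ℂ} (h : ∀ σ : ℝ, 1 < σ → Summable fun x : PS S × ℕ =>
    ‖∑ i, α x.1 i ^ (x.2 + 1)‖ ^ 2 / ((x.2 : ℝ) + 1) * (((x.1.1 : ℕ) : ℝ) ^ (-σ)) ^ (x.2 + 1)) {s : ℂ}
    (hs : 1 < s.re) :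
    Complex.exp (DS (dd α) LL s) * (riemannZeta s * bad S (fun _ (_ : Fin 1) => 1) s) =
      Complex.exp (logRS α s) := by
  have hb : bad S (fun _ (_ : Fin 1) => 1) s = ∏ p ∈ S, (1 - ((p : ℕ) : ℂ) ^ (-s)) := by
    unfold bad
    simp
  rw [hb, ← zetaS hs, ← Complex.exp_add]
  congr 1
  have hz : Summable fun x : PS S × ℕ => ((1 / ((x.2 : ℝ) + 1) : ℝ) : ℂ) * Complex.exp (-(s * LL x)) := by
    have h1 := summable_pp (S := S) (fun _ => 1) (fun _ => zero_le_one) (by linarith : 0 < s.re)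
      ((summable_primes_subtype hs).congr fun p => (one_mul _).symm)
    refine Summable.of_norm_bounded h1 fun x => ?_
    rw [norm_term (fun x : PS S × ℕ => 1 / ((x.2 : ℝ) + 1)) LL s x]
    refine mul_le_mul_of_nonneg_right ?_ (Real.exp_pos _).le
    rw [abs_of_nonneg (by positivity), div_le_one (by positivity)]
    have : (0 : ℝ) ≤ x.2 := Nat.cast_nonneg _
    linarith
  have hd : Summable fun x : PS S × ℕ => ((dd α x : ℝ) : ℂ) * Complex.exp (-(s * LL x)) :=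
    summ_cplx LL_nonneg le_rfl (summable_dd' h hs)
  unfold DS logRS
  rw [← hd.tsum_add hz]
  refine tsum_congr fun x => ?_
  rw [← add_mul, ← Complex.ofReal_add, exp_LL]
  congr 2
  unfold dd
  field_simp
  ring

/-- `ζ₁` without the Euler factors in `S` -/
noncomputable def VV (S : Finset Nat.Primes) (s : ℂ) : ℂ := riemannZeta₁ s * bad S (fun _ (_ : Fin 1) => 1) s

theorem VV_diff (S : Finset Nat.Primes) : Differentiable ℂ (VV S) := differentiable_riemannZeta₁.mul (bad_diff S _)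

theorem bad1_pos {s : ℂ} (hs : 0 < s.re) : 0 < ‖bad S (fun _ (_ : Fin 1) => 1) s‖ := by
  refine lt_of_lt_of_le ?_ (bad_ge S _ s)
  refine Finset.prod_pos fun p _ => Finset.prod_pos fun i _ => abs_pos.2 ?_
  have := pr_rpow_lt_one p hs
  rw [norm_one, one_mul]
  linarith

theorem DS_conj {ι : Type*} (d L : ι → ℝ) (s : ℂ) : DS d L ((starRingEnd ℂ) s) = (starRingEnd ℂ) (DS d L s) := by
  unfold DS
  rw [Complex.conj_tsum]
  refine tsum_congr fun i => ?_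
  rw [map_mul, Complex.conj_ofReal, ← Complex.exp_conj, map_neg, map_mul, Complex.conj_ofReal]

theorem conj_ext {f : ℂ → ℂ} (hf : Differentiable ℂ f)
    (h : ∀ s : ℂ, 1 < s.re → f ((starRingEnd ℂ) s) = (starRingEnd ℂ) (f s)) (s : ℂ) :
    f ((starRingEnd ℂ) s) = (starRingEnd ℂ) (f s) := by
  set g : ℂ → ℂ := fun s => (starRingEnd ℂ) (f ((starRingEnd ℂ) s)) with hg
  have hgd : Differentiable ℂ g := fun s => by
    have h1 : DifferentiableAt ℂ f ((starRingEnd ℂ) s) := hf _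
    have h2 := h1.conj_conj
    rw [Complex.conj_conj] at h2
    exact h2
  have h1 : AnalyticOnNhd ℂ f univ := hf.differentiableOn.analyticOnNhd isOpen_univ
  have h2 : AnalyticOnNhd ℂ g univ := hgd.differentiableOn.analyticOnNhd isOpen_univ
  have h3 : f =ᶠ[𝓝 2] g := by
    filter_upwards [(isOpen_lt continuous_const Complex.continuous_re).mem_nhds
      (show (1 : ℝ) < (2 : ℂ).re by norm_num)] with z hz
    have h4 := h z hz
    rw [hg]
    simp only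
    rw [h4, Complex.conj_conj]
  have h4 := h1.eqOn_of_preconnected_of_eventuallyEq h2 isPreconnected_univ (mem_univ _) h3
    (mem_univ ((starRingEnd ℂ) s))
  rw [h4, hg]
  simp

theorem pr_conj (p : Nat.Primes) (s : ℂ) :
    ((p : ℕ) : ℂ) ^ (-((starRingEnd ℂ) s)) = (starRingEnd ℂ) (((p : ℕ) : ℂ) ^ (-s)) := by
  rw [Pool.Agent.TH949.RES.pr_cpow, Pool.Agent.TH949.RES.pr_cpow, ← Complex.exp_conj, map_neg, map_mul,
    Complex.conj_ofReal]

theorem bad1_conj (s : ℂ) : bad S (fun _ (_ : Fin 1) => 1) ((starRingEnd ℂ) s) =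
    (starRingEnd ℂ) (bad S (fun _ (_ : Fin 1) => 1) s) := by
  unfold bad
  rw [map_prod]
  refine Finset.prod_congr rfl fun p _ => ?_
  rw [map_prod]
  refine Finset.prod_congr rfl fun i _ => ?_
  rw [pr_conj]
  simp

theorem VV_conj (s : ℂ) : VV S ((starRingEnd ℂ) s) = (starRingEnd ℂ) (VV S s) := by
  refine conj_ext (VV_diff S) (fun s hs => ?_) s
  have hs1 : s ≠ 1 := by
    rintro rfl
    simp at hs
  have hs2 : (starRingEnd ℂ) s ≠ 1 := by
    intro h0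
    rw [← Complex.conj_re, h0] at hs
    simp at hs
  unfold VV
  rw [Pool.Agent.H437R2.z1_of_ne hs1, Pool.Agent.H437R2.z1_of_ne hs2, bad1_conj, riemannZeta_conj]
  simp

theorem VV_ne {s : ℂ} (hs : 0 < s.re) (h0 : riemannZeta₁ s ≠ 0) : VV S s ≠ 0 :=
  mul_ne_zero h0 (norm_pos_iff.1 (bad1_pos hs))

theorem VV_real {x : ℝ} (hx : 0 < x) : VV S (x : ℂ) ≠ 0 :=
  VV_ne (by simpa using hx) fun h0 => Pool.Agent.H437R2.z1_zero_im (by simpa using hx) h0 (by simp)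

theorem VV_one {s : ℂ} (hs : 1 < s.re) : VV S s ≠ 0 :=
  VV_ne (by linarith) fun h0 => by linarith [Pool.Agent.H437R2.z1_zero_re h0]

theorem UU_eq {α : PS S → Fin n → ℂ} {m : ℕ} {β : Nat.Primes → Fin m → ℂ}
    (h : ∀ σ : ℝ, 1 < σ → Summable fun x : PS S × ℕ =>
    ‖∑ i, α x.1 i ^ (x.2 + 1)‖ ^ 2 / ((x.2 : ℝ) + 1) * (((x.1.1 : ℕ) : ℝ) ^ (-σ)) ^ (x.2 + 1)) {G : ℂ → ℂ}
    (hE : ∀ s : ℂ, 1 < s.re → G s * ∏ p ∈ S, ∏ i, (1 - β p i * ((p : ℕ) : ℂ) ^ (-s)) =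
      (s - 1) * Complex.exp (logRS α s)) {s : ℂ} (hs : 1 < s.re) :
    G s * bad S β s = VV S s * cexp (DS (dd α) LL s) := by
  have hs1 : s ≠ 1 := by
    rintro rfl
    simp at hs
  have h1 := exp_dd' h hs
  have h2 := hE s hs
  unfold VV
  rw [Pool.Agent.H437R2.z1_of_ne hs1]
  have e : bad S β s = ∏ p ∈ S, ∏ i, (1 - β p i * ((p : ℕ) : ℂ) ^ (-s)) := rfl
  rw [e, h2, ← h1]
  ring

theorem bad_le' {m : ℕ} (β : Nat.Primes → Fin m → ℂ) {s : ℂ} (hs : 0 ≤ s.re) :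
    ‖bad S β s‖ ≤ ∏ p ∈ S, ∏ i, (1 + ‖β p i‖) := by
  refine (bad_le S β s).trans ?_
  refine Finset.prod_le_prod (fun p _ => Finset.prod_nonneg fun i _ => by positivity) fun p _ => ?_
  refine Finset.prod_le_prod (fun i _ => by positivity) fun i _ => ?_
  have hp : (1 : ℝ) ≤ ((p : ℕ) : ℝ) := by exact_mod_cast p.2.one_lt.le
  have h1 : ((p : ℕ) : ℝ) ^ (-s.re) ≤ 1 := Real.rpow_le_one_of_one_le_of_nonpos hp (by linarith)
  have h2 := norm_nonneg (β p i)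
  nlinarith

theorem UU_growth {m : ℕ} {β : Nat.Primes → Fin m → ℂ} {G : ℂ → ℂ}
    (hgr : ∀ a b : ℝ, ∃ C A : ℝ, ∀ s : ℂ, a ≤ s.re → s.re ≤ b → ‖G s‖ ≤ C * (1 + |s.im|) ^ A) :
    ∃ C A : ℝ, ∀ s : ℂ, 1 / 4 ≤ s.re → s.re ≤ 4 → 1 ≤ |s.im| → ‖G s * bad S β s‖ ≤ C * |s.im| ^ A ∧
      ‖VV S s‖ ≤ C * |s.im| ^ A := by
  obtain ⟨C, A, hCA⟩ := hgr (1 / 4) 4
  set M1 : ℝ := ∏ p ∈ S, ∏ i, (1 + ‖β p i‖) with hM1
  set M2 : ℝ := ∏ p ∈ S, ∏ i : Fin 1, (1 + ‖(1 : ℂ)‖) with hM2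
  have hM10 : 0 ≤ M1 := by positivity
  have hM20 : 0 ≤ M2 := by positivity
  refine ⟨|C| * 2 ^ |A| * M1 + 180 * M2, |A| + 2, fun s h1 h2 h3 => ?_⟩
  have h0 : 0 < |s.im| := by linarith
  have hb1 := bad_le' (S := S) β (s := s) (by linarith)
  have hb2 := bad_le' (S := S) (fun _ (_ : Fin 1) => (1 : ℂ)) (s := s) (by linarith)
  have e1 : |s.im| ^ (|A| + 2) = |s.im| ^ |A| * |s.im| ^ 2 := by
    rw [Real.rpow_add h0]
    norm_num
  have h4 : 1 ≤ |s.im| ^ 2 := one_le_pow₀ h3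
  have h5 : 1 ≤ |s.im| ^ |A| := Real.one_le_rpow h3 (abs_nonneg A)
  have h6 : |s.im| ^ |A| ≤ |s.im| ^ (|A| + 2) := by
    rw [e1]
    exact le_mul_of_one_le_right (by linarith) h4
  have h7 : |s.im| ^ 2 ≤ |s.im| ^ (|A| + 2) := by
    rw [e1]
    exact le_mul_of_one_le_left (by linarith) h5
  have h8 : (1 + |s.im|) ^ A ≤ 2 ^ |A| * |s.im| ^ |A| := by
    calc (1 + |s.im|) ^ A ≤ (1 + |s.im|) ^ |A| :=
          Real.rpow_le_rpow_of_exponent_le (by linarith) (le_abs_self A)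
      _ ≤ (2 * |s.im|) ^ |A| := Real.rpow_le_rpow (by linarith) (by linarith) (abs_nonneg A)
      _ = _ := Real.mul_rpow (by norm_num) h0.le
  have h9 : ‖G s‖ ≤ |C| * 2 ^ |A| * |s.im| ^ |A| := by
    have h10 : 0 ≤ (1 + |s.im|) ^ A := by positivity
    calc ‖G s‖ ≤ C * (1 + |s.im|) ^ A := hCA s h1 h2
      _ ≤ |C| * (2 ^ |A| * |s.im| ^ |A|) := mul_le_mul (le_abs_self C) h8 h10 (abs_nonneg C)
      _ = _ := by ring
  have h11 : ‖riemannZeta₁ s‖ ≤ 180 * |s.im| ^ 2 := by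
    have hs0 : 0 < s.re := by linarith
    rw [Pool.Agent.H437R2.z1_eq hs0]
    have a1 := Pool.Agent.H437R2.Hf_norm_le hs0
    have a2 : 1 / s.re ≤ 4 := by
      rw [div_le_iff₀ hs0]; linarith
    have a3 : ‖s - 1‖ ≤ ‖s‖ + 1 := by
      have := norm_sub_le s 1
      rwa [norm_one] at this
    have a4 : ‖s‖ ≤ 5 * |s.im| := by
      have := Complex.norm_le_abs_re_add_abs_im s
      rw [abs_of_pos hs0] at this
      linarith
    unfold Pool.Agent.H437R2.Zt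
    calc ‖s - s * (s - 1) * Pool.Agent.H437R2.Hf s‖ ≤ ‖s‖ + ‖s * (s - 1) * Pool.Agent.H437R2.Hf s‖ :=
          norm_sub_le _ _
      _ = ‖s‖ + ‖s‖ * ‖s - 1‖ * ‖Pool.Agent.H437R2.Hf s‖ := by rw [norm_mul, norm_mul]
      _ ≤ ‖s‖ + ‖s‖ * (‖s‖ + 1) * 4 := by gcongr; exact a1.trans a2
      _ ≤ 5 * |s.im| + 5 * |s.im| * (5 * |s.im| + 1) * 4 := by gcongr
      _ ≤ _ := by nlinarith
  constructor
  · rw [norm_mul]
    calc ‖G s‖ * ‖bad S β s‖ ≤ (|C| * 2 ^ |A| * |s.im| ^ |A|) * M1 := by gcongr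
      _ ≤ (|C| * 2 ^ |A| * |s.im| ^ (|A| + 2)) * M1 := by gcongr
      _ = |C| * 2 ^ |A| * M1 * |s.im| ^ (|A| + 2) := by ring
      _ ≤ _ := by
        refine mul_le_mul_of_nonneg_right ?_ (by positivity)
        linarith
  · unfold VV
    rw [norm_mul]
    calc ‖riemannZeta₁ s‖ * ‖bad S (fun _ (_ : Fin 1) => (1 : ℂ)) s‖ ≤ (180 * |s.im| ^ 2) * M2 := by gcongr
      _ ≤ (180 * |s.im| ^ (|A| + 2)) * M2 := by gcongr
      _ = 180 * M2 * |s.im| ^ (|A| + 2) := by ring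
      _ ≤ _ := by
        refine mul_le_mul_of_nonneg_right ?_ (by positivity)
        have : 0 ≤ |C| * 2 ^ |A| * M1 := by positivity
        linarith

theorem VV_lower (S : Finset Nat.Primes) : ∃ v0 : ℝ, 0 < v0 ∧ ∀ t : ℝ, v0 ≤ ‖VV S ((2 : ℂ) + t * I)‖ := by
  refine ⟨1 / 4 * ∏ p ∈ S, ∏ i : Fin 1, |1 - ‖(1 : ℂ)‖ * ((p : ℕ) : ℝ) ^ (-(2 : ℝ))|, ?_, fun t => ?_⟩
  · refine mul_pos (by norm_num) (Finset.prod_pos fun p _ => Finset.prod_pos fun i _ => abs_pos.2 ?_)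
    have := pr_rpow_lt_one p (show (0 : ℝ) < 2 by norm_num)
    rw [norm_one, one_mul]
    linarith
  · unfold VV
    rw [norm_mul]
    have h1 := Pool.Agent.H437R2.z1_lower t
    have h2 := bad_ge S (fun _ (_ : Fin 1) => (1 : ℂ)) ((2 : ℂ) + t * I)
    have e : ((2 : ℂ) + t * I).re = 2 := by simp
    rw [e] at h2
    exact mul_le_mul h1 h2 (Finset.prod_nonneg fun p _ => Finset.prod_nonneg fun i _ => abs_nonneg _)
      (norm_nonneg _)

end Pool.Agent.TH949.TX
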