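import Mathlib
import Pool.Agent.TH949.TX.Rat

/-! Application: `L(s, Π × Π~) / ζ(s)` for a cuspidal representation of `GL_n` over `ℚ`. -/

set_option autoImplicit false

open Complex MeasureTheory Set Filter Topology
open Pool.Agent.W189.TP (DS DS_diff DS_norm_le summ_mono PS LL LL_nonneg exp_LL rexp_LL summable_pp zetaS norm_term
  summable_primes_subtype summ_cplx logRS bad bad_diff bad_le bad_ge exists_line dd dd_le pr_rpow_lt_one zeta_freq)
open Pool.Agent.TH949.RES (GF KK KK_nonneg CuspidalRep xi_id' Q_cpow gr_ne0)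

namespace Pool.Agent.TH949.TX

variable {S : Finset Nat.Primes} {n : ℕ}

/-- the functional equation of `L(s, Π × Π~)` -/
theorem rat_fe {κ : Fin (n ^ 2 - 1) → ℂ} {G Ξ : ℂ → ℂ} {Q : ℝ} {ω : ℂ} (hQ : 0 < Q) (hG : Differentiable ℂ G)
    (hΞ : Differentiable ℂ Ξ)
    (hid : ∀ s : ℂ, 1 < s.re → Ξ s = s * G s * ((Q : ℂ) ^ s * Gammaℝ s * ∏ j, Gammaℝ (s + κ j)))
    (hfe : ∀ s : ℂ, Ξ (1 - s) = ω * Ξ s) {s : ℂ} (hs : 1 + ∑ i, ‖κ i‖ < |s.im|) :
    (1 - s) * G (1 - s) * (Gammaℝ (1 - s) * GF κ Q (1 - s)) = ω * (s * G s * (Gammaℝ s * GF κ Q s)) := by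
  have hle : ∀ i, ‖κ i‖ ≤ ∑ i, ‖κ i‖ := fun i =>
    Finset.single_le_sum (f := fun i => ‖κ i‖) (fun _ _ => norm_nonneg _) (Finset.mem_univ i)
  have hnn : 0 ≤ ∑ i, ‖κ i‖ := Finset.sum_nonneg fun _ _ => norm_nonneg _
  have hgam : ∀ s : ℂ, 1 + ∑ i, ‖κ i‖ < |s.im| → Gammaℝ s ≠ 0 ∧ ∏ j, Gammaℝ (s + κ j) ≠ 0 := by
    intro s hs
    refine ⟨gr_ne0 fun h0 => ?_, ?_⟩
    · rw [h0, abs_zero] at hs
      linarith
    · rw [Finset.prod_ne_zero_iff]
      intro j _
      refine gr_ne0 ?_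
      rw [Complex.add_im]
      intro h0
      have a1 := Complex.abs_im_le_norm (κ j)
      have a3 := hle j
      have a5 : s.im = -(κ j).im := by linarith
      rw [a5, abs_neg] at hs
      linarith
  have hxi : ∀ s : ℂ, 1 + ∑ i, ‖κ i‖ < |s.im| →
      Ξ s = s * G s * (Gammaℝ s * GF κ Q s) := by
    intro s hs
    have h1 := xi_id' hQ hG hΞ hid s
    obtain ⟨h2, h2'⟩ := hgam s hs
    have h3 : (∏ j, (Gammaℝ (s + κ j))⁻¹) = (∏ j, Gammaℝ (s + κ j))⁻¹ := by
      rw [← Finset.prod_inv_distrib]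
    have h4 : cexp (-(s * Real.log Q)) * cexp (s * Real.log Q) = 1 := by
      rw [← Complex.exp_add]
      simp
    rw [h3] at h1
    rw [h1]
    unfold GF
    field_simp
    linear_combination (-Ξ s) * h4
  have h2 : 1 + ∑ i, ‖κ i‖ < |(1 - s).im| := by simpa using hs
  rw [← hxi s hs, ← hxi (1 - s) h2]
  exact hfe s

theorem rat_core (hn : 2 ≤ n) {α : PS S → Fin n → ℂ} {β : Nat.Primes → Fin (n ^ 2) → ℂ}
    {κ : Fin (n ^ 2 - 1) → ℂ} (h : CuspidalRep S α β κ) : ∃ F : ℂ → ℂ, MeromorphicOn F univ ∧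
    (∀ s : ℂ, 1 < s.re → F s = cexp (DS (dd α) LL s)) ∧
    (∀ x : ℝ, 1 / 2 ≤ x → 0 ≤ meromorphicOrderAt F (x : ℂ)) ∧
    ∀ δ : ℝ, 0 < δ → ∃ ρ : ℂ, 1 / 2 - δ < ρ.re ∧ ρ.im ≠ 0 ∧ meromorphicOrderAt F ρ ≠ 0 := by
  obtain ⟨G, Ξ, Q, ω, hG, hΞ, hQ, hω, hE, hgr, hid, hfe⟩ := h.continuation
  have hn2 : 4 ≤ n ^ 2 := by nlinarith
  set U : ℂ → ℂ := fun s => G s * bad S β s with hU
  have hUd : Differentiable ℂ U := hG.mul (bad_diff S β)
  have hVd := VV_diff S
  have hUV : ∀ s : ℂ, 1 < s.re → U s = VV S s * cexp (DS (dd α) LL s) :=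
    fun s hs => UU_eq h.summable hE hs
  obtain ⟨F, hF, hF1, -, hF3⟩ := t_quot hUd hVd ⟨2, VV_one (by norm_num)⟩
    ⟨2, by rw [hUV 2 (by norm_num)]; exact mul_ne_zero (VV_one (by norm_num)) (Complex.exp_ne_zero _)⟩
  have hFE : ∀ s : ℂ, 1 < s.re → F s = cexp (DS (dd α) LL s) := fun s hs => by
    rw [(hF1 s (VV_one hs)).1, hUV s hs, mul_div_cancel_left₀ _ (VV_one hs)]
  have hconjU : ∀ s : ℂ, U ((starRingEnd ℂ) s) = (starRingEnd ℂ) (U s) := by
    refine conj_ext hUd fun s hs => ?_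
    rw [hUV s hs, hUV _ (by simpa using hs), VV_conj, DS_conj, map_mul, ← Complex.exp_conj]
  refine ⟨F, hF, hFE, fun x hx => ?_, ?_⟩
  · have hev : ∀ᶠ z in 𝓝 (x : ℂ), VV S z ≠ 0 :=
      (hVd.continuous.continuousAt).eventually_ne (VV_real (by linarith))
    have : AnalyticAt ℂ F x := analyticAt_iff_eventually_differentiableAt.2 (hev.mono fun z hz => (hF1 z hz).2)
    exact this.meromorphicOrderAt_nonneg
  · have hnn : 0 ≤ ∑ i, ‖κ i‖ := Finset.sum_nonneg fun _ _ => norm_nonneg _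
    have hsd : ∀ t : ℝ, 1 < t → Summable fun x : PS S × ℕ => |dd α x| * Real.exp (-(t * LL x)) :=
      fun t ht => summable_dd' h.summable ht
    refine hex_abs LL_nonneg hsd hFE (N := n ^ 2 - 1) (by omega) h.conj (Q := Q) (T := 0) le_rfl (inv_ne_zero hω)
      (fun s _ _ h0 => ⟨(hF3 s h0).1, (hF3 s h0).2.1⟩) (fun c0 hc0 hc1 hreg R hR hRc => ?_) (fun a ha ha2 => ?_)
    · obtain ⟨C, A, hCA⟩ := UU_growth (S := S) (β := β) hgr
      obtain ⟨v0, hv0, hv1⟩ := VV_lower S
      refine ub_entire LL_nonneg hsd (by linarith) hreg hFE (G := U) (V := VV S) (fun s h1 h2 => ?_) hUd hVd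
        (C := C) (A := A) (fun s h1 h2 h3 => hCA s (by linarith) h2 h3) hv0 (fun t _ => hv1 t) hR hRc
      have h4 : AnalyticAt ℂ F s := by
        refine analyticAt_iff_eventually_differentiableAt.2 ?_
        filter_upwards [(isOpen_lt continuous_const Complex.continuous_re).mem_nhds h1,
          (isOpen_lt continuous_const Complex.continuous_im).mem_nhds h2] with z hz1 hz2 using (hreg z hz1 hz2).1
      exact (hF3 s (by
        rw [h4.meromorphicOrderAt_eq, h4.analyticOrderAt_eq_zero.2 (hreg s h1 h2).2]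
        rfl)).2.2
    · obtain ⟨σ, hσ1, hσ2, hσ3⟩ := exists_line S β ha2
      have hσ0 : 0 < σ := by linarith
      set P1 := ∏ p ∈ S, ∏ i, (1 + ‖β p i‖ * ((p : ℕ) : ℝ) ^ (-(1 - σ))) with hP1
      set P0 := ∏ p ∈ S, ∏ i, |1 - ‖β p i‖ * ((p : ℕ) : ℝ) ^ (-σ)| with hP0
      set E1 := ∏ p ∈ S, ∏ i : Fin 1, (1 + ‖(1 : ℂ)‖ * ((p : ℕ) : ℝ) ^ (-σ)) with hE1
      set E0 := ∏ p ∈ S, ∏ i : Fin 1, |1 - ‖(1 : ℂ)‖ * ((p : ℕ) : ℝ) ^ (-(1 - σ))| with hE0
      have hP1pos : 0 < P1 := Finset.prod_pos fun p _ => Finset.prod_pos fun i _ => by positivity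
      have hE1pos : 0 < E1 := Finset.prod_pos fun p _ => Finset.prod_pos fun i _ => by positivity
      have hE0pos : 0 < E0 := Finset.prod_pos fun p _ => Finset.prod_pos fun i _ => abs_pos.2 (by
        have := pr_rpow_lt_one p (by linarith : 0 < 1 - σ)
        rw [norm_one, one_mul]
        linarith)
      refine ⟨σ, E1 * P1, E0 * P0, hσ1, hσ2, mul_pos hE1pos hP1pos, mul_pos hE0pos hσ3, ?_⟩
      refine ((zeta_freq σ).and_eventually (eventually_gt_atTop (1 + ∑ i, ‖κ i‖))).mono ?_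
      rintro t ⟨hζ, htT⟩
      have ht0 : 0 < t := by linarith
      set s : ℂ := (σ : ℂ) + t * I with hs
      have hsre : s.re = σ := by simp [hs]
      have hsim : s.im = t := by simp [hs]
      have h1sre : (1 - s).re = 1 - σ := by simp [hs]
      have h1sim : (1 - s).im = -t := by simp [hs]
      have hs1 : s ≠ 1 := by
        intro h0
        rw [h0] at hsim
        simp at hsim
        linarith
      have hs0 : s ≠ 0 := by
        intro h0
        rw [h0] at hsim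
        simp at hsim
        linarith
      have h1s : 1 - s ≠ 1 := by
        intro h0
        apply hs0
        linear_combination -h0
      have h1s0 : 1 - s ≠ 0 := sub_ne_zero.2 (Ne.symm hs1)
      have hz1 : riemannZeta₁ s = (s - 1) * riemannZeta s := Pool.Agent.H437R2.z1_of_ne hs1
      have hz2 : riemannZeta₁ (1 - s) = (1 - s - 1) * riemannZeta (1 - s) := Pool.Agent.H437R2.z1_of_ne h1s
      have hG1 : Complex.Gammaℝ s ≠ 0 := Complex.Gammaℝ_ne_zero_of_re_pos (by rw [hsre]; exact hσ0)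
      have hG2 : Complex.Gammaℝ (1 - s) ≠ 0 := Complex.Gammaℝ_ne_zero_of_re_pos (by rw [h1sre]; linarith)
      have hzfe : riemannZeta s * Complex.Gammaℝ s = riemannZeta (1 - s) * Complex.Gammaℝ (1 - s) := by
        rw [riemannZeta_def_of_ne_zero hs0, riemannZeta_def_of_ne_zero h1s0, div_mul_cancel₀ _ hG1,
          div_mul_cancel₀ _ hG2, completedRiemannZeta_one_sub]
      have hζ2 : riemannZeta (1 - s) ≠ 0 := by
        intro h0
        rw [h0, zero_mul] at hzfe
        exact mul_ne_zero hζ hG1 hzfe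
      have hb1 : bad S (fun _ (_ : Fin 1) => 1) s ≠ 0 := norm_pos_iff.1 (bad1_pos (by rw [hsre]; exact hσ0))
      have hb2 : bad S (fun _ (_ : Fin 1) => 1) (1 - s) ≠ 0 :=
        norm_pos_iff.1 (bad1_pos (by rw [h1sre]; linarith))
      have hV1 : VV S s ≠ 0 := by
        unfold VV
        rw [hz1]
        exact mul_ne_zero (mul_ne_zero (sub_ne_zero.2 hs1) hζ) hb1
      have hV2 : VV S (1 - s) ≠ 0 := by
        unfold VV
        rw [hz2]
        exact mul_ne_zero (mul_ne_zero (sub_ne_zero.2 h1s) hζ2) hb2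
      have hF1s := (hF1 s hV1).1
      have hF2s := (hF1 (1 - s) hV2).1
      have e3 : ((1 - σ : ℝ) : ℂ) + t * I = (starRingEnd ℂ) (1 - s) := by
        rw [hs]
        simp only [map_add, map_sub, map_one, map_mul, Complex.conj_I, Complex.conj_ofReal]
        push_cast
        ring
      have hcj : ‖F (1 - s)‖ = ‖F (((1 - σ : ℝ) : ℂ) + t * I)‖ := by
        rw [e3]
        have hV3 : VV S ((starRingEnd ℂ) (1 - s)) ≠ 0 := by
          rw [VV_conj]
          simpa using hV2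
        rw [(hF1 _ hV3).1, hF2s, hconjU, VV_conj, norm_div, norm_div, RCLike.norm_conj, RCLike.norm_conj]
      refine ⟨bad S (fun _ (_ : Fin 1) => 1) s * bad S β (1 - s),
        bad S (fun _ (_ : Fin 1) => 1) (1 - s) * bad S β s, ?_, ?_, ?_, hcj⟩
      · rw [norm_mul]
        have hY1 : ‖bad S (fun _ (_ : Fin 1) => 1) s‖ ≤ E1 := by
          have := bad_le S (fun _ (_ : Fin 1) => 1) s
          rwa [hsre] at this
        have hZ1 : ‖bad S β (1 - s)‖ ≤ P1 := by
          have := bad_le S β (1 - s)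
          rwa [h1sre] at this
        gcongr
      · rw [norm_mul]
        have hY2 : E0 ≤ ‖bad S (fun _ (_ : Fin 1) => 1) (1 - s)‖ := by
          have := bad_ge S (fun _ (_ : Fin 1) => 1) (1 - s)
          rwa [h1sre] at this
        have hZ2 : P0 ≤ ‖bad S β s‖ := by
          have := bad_ge S β s
          rwa [hsre] at this
        gcongr
      · have hfe' := rat_fe hQ hG hΞ hid hfe (s := s) (by rw [hsim, abs_of_pos ht0]; exact htT)
        rw [hF1s, hF2s, hU]
        simp only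
        unfold VV
        rw [hz1, hz2]
        have a1 : s - 1 ≠ 0 := sub_ne_zero.2 hs1
        have a2 : 1 - s - 1 ≠ 0 := sub_ne_zero.2 h1s
        have a3 : 1 - s - 1 = -s := by ring
        rw [a3] at a2 ⊢
        have a4 : ω * s * G s * GF κ Q s * riemannZeta (1 - s) =
            (1 - s) * G (1 - s) * GF κ Q (1 - s) * riemannZeta s := by
          apply mul_right_cancel₀ hG2
          linear_combination (-riemannZeta s) * hfe' - (ω * s * G s * GF κ Q s) * hzfe
        field_simp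
        linear_combination (bad S β s * bad S β (1 - s)) * a4

end Pool.Agent.TH949.TX
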