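import Mathlib
import Pool.Agent.TH949.TX.Rat2
import Pool.Agent.TH949.TX.Count
import Pool.Agent.TH949.RES.PGL4

/-! Small traces at every scale, `GL_n` over `ℚ`. -/

set_option autoImplicit false

open Complex MeasureTheory Set Filter Topology
open Pool.Agent.W189.TP (DS DS_diff DS_norm_le summ_mono PS LL LL_nonneg exp_LL rexp_LL summable_pp zetaS norm_term
  summable_primes_subtype summ_cplx logRS bad bad_diff bad_le bad_ge exists_line dd dd_le pr_rpow_lt_one zeta_freq)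
open Pool.Agent.TH949.RES (CuspidalRep)

namespace Pool.Agent.TH949.TX

variable {S : Finset Nat.Primes} {n : ℕ}

/-- `L(s, Π × Π~) / ζ(s)`, without the Euler factors in `S`, has a zero or a pole which is not real and has real part
`> c` -/
def OffLine (α : PS S → Fin n → ℂ) (c : ℝ) : Prop :=
  ∃ (F : ℂ → ℂ) (ρ : ℂ), MeromorphicOn F Set.univ ∧
    (∀ s : ℂ, 1 < s.re → F s * (riemannZeta s * ∏ p ∈ S, (1 - ((p : ℕ) : ℂ) ^ (-s))) = Complex.exp (logRS α s)) ∧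
    c < ρ.re ∧ ρ.im ≠ 0 ∧ meromorphicOrderAt F ρ ≠ 0

/-- two meromorphic continuations have the same zeros and poles -/
theorem order_eq {F F0 : ℂ → ℂ} (hF : MeromorphicOn F univ) (hF0 : MeromorphicOn F0 univ)
    (h : ∀ s : ℂ, 1 < s.re → F s = F0 s) (ρ : ℂ) : meromorphicOrderAt F ρ = meromorphicOrderAt F0 ρ := by
  have h1 : MeromorphicOn (F - F0) univ := hF.sub hF0
  have h2 : meromorphicOrderAt (F - F0) 2 = ⊤ := by
    rw [meromorphicOrderAt_eq_top_iff]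
    refine Filter.Eventually.filter_mono nhdsWithin_le_nhds ?_
    filter_upwards [(isOpen_lt continuous_const Complex.continuous_re).mem_nhds
      (show (1 : ℝ) < (2 : ℂ).re by norm_num)] with z hz
    simp only [Pi.sub_apply, sub_eq_zero]
    exact h z hz
  have h3 : meromorphicOrderAt (F - F0) ρ = ⊤ := by
    by_contra hcon
    exact MeromorphicOn.meromorphicOrderAt_ne_top_of_isPreconnected h1 (y := 2) isPreconnected_univ (mem_univ ρ)
      (mem_univ 2) hcon h2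
  rw [meromorphicOrderAt_eq_top_iff] at h3
  refine meromorphicOrderAt_congr (h3.mono fun z hz => ?_)
  simpa [sub_eq_zero] using hz

theorem LL_fin (b : ℝ) : {x : PS S × ℕ | LL x ≤ b}.Finite := by
  have hlog2 : 0 < Real.log 2 := Real.log_pos (by norm_num)
  have h1 : ({p : PS S | ((p.1 : ℕ) : ℝ) ≤ Real.exp b}).Finite := by
    refine ((Pool.Agent.TH949.RES.primes_finite ⌊Real.exp b⌋₊).preimage
      (Subtype.val_injective (p := fun p => p ∉ S)).injOn).subset fun p hp => ?_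
    exact Nat.le_floor hp
  refine (h1.prod (Finset.finite_toSet (Finset.range (⌊b / Real.log 2⌋₊ + 1)))).subset ?_
  rintro ⟨p, k⟩ hx
  have hp1 : (2 : ℝ) ≤ ((p.1 : ℕ) : ℝ) := by exact_mod_cast p.1.2.two_le
  have hl : Real.log 2 ≤ Real.log ((p.1 : ℕ) : ℝ) := Real.log_le_log (by norm_num) hp1
  have hk : (0 : ℝ) ≤ k := Nat.cast_nonneg _
  have hx' : ((k : ℝ) + 1) * Real.log ((p.1 : ℕ) : ℝ) ≤ b := hx
  refine mem_prod.2 ⟨?_, ?_⟩
  · show ((p.1 : ℕ) : ℝ) ≤ Real.exp b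
    rw [← Real.log_le_iff_le_exp (by linarith)]
    nlinarith
  · show k ∈ (Finset.range (⌊b / Real.log 2⌋₊ + 1) : Set ℕ)
    rw [Finset.coe_range, mem_Iio, Nat.lt_succ_iff]
    refine Nat.le_floor ?_
    rw [le_div_iff₀ hlog2]
    nlinarith

theorem exp_LL' (x : PS S × ℕ) : Real.exp (LL x) = ((x.1.1 : ℕ) : ℝ) ^ (x.2 + 1) := by
  have h := rexp_LL x (-1)
  rw [neg_mul, one_mul, neg_neg, neg_neg, Real.rpow_one] at h
  exact h

theorem le_LL {X a : ℝ} (hX : 0 < X) (x : PS S × ℕ) :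
    a * Real.log X ≤ LL x ↔ X ^ a ≤ ((x.1.1 : ℕ) : ℝ) ^ (x.2 + 1) := by
  rw [← exp_LL', Real.rpow_def_of_pos hX, Real.exp_le_exp, mul_comm]

theorem LL_le {X : ℝ} (hX : 0 < X) (x : PS S × ℕ) :
    LL x ≤ Real.log X ↔ ((x.1.1 : ℕ) : ℝ) ^ (x.2 + 1) ≤ X := by
  rw [← exp_LL', Real.le_log_iff_exp_le hX]

theorem temp_of_pow' (hn : n ≤ 3) {a : Fin n → ℂ} (h0 : ∀ i, a i ≠ 0)
    (hU : ∃ τ : Equiv.Perm (Fin n), ∀ i, a (τ i) = ((starRingEnd ℂ) (a i))⁻¹) {k : ℕ} (hk : 1 ≤ k)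
    (hs : ‖∑ i, a i ^ k‖ < 1) (hn2 : 2 ≤ n) : ∀ i, ‖a i‖ = 1 := by
  intro i
  have h1 := Pool.Agent.TH949.RES.tempered23 hn2 hn (a := fun i => a i ^ k) (fun i => pow_ne_zero _ (h0 i))
    (by
      obtain ⟨τ, hτ⟩ := hU
      refine ⟨τ, fun i => ?_⟩
      rw [hτ i, inv_pow, map_pow]) hs i
  rw [norm_pow] at h1
  exact (pow_eq_one_iff_of_nonneg (norm_nonneg _) (by omega)).1 h1

theorem rat_main (hn : 2 ≤ n) {α : PS S → Fin n → ℂ} {β : Nat.Primes → Fin (n ^ 2) → ℂ}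
    {κ : Fin (n ^ 2 - 1) → ℂ} (h : CuspidalRep S α β κ) {c lam : ℝ} (hc : c < 1 / 2 ∨ OffLine α c) (hlam : 0 < lam) :
    (∀ᶠ X : ℝ in atTop, X ^ c ≤ ∑' x : PS S × ℕ, (open Classical in
      if X ^ (1 - lam) ≤ ((x.1.1 : ℕ) : ℝ) ^ (x.2 + 1) ∧ ((x.1.1 : ℕ) : ℝ) ^ (x.2 + 1) ≤ X then
        max 0 (1 - ‖∑ i, α x.1 i ^ (x.2 + 1)‖ ^ 2) else 0)) ∧
    (n ≤ 3 → ∀ᶠ X : ℝ in atTop, X ^ c ≤
      (({p : PS S | ((p.1 : ℕ) : ℝ) ≤ X ∧ ∀ i, ‖α p i‖ = 1}.ncard : ℕ) : ℝ)) := by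
  classical
  obtain ⟨F0, hF0, hE, hreal, hex⟩ := rat_core hn h
  have hsd : ∀ t : ℝ, 1 < t → Summable fun x : PS S × ℕ => |dd α x| * Real.exp (-(t * LL x)) :=
    fun t ht => summable_dd' h.summable ht
  have hc1 : ∀ a : ℝ, (a < 1 / 2 ∨ ∃ ρ : ℂ, a < ρ.re ∧ ρ.im ≠ 0 ∧ meromorphicOrderAt F0 ρ ≠ 0) →
      ∃ a' : ℝ, a < a' ∧ 0 < a' ∧ (a' < 1 / 2 ∨ ∃ ρ : ℂ, a' < ρ.re ∧ ρ.im ≠ 0 ∧ meromorphicOrderAt F0 ρ ≠ 0) := by
    intro a ha
    by_cases ha2 : a < 1 / 2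
    · exact ⟨max ((a + 1 / 2) / 2) (1 / 4), lt_max_of_lt_left (by linarith), lt_max_of_lt_right (by norm_num),
        Or.inl (max_lt (by linarith) (by norm_num))⟩
    · rcases ha with h3 | ⟨ρ, h3, h4, h5⟩
      · exact absurd h3 ha2
      · push Not at ha2
        exact ⟨(a + ρ.re) / 2, by linarith, by linarith, Or.inr ⟨ρ, by linarith, h4, h5⟩⟩
  have hc' : c < 1 / 2 ∨ ∃ ρ : ℂ, c < ρ.re ∧ ρ.im ≠ 0 ∧ meromorphicOrderAt F0 ρ ≠ 0 := by
    rcases hc with h1 | ⟨F, ρ, hF, hFE, h3, h4, h5⟩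
    · exact Or.inl h1
    · refine Or.inr ⟨ρ, h3, h4, ?_⟩
      rw [← order_eq hF hF0 (fun s hs => ?_) ρ]
      · exact h5
      · have h6 := hFE s hs
        have h7 := exp_dd' h.summable hs
        have hb : bad S (fun _ (_ : Fin 1) => 1) s = ∏ p ∈ S, (1 - ((p : ℕ) : ℂ) ^ (-s)) := by
          unfold bad
          simp
        rw [hb, ← h6] at h7
        have h8 : riemannZeta s * ∏ p ∈ S, (1 - ((p : ℕ) : ℂ) ^ (-s)) ≠ 0 := by
          refine mul_ne_zero (riemannZeta_ne_zero_of_one_le_re hs.le) ?_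
          rw [← hb]
          exact norm_pos_iff.1 (bad1_pos (by linarith))
        rw [hE s hs]
        exact (mul_right_cancel₀ h8 h7).symm
  set w : PS S × ℕ → ℝ := fun x => max 0 (1 - ‖∑ i, α x.1 i ^ (x.2 + 1)‖ ^ 2) with hw
  have key : ∀ a : ℝ, (a < 1 / 2 ∨ ∃ ρ : ℂ, a < ρ.re ∧ ρ.im ≠ 0 ∧ meromorphicOrderAt F0 ρ ≠ 0) →
      ∀ᶠ X : ℝ in atTop, X ^ a ≤ ∑' x, (if (1 - lam) * Real.log X ≤ LL x ∧ LL x ≤ Real.log X then w x else 0) := by
    intro a ha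
    obtain ⟨a', h1, h2, h3⟩ := hc1 a ha
    refine sum_abs (d := dd α) LL_nonneg (fun x => le_max_left _ _) (fun x => ?_) LL_fin h2 h1
      (fun l hl hl1 => main_abs LL_nonneg hsd hF0 hE hreal hex h3 hl hl1) hlam
    unfold dd
    have hk : (0 : ℝ) ≤ x.2 := Nat.cast_nonneg _
    rw [← neg_div, neg_sub, div_le_iff₀ (by linarith)]
    have h4 : 1 - ‖∑ i, α x.1 i ^ (x.2 + 1)‖ ^ 2 ≤ w x := le_max_right _ _
    have h5 : 0 ≤ w x := le_max_left _ _
    nlinarith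
  refine ⟨?_, fun hn3 => ?_⟩
  · filter_upwards [key c hc', eventually_gt_atTop 0] with X h1 h2
    refine h1.trans (le_of_eq (tsum_congr fun x => ?_))
    simp only [le_LL h2, LL_le h2]
    rfl
  · obtain ⟨a, h1, -, h3⟩ := hc1 c hc'
    have h4 := count_primes (P := PS S) (ℓ := fun p => Real.log ((p.1 : ℕ) : ℝ)) (d := dd α)
      (E := fun p => ∀ i, ‖α p i‖ = 1) (fun p => Real.log_le_log (by norm_num) (by exact_mod_cast p.1.2.two_le))
      (fun b => by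
        refine ((LL_fin (S := S) b).image Prod.fst).subset fun p hp => ⟨(p, 0), ?_, rfl⟩
        show LL (p, 0) ≤ b
        unfold LL
        simpa using hp) (fun x hx => ?_) h1 ?_
    · filter_upwards [h4, eventually_gt_atTop 0] with X h5 h6
      refine h5.trans (le_of_eq ?_)
      congr 2
      ext p
      have hp : (0 : ℝ) < ((p.1 : ℕ) : ℝ) := by exact_mod_cast p.1.2.pos
      simp only [Set.mem_ofPred_eq]
      rw [Real.log_le_log_iff hp h6]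
    · refine temp_of_pow' hn3 (h.ne_zero x.1) (h.unitary x.1) (k := x.2 + 1) (by omega) ?_ hn
      unfold dd at hx
      have h3 : ‖∑ i, α x.1 i ^ (x.2 + 1)‖ ^ 2 - 1 < 0 := by
        by_contra h4
        push Not at h4
        exact absurd hx (not_lt.2 (by positivity))
      nlinarith [norm_nonneg (∑ i, α x.1 i ^ (x.2 + 1))]
    · filter_upwards [key a h3] with X h5
      refine h5.trans (count_of_sum (d := dd α) (fun x => ?_) (fun x hx => ?_) LL_fin)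
      · refine max_le zero_le_one ?_
        nlinarith [sq_nonneg ‖∑ i, α x.1 i ^ (x.2 + 1)‖]
      · refine max_le le_rfl ?_
        unfold dd at hx
        have hk : (0 : ℝ) ≤ x.2 := Nat.cast_nonneg _
        have h6 : 0 < (x.2 : ℝ) + 1 := by linarith
        have h7 : 0 ≤ (‖∑ i, α x.1 i ^ (x.2 + 1)‖ ^ 2 - 1) / ((x.2 : ℝ) + 1) * ((x.2 : ℝ) + 1) :=
          mul_nonneg hx h6.le
        rw [div_mul_cancel₀ _ h6.ne'] at h7
        linarith

end Pool.Agent.TH949.TX
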