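import Mathlib
import Pool.Agent.TH949.TX.Rat3
import Pool.Agent.TH949.TX.MainReal

/-! Removing an Euler factor. -/

set_option autoImplicit false

open Complex MeasureTheory Set Filter Topology
open Pool.Agent.W189.TP (DS DS_diff DS_norm_le summ_mono PS LL LL_nonneg exp_LL rexp_LL summable_pp zetaS norm_term
  summable_primes_subtype summ_cplx logRS bad bad_diff bad_le bad_ge exists_line dd dd_le pr_rpow_lt_one zeta_freq)
open Pool.Agent.TH949.RES (CuspidalRep)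

namespace Pool.Agent.TH949.TX

variable {S : Finset Nat.Primes} {n : ℕ}

theorem norm_sq_sum (a : Fin n → ℂ) (k : ℕ) :
    ((‖∑ i, a i ^ k‖ ^ 2 : ℝ) : ℂ) = ∑ x : Fin n × Fin n, (a x.1 * (starRingEnd ℂ) (a x.2)) ^ k := by
  rw [← Complex.normSq_eq_norm_sq, ← Complex.mul_conj, map_sum, Finset.sum_mul_sum, Fintype.sum_prod_type]
  refine Finset.sum_congr rfl fun i _ => Finset.sum_congr rfl fun j _ => ?_
  rw [mul_pow, map_pow]

theorem norm_prod_lt (a : Fin n → ℂ) {z : ℂ} (hz : ∀ i, ‖a i‖ ^ 2 * ‖z‖ < 1) (x : Fin n × Fin n) :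
    ‖a x.1 * (starRingEnd ℂ) (a x.2) * z‖ < 1 := by
  rw [norm_mul, norm_mul, RCLike.norm_conj]
  have h1 := hz x.1
  have h2 := hz x.2
  have h3 := norm_nonneg z
  nlinarith [sq_nonneg (‖a x.1‖ - ‖a x.2‖), mul_nonneg h3 (sq_nonneg (‖a x.1‖ - ‖a x.2‖))]

theorem euler_hasSum (a : Fin n → ℂ) {z : ℂ} (hz : ∀ i, ‖a i‖ ^ 2 * ‖z‖ < 1) :
    HasSum (fun k : ℕ => ((‖∑ i, a i ^ (k + 1)‖ ^ 2 / ((k : ℝ) + 1) : ℝ) : ℂ) * z ^ (k + 1))
      (∑ x : Fin n × Fin n, -Complex.log (1 - a x.1 * (starRingEnd ℂ) (a x.2) * z)) := by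
  have h1 : HasSum (fun k : ℕ => ∑ x : Fin n × Fin n, (a x.1 * (starRingEnd ℂ) (a x.2) * z) ^ (k + 1) / ((k : ℂ) + 1))
      (∑ x : Fin n × Fin n, -Complex.log (1 - a x.1 * (starRingEnd ℂ) (a x.2) * z)) :=
    hasSum_sum fun x _ => Complex.hasSum_taylorSeries_neg_log' (norm_prod_lt a hz x)
  have e : (fun k : ℕ => ((‖∑ i, a i ^ (k + 1)‖ ^ 2 / ((k : ℝ) + 1) : ℝ) : ℂ) * z ^ (k + 1)) =
      fun k : ℕ => ∑ x : Fin n × Fin n, (a x.1 * (starRingEnd ℂ) (a x.2) * z) ^ (k + 1) / ((k : ℂ) + 1) := by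
    funext k
    rw [Complex.ofReal_div, norm_sq_sum, Finset.sum_div, Finset.sum_mul]
    refine Finset.sum_congr rfl fun x _ => ?_
    rw [mul_pow]
    push_cast
    ring
  rw [e]
  exact h1

theorem euler_exp (a : Fin n → ℂ) {z : ℂ} (hz : ∀ i, ‖a i‖ ^ 2 * ‖z‖ < 1) :
    Complex.exp (∑' k : ℕ, ((‖∑ i, a i ^ (k + 1)‖ ^ 2 / ((k : ℝ) + 1) : ℝ) : ℂ) * z ^ (k + 1)) *
      ∏ x : Fin n × Fin n, (1 - a x.1 * (starRingEnd ℂ) (a x.2) * z) = 1 := by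
  rw [(euler_hasSum a hz).tsum_eq, Complex.exp_sum, ← Finset.prod_mul_distrib]
  refine Finset.prod_eq_one fun x _ => ?_
  have h1 := norm_prod_lt a hz x
  have h2 : 1 - a x.1 * (starRingEnd ℂ) (a x.2) * z ≠ 0 := by
    intro h0
    rw [sub_eq_zero] at h0
    rw [← h0, norm_one] at h1
    exact lt_irrefl _ h1
  rw [Complex.exp_neg, Complex.exp_log h2, inv_mul_cancel₀ h2]

end Pool.Agent.TH949.TX
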