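import Mathlib
import Pool.Agent.TH949.TX.Rat3
import Pool.Agent.TH949.RES.GL3

/-! Tempered places at every scale, `GL_3` over a number field. -/

set_option autoImplicit false

open Complex MeasureTheory Set Filter Topology NumberField IsDedekindDomain
open Pool.Agent.W189.TP (DS DS_diff DS_norm_le summ_mono)
open Pool.Agent.TH949.RES (GF KK KK_nonneg bf bf_norm_le qq_cpow Q_cpow AutomorphicGL3)
open Pool.Agent.TH861.GL3

namespace Pool.Agent.TH949.TX

section
variable {J : Type*} [Fintype J]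

theorem bf_ge (β : J → ℂ) (q : J → ℝ) (s : ℂ) :
    ∏ j, |1 - ‖β j‖ * Real.exp (-(s.re * Real.log (q j)))| ≤ ‖bf β q s‖ := by
  unfold bf
  rw [norm_prod]
  refine Finset.prod_le_prod (fun j _ => abs_nonneg _) fun j _ => ?_
  have := abs_norm_sub_norm_le (1 : ℂ) (β j * cexp (-(s * Real.log (q j))))
  rw [norm_one, norm_mul, Complex.norm_exp] at this
  have e : (-(s * ((Real.log (q j) : ℝ) : ℂ))).re = -(s.re * Real.log (q j)) := by simp
  rwa [e] at this

theorem bf_line (β : J → ℂ) {q : J → ℝ} (hq : ∀ j, 1 < q j) {a b : ℝ} (hab : a < b) :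
    ∃ σ, a < σ ∧ σ < b ∧ 0 < ∏ j, |1 - ‖β j‖ * Real.exp (-(σ * Real.log (q j)))| := by
  classical
  set F : Finset ℝ := Finset.univ.image fun j => Real.log ‖β j‖ / Real.log (q j) with hF
  obtain ⟨σ, hσ, hσF⟩ := (Set.Ioo_infinite hab).exists_notMem_finset F
  refine ⟨σ, hσ.1, hσ.2, Finset.prod_pos fun j _ => abs_pos.2 fun h => hσF ?_⟩
  rw [hF, Finset.mem_image]
  refine ⟨j, Finset.mem_univ _, ?_⟩
  have hl := Real.log_pos (hq j)
  have h2 : ‖β j‖ = Real.exp (σ * Real.log (q j)) := by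
    rw [Real.exp_neg] at h
    have h3 : Real.exp (σ * Real.log (q j)) ≠ 0 := (Real.exp_pos _).ne'
    field_simp at h
    linarith
  rw [h2, Real.log_exp, mul_div_cancel_right₀ _ hl.ne']

theorem bf_differentiable (β : J → ℂ) (q : J → ℝ) : Differentiable ℂ (bf β q) := by
  unfold bf
  fun_prop

end

/-- reflection, for a function holomorphic in `Re s > 1` and in `Im s > T` -/
theorem conj_region {F : ℂ → ℂ} {T : ℝ} (hF : ∀ s : ℂ, 1 < s.re ∨ T < |s.im| → DifferentiableAt ℂ F s) (_hT : 0 ≤ T)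
    (h : ∀ s : ℂ, 1 < s.re → F ((starRingEnd ℂ) s) = (starRingEnd ℂ) (F s)) {s : ℂ} (hs : T < s.im) :
    F ((starRingEnd ℂ) s) = (starRingEnd ℂ) (F s) := by
  set Ω : Set ℂ := {s | 1 < s.re} ∪ {s | T < s.im} with hΩ
  have ho : IsOpen Ω := (isOpen_lt continuous_const Complex.continuous_re).union
    (isOpen_lt continuous_const Complex.continuous_im)
  have hpre : IsPreconnected Ω := by
    refine IsPreconnected.union (2 + ((T + 1 : ℝ) : ℂ) * I) ?_ ?_ ((convex_halfSpace_re_gt 1).isPreconnected)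
      ((convex_halfSpace_im_gt T).isPreconnected)
    · show (1 : ℝ) < _
      simp
    · show T < _
      simp
  set g : ℂ → ℂ := fun s => (starRingEnd ℂ) (F ((starRingEnd ℂ) s)) with hg
  have hΩ' : ∀ s ∈ Ω, DifferentiableAt ℂ F s ∧ DifferentiableAt ℂ g s := by
    intro s hs
    rcases hs with hs | hs
    · have hs' : 1 < s.re := hs
      refine ⟨hF s (Or.inl hs'), ?_⟩
      have h1 : DifferentiableAt ℂ F ((starRingEnd ℂ) s) := hF _ (Or.inl (by simpa using hs'))
      have h2 := h1.conj_conj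
      rw [Complex.conj_conj] at h2
      exact h2
    · have hs' : T < s.im := hs
      have hs'' : T < |s.im| := hs'.trans_le (le_abs_self _)
      refine ⟨hF s (Or.inr hs''), ?_⟩
      have h1 : DifferentiableAt ℂ F ((starRingEnd ℂ) s) := hF _ (Or.inr (by simpa using hs''))
      have h2 := h1.conj_conj
      rw [Complex.conj_conj] at h2
      exact h2
  have h1 : AnalyticOnNhd ℂ F Ω := DifferentiableOn.analyticOnNhd
    (fun s hs => (hΩ' s hs).1.differentiableWithinAt) ho
  have h2 : AnalyticOnNhd ℂ g Ω := DifferentiableOn.analyticOnNhd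
    (fun s hs => (hΩ' s hs).2.differentiableWithinAt) ho
  have h3 : F =ᶠ[𝓝 2] g := by
    filter_upwards [(isOpen_lt continuous_const Complex.continuous_re).mem_nhds
      (show (1 : ℝ) < (2 : ℂ).re by norm_num)] with z hz
    have h4 := h z hz
    rw [hg]
    simp only
    rw [h4, Complex.conj_conj]
  have h4 := h1.eqOn_of_preconnected_of_eventuallyEq h2 hpre (Or.inl (show (1 : ℝ) < (2 : ℂ).re by norm_num)) h3
    (Or.inr hs : s ∈ Ω)
  rw [h4, hg]
  simp

variable {K : Type*} [Field K] [NumberField K] {S : Finset (HeightOneSpectrum (𝓞 K))}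

/-- Properties of the Satake parameters `α v`, `v ∉ S`, of a unitary cuspidal automorphic representation `π` of `GL_3`
over the number field `K`; `G` is the finite part of its adjoint `L`-function. -/
structure AdjointGL3 (α : PL S → Fin 3 → ℂ) : Prop where
  /-- the local components are unitary -/
  unitary : ∀ v, (∀ i, α v i ≠ 0) ∧
    Multiset.map (fun i => ((starRingEnd ℂ) (α v i))⁻¹) Finset.univ.val =
      Multiset.map (α v) Finset.univ.val
  /-- absolute convergence of `L(s, π × π~)` for `Re s > 1` -/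
  summable : ∀ σ : ℝ, 1 < σ → Summable fun x : PL S × ℕ =>
    ‖∑ i, α x.1 i ^ (x.2 + 1)‖ ^ 2 / ((x.2 : ℝ) + 1) * (((qq x.1.1 : ℕ) : ℝ) ^ (-σ)) ^ (x.2 + 1)
  /-- the adjoint `L`-function -/
  adjoint : ∃ (G : ℂ → ℂ) (β : S → Fin 8 → ℂ) (Q T : ℝ) (ω : ℂ)
    (κ : Fin (8 * Module.finrank ℚ K) → ℂ), 0 < Q ∧ ‖ω‖ = 1 ∧
    Multiset.map (fun j => (starRingEnd ℂ) (κ j)) Finset.univ.val =
      Multiset.map κ Finset.univ.val ∧
    MeromorphicOn G Set.univ ∧
    (∀ s : ℂ, 1 / 2 ≤ s.re ∨ T < |s.im| → AnalyticAt ℂ G s) ∧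
    (∀ a b : ℝ, ∃ C A : ℝ, ∀ s : ℂ, a ≤ s.re → s.re ≤ b → T < |s.im| → ‖G s‖ ≤ C * |s.im| ^ A) ∧
    (∀ s : ℂ, 1 < s.re → G s * ∏ v, ∏ i, (1 - β v i * ((qq v.1 : ℕ) : ℂ) ^ (-s)) =
      Complex.exp (logAd α s)) ∧
    ∀ s : ℂ, T < |s.im| →
      G s * ((Q : ℂ) ^ s * ∏ j, Complex.Gammaℝ (s + κ j)) =
        ω * (G (1 - s) * ((Q : ℂ) ^ (1 - s) * ∏ j, Complex.Gammaℝ (1 - s + κ j)))

theorem AdjointGL3.auto {α : PL S → Fin 3 → ℂ} (h : AdjointGL3 α) : AutomorphicGL3 α := by
  obtain ⟨G, β, Q, T, ω, κ, h1, h2, h3, -, h5, h6, h7, h8⟩ := h.adjoint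
  exact ⟨h.unitary, h.summable, G, β, Q, T, ω, κ, h1, h2, h3, h5, h6, h7, h8⟩

theorem gl3_core {α : PL S → Fin 3 → ℂ} (h : AdjointGL3 α) : ∃ F : ℂ → ℂ, MeromorphicOn F univ ∧
    (∀ s : ℂ, 1 < s.re → F s = cexp (DS (dd α) LL s)) ∧
    (∀ x : ℝ, 1 / 2 ≤ x → 0 ≤ meromorphicOrderAt F (x : ℂ)) ∧
    ∀ δ : ℝ, 0 < δ → ∃ ρ : ℂ, 1 / 2 - δ < ρ.re ∧ ρ.im ≠ 0 ∧ meromorphicOrderAt F ρ ≠ 0 := by
  classical
  have := countable_primes K
  have hd : 1 ≤ Module.finrank ℚ K := Module.finrank_pos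
  obtain ⟨G, β, Q, T, ω, κ, hQ, hω, hκ, hGm, hG, hgr, hE, hFE⟩ := h.adjoint
  set β' : S × Fin 8 → ℂ := fun x => β x.1 x.2 with hβ'
  set q : S × Fin 8 → ℝ := fun x => (qq x.1.1 : ℝ) with hq
  have hq1 : ∀ x, 1 < q x := fun x => one_lt_qq x.1.1
  have hbf : ∀ s : ℂ, ∏ v, ∏ i, (1 - β v i * ((qq v.1 : ℕ) : ℂ) ^ (-s)) = bf β' q s := by
    intro s
    unfold bf
    rw [Fintype.prod_prod_type]
    refine Finset.prod_congr rfl fun v _ => Finset.prod_congr rfl fun i _ => ?_
    rw [qq_cpow]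
  have hGF : ∀ s : ℂ, (Q : ℂ) ^ s * ∏ j, Complex.Gammaℝ (s + κ j) = GF κ Q s := by
    intro s
    unfold GF
    rw [Q_cpow hQ]
  simp_rw [hbf] at hE
  simp_rw [hGF] at hFE
  have hbd := bf_differentiable β' q
  set F : ℂ → ℂ := fun s => G s * bf β' q s with hF
  have hFan : ∀ s : ℂ, 1 / 2 ≤ s.re ∨ T < |s.im| → AnalyticAt ℂ F s := fun s hs =>
    (hG s hs).mul (hbd.analyticAt s)
  have hFm : MeromorphicOn F univ := fun s hs => (hGm s hs).mul (hbd.analyticAt s).meromorphicAt
  have hFE1 : ∀ s : ℂ, 1 < s.re → F s = cexp (DS (dd α) LL s) := fun s hs => by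
    rw [hF]
    simp only
    rw [hE s hs, logAd_eq]
  have hsd : ∀ t : ℝ, 1 < t → Summable fun x : PL S × ℕ => |dd α x| * Real.exp (-(t * LL x)) :=
    fun t ht => summable_abs h.auto.cuspidal ht
  set T' : ℝ := max T 0 with hT'
  have hTT : T ≤ T' := le_max_left _ _
  have hT0 : 0 ≤ T' := le_max_right _ _
  have hconj : ∀ s : ℂ, T' < s.im → F ((starRingEnd ℂ) s) = (starRingEnd ℂ) (F s) := by
    intro s hs
    refine conj_region (T := T') (fun s hs => ?_) hT0 (fun s hs => ?_) hs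
    · refine (hFan s ?_).differentiableAt
      rcases hs with hs | hs
      · exact Or.inl (by linarith)
      · exact Or.inr (by linarith)
    · rw [hFE1 s hs, hFE1 _ (by simpa using hs), DS_conj, ← Complex.exp_conj]
  refine ⟨F, hFm, hFE1, fun x hx => (hFan x (Or.inl (by simpa using hx))).meromorphicOrderAt_nonneg, ?_⟩
  have hω0 : ω ≠ 0 := by
    intro h0
    rw [h0, norm_zero] at hω
    norm_num at hω
  refine hex_abs LL_nonneg hsd hFE1 (N := 8 * Module.finrank ℚ K) (by omega) hκ (Q := Q) (T := T') hT0 hω0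
    (fun s _ h2 h3 => ?_) (fun c0 hc0 hc1 hreg R hR hRc => ?_) (fun a ha ha2 => ?_)
  · have h4 := hFan s (Or.inr ((hTT.trans_lt h2).trans_le (le_abs_self _)))
    refine ⟨h4.differentiableAt, fun h5 => ?_⟩
    rw [h4.meromorphicOrderAt_eq] at h3
    have h6 : analyticOrderAt F s = 0 := by
      cases h7 : analyticOrderAt F s with
      | top => rw [h7] at h3; simp at h3
      | coe m =>
        rw [h7] at h3
        simp only [ENat.map_natCast] at h3
        have : (m : ℤ) = 0 := by exact_mod_cast h3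
        have h8 : m = 0 := by exact_mod_cast this
        rw [h8]
        rfl
    exact (h4.analyticOrderAt_eq_zero.1 h6) h5
  · obtain ⟨C, A, hCA⟩ := hgr 0 4
    obtain ⟨M, hM0, hM⟩ := bf_norm_le (β := β') hq1 (A := 0)
    set C' : ℝ := |C| * M + 1 with hC'
    have hC'1 : 1 ≤ C' := by rw [hC']; have : 0 ≤ |C| * M := by positivity
                             linarith
    refine ⟨Real.log C' + 2 * |A|, ?_⟩
    filter_upwards [eventually_gt_atTop (T' + R + 4), eventually_ge_atTop (Real.exp 1)] with t ht1 hte z hz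
    have ht0 : 0 < t := by linarith
    have hlt : 1 ≤ Real.log t := by
      rw [Real.le_log_iff_exp_le ht0]
      exact hte
    have hz' : z ∈ Metric.ball ((2 : ℂ) + t * I) ((R + (2 - c0)) / 2) :=
      Metric.closedBall_subset_ball (by linarith) hz
    obtain ⟨a1, a2, a3, a4⟩ := ball_re hz'
    have hR2 : R < 2 := by linarith
    have hzi : T' < z.im := by
      have hz'' : z ∈ Metric.ball ((2 : ℂ) + t * I) (R + 1) := Metric.closedBall_subset_ball (by linarith) hz
      obtain ⟨-, -, b3, -⟩ := ball_re hz''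
      linarith
    have hzpos : 0 < z.im := hT0.trans_lt hzi
    have hz1 : 1 ≤ |z.im| := by
      have hz'' : z ∈ Metric.ball ((2 : ℂ) + t * I) (R + 1) := Metric.closedBall_subset_ball (by linarith) hz
      obtain ⟨-, -, b3, -⟩ := ball_re hz''
      rw [abs_of_pos hzpos]
      linarith
    have hz2 : |z.im| ≤ t ^ 2 := by
      rw [abs_of_pos hzpos]
      have : z.im < t + 2 := by linarith
      nlinarith
    have h5 := hCA z (by linarith) (by linarith) ((hTT.trans_lt hzi).trans_le (le_abs_self _))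
    have h6 := hM z (by linarith)
    have h7 : ‖F z‖ ≤ C' * (t ^ 2) ^ |A| := by
      rw [hF]
      simp only
      rw [norm_mul]
      have h8 : |z.im| ^ A ≤ (t ^ 2) ^ |A| :=
        (Real.rpow_le_rpow_of_exponent_le hz1 (le_abs_self A)).trans
          (Real.rpow_le_rpow (by positivity) hz2 (abs_nonneg A))
      have h9 : 0 ≤ |z.im| ^ A := by positivity
      calc ‖G z‖ * ‖bf β' q z‖ ≤ (|C| * (t ^ 2) ^ |A|) * M := by
            refine mul_le_mul (h5.trans ?_) h6 (norm_nonneg _) (by positivity)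
            exact mul_le_mul (le_abs_self C) h8 h9 (abs_nonneg C)
        _ = |C| * M * (t ^ 2) ^ |A| := by ring
        _ ≤ _ := mul_le_mul_of_nonneg_right (by rw [hC']; linarith) (by positivity)
    have h10 := (hreg z (by linarith) hzi).2
    refine (Real.log_le_log (norm_pos_iff.2 h10) h7).trans ?_
    rw [Real.log_mul (by positivity) (by positivity), Real.log_rpow (by positivity), Real.log_pow]
    have h11 : 0 ≤ Real.log C' := Real.log_nonneg hC'1
    push_cast
    nlinarith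
  · obtain ⟨σ, hσ1, hσ2, hσ3⟩ := bf_line β' hq1 ha2
    obtain ⟨M, hM0, hM⟩ := bf_norm_le (β := β') hq1 (A := 1 / 2)
    refine ⟨σ, M + 1, _, hσ1, hσ2, by linarith, hσ3, ?_⟩
    refine Filter.Eventually.frequently ?_
    filter_upwards [eventually_gt_atTop T'] with t ht
    set s : ℂ := (σ : ℂ) + t * I with hs
    have hsre : s.re = σ := by simp [hs]
    have hsim : s.im = t := by simp [hs]
    have h1sre : (1 - s).re = 1 - σ := by simp [hs]
    refine ⟨bf β' q (1 - s), bf β' q s, (hM _ (by rw [h1sre]; linarith)).trans (by linarith), ?_, ?_, ?_⟩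
    · have := bf_ge β' q s
      rwa [hsre] at this
    · have h1 := hFE s (by rw [hsim]; exact (hTT.trans_lt ht).trans_le (le_abs_self _))
      rw [hF]
      simp only
      linear_combination (bf β' q s * bf β' q (1 - s)) * h1
    · have e3 : (1 : ℂ) - s = (starRingEnd ℂ) (((1 - σ : ℝ) : ℂ) + t * I) := by
        rw [hs]
        simp only [map_add, map_mul, Complex.conj_I, Complex.conj_ofReal]
        push_cast
        ring
      rw [e3, hconj _ (by simpa using ht), RCLike.norm_conj]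

end Pool.Agent.TH949.TX
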