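import Mathlib
import Pool.Agent.TH949.TX.GL3

/-! Tempered places at every scale, `GL_3` over a number field. -/

set_option autoImplicit false

open Complex MeasureTheory Set Filter Topology NumberField IsDedekindDomain
open Pool.Agent.W189.TP (DS DS_diff DS_norm_le summ_mono)
open Pool.Agent.TH861.GL3

namespace Pool.Agent.TH949.TX

variable {K : Type*} [Field K] [NumberField K] {S : Finset (HeightOneSpectrum (𝓞 K))}

/-- the partial adjoint `L`-function `L^S(s, π, Ad)` has a zero or a pole which is not real and has real part `> c` -/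
def OffLine3 (α : PL S → Fin 3 → ℂ) (c : ℝ) : Prop :=
  ∃ (F : ℂ → ℂ) (ρ : ℂ), MeromorphicOn F Set.univ ∧ (∀ s : ℂ, 1 < s.re → F s = Complex.exp (logAd α s)) ∧
    c < ρ.re ∧ ρ.im ≠ 0 ∧ meromorphicOrderAt F ρ ≠ 0

theorem qq_fin (b : ℝ) : {v : PL S | Real.log (qq v.1 : ℝ) ≤ b}.Finite := by
  refine ((finite_nm_le K ⌊Real.exp b⌋₊).preimage (Subtype.val_injective (p := fun p => p ∉ S)).injOn).subset
    fun v hv => ?_
  have hv' : Real.log (qq v.1 : ℝ) ≤ b := hv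
  rw [Real.log_le_iff_le_exp (qq_pos v.1)] at hv'
  exact Nat.le_floor hv'

theorem LL_fin3 (b : ℝ) : {x : PL S × ℕ | LL x ≤ b}.Finite := by
  have hlog2 : 0 < Real.log 2 := Real.log_pos (by norm_num)
  refine ((qq_fin (S := S) b).prod (Finset.finite_toSet (Finset.range (⌊b / Real.log 2⌋₊ + 1)))).subset ?_
  rintro ⟨p, k⟩ hx
  have hp1 : (2 : ℝ) ≤ (qq p.1 : ℝ) := by exact_mod_cast two_le_qq p.1
  have hl : Real.log 2 ≤ Real.log (qq p.1 : ℝ) := Real.log_le_log (by norm_num) hp1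
  have hk : (0 : ℝ) ≤ k := Nat.cast_nonneg _
  have hx' : ((k : ℝ) + 1) * Real.log (qq p.1 : ℝ) ≤ b := hx
  refine mem_prod.2 ⟨?_, ?_⟩
  · show Real.log (qq p.1 : ℝ) ≤ b
    nlinarith
  · show k ∈ (Finset.range (⌊b / Real.log 2⌋₊ + 1) : Set ℕ)
    rw [Finset.coe_range, mem_Iio, Nat.lt_succ_iff]
    refine Nat.le_floor ?_
    rw [le_div_iff₀ hlog2]
    nlinarith

theorem exp_LL3 (x : PL S × ℕ) : Real.exp (LL x) = (qq x.1.1 : ℝ) ^ (x.2 + 1) := by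
  have h := rexp_LL x (-1)
  rw [neg_mul, one_mul, neg_neg, neg_neg, Real.rpow_one] at h
  exact h

theorem le_LL3 {X a : ℝ} (hX : 0 < X) (x : PL S × ℕ) :
    a * Real.log X ≤ LL x ↔ X ^ a ≤ (qq x.1.1 : ℝ) ^ (x.2 + 1) := by
  rw [← exp_LL3, Real.rpow_def_of_pos hX, Real.exp_le_exp, mul_comm]

theorem LL_le3 {X : ℝ} (hX : 0 < X) (x : PL S × ℕ) :
    LL x ≤ Real.log X ↔ (qq x.1.1 : ℝ) ^ (x.2 + 1) ≤ X := by
  rw [← exp_LL3, Real.le_log_iff_exp_le hX]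

theorem gl3_main {α : PL S → Fin 3 → ℂ} (h : AdjointGL3 α) {c lam : ℝ} (hc : c < 1 / 2 ∨ OffLine3 α c)
    (hlam : 0 < lam) :
    (∀ᶠ X : ℝ in atTop, X ^ c ≤ ∑' x : PL S × ℕ, (open Classical in
      if X ^ (1 - lam) ≤ (qq x.1.1 : ℝ) ^ (x.2 + 1) ∧ (qq x.1.1 : ℝ) ^ (x.2 + 1) ≤ X then
        max 0 (1 - ‖∑ i, α x.1 i ^ (x.2 + 1)‖ ^ 2) else 0)) ∧
    ∀ᶠ X : ℝ in atTop, X ^ c ≤ (({v : PL S | (qq v.1 : ℝ) ≤ X ∧ ∀ i, ‖α v i‖ = 1}.ncard : ℕ) : ℝ) := by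
  classical
  have := countable_primes K
  obtain ⟨F0, hF0, hE, hreal, hex⟩ := gl3_core h
  have hsd : ∀ t : ℝ, 1 < t → Summable fun x : PL S × ℕ => |dd α x| * Real.exp (-(t * LL x)) :=
    fun t ht => summable_abs h.auto.cuspidal ht
  have hc1 : ∀ a : ℝ, (a < 1 / 2 ∨ ∃ ρ : ℂ, a < ρ.re ∧ ρ.im ≠ 0 ∧ meromorphicOrderAt F0 ρ ≠ 0) →
      ∃ a' : ℝ, a < a' ∧ 0 < a' ∧ (a' < 1 / 2 ∨ ∃ ρ : ℂ, a' < ρ.re ∧ ρ.im ≠ 0 ∧ meromorphicOrderAt F0 ρ ≠ 0) := by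
    intro a ha
    by_cases ha2 : a < 1 / 2
    · exact ⟨max ((a + 1 / 2) / 2) (1 / 4), lt_max_of_lt_left (by linarith), lt_max_of_lt_right (by norm_num),
        Or.inl (max_lt (by linarith) (by norm_num))⟩
    · rcases ha with h3 | ⟨ρ, h3, h4, h5⟩
      · exact absurd h3 ha2
      · push Not at ha2
        exact ⟨(a + ρ.re) / 2, by linarith, by linarith, Or.inr ⟨ρ, by linarith, h4, h5⟩⟩
  have hc' : c < 1 / 2 ∨ ∃ ρ : ℂ, c < ρ.re ∧ ρ.im ≠ 0 ∧ meromorphicOrderAt F0 ρ ≠ 0 := by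
    rcases hc with h1 | ⟨F, ρ, hF, hFE, h3, h4, h5⟩
    · exact Or.inl h1
    · refine Or.inr ⟨ρ, h3, h4, ?_⟩
      rw [← order_eq hF hF0 (fun s hs => ?_) ρ]
      · exact h5
      · rw [hFE s hs, hE s hs, logAd_eq]
  set w : PL S × ℕ → ℝ := fun x => max 0 (1 - ‖∑ i, α x.1 i ^ (x.2 + 1)‖ ^ 2) with hw
  have key : ∀ a : ℝ, (a < 1 / 2 ∨ ∃ ρ : ℂ, a < ρ.re ∧ ρ.im ≠ 0 ∧ meromorphicOrderAt F0 ρ ≠ 0) →
      ∀ᶠ X : ℝ in atTop, X ^ a ≤ ∑' x, (if (1 - lam) * Real.log X ≤ LL x ∧ LL x ≤ Real.log X then w x else 0) := by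
    intro a ha
    obtain ⟨a', h1, h2, h3⟩ := hc1 a ha
    refine sum_abs (d := dd α) LL_nonneg (fun x => le_max_left _ _) (fun x => ?_) LL_fin3 h2 h1
      (fun l hl hl1 => main_abs LL_nonneg hsd hF0 hE hreal hex h3 hl hl1) hlam
    unfold dd
    have hk : (0 : ℝ) ≤ x.2 := Nat.cast_nonneg _
    rw [← neg_div, neg_sub, div_le_iff₀ (by linarith)]
    have h4 : 1 - ‖∑ i, α x.1 i ^ (x.2 + 1)‖ ^ 2 ≤ w x := le_max_right _ _
    have h5 : 0 ≤ w x := le_max_left _ _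
    nlinarith
  refine ⟨?_, ?_⟩
  · filter_upwards [key c hc', eventually_gt_atTop 0] with X h1 h2
    refine h1.trans (le_of_eq (tsum_congr fun x => ?_))
    simp only [le_LL3 h2, LL_le3 h2]
    rfl
  · obtain ⟨a, h1, -, h3⟩ := hc1 c hc'
    have h4 := count_primes (P := PL S) (ℓ := fun v => Real.log (qq v.1 : ℝ)) (d := dd α)
      (E := fun v => ∀ i, ‖α v i‖ = 1) (fun v => Real.log_le_log (by norm_num) (by exact_mod_cast two_le_qq v.1))
      (fun b => qq_fin b) (fun x hx => ?_) h1 ?_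
    · filter_upwards [h4, eventually_gt_atTop 0] with X h5 h6
      refine h5.trans (le_of_eq ?_)
      congr 2
      ext v
      simp only [Set.mem_ofPred_eq]
      rw [Real.log_le_log_iff (qq_pos v.1) h6]
    · by_contra hcon
      have h4 := nontemp_pow (h.unitary x.1) hcon (x.2 + 1)
      unfold dd at hx
      exact absurd hx (not_lt.2 (by positivity))
    · filter_upwards [key a h3] with X h5
      refine h5.trans (count_of_sum (d := dd α) (fun x => ?_) (fun x hx => ?_) LL_fin3)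
      · refine max_le zero_le_one ?_
        nlinarith [sq_nonneg ‖∑ i, α x.1 i ^ (x.2 + 1)‖]
      · refine max_le le_rfl ?_
        unfold dd at hx
        have hk : (0 : ℝ) ≤ x.2 := Nat.cast_nonneg _
        have h6 : 0 < (x.2 : ℝ) + 1 := by linarith
        have h7 : 0 ≤ (‖∑ i, α x.1 i ^ (x.2 + 1)‖ ^ 2 - 1) / ((x.2 : ℝ) + 1) * ((x.2 : ℝ) + 1) :=
          mul_nonneg hx h6.le
        rw [div_mul_cancel₀ _ h6.ne'] at h7
        linarith

end Pool.Agent.TH949.TX
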