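import Mathlib
import Pool.Agent.TH949.TX.MainReal

/-! Negative coefficients at every scale, for functions without real poles to the right of `c`: no information on the
line `Re s = 1/2` is needed. -/

set_option autoImplicit false

open Complex MeasureTheory Set Filter Topology
open Pool.Agent.W189.TP (DS)

namespace Pool.Agent.TH949.TX

/-- negative coefficients at every scale: no real poles to the right of `c`, a singularity which is not real -/
theorem right_abs {ι : Type*} [Countable ι] {d L : ι → ℝ} (hL : ∀ i, 0 ≤ L i)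
    (habs : ∀ t : ℝ, 1 < t → Summable fun i => |d i| * Real.exp (-(t * L i)))
    {F : ℂ → ℂ} (hF : MeromorphicOn F univ) (hE : ∀ s : ℂ, 1 < s.re → F s = cexp (DS d L s))
    {c : ℝ} (hc0 : 0 ≤ c) (hreal : ∀ x : ℝ, c < x → 0 ≤ meromorphicOrderAt F (x : ℂ))
    (hc : ∃ ρ : ℂ, c < ρ.re ∧ ρ.im ≠ 0 ∧ meromorphicOrderAt F ρ ≠ 0)
    {lam : ℝ} (hlam : 0 < lam) (hlam1 : lam ≤ 1) :
    ∀ᶠ Y : ℝ in atTop, 1 / 16 ≤ WN d L lam c Y := by
  classical
  have h2 := summ_dL hL habs (t := 2) (by norm_num)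
  -- the singularities
  set S : Set ℝ := {x | ∃ ρ : ℂ, ρ.re = x ∧ ρ.im ≠ 0 ∧ meromorphicOrderAt F ρ ≠ 0} with hS
  have hle1 : ∀ ρ : ℂ, meromorphicOrderAt F ρ ≠ 0 → ρ.re ≤ 1 := by
    intro ρ hρ
    obtain ⟨Z, m, h, hZ1, hZ2, -, -⟩ := t_extract hL habs hF hE (c := min ρ.re 0) (H := |ρ.im| + 1)
      (lt_of_le_of_lt (min_le_right _ _) (by norm_num)) (by positivity)
    exact (hZ1 ρ (hZ2 ρ (min_le_left _ _) (by linarith) hρ)).2.1
  have hSb : BddAbove S := by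
    refine ⟨1, ?_⟩
    rintro x ⟨ρ, rfl, -, h⟩
    exact hle1 ρ h
  have hSn : S.Nonempty := by
    obtain ⟨ρ, -, h3, h4⟩ := hc
    exact ⟨ρ.re, ρ, rfl, h3, h4⟩
  set b : ℝ := sSup S with hb
  have hb1 : b ≤ 1 := csSup_le hSn (by rintro x ⟨ρ, rfl, -, h⟩; exact hle1 ρ h)
  have hcb : c < b := by
    obtain ⟨ρ, h3, h4, h5⟩ := hc
    exact h3.trans_le (le_csSup hSb ⟨ρ, rfl, h4, h5⟩)
  -- small singularities
  obtain ⟨Z0, m0, -, hZ01, hZ02, -, -⟩ := t_extract hL habs hF hE (c := 0) (H := 1) (by norm_num) one_pos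
  obtain ⟨g0, hg0, hg01, hg0Z⟩ := exists_gap Z0 (fun ρ => ρ.im ≠ 0) (fun ρ => |ρ.im|)
    (fun ρ _ h => abs_pos.2 h)
  have hgap : ∀ ρ : ℂ, 0 ≤ ρ.re → ρ.im ≠ 0 → meromorphicOrderAt F ρ ≠ 0 → g0 ≤ |ρ.im| := by
    intro ρ h3 h4 h5
    by_cases h6 : |ρ.im| ≤ 1
    · exact hg0Z ρ (hZ02 ρ h3 h6 h5) h4
    · push Not at h6
      linarith
  -- the parameters
  set η : ℝ := lam ^ 2 / 100 with hη
  have hη0 : 0 < η := by rw [hη]; positivity
  have hη1 : η ≤ 1 / 4 := by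
    rw [hη]
    nlinarith
  set V : ℝ := 2 + 2 / η with hV
  have hV0 : 0 < V := by rw [hV]; positivity
  have hV2 : 4 + 3 / η ≤ V ^ 2 := by
    rw [hV]
    have e1 : (2 + 2 / η) ^ 2 = 4 + 8 / η + (2 / η) ^ 2 := by ring
    rw [e1]
    have e2 : 3 / η ≤ 8 / η := by gcongr; norm_num
    have e3 : 0 ≤ (2 / η) ^ 2 := by positivity
    linarith
  set e : ℝ := min (η * g0 ^ 2 / 4) ((b - c) / 2) with he
  have he0 : 0 < e := lt_min (by positivity) (by linarith)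
  have he1 : e ≤ η * g0 ^ 2 / 4 := min_le_left _ _
  have he2 : e ≤ (b - c) / 2 := min_le_right _ _
  set σ : ℝ := b - e with hσ
  have hσc : c < σ := by rw [hσ]; linarith
  have hσ0 : 0 < σ := by linarith
  have hσ1 : σ < 1 := by rw [hσ]; linarith
  set c' : ℝ := (c + σ) / 2 with hc'
  have hc'σ : c' < σ := by rw [hc']; linarith
  have hc'0 : 0 < c' := by
    rw [hc']
    linarith
  have hc'c : c < c' := by
    rw [hc']
    linarith
  -- a singularity to the right of `σ`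
  obtain ⟨x1, ⟨ρ1, rfl, hρ1i, hρ1o⟩, hρ1σ⟩ := exists_lt_of_lt_csSup hSn (show σ < sSup S by
    rw [hσ, ← hb]; linarith)
  set r1 : ℝ := min 1 ((ρ1.re - σ) / 2) with hr1
  have hr10 : 0 < r1 := lt_min one_pos (by linarith)
  set H : ℝ := |ρ1.im| + 1 + V with hH
  obtain ⟨Z, m, h, hZ1, hZ2, hZ3, hZ4⟩ := t_extract hL habs hF hE (c := c') (H := H) (by linarith) (by positivity)
  have hρ1Z : ρ1 ∈ Z := hZ2 ρ1 (by linarith) (by rw [hH]; linarith) hρ1o
  have hZr : ∀ ρ ∈ Z, c' ≤ ρ.re ∧ ρ.re ≤ 1 := fun ρ hρ => ⟨(hZ1 ρ hρ).1, (hZ1 ρ hρ).2.1⟩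
  obtain ⟨t0, ht1, ht2, hinj⟩ := exists_generic Z hη0 hη1 hσ0.le hσ1.le
    (fun ρ hρ => ⟨by linarith [(hZr ρ hρ).1], (hZr ρ hρ).2⟩) (u := ρ1.im) hr10
  -- the complex base point
  set s1 : ℂ := (σ : ℂ) + t0 * I with hs1
  have hs1r : s1.re = σ := by simp [hs1]
  have hs1i : s1.im = t0 := by simp [hs1]
  have ht0 : |t0| ≤ |ρ1.im| + 1 := by
    have h3 : |t0 - ρ1.im| ≤ 1 := by
      rw [abs_le]
      have : r1 ≤ 1 := min_le_left _ _
      constructor <;> linarith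
    have h4 := abs_add_le (t0 - ρ1.im) ρ1.im
    rw [sub_add_cancel] at h4
    linarith
  have hlarge := SZ_large (Z := Z) (m := m) (η := η) (s := s1) (fun ρ hρ => (hZ1 ρ hρ).2.2.2.2) hinj hρ1Z (by
    rw [ex_re, hs1r, hs1i]
    have h3 : (ρ1.im - t0) ^ 2 ≤ r1 ^ 2 := by nlinarith
    have h4 : r1 ^ 2 ≤ (ρ1.re - σ) / 2 := by
      have h5 : r1 ≤ 1 := min_le_left _ _
      have h6 : r1 ≤ (ρ1.re - σ) / 2 := min_le_right _ _
      nlinarith
    have h5 : η * (ρ1.im - t0) ^ 2 ≤ 1 * ((ρ1.re - σ) / 2) :=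
      mul_le_mul (by linarith) (h3.trans h4) (by positivity) zero_le_one
    have h6 : 0 ≤ η * (ρ1.re - σ) ^ 2 := by positivity
    nlinarith)
  -- the real base point
  have hreal' := SZ_real (Z := Z) (m := m) (η := η) (σ := σ) (by
    intro ρ hρ him
    obtain ⟨a1, a2, a3, a4, a5⟩ := hZ1 ρ hρ
    by_contra hcon
    push Not at hcon
    have h3 : m ρ < 0 := lt_of_le_of_ne hcon a5
    have h5 := hreal ρ.re (by linarith)
    have e1 : ((ρ.re : ℝ) : ℂ) = ρ := Complex.ext (by simp) (by simp [him])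
    rw [e1, a4] at h5
    have h6 : (0 : ℤ) ≤ m ρ := by exact_mod_cast h5
    omega) (by
    intro ρ hρ him
    obtain ⟨a1, a2, a3, a4, a5⟩ := hZ1 ρ hρ
    have ho : meromorphicOrderAt F ρ ≠ 0 := by
      rw [a4]
      exact_mod_cast a5
    have h3 : ρ.re ≤ b := le_csSup hSb ⟨ρ, rfl, him, ho⟩
    have h4 := hgap ρ (by linarith) him ho
    have h5 : g0 ^ 2 ≤ ρ.im ^ 2 := by
      rw [← sq_abs ρ.im]
      exact pow_le_pow_left₀ hg0.le h4 2
    rw [ex_re]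
    simp only [Complex.ofReal_re, Complex.ofReal_im, sub_zero]
    have h6 : ρ.re - σ ≤ e := by rw [hσ]; linarith
    have h7 : -1 ≤ ρ.re - σ := by linarith
    have h8 : η * g0 ^ 2 ≤ η * ρ.im ^ 2 := mul_le_mul_of_nonneg_left h5 hη0.le
    have h9 : 0 < η * g0 ^ 2 := by positivity
    set x := ρ.re - σ with hx
    rcases le_or_gt 0 x with h10 | h10
    · have h11 : x ^ 2 ≤ x * 1 := by nlinarith
      nlinarith
    · have h11 : x ^ 2 ≤ -x := by nlinarith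
      nlinarith) (ε := 1 / 100) (by norm_num)
  -- the explicit formula
  have hc'd : ∀ ρ ∈ Z, c' ≤ ρ.re ∧ ρ.re ≤ 1 := hZr
  have hx1 := explicit hL habs hc'0 hc'd hZ3 hZ4 hη0 hη1 hV2 hV0 (s0 := s1) (by rw [hs1r]; exact hc'σ)
    (by rw [hs1r]; exact hσ1) (by rw [hs1i, hH]; linarith)
  have hx2 := explicit hL habs hc'0 hc'd hZ3 hZ4 hη0 hη1 hV2 hV0 (s0 := (σ : ℂ)) (by simpa using hc'σ)
    (by simpa using hσ1) (by
      simp only [Complex.ofReal_im, abs_zero, zero_add]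
      rw [hH]
      have := abs_nonneg ρ1.im
      linarith)
  have hy1 := (tendsto_zero_iff_norm_tendsto_zero.1 hx1).eventually (gt_mem_nhds (show (0 : ℝ) < 1 / 100 by norm_num))
  have hy2 := (tendsto_zero_iff_norm_tendsto_zero.1 hx2).eventually (gt_mem_nhds (show (0 : ℝ) < 1 / 100 by norm_num))
  set B : ℝ := ∑' i, |d i * L i| * Real.exp (-(2 * L i)) with hB
  have hB0 : Tendsto (fun Y : ℝ => B * Real.exp (-Y)) atTop (𝓝 0) := by
    simpa using Real.tendsto_exp_neg_atTop_nhds_zero.const_mul B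
  have hpi : 0 < 4 * Real.pi * η := by positivity
  filter_upwards [hlarge, hreal', hy1, hy2, hB0.eventually (gt_mem_nhds (show (0 : ℝ) < 1 / 100 by norm_num)),
    eventually_gt_atTop 0, eventually_ge_atTop (1 / (4 * Real.pi * η))] with Y a1 a2 a3 a4 a5 a6 a7
  have hκ : 0 < η * Y := by positivity
  have n1 := neg_part hL h2 (s := s1) (by rw [hs1r]; exact hσ0.le) hκ Y
  rw [hs1r] at n1
  have n2 := neg_le_WN (c := c) hL h2 hlam hlam1 hη hσ0.le hσc.le (by linarith) a6 (by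
    rw [div_le_iff₀ hpi] at a7
    linarith)
  rw [← hB] at n2
  have n3 : 1 / 2 - 1 / 100 ≤ ‖JJ d L s1 (η * Y) Y‖ := by
    have := norm_sub_norm_le (SZ Z m η s1 Y) (-(JJ d L s1 (η * Y) Y))
    rw [norm_neg, sub_neg_eq_add, add_comm] at this
    linarith
  have n4 : (JJ d L (σ : ℂ) (η * Y) Y).re ≤ 1 / 50 := by
    have h3 := Complex.abs_re_le_norm (JJ d L (σ : ℂ) (η * Y) Y + SZ Z m η (σ : ℂ) Y)
    rw [Complex.add_re] at h3
    have h4 := (abs_le.1 h3).2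
    linarith
  linarith

theorem right_real {ι : Type*} [Countable ι] {d L : ι → ℝ} (hL : ∀ i, 0 ≤ L i)
    (habs : ∀ t : ℝ, 1 < t → Summable fun i => |d i| * Real.exp (-(t * L i)))
    {F : ℂ → ℂ} (hF : MeromorphicOn F univ) (hE : ∀ s : ℂ, 1 < s.re → F s = cexp (DS d L s))
    {c : ℝ} (hc0 : 0 ≤ c) (hreal : ∀ x : ℝ, c < x → 0 ≤ meromorphicOrderAt F (x : ℂ))
    {b : ℝ} (ho : meromorphicOrderAt F (b : ℂ) ≠ 0)
    (hle : ∀ ρ : ℂ, ρ.im ≠ 0 → meromorphicOrderAt F ρ ≠ 0 → ρ.re ≤ b)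
    (hcb : c < b) {lam : ℝ} (hlam : 0 < lam) (hlam1 : lam ≤ 1) :
    ∀ᶠ Y : ℝ in atTop, 1 / 16 ≤ WN d L lam c Y := by
  classical
  have h2 := summ_dL hL habs (t := 2) (by norm_num)
  have hb1 : b ≤ 1 := by
    obtain ⟨Z, m, h, hZ1, hZ2, -, -⟩ := t_extract hL habs hF hE (c := 0) (H := 1) (by norm_num) one_pos
    have h3 := (hZ1 _ (hZ2 (b : ℂ) (by simp; linarith) (by simp) ho)).2.1
    simpa using h3
  -- small singularities
  obtain ⟨Z0, m0, -, hZ01, hZ02, -, -⟩ := t_extract hL habs hF hE (c := 0) (H := 1) (by norm_num) one_pos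
  obtain ⟨g0, hg0, hg01, hg0Z⟩ := exists_gap Z0 (fun ρ => ρ.im ≠ 0) (fun ρ => |ρ.im|)
    (fun ρ _ h => abs_pos.2 h)
  have hgap : ∀ ρ : ℂ, 0 ≤ ρ.re → ρ.im ≠ 0 → meromorphicOrderAt F ρ ≠ 0 → g0 ≤ |ρ.im| := by
    intro ρ h3 h4 h5
    by_cases h6 : |ρ.im| ≤ 1
    · exact hg0Z ρ (hZ02 ρ h3 h6 h5) h4
    · push Not at h6
      linarith
  -- the parameters
  set η : ℝ := lam ^ 2 / 100 with hη
  have hη0 : 0 < η := by rw [hη]; positivity
  have hη1 : η ≤ 1 / 4 := by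
    rw [hη]
    nlinarith
  set V : ℝ := 2 + 2 / η with hV
  have hV0 : 0 < V := by rw [hV]; positivity
  have hV2 : 4 + 3 / η ≤ V ^ 2 := by
    rw [hV]
    have e1 : (2 + 2 / η) ^ 2 = 4 + 8 / η + (2 / η) ^ 2 := by ring
    rw [e1]
    have e2 : 3 / η ≤ 8 / η := by gcongr; norm_num
    have e3 : 0 ≤ (2 / η) ^ 2 := by positivity
    linarith
  set e : ℝ := min (η * g0 ^ 2 / 4) ((b - c) / 2) with he
  have he0 : 0 < e := lt_min (by positivity) (by linarith)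
  have he1 : e ≤ η * g0 ^ 2 / 4 := min_le_left _ _
  have he2 : e ≤ (b - c) / 2 := min_le_right _ _
  set σ : ℝ := b - e with hσ
  have hσc : c < σ := by rw [hσ]; linarith
  have hσ0 : 0 < σ := by linarith
  have hσ1 : σ < 1 := by rw [hσ]; linarith
  set c' : ℝ := (c + σ) / 2 with hc'
  have hc'σ : c' < σ := by rw [hc']; linarith
  have hc'0 : 0 < c' := by
    rw [hc']
    linarith
  have hc'c : c < c' := by
    rw [hc']
    linarith
  set H : ℝ := 1 + V with hH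
  obtain ⟨Z, m, h, hZ1, hZ2, hZ3, hZ4⟩ := t_extract hL habs hF hE (c := c') (H := H) (by linarith) (by positivity)
  have hbZ : (b : ℂ) ∈ Z := hZ2 (b : ℂ) (by simp; linarith) (by simp; positivity) ho
  have hZr : ∀ ρ ∈ Z, c' ≤ ρ.re ∧ ρ.re ≤ 1 := fun ρ hρ => ⟨(hZ1 ρ hρ).1, (hZ1 ρ hρ).2.1⟩
  have hreal' := SZ_real_zero (Z := Z) (m := m) (η := η) (σ := σ) (by
    intro ρ hρ him
    obtain ⟨a1, a2, a3, a4, a5⟩ := hZ1 ρ hρ
    by_contra hcon
    push Not at hcon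
    have h3 : m ρ < 0 := lt_of_le_of_ne hcon a5
    have h5 := hreal ρ.re (by linarith)
    have e1 : ((ρ.re : ℝ) : ℂ) = ρ := Complex.ext (by simp) (by simp [him])
    rw [e1, a4] at h5
    have h6 : (0 : ℤ) ≤ m ρ := by exact_mod_cast h5
    omega) (by
    intro ρ hρ him
    obtain ⟨a1, a2, a3, a4, a5⟩ := hZ1 ρ hρ
    have ho : meromorphicOrderAt F ρ ≠ 0 := by
      rw [a4]
      exact_mod_cast a5
    have h3 : ρ.re ≤ b := hle ρ him ho
    have h4 := hgap ρ (by linarith) him ho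
    have h5 : g0 ^ 2 ≤ ρ.im ^ 2 := by
      rw [← sq_abs ρ.im]
      exact pow_le_pow_left₀ hg0.le h4 2
    rw [ex_re]
    simp only [Complex.ofReal_re, Complex.ofReal_im, sub_zero]
    have h6 : ρ.re - σ ≤ e := by rw [hσ]; linarith
    have h7 : -1 ≤ ρ.re - σ := by linarith
    have h8 : η * g0 ^ 2 ≤ η * ρ.im ^ 2 := mul_le_mul_of_nonneg_left h5 hη0.le
    have h9 : 0 < η * g0 ^ 2 := by positivity
    set x := ρ.re - σ with hx
    rcases le_or_gt 0 x with h10 | h10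
    · have h11 : x ^ 2 ≤ x * 1 := by nlinarith
      nlinarith
    · have h11 : x ^ 2 ≤ -x := by nlinarith
      nlinarith) hbZ (by simp) (by
    rw [ex_re]
    simp only [Complex.ofReal_re, Complex.ofReal_im, sub_zero]
    have h3 : 0 ≤ b - σ := by rw [hσ]; linarith
    nlinarith [mul_nonneg hη0.le (sq_nonneg (b - σ))])
  -- the explicit formula
  have hx2 := explicit hL habs hc'0 hZr hZ3 hZ4 hη0 hη1 hV2 hV0 (s0 := (σ : ℂ)) (by simpa using hc'σ)
    (by simpa using hσ1) (by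
      simp only [Complex.ofReal_im, abs_zero, zero_add]
      rw [hH]
      linarith)
  have hy2 := (tendsto_zero_iff_norm_tendsto_zero.1 hx2).eventually (gt_mem_nhds (show (0 : ℝ) < 1 / 100 by norm_num))
  set B : ℝ := ∑' i, |d i * L i| * Real.exp (-(2 * L i)) with hB
  have hB0 : Tendsto (fun Y : ℝ => B * Real.exp (-Y)) atTop (𝓝 0) := by
    simpa using Real.tendsto_exp_neg_atTop_nhds_zero.const_mul B
  have hpi : 0 < 4 * Real.pi * η := by positivity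
  filter_upwards [hreal', hy2, hB0.eventually (gt_mem_nhds (show (0 : ℝ) < 1 / 100 by norm_num)),
    eventually_gt_atTop 0, eventually_ge_atTop (1 / (4 * Real.pi * η))] with Y a2 a4 a5 a6 a7
  have hκ : 0 < η * Y := by positivity
  have n1 := neg_part hL h2 (s := (σ : ℂ)) (by simpa using hσ0.le) hκ Y
  rw [Complex.ofReal_re] at n1
  have n2 := neg_le_WN (c := c) hL h2 hlam hlam1 hη hσ0.le hσc.le (by linarith) a6 (by
    rw [div_le_iff₀ hpi] at a7
    linarith)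
  rw [← hB] at n2
  have n4 : (JJ d L (σ : ℂ) (η * Y) Y).re ≤ -(49 / 100) := by
    have h3 := Complex.abs_re_le_norm (JJ d L (σ : ℂ) (η * Y) Y + SZ Z m η (σ : ℂ) Y)
    rw [Complex.add_re] at h3
    have h4 := (abs_le.1 h3).2
    linarith
  have n5 : 0 ≤ ‖JJ d L (σ : ℂ) (η * Y) Y‖ := norm_nonneg _
  linarith

/-- **Main theorem**, for exponents `c ≥ 0` such that there are no real poles to the right of `c`. -/
theorem main_right {ι : Type*} [Countable ι] {d L : ι → ℝ} (hL : ∀ i, 0 ≤ L i)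
    (habs : ∀ t : ℝ, 1 < t → Summable fun i => |d i| * Real.exp (-(t * L i)))
    {F : ℂ → ℂ} (hF : MeromorphicOn F univ) (hE : ∀ s : ℂ, 1 < s.re → F s = cexp (DS d L s))
    {c : ℝ} (hc0 : 0 ≤ c) (hreal : ∀ x : ℝ, c < x → 0 ≤ meromorphicOrderAt F (x : ℂ))
    (hc : ∃ ρ : ℂ, c < ρ.re ∧ meromorphicOrderAt F ρ ≠ 0)
    {lam : ℝ} (hlam : 0 < lam) (hlam1 : lam ≤ 1) :
    ∀ᶠ Y : ℝ in atTop, 1 / 16 ≤ WN d L lam c Y := by
  by_cases h1 : ∃ ρ : ℂ, c < ρ.re ∧ ρ.im ≠ 0 ∧ meromorphicOrderAt F ρ ≠ 0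
  · exact right_abs hL habs hF hE hc0 hreal h1 hlam hlam1
  · push Not at h1
    obtain ⟨ρ, h4, h5⟩ := hc
    have h6 : ρ.im = 0 := by
      by_contra h7
      exact h5 (h1 ρ h4 h7)
    have e1 : ((ρ.re : ℝ) : ℂ) = ρ := Complex.ext (by simp) (by simp [h6])
    refine right_real hL habs hF hE hc0 hreal (b := ρ.re) (by rw [e1]; exact h5) (fun z hz1 hz2 => ?_)
      h4 hlam hlam1
    by_contra hcon
    push Not at hcon
    exact hz2 (h1 z (by linarith) hz1)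

end Pool.Agent.TH949.TX
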