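import Mathlib
import Pool.Agent.TH949.TX.MainR
import Pool.Agent.TH949.TX.Euler
import Pool.Agent.TH949.TX.Count2
import Pool.Agent.TH949.TX.GL3b

/-! `GL_n` over a number field: exponents `c` such that `ζ_K` has no real zeros to the right of `c`. -/

set_option autoImplicit false

open Complex MeasureTheory Set Filter Topology NumberField IsDedekindDomain
open Pool.Agent.W189.TP (DS DS_diff DS_norm_le summ_mono)
open Pool.Agent.TH861.GL3

namespace Pool.Agent.TH949.TX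

variable {K : Type*} [Field K] [NumberField K] {S : Finset (HeightOneSpectrum (𝓞 K))} {n : ℕ}

/-- `log L^S(s, Π × Π~)` -/
noncomputable def logRSK (α : PL S → Fin n → ℂ) (s : ℂ) : ℂ :=
  ∑' x : PL S × ℕ, ((‖∑ i, α x.1 i ^ (x.2 + 1)‖ ^ 2 / ((x.2 : ℝ) + 1) : ℝ) : ℂ) *
    (((qq x.1.1 : ℕ) : ℂ) ^ (-s)) ^ (x.2 + 1)

/-- `log ζ_K^S(s)` -/
noncomputable def logZK (S : Finset (HeightOneSpectrum (𝓞 K))) (s : ℂ) : ℂ :=
  ∑' x : PL S × ℕ, ((1 / ((x.2 : ℝ) + 1) : ℝ) : ℂ) * (((qq x.1.1 : ℕ) : ℂ) ^ (-s)) ^ (x.2 + 1)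

/-- the coefficients of `log L^S(s, Π × Π~) - log ζ_K^S(s)` -/
noncomputable def ddn (α : PL S → Fin n → ℂ) (x : PL S × ℕ) : ℝ :=
  (‖∑ i, α x.1 i ^ (x.2 + 1)‖ ^ 2 - 1) / ((x.2 : ℝ) + 1)

theorem order_ne {f : ℂ → ℂ} {z : ℂ} (hf : AnalyticAt ℂ f z) (h0 : f z = 0) : meromorphicOrderAt f z ≠ 0 := by
  rw [hf.meromorphicOrderAt_eq]
  have h1 : analyticOrderAt f z ≠ 0 := fun h => (hf.analyticOrderAt_eq_zero.1 h) h0
  cases h2 : analyticOrderAt f z with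
  | top => simp
  | coe m =>
    rw [h2] at h1
    simp only [ENat.map_natCast]
    have h3 : m ≠ 0 := by
      rintro rfl
      exact h1 rfl
    exact_mod_cast h3

theorem summ_zk (S : Finset (HeightOneSpectrum (𝓞 K))) {σ : ℝ} (hσ : 1 < σ) :
    Summable fun x : PL S × ℕ => 1 / ((x.2 : ℝ) + 1) * (((qq x.1.1 : ℕ) : ℝ) ^ (-σ)) ^ (x.2 + 1) := by
  have h1 := summable_pp (S := S) (fun _ => 1) (fun _ => zero_le_one) (by linarith : (0 : ℝ) < σ)
    ((summable_qq hσ).congr fun p => (one_mul _).symm)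
  refine Summable.of_nonneg_of_le (fun x => by positivity) (fun x => ?_) h1
  rw [rexp_LL]
  have hk : (0 : ℝ) ≤ x.2 := Nat.cast_nonneg _
  have h2 : 1 / ((x.2 : ℝ) + 1) ≤ 1 := by
    rw [div_le_one (by linarith)]
    linarith
  exact mul_le_mul_of_nonneg_right h2 (by positivity)

theorem summ_ddn {α : PL S → Fin n → ℂ} (h : ∀ σ : ℝ, 1 < σ → Summable fun x : PL S × ℕ =>
    ‖∑ i, α x.1 i ^ (x.2 + 1)‖ ^ 2 / ((x.2 : ℝ) + 1) * (((qq x.1.1 : ℕ) : ℝ) ^ (-σ)) ^ (x.2 + 1)) {t : ℝ} (ht : 1 < t) :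
    Summable fun x => |ddn α x| * Real.exp (-(t * LL x)) := by
  refine Summable.of_nonneg_of_le (fun x => by positivity) (fun x => ?_) ((h t ht).add (summ_zk S ht))
  rw [rexp_LL, ← add_mul]
  refine mul_le_mul_of_nonneg_right ?_ (by positivity)
  unfold ddn
  have hk : (0 : ℝ) ≤ x.2 := Nat.cast_nonneg _
  rw [← add_div, abs_div, abs_of_pos (by linarith : (0 : ℝ) < (x.2 : ℝ) + 1)]
  refine div_le_div_of_nonneg_right ?_ (by linarith)
  have := sq_nonneg ‖∑ i, α x.1 i ^ (x.2 + 1)‖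
  rw [abs_le]
  constructor <;> linarith

theorem norm_qcpow (v : HeightOneSpectrum (𝓞 K)) (s : ℂ) : ‖((qq v : ℕ) : ℂ) ^ (-s)‖ = ((qq v : ℕ) : ℝ) ^ (-s.re) := by
  have h2 := two_le_qq v
  rw [Complex.norm_natCast_cpow_of_pos (by omega), Complex.neg_re]

theorem cplx_summ {b : PL S × ℕ → ℝ} {s : ℂ}
    (h : Summable fun x : PL S × ℕ => |b x| * (((qq x.1.1 : ℕ) : ℝ) ^ (-s.re)) ^ (x.2 + 1)) :
    Summable fun x : PL S × ℕ => ((b x : ℝ) : ℂ) * (((qq x.1.1 : ℕ) : ℂ) ^ (-s)) ^ (x.2 + 1) := by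
  refine Summable.of_norm (h.congr fun x => ?_)
  rw [norm_mul, norm_pow, norm_qcpow, Complex.norm_real, Real.norm_eq_abs]

theorem DS_ddn {α : PL S → Fin n → ℂ} (h : ∀ σ : ℝ, 1 < σ → Summable fun x : PL S × ℕ =>
    ‖∑ i, α x.1 i ^ (x.2 + 1)‖ ^ 2 / ((x.2 : ℝ) + 1) * (((qq x.1.1 : ℕ) : ℝ) ^ (-σ)) ^ (x.2 + 1)) {s : ℂ}
    (hs : 1 < s.re) : DS (ddn α) LL s = logRSK α s - logZK S s := by
  have h1 : Summable fun x : PL S × ℕ => ((‖∑ i, α x.1 i ^ (x.2 + 1)‖ ^ 2 / ((x.2 : ℝ) + 1) : ℝ) : ℂ) *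
      (((qq x.1.1 : ℕ) : ℂ) ^ (-s)) ^ (x.2 + 1) := by
    refine cplx_summ ((h s.re hs).congr fun x => ?_)
    rw [abs_of_nonneg (by positivity)]
  have h2 : Summable fun x : PL S × ℕ => ((1 / ((x.2 : ℝ) + 1) : ℝ) : ℂ) *
      (((qq x.1.1 : ℕ) : ℂ) ^ (-s)) ^ (x.2 + 1) := by
    refine cplx_summ ((summ_zk S hs).congr fun x => ?_)
    rw [abs_of_nonneg (by positivity)]
  unfold logRSK logZK DS
  rw [← h1.tsum_sub h2]
  refine tsum_congr fun x => ?_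
  rw [exp_LL]
  unfold ddn
  push_cast
  ring

theorem card_le (K : Type*) [Field K] [NumberField K] : ∃ C : ℝ, 0 ≤ C ∧
    ∀ (S : Finset (HeightOneSpectrum (𝓞 K))) (b : ℝ),
      (({v : PL S | Real.log (qq v.1 : ℝ) ≤ b}.ncard : ℕ) : ℝ) ≤ C * Real.exp b := by
  have h := NumberField.Ideal.tendsto_norm_le_div_atTop K
  obtain ⟨L, hL⟩ : ∃ L : ℝ, Tendsto (fun s : ℝ =>
      (Nat.card {I : Ideal (𝓞 K) // (Ideal.absNorm I : ℝ) ≤ s} : ℝ) / s) atTop (𝓝 L) := ⟨_, h⟩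
  obtain ⟨s0, hs0⟩ := Filter.eventually_atTop.1 (hL.eventually (gt_mem_nhds (lt_add_one _)))
  have hfin : ∀ t : ℝ, Finite {I : Ideal (𝓞 K) // (Ideal.absNorm I : ℝ) ≤ t} := by
    intro t
    have h1 := Ideal.finite_setOfPred_absNorm_le (S := 𝓞 K) ⌊t⌋₊
    exact (h1.subset fun I hI => Nat.le_floor hI).to_subtype
  have hinj : ∀ (S : Finset (HeightOneSpectrum (𝓞 K))) (b t : ℝ), Real.exp b ≤ t →
      (({v : PL S | Real.log (qq v.1 : ℝ) ≤ b}.ncard : ℕ) : ℝ) ≤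
        (Nat.card {I : Ideal (𝓞 K) // (Ideal.absNorm I : ℝ) ≤ t} : ℝ) := by
    intro S b t ht
    have := hfin t
    have h1 : {v : PL S | Real.log (qq v.1 : ℝ) ≤ b}.ncard ≤
        Nat.card {I : Ideal (𝓞 K) // (Ideal.absNorm I : ℝ) ≤ t} := by
      rw [← Nat.card_coe_set_eq]
      refine Nat.card_le_card_of_injective (fun v : {v : PL S | Real.log (qq v.1 : ℝ) ≤ b} =>
        (⟨v.1.1.asIdeal, ?_⟩ : {I : Ideal (𝓞 K) // (Ideal.absNorm I : ℝ) ≤ t})) ?_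
      · have h2 : Real.log (qq v.1.1 : ℝ) ≤ b := v.2
        rw [Real.log_le_iff_le_exp (qq_pos v.1.1)] at h2
        exact h2.trans ht
      · intro v w hvw
        have h2 := congrArg Subtype.val hvw
        exact Subtype.ext (Subtype.ext (HeightOneSpectrum.ext h2))
    exact_mod_cast h1
  set t0 : ℝ := max s0 1 with ht0
  set N0 : ℝ := (Nat.card {I : Ideal (𝓞 K) // (Ideal.absNorm I : ℝ) ≤ t0} : ℝ) with hN0
  have hN00 : 0 ≤ N0 := Nat.cast_nonneg _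
  refine ⟨|L + 1| + N0, by positivity, fun S b => ?_⟩
  have he : 0 < Real.exp b := Real.exp_pos b
  rcases le_total t0 (Real.exp b) with h1 | h1
  · refine (hinj S b (Real.exp b) le_rfl).trans ?_
    have h2 := hs0 (Real.exp b) ((le_max_left _ _).trans h1)
    rw [div_lt_iff₀ he] at h2
    refine h2.le.trans (mul_le_mul_of_nonneg_right ?_ he.le)
    linarith [le_abs_self (L + 1)]
  · rcases le_total 1 (Real.exp b) with h3 | h3
    · refine (hinj S b t0 h1).trans ?_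
      have h4 : N0 * 1 ≤ N0 * Real.exp b := mul_le_mul_of_nonneg_left h3 hN00
      have h5 : 0 ≤ |L + 1| * Real.exp b := by positivity
      rw [← hN0]
      linarith
    · have h4 : {v : PL S | Real.log (qq v.1 : ℝ) ≤ b} = ∅ := by
        ext v
        simp only [Set.mem_ofPred_eq, Set.mem_empty_iff_false, iff_false, not_le]
        have h5 := Real.log_pos (one_lt_qq v.1)
        have h6 : b ≤ 0 := by
          rwa [← Real.exp_zero, Real.exp_le_exp] at h3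
        linarith
      rw [h4, Set.ncard_empty]
      push_cast
      positivity

/-- removing the Euler factor at `v`, on the level of coefficients -/
noncomputable def ddv (α : PL S → Fin n → ℂ) (v : PL S) (x : PL S × ℕ) : ℝ :=
  open scoped Classical in if x.1 = v then 0 else ddn α x

theorem norm_bdK {α : PL S → Fin n → ℂ} (h : ∀ σ : ℝ, 1 < σ → Summable fun x : PL S × ℕ =>
    ‖∑ i, α x.1 i ^ (x.2 + 1)‖ ^ 2 / ((x.2 : ℝ) + 1) * (((qq x.1.1 : ℕ) : ℝ) ^ (-σ)) ^ (x.2 + 1)) (q : PL S) (i : Fin n)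
    {s : ℂ} (hs : 1 < s.re) : ‖α q i‖ ^ 2 * ‖((qq q.1 : ℕ) : ℂ) ^ (-s)‖ < 1 := by
  have hp1 : (1 : ℝ) < ((qq q.1 : ℕ) : ℝ) := one_lt_qq q.1
  set t : ℝ := (1 + s.re) / 2 with ht
  have ht1 : 1 < t := by rw [ht]; linarith
  have hts : t < s.re := by rw [ht]; linarith
  have hC0 : 0 < ((qq q.1 : ℕ) : ℝ) ^ (-t) := by positivity
  have hC1 : ((qq q.1 : ℕ) : ℝ) ^ (-t) < 1 := Real.rpow_lt_one_of_one_lt_of_neg hp1 (by linarith)
  have h1 : Summable fun k : ℕ => (‖∑ i, α q i ^ (k + 1)‖ ^ 2 - 1) / ((k : ℝ) + 1) *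
      (((qq q.1 : ℕ) : ℝ) ^ (-t)) ^ (k + 1) := by
    have h2 := (h t ht1).comp_injective (i := fun k : ℕ => ((q, k) : PL S × ℕ))
      (fun a b hab => (Prod.mk.inj hab).2)
    have h3 := (summ_zk S ht1).comp_injective (i := fun k : ℕ => ((q, k) : PL S × ℕ))
      (fun a b hab => (Prod.mk.inj hab).2)
    refine (h2.sub h3).congr fun k => ?_
    simp only [Function.comp]
    ring
  have h3 := Pool.Agent.TH949.RES.norm_le_one_of_summable h1 hC0 hC1 i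
  have h4 : ‖((qq q.1 : ℕ) : ℂ) ^ (-s)‖ < ((qq q.1 : ℕ) : ℝ) ^ (-t) := by
    rw [norm_qcpow]
    exact Real.rpow_lt_rpow_of_exponent_lt hp1 (by linarith)
  rcases (sq_nonneg ‖α q i‖).lt_or_eq with h5 | h5
  · calc ‖α q i‖ ^ 2 * ‖((qq q.1 : ℕ) : ℂ) ^ (-s)‖ < ‖α q i‖ ^ 2 * ((qq q.1 : ℕ) : ℝ) ^ (-t) := by gcongr
      _ ≤ 1 := h3
  · rw [← h5, zero_mul]
    exact one_pos

theorem exp_ddv {α : PL S → Fin n → ℂ} (h : ∀ σ : ℝ, 1 < σ → Summable fun x : PL S × ℕ =>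
    ‖∑ i, α x.1 i ^ (x.2 + 1)‖ ^ 2 / ((x.2 : ℝ) + 1) * (((qq x.1.1 : ℕ) : ℝ) ^ (-σ)) ^ (x.2 + 1)) (v : PL S) {s : ℂ}
    (hs : 1 < s.re) :
    cexp (DS (ddv α v) LL s) = cexp (DS (ddn α) LL s) *
      (∏ x : Fin n × Fin n, (1 - α v x.1 * (starRingEnd ℂ) (α v x.2) * ((qq v.1 : ℕ) : ℂ) ^ (-s))) /
        (1 - ((qq v.1 : ℕ) : ℂ) ^ (-s)) := by
  classical
  set z : ℂ := ((qq v.1 : ℕ) : ℂ) ^ (-s) with hz
  have hp1 : (1 : ℝ) < ((qq v.1 : ℕ) : ℝ) := one_lt_qq v.1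
  have hz1 : ‖z‖ < 1 := by
    rw [hz, norm_qcpow]
    exact Real.rpow_lt_one_of_one_lt_of_neg hp1 (by linarith)
  have h1 := euler_exp (α v) (z := z) (fun i => norm_bdK h v i hs)
  have h1s := (euler_hasSum (α v) (z := z) (fun i => norm_bdK h v i hs)).summable
  have h2 := Complex.hasSum_taylorSeries_neg_log' hz1
  have hz2 : 1 - z ≠ 0 := by
    intro h0
    rw [sub_eq_zero] at h0
    rw [← h0, norm_one] at hz1
    exact lt_irrefl _ hz1
  -- the sum over the powers of `v`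
  have hsumd : Summable fun x : PL S × ℕ => ((ddn α x : ℝ) : ℂ) * cexp (-(s * LL x)) := by
    refine Summable.of_norm ((summ_ddn h hs).congr fun x => ?_)
    rw [norm_mul, Complex.norm_real, Real.norm_eq_abs, Complex.norm_exp]
    simp
  have h3 : DS (ddn α) LL s = DS (ddv α v) LL s +
      ∑' k : ℕ, ((ddn α (v, k) : ℝ) : ℂ) * z ^ (k + 1) := by
    set f : PL S × ℕ → ℂ := fun x => ((ddn α x : ℝ) : ℂ) * cexp (-(s * LL x)) with hf
    set A : Set (PL S × ℕ) := {x | x.1 = v} with hA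
    have e1 : f = fun x => A.indicator f x + Aᶜ.indicator f x := by
      funext x
      exact (congrFun (Set.indicator_self_add_compl A f) x).symm
    have e0 : DS (ddn α) LL s = ∑' x, f x := rfl
    rw [e0, e1, (hsumd.indicator A).tsum_add (hsumd.indicator Aᶜ), add_comm]
    congr 1
    · unfold DS
      refine tsum_congr fun x => ?_
      by_cases hx : x.1 = v
      · have h4 : x ∉ Aᶜ := fun h5 => h5 hx
        rw [Set.indicator_of_notMem h4]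
        unfold ddv
        rw [if_pos hx]
        simp
      · have h4 : x ∈ Aᶜ := hx
        rw [Set.indicator_of_mem h4]
        unfold ddv
        rw [if_neg hx]
    · have hg : Function.Injective (fun k : ℕ => ((v, k) : PL S × ℕ)) := fun a b h => (Prod.mk.inj h).2
      rw [← hg.tsum_eq]
      · refine tsum_congr fun k => ?_
        have h4 : ((v, k) : PL S × ℕ) ∈ A := rfl
        rw [Set.indicator_of_mem h4, hf]
        simp only
        rw [exp_LL]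
      · intro x hx
        have h4 : x ∈ A := by
          by_contra h5
          exact hx (Set.indicator_of_notMem h5 f)
        exact ⟨x.2, Prod.ext (Eq.symm h4) rfl⟩
  have h4 : ∑' k : ℕ, ((ddn α (v, k) : ℝ) : ℂ) * z ^ (k + 1) =
      (∑' k : ℕ, ((‖∑ i, α v i ^ (k + 1)‖ ^ 2 / ((k : ℝ) + 1) : ℝ) : ℂ) * z ^ (k + 1)) + Complex.log (1 - z) := by
    have h5 : Complex.log (1 - z) = -∑' k : ℕ, z ^ (k + 1) / ((k : ℂ) + 1) := by
      rw [h2.tsum_eq, neg_neg]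
    rw [h5, ← sub_eq_add_neg, ← h1s.tsum_sub h2.summable]
    refine tsum_congr fun k => ?_
    unfold ddn
    simp only
    push_cast
    ring
  have h5 : DS (ddv α v) LL s = DS (ddn α) LL s -
      (∑' k : ℕ, ((‖∑ i, α v i ^ (k + 1)‖ ^ 2 / ((k : ℝ) + 1) : ℝ) : ℂ) * z ^ (k + 1)) - Complex.log (1 - z) := by
    rw [h3, h4]
    ring
  rw [h5, Complex.exp_sub, Complex.exp_sub, Complex.exp_log hz2]
  have h6 : ∏ x : Fin n × Fin n, (1 - α v x.1 * (starRingEnd ℂ) (α v x.2) * z) =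
      (cexp (∑' k : ℕ, ((‖∑ i, α v i ^ (k + 1)‖ ^ 2 / ((k : ℝ) + 1) : ℝ) : ℂ) * z ^ (k + 1)))⁻¹ :=
    eq_inv_of_mul_eq_one_right h1
  rw [h6]
  rfl

end Pool.Agent.TH949.TX
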