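import Mathlib
import Pool.Agent.TH949.TX.NF

/-! `GL_n` over a number field at every scale, exponents to the right of the real zeros of `ζ_K`. -/

set_option autoImplicit false

open Complex MeasureTheory Set Filter Topology NumberField IsDedekindDomain
open Pool.Agent.W189.TP (DS DS_diff DS_norm_le summ_mono)
open Pool.Agent.TH861.GL3

namespace Pool.Agent.TH949.TX

variable {K : Type*} [Field K] [NumberField K] {S : Finset (HeightOneSpectrum (𝓞 K))} {n : ℕ}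

/-- `L^S(s, Π × Π~) / ζ_K^S(s)` has a zero or a pole with real part `> c` -/
def SingK (α : PL S → Fin n → ℂ) (c : ℝ) : Prop :=
  ∃ (F : ℂ → ℂ) (ρ : ℂ), MeromorphicOn F Set.univ ∧
    (∀ s : ℂ, 1 < s.re → F s * Complex.exp (logZK S s) = Complex.exp (logRSK α s)) ∧
    c < ρ.re ∧ meromorphicOrderAt F ρ ≠ 0

/-- `ζ_K^S` has no real zeros to the right of `c`; here `D(s) = (s - 1) ζ_K^S(s)` -/
def NoRealZeros (S : Finset (HeightOneSpectrum (𝓞 K))) (c : ℝ) : Prop :=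
  ∃ D : ℂ → ℂ, Differentiable ℂ D ∧ (∀ s : ℂ, 1 < s.re → D s = (s - 1) * Complex.exp (logZK S s)) ∧
    ∀ x : ℝ, c < x → D x ≠ 0

/-- What is used of `L^S(s, Π × Π~)`: absolute convergence for `Re s > 1`, and that it is entire but for a pole, at
most simple, at `s = 1`. -/
structure RankinSelbergK (α : PL S → Fin n → ℂ) : Prop where
  summable : ∀ σ : ℝ, 1 < σ → Summable fun x : PL S × ℕ =>
    ‖∑ i, α x.1 i ^ (x.2 + 1)‖ ^ 2 / ((x.2 : ℝ) + 1) * (((qq x.1.1 : ℕ) : ℝ) ^ (-σ)) ^ (x.2 + 1)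
  entire : ∃ G : ℂ → ℂ, Differentiable ℂ G ∧ ∀ s : ℂ, 1 < s.re → G s = (s - 1) * Complex.exp (logRSK α s)

theorem nf_gen {d w : PL S × ℕ → ℝ} (hw0 : ∀ x, 0 ≤ w x) (hw : ∀ x, -(d x) ≤ w x)
    (hsd : ∀ t : ℝ, 1 < t → Summable fun x => |d x| * Real.exp (-(t * LL x)))
    {F : ℂ → ℂ} (hF : MeromorphicOn F univ) (hE : ∀ s : ℂ, 1 < s.re → F s = cexp (DS d LL s))
    {c : ℝ} (hc0 : 0 ≤ c) (hreal : ∀ x : ℝ, c < x → 0 ≤ meromorphicOrderAt F (x : ℂ))
    (hc : ∃ ρ : ℂ, c < ρ.re ∧ meromorphicOrderAt F ρ ≠ 0) {lam : ℝ} (hlam : 0 < lam) :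
    ∃ a : ℝ, c < a ∧ ∀ᶠ X : ℝ in atTop, X ^ a ≤ ∑' x : PL S × ℕ, (open Classical in
      if (1 - lam) * Real.log X ≤ LL x ∧ LL x ≤ Real.log X then w x else 0) := by
  have := countable_primes K
  obtain ⟨ρ, h1, h2⟩ := hc
  refine ⟨(2 * c + ρ.re) / 3, by linarith, ?_⟩
  exact sum_abs (d := d) (c' := (c + ρ.re) / 2) LL_nonneg hw0 hw LL_fin3 (by linarith) (by linarith)
    (fun l hl hl1 => main_right LL_nonneg hsd hF hE (by linarith) (fun x hx => hreal x (by linarith))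
      ⟨ρ, by linarith, h2⟩ hl hl1) hlam

theorem nf_key {α : PL S → Fin n → ℂ} (h : RankinSelbergK α) {c : ℝ} (hc0 : 0 ≤ c) (hD : NoRealZeros S c)
    (hc : (∃ (v : PL S) (i : Fin n), c < 2 * Real.logb (qq v.1 : ℝ) ‖α v i‖) ∨ SingK α c) {lam : ℝ} (hlam : 0 < lam) :
    ∃ a : ℝ, c < a ∧ ∀ᶠ X : ℝ in atTop, X ^ a ≤ ∑' x : PL S × ℕ, (open Classical in
      if (1 - lam) * Real.log X ≤ LL x ∧ LL x ≤ Real.log X then
        max 0 (1 - ‖∑ i, α x.1 i ^ (x.2 + 1)‖ ^ 2) else 0) := by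
  classical
  obtain ⟨G, hG, hGE⟩ := h.entire
  obtain ⟨D, hD1, hDE, hD0⟩ := hD
  have hw : ∀ x : PL S × ℕ, -(ddn α x) ≤ max 0 (1 - ‖∑ i, α x.1 i ^ (x.2 + 1)‖ ^ 2) := by
    intro x
    unfold ddn
    have hk : (0 : ℝ) ≤ x.2 := Nat.cast_nonneg _
    rw [← neg_div, neg_sub, div_le_iff₀ (by linarith)]
    have h4 : 1 - ‖∑ i, α x.1 i ^ (x.2 + 1)‖ ^ 2 ≤ max 0 (1 - ‖∑ i, α x.1 i ^ (x.2 + 1)‖ ^ 2) := le_max_right _ _
    have h5 : 0 ≤ max 0 (1 - ‖∑ i, α x.1 i ^ (x.2 + 1)‖ ^ 2) := le_max_left _ _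
    nlinarith
  have hsub : ∀ s : ℂ, 1 < s.re → s - 1 ≠ 0 := by
    intro s hs h0
    rw [sub_eq_zero] at h0
    rw [h0, Complex.one_re] at hs
    exact lt_irrefl _ hs
  have hDm : MeromorphicOn D univ := fun s _ => (hD1.analyticAt s).meromorphicAt
  have hGm : MeromorphicOn G univ := fun s _ => (hG.analyticAt s).meromorphicAt
  set F0 : ℂ → ℂ := fun s => G s / D s with hF0
  have hF0m : MeromorphicOn F0 univ := fun s hs => (hGm s hs).div (hDm s hs)
  have hF0E : ∀ s : ℂ, 1 < s.re → F0 s = cexp (DS (ddn α) LL s) := by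
    intro s hs
    rw [hF0]
    simp only
    rw [hGE s hs, hDE s hs, DS_ddn h.summable hs, Complex.exp_sub, mul_div_mul_left _ _ (hsub s hs)]
  have hF0a : ∀ x : ℝ, c < x → AnalyticAt ℂ F0 (x : ℂ) := fun x hx =>
    (hG.analyticAt _).div (hD1.analyticAt _) (hD0 x hx)
  rcases hc with ⟨v, i, hv⟩ | ⟨F, ρ, hFm, hFE, hρ, ho⟩
  · -- remove the Euler factor at `v`
    have hp1 : (1 : ℝ) < ((qq v.1 : ℕ) : ℝ) := one_lt_qq v.1
    have hp0 : (0 : ℝ) < ((qq v.1 : ℕ) : ℝ) := by linarith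
    have hpc : ((qq v.1 : ℕ) : ℂ) ≠ 0 := by exact_mod_cast hp0.ne'
    obtain ⟨θ, hθ⟩ : ∃ θ : ℝ, θ = Real.logb (qq v.1 : ℝ) ‖α v i‖ := ⟨_, rfl⟩
    rw [← hθ] at hv
    have hα0 : 0 < ‖α v i‖ := by
      rcases (norm_nonneg (α v i)).lt_or_eq with h1 | h1
      · exact h1
      · rw [← h1, Real.logb_zero] at hθ
        linarith
    have hαθ : ‖α v i‖ = ((qq v.1 : ℕ) : ℝ) ^ θ := by
      rw [hθ, Real.rpow_logb hp0 hp1.ne' hα0]
    set P : ℂ → ℂ := fun s => ∏ x : Fin n × Fin n, (1 - α v x.1 * (starRingEnd ℂ) (α v x.2) *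
      ((qq v.1 : ℕ) : ℂ) ^ (-s)) with hP
    set R : ℂ → ℂ := fun s => 1 - ((qq v.1 : ℕ) : ℂ) ^ (-s) with hR
    have hpow : Differentiable ℂ fun s : ℂ => ((qq v.1 : ℕ) : ℂ) ^ (-s) := by
      intro s
      exact (differentiableAt_id.neg).const_cpow (Or.inl hpc)
    have hPd : Differentiable ℂ P := by
      rw [hP]
      refine Differentiable.fun_finsetProd fun x _ => ?_
      exact (differentiable_const _).sub (hpow.const_mul _)
    have hRd : Differentiable ℂ R := (differentiable_const _).sub hpow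
    have hR0 : ∀ x : ℝ, c < x → R x ≠ 0 := by
      intro x hx h0
      have h1 : ((qq v.1 : ℕ) : ℂ) ^ (-(x : ℂ)) = 1 := by
        rw [hR] at h0
        exact (sub_eq_zero.1 h0).symm
      have h2 := congrArg norm h1
      rw [norm_qcpow, norm_one, Complex.ofReal_re] at h2
      have h3 : ((qq v.1 : ℕ) : ℝ) ^ (-x) < 1 := Real.rpow_lt_one_of_one_lt_of_neg hp1 (by linarith)
      linarith
    set F : ℂ → ℂ := fun s => F0 s * P s / R s with hF
    have hFm : MeromorphicOn F univ := fun s hs =>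
      ((hF0m s hs).mul (hPd.analyticAt s).meromorphicAt).div (hRd.analyticAt s).meromorphicAt
    have hFa : ∀ x : ℝ, c < x → AnalyticAt ℂ F (x : ℂ) := fun x hx =>
      ((hF0a x hx).mul (hPd.analyticAt _)).div (hRd.analyticAt _) (hR0 x hx)
    have hFE : ∀ s : ℂ, 1 < s.re → F s = cexp (DS (ddv α v) LL s) := by
      intro s hs
      rw [exp_ddv h.summable v hs, ← hF0E s hs]
    refine nf_gen (d := ddv α v) (fun x => le_max_left _ _) (fun x => ?_) (fun t ht => ?_) hFm hFE hc0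
      (fun x hx => (hFa x hx).meromorphicOrderAt_nonneg)
      ⟨((2 * θ : ℝ) : ℂ), by simpa using hv, order_ne (hFa _ hv) ?_⟩ hlam
    · unfold ddv
      split_ifs
      · rw [neg_zero]
        exact le_max_left _ _
      · exact hw x
    · refine Summable.of_nonneg_of_le (fun x => by positivity) (fun x => ?_) (summ_ddn h.summable ht)
      refine mul_le_mul_of_nonneg_right ?_ (Real.exp_pos _).le
      unfold ddv
      split_ifs
      · rw [abs_zero]
        exact abs_nonneg _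
      · exact le_rfl
    · have h1 : P ((2 * θ : ℝ) : ℂ) = 0 := by
        rw [hP]
        refine Finset.prod_eq_zero (Finset.mem_univ (i, i)) ?_
        simp only
        rw [Complex.mul_conj, Complex.normSq_eq_norm_sq, hαθ, ← Real.rpow_natCast, ← Real.rpow_mul hp0.le,
          Complex.ofReal_cpow hp0.le, Complex.ofReal_natCast, ← Complex.cpow_add _ _ hpc]
        push_cast
        rw [show (θ : ℂ) * 2 + -(2 * θ) = 0 by ring, Complex.cpow_zero, sub_self]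
      rw [hF]
      simp only
      rw [h1, mul_zero, zero_div]
  · refine nf_gen (d := ddn α) (fun x => le_max_left _ _) hw (fun t ht => summ_ddn h.summable ht) hF0m hF0E hc0
      (fun x hx => (hF0a x hx).meromorphicOrderAt_nonneg) ⟨ρ, hρ, ?_⟩ hlam
    rw [← order_eq hFm hF0m (fun s hs => ?_) ρ]
    · exact ho
    · rw [hF0E s hs, DS_ddn h.summable hs, Complex.exp_sub, ← hFE s hs, mul_div_cancel_right₀ _ (Complex.exp_ne_zero _)]

/-- **`GL_n` over a number field at every scale**, exponents `c ≥ 1/2` such that `ζ_K` has no real zeros to the right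
of `c`: only primes count. -/
theorem nf_primes {α : PL S → Fin n → ℂ} (h : RankinSelbergK α) {c : ℝ} (hc2 : 1 / 2 ≤ c) (hD : NoRealZeros S c)
    (hc : (∃ (v : PL S) (i : Fin n), c < 2 * Real.logb (qq v.1 : ℝ) ‖α v i‖) ∨ SingK α c) {lam : ℝ} (hlam : 0 < lam) :
    ∀ᶠ X : ℝ in atTop, X ^ c ≤ ∑' v : PL S, (open Classical in
      if X ^ (1 - lam) ≤ (qq v.1 : ℝ) ∧ (qq v.1 : ℝ) ≤ X then max 0 (1 - ‖∑ i, α v i‖ ^ 2) else 0) := by
  classical
  obtain ⟨a, hca, hkey⟩ := nf_key h (by linarith) hD hc hlam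
  obtain ⟨C, hC0, hC⟩ := card_le K
  have hl2 : ∀ v : PL S, Real.log 2 ≤ Real.log (qq v.1 : ℝ) := fun v =>
    Real.log_le_log (by norm_num) (by exact_mod_cast two_le_qq v.1)
  have hw1 : ∀ x : PL S × ℕ, max 0 (1 - ‖∑ i, α x.1 i ^ (x.2 + 1)‖ ^ 2) ≤ 1 := fun x => by
    refine max_le zero_le_one ?_
    nlinarith [sq_nonneg ‖∑ i, α x.1 i ^ (x.2 + 1)‖]
  have h1 := sum_first (P := PL S) (ℓ := fun v => Real.log (qq v.1 : ℝ)) hl2 hC0 (fun b => qq_fin b) (fun b => hC S b)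
    (w := fun x => max 0 (1 - ‖∑ i, α x.1 i ^ (x.2 + 1)‖ ^ 2)) (fun x => le_max_left _ _) hw1 (lam := lam) hc2 hca hkey
  filter_upwards [h1, eventually_gt_atTop 0] with X h2 h3
  refine h2.trans (le_of_eq (tsum_congr fun v => ?_))
  have hp : (0 : ℝ) < (qq v.1 : ℝ) := qq_pos v.1
  have e1 : (1 - lam) * Real.log X ≤ Real.log (qq v.1 : ℝ) ↔ X ^ (1 - lam) ≤ (qq v.1 : ℝ) := by
    rw [← Real.log_rpow h3, Real.log_le_log_iff (by positivity) hp]
  simp only [e1, Real.log_le_log_iff hp h3, zero_add, pow_one]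

end Pool.Agent.TH949.TX
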