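import Mathlib
import Pool.Agent.TH949.TX.NF2

/-! Weight-two characters of `GL_2` over a number field: the symmetric fourth power at every scale. -/

set_option autoImplicit false

open Complex MeasureTheory Set Filter Topology NumberField IsDedekindDomain
open Pool.Agent.TH861.GL3

namespace Pool.Agent.TH949.TX

variable {K : Type*} [Field K] [NumberField K] {S : Finset (HeightOneSpectrum (𝓞 K))}

/-- the Satake parameters `α₀⁴, α₀³ α₁, α₀² α₁², α₀ α₁³, α₁⁴` of the symmetric fourth power -/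
noncomputable def sym4K (α : PL S → Fin 2 → ℂ) (v : PL S) (i : Fin 5) : ℂ := α v 0 ^ (4 - (i : ℕ)) * α v 1 ^ (i : ℕ)

/-- the trace `α₀⁴ + α₀³ α₁ + α₀² α₁² + α₀ α₁³ + α₁⁴` -/
noncomputable def tr4 (α : PL S → Fin 2 → ℂ) (v : PL S) : ℂ :=
  α v 0 ^ 4 + α v 0 ^ 3 * α v 1 + α v 0 ^ 2 * α v 1 ^ 2 + α v 0 * α v 1 ^ 3 + α v 1 ^ 4

omit [NumberField K] in
theorem sum_sym4K (α : PL S → Fin 2 → ℂ) (v : PL S) : ∑ i, sym4K α v i = tr4 α v := by
  simp only [sym4K, tr4, Fin.sum_univ_five]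
  norm_num

/-- unitary parameters: the absolute values are inverse to each other -/
theorem norm_mul_eq {b : Fin 2 → ℂ} (h0 : ∀ i, b i ≠ 0)
    (h : Multiset.map (fun i => ((starRingEnd ℂ) (b i))⁻¹) Finset.univ.val = Multiset.map b Finset.univ.val) :
    ‖b 0‖ * ‖b 1‖ = 1 := by
  have h1 : (Multiset.map (fun i => ((starRingEnd ℂ) (b i))⁻¹) Finset.univ.val).prod =
      (Multiset.map b Finset.univ.val).prod := by rw [h]
  have e1 : (Multiset.map (fun i => ((starRingEnd ℂ) (b i))⁻¹) Finset.univ.val).prod =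
      ∏ i, ((starRingEnd ℂ) (b i))⁻¹ := rfl
  have e2 : (Multiset.map b Finset.univ.val).prod = ∏ i, b i := rfl
  rw [e1, e2, Fin.prod_univ_two, Fin.prod_univ_two] at h1
  have h2 := congrArg norm h1
  rw [norm_mul, norm_mul, norm_inv, norm_inv, RCLike.norm_conj, RCLike.norm_conj] at h2
  have a0 : 0 < ‖b 0‖ := norm_pos_iff.2 (h0 0)
  have a1 : 0 < ‖b 1‖ := norm_pos_iff.2 (h0 1)
  have h3 : (‖b 0‖ * ‖b 1‖) * (‖b 0‖ * ‖b 1‖) = 1 := by
    nth_rewrite 1 [← h2]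
    field_simp
  have h4 : 0 < ‖b 0‖ * ‖b 1‖ := by positivity
  nlinarith

theorem add_inv_le {t u : ℝ} (ht : 0 < t) (hu : 1 ≤ u) (h1 : t ≤ u) (h2 : t⁻¹ ≤ u) : t + t⁻¹ ≤ u + u⁻¹ := by
  have hu0 : 0 < u := by linarith
  have h3 : 1 ≤ t * u := by
    rw [inv_le_iff_one_le_mul₀ ht] at h2
    linarith
  have h4 : (u + u⁻¹) - (t + t⁻¹) = (u - t) * (t * u - 1) / (t * u) := by
    field_simp
    ring
  have h5 : 0 ≤ (u - t) * (t * u - 1) / (t * u) :=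
    div_nonneg (mul_nonneg (by linarith) (by linarith)) (by positivity)
  linarith

/-- **Weight-two characters: the bound at all places from one sequence of intervals.** -/
theorem w2_all {α : PL S → Fin 2 → ℂ} (hu : ∀ v, (∀ i, α v i ≠ 0) ∧
      Multiset.map (fun i => ((starRingEnd ℂ) (α v i))⁻¹) Finset.univ.val = Multiset.map (α v) Finset.univ.val)
    (h : RankinSelbergK (sym4K α)) {c δ : ℝ} (hc2 : 1 / 2 ≤ c) (hδ : 0 < δ) (hD : NoRealZeros S c)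
    (hX : ∀ X₀ : ℝ, ∃ X : ℝ, X₀ ≤ X ∧ (∑' v : PL S, (open Classical in
      if X ^ (1 - δ) ≤ (qq v.1 : ℝ) ∧ (qq v.1 : ℝ) ≤ X then max 0 (1 - ‖tr4 α v‖ ^ 2) else 0)) < X ^ c) :
    (∀ v : PL S, ‖α v 0 + α v 1‖ ≤ (qq v.1 : ℝ) ^ (c / 8) + (qq v.1 : ℝ) ^ (-(c / 8))) ∧ ¬ SingK (sym4K α) c := by
  classical
  have key : ¬ ((∃ (v : PL S) (i : Fin 5), c < 2 * Real.logb (qq v.1 : ℝ) ‖sym4K α v i‖) ∨ SingK (sym4K α) c) := by
    intro hcon
    obtain ⟨X₀, hX₀⟩ := Filter.eventually_atTop.1 (nf_primes h hc2 hD hcon hδ)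
    obtain ⟨X, hX1, hX2⟩ := hX X₀
    have h3 := hX₀ X hX1
    simp only [sum_sym4K] at h3
    exact absurd hX2 (not_lt.2 h3)
  rw [not_or] at key
  obtain ⟨k1, k2⟩ := key
  refine ⟨fun v => ?_, k2⟩
  have hq1 : (1 : ℝ) < (qq v.1 : ℝ) := one_lt_qq v.1
  have hq0 : (0 : ℝ) < (qq v.1 : ℝ) := by linarith
  have hb : ∀ z : ℂ, z ≠ 0 → ¬ (c < 2 * Real.logb (qq v.1 : ℝ) ‖z ^ 4‖) → ‖z‖ ≤ (qq v.1 : ℝ) ^ (c / 8) := by
    intro z hz hlt
    push Not at hlt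
    rw [norm_pow, Real.logb_pow] at hlt
    rw [← Real.logb_le_iff_le_rpow hq1 (norm_pos_iff.2 hz)]
    push_cast at hlt
    linarith
  have h0 := hb (α v 0) ((hu v).1 0) fun hlt => k1 ⟨v, 0, by simpa [sym4K] using hlt⟩
  have h1 := hb (α v 1) ((hu v).1 1) fun hlt => k1 ⟨v, 4, by simpa [sym4K] using hlt⟩
  have hm := norm_mul_eq (hu v).1 (hu v).2
  have a0 : 0 < ‖α v 0‖ := norm_pos_iff.2 ((hu v).1 0)
  have e1 : ‖α v 1‖ = ‖α v 0‖⁻¹ := eq_inv_of_mul_eq_one_right hm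
  refine (norm_add_le _ _).trans ?_
  rw [e1] at h1 ⊢
  rw [Real.rpow_neg hq0.le]
  exact add_inv_le a0 (Real.one_le_rpow hq1.le (by linarith)) h0 h1

end Pool.Agent.TH949.TX
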