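import Pool.Agent.TH949.TX.Defs

/-! Definitions for the summatory version of project TX. -/

set_option autoImplicit false

open MeasureTheory

namespace Pool.Agent.TH949.TX

open Pool.Agent.W189.TP (DS)

/-- the sum of the coefficients `d(x)` with `L(x) ≤ u` -/
noncomputable def AA {ι : Type*} (d L : ι → ℝ) (u : ℝ) : ℝ :=
  ∑' i, (open Classical in if L i ≤ u then d i else 0)

/-- `∫ A(u) e^{-su} gk(u - Y) du` -/
noncomputable def JA {ι : Type*} (d L : ι → ℝ) (s : ℂ) (κ Y : ℝ) : ℂ :=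
  ∫ u : ℝ, (AA d L u : ℂ) * Complex.exp (-(s * u)) * (gk κ (u - Y) : ℂ)

end Pool.Agent.TH949.TX
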