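import Pool.Agent.TH949.TX.SDefs

/-! Definitions for Euler products over a set of primes. -/

set_option autoImplicit false

namespace Pool.Agent.TH949.TX

/-- minus the coefficients of the logarithm of `∏_{p ∈ T} ∏_i (1 - α_i(p) p^{-s})^{-1}` (the real parts) -/
noncomputable def dP {T : Set ℕ} {n : ℕ} (α : ℕ → Fin n → ℂ) (x : T × ℕ) : ℝ :=
  -((∑ i, α (x.1 : ℕ) i ^ (x.2 + 1)).re / ((x.2 : ℝ) + 1))

/-- the logarithm of `p^(k+1)` -/
noncomputable def LP {T : Set ℕ} (x : T × ℕ) : ℝ := ((x.2 : ℝ) + 1) * Real.log ((x.1 : ℕ) : ℝ)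

end Pool.Agent.TH949.TX
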