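import Pool.Agent.TH949.TX.BSDR

/-! The Birch and Swinnerton-Dyer product in every window: the final forms. -/

set_option autoImplicit false

open Complex MeasureTheory Set Filter Topology Classical

namespace Pool.Agent.TH949.TX

open Pool.Agent.W263.BSD

variable {a b : ℤ} {F : ℂ → ℂ}

theorem window_mono {P : ℝ → Prop} {δ δ1 : ℝ} (h1 : δ1 ≤ δ)
    (h : ∀ᶠ X : ℝ in atTop, ∃ x : ℝ, X ^ (1 - δ1) ≤ x ∧ x ≤ X ∧ P x) :
    ∀ᶠ X : ℝ in atTop, ∃ x : ℝ, X ^ (1 - δ) ≤ x ∧ x ≤ X ∧ P x := by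
  filter_upwards [h, eventually_ge_atTop 1] with X hX hX1
  obtain ⟨x, k1, k2, k3⟩ := hX
  exact ⟨x, (Real.rpow_le_rpow_of_exponent_le hX1 (by linarith)).trans k1, k2, k3⟩

/-- an eventual property can be added in the window if `δ < 1` -/
theorem window_and {P Q : ℝ → Prop} {δ : ℝ} (h1 : δ < 1)
    (h : ∀ᶠ X : ℝ in atTop, ∃ x : ℝ, X ^ (1 - δ) ≤ x ∧ x ≤ X ∧ P x) (hQ : ∀ᶠ x : ℝ in atTop, Q x) :
    ∀ᶠ X : ℝ in atTop, ∃ x : ℝ, X ^ (1 - δ) ≤ x ∧ x ≤ X ∧ P x ∧ Q x := by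
  obtain ⟨x0, hx0⟩ := eventually_atTop.1 hQ
  have h2 := (tendsto_rpow_atTop (show 0 < 1 - δ by linarith)).eventually (eventually_ge_atTop x0)
  filter_upwards [h, h2] with X hX h3
  obtain ⟨x, k1, k2, k3⟩ := hX
  exact ⟨x, k1, k2, k3, hx0 x (h3.trans k1)⟩

/-- powers beat iterated logarithms -/
theorem pow_beats (M : ℝ) (r : ℕ) {c : ℝ} (hc : 0 < c) :
    ∀ᶠ x : ℝ in atTop, M + r * Real.log (Real.log x) < x ^ c := by
  have h1 : Tendsto (fun x : ℝ => x ^ c) atTop atTop := tendsto_rpow_atTop hc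
  have h2 := isLittleO_log_rpow_atTop (show 0 < c by exact hc)
  have h3 := h2.bound (show 0 < 1 / (2 * ((r : ℝ) + 1)) by positivity)
  filter_upwards [h3, h1.eventually (eventually_ge_atTop (2 * |M| + 2)),
    eventually_ge_atTop (Real.exp 1)] with x h4 h5 h6
  have hx0 : 0 < x := lt_of_lt_of_le (Real.exp_pos 1) h6
  have hl1 : 1 ≤ Real.log x := by rwa [Real.le_log_iff_exp_le hx0]
  have hxc : 0 < x ^ c := Real.rpow_pos_of_pos hx0 c
  rw [Real.norm_eq_abs, Real.norm_eq_abs, abs_of_pos (by linarith : 0 < Real.log x), abs_of_pos hxc] at h4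
  have h7 : Real.log (Real.log x) ≤ Real.log x - 1 := Real.log_le_sub_one_of_pos (by linarith)
  have h8 : 0 ≤ Real.log (Real.log x) := Real.log_nonneg hl1
  have h9 : (r : ℝ) * Real.log (Real.log x) ≤ ((r : ℝ) + 1) * Real.log x := by
    have : (0 : ℝ) ≤ r := Nat.cast_nonneg r
    nlinarith
  have h10 : ((r : ℝ) + 1) * Real.log x ≤ ((r : ℝ) + 1) * (1 / (2 * ((r : ℝ) + 1)) * x ^ c) := by gcongr
  have h11 : ((r : ℝ) + 1) * (1 / (2 * ((r : ℝ) + 1)) * x ^ c) = x ^ c / 2 := by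
    field_simp
  have h12 := le_abs_self M
  linarith

/-- a zero makes `ll` larger than any number in every window -/
theorem zero_up (hF : IsLSeries a b F) {ρ : ℂ} (hρ : 1 < ρ.re) (h0 : F ρ = 0) (r : ℕ) (M : ℝ) {δ : ℝ}
    (hδ : 0 < δ) (hδ1 : δ < 1) :
    ∀ᶠ X : ℝ in atTop, ∃ x : ℝ, X ^ (1 - δ) ≤ x ∧ x ≤ X ∧ M < ll a b r x := by
  have h1 := bsd_up hF (c := (ρ.re - 1) / 2) (by linarith) (ρ := ρ) (by linarith) h0 (C := 1) hδ
  have h2 : ∀ᶠ X : ℝ in atTop, ∃ x : ℝ, X ^ (1 - δ) ≤ x ∧ x ≤ X ∧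
      1 * x ^ ((ρ.re - 1) / 2) < Real.log (bsdProduct a b x) :=
    h1.mono fun X ⟨x, k1, k2, _, k4⟩ => ⟨x, k1, k2, k4⟩
  refine (window_and hδ1 h2 (pow_beats M r (c := (ρ.re - 1) / 2) (by linarith))).mono ?_
  rintro X ⟨x, k1, k2, k3, k4⟩
  refine ⟨x, k1, k2, ?_⟩
  unfold ll
  linarith

/-- without real zeros a zero makes `ll` smaller than any number in every window -/
theorem zero_down (hF : IsLSeries a b F) (hreal : ∀ s : ℝ, 1 < s → F s ≠ 0) {ρ : ℂ} (hρ : 1 < ρ.re)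
    (h0 : F ρ = 0) (r : ℕ) (M : ℝ) {δ : ℝ} (hδ : 0 < δ) (hδ1 : δ < 1) :
    ∀ᶠ X : ℝ in atTop, ∃ x : ℝ, X ^ (1 - δ) ≤ x ∧ x ≤ X ∧ ll a b r x < M := by
  have h1 := bsd_down hF (c := (ρ.re - 1) / 2) (by linarith) (fun s hs => hreal s (by linarith))
    (ρ := ρ) (by linarith) h0 (C := 1) hδ
  have h2 : ∀ᶠ X : ℝ in atTop, ∃ x : ℝ, X ^ (1 - δ) ≤ x ∧ x ≤ X ∧
      Real.log (bsdProduct a b x) < -(1 * x ^ ((ρ.re - 1) / 2)) :=
    h1.mono fun X ⟨x, k1, k2, _, k4⟩ => ⟨x, k1, k2, k4⟩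
  refine (window_and hδ1 h2 ((pow_beats (-M) 0 (c := (ρ.re - 1) / 2) (by linarith)).and
    (eventually_ge_atTop (Real.exp 1)))).mono ?_
  rintro X ⟨x, k1, k2, k3, k4, k5⟩
  refine ⟨x, k1, k2, ?_⟩
  have hx0 : 0 < x := lt_of_lt_of_le (Real.exp_pos 1) k5
  have hl1 : 1 ≤ Real.log x := by rwa [Real.le_log_iff_exp_le hx0]
  have h8 : 0 ≤ Real.log (Real.log x) := Real.log_nonneg hl1
  have h9 : 0 ≤ (r : ℝ) * Real.log (Real.log x) := by positivity
  unfold ll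
  push_cast at k4
  linarith

/-- the hypotheses which hold for every elliptic curve over `ℚ` with its newform -/
structure Hyp (a b : ℤ) (F : ℂ → ℂ) (m : ℕ) : Prop where
  disc : 4 * a ^ 3 + 27 * b ^ 2 ≠ 0
  rs : Tendsto (rsSum a b) atTop (𝓝 0)
  gr : ∃ C : ℝ, ∀ s : ℂ, 0 < s.re → ‖PhiF a b F s‖ ≤ C * (1 + ‖s‖) * (1 + 1 / s.re) ^ 2
  lser : IsLSeries a b F
  ord : analyticOrderAt F 1 = m

/-- unconditional: `P(x) > (T - ε) (log x)^m` in every window -/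
theorem every_up {m : ℕ} (H : Hyp a b F m) {δ : ℝ} (hδ : 0 < δ) (hδ1 : δ < 1) {ε : ℝ} (hε : 0 < ε) :
    ∀ᶠ X : ℝ in atTop, ∃ x : ℝ, X ^ (1 - δ) ≤ x ∧ x ≤ X ∧ Real.log (TG F m) - ε < ll a b m x := by
  by_cases hz : ∀ s : ℂ, 1 < s.re → F s ≠ 0
  · exact rh_up H.disc H.rs H.gr H.lser H.ord hz hδ hδ1 hε
  · push Not at hz
    obtain ⟨ρ, h1, h2⟩ := hz
    exact zero_up H.lser h1 h2 m _ hδ hδ1

/-- if there are no real zeros: `P(x) < (T + ε) (log x)^m` in every window -/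
theorem every_down {m : ℕ} (H : Hyp a b F m) (hreal : ∀ s : ℝ, 1 < s → F s ≠ 0) {δ : ℝ} (hδ : 0 < δ)
    (hδ1 : δ < 1) {ε : ℝ} (hε : 0 < ε) :
    ∀ᶠ X : ℝ in atTop, ∃ x : ℝ, X ^ (1 - δ) ≤ x ∧ x ≤ X ∧ ll a b m x < Real.log (TG F m) + ε := by
  by_cases hz : ∀ s : ℂ, 1 < s.re → F s ≠ 0
  · exact rh_down H.disc H.rs H.gr H.lser H.ord hz hδ hδ1 hε
  · push Not at hz
    obtain ⟨ρ, h1, h2⟩ := hz
    exact zero_down H.lser hreal h1 h2 m _ hδ hδ1

/-- if there are no real zeros: `P(x)` is near `T (log x)^m` somewhere in every window -/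
theorem every_mid {m : ℕ} (H : Hyp a b F m) (hreal : ∀ s : ℝ, 1 < s → F s ≠ 0) {δ : ℝ} (hδ : 0 < δ)
    (hδ1 : δ < 1) {ε : ℝ} (hε : 0 < ε) :
    ∀ᶠ X : ℝ in atTop, ∃ x : ℝ, X ^ (1 - δ) ≤ x ∧ x ≤ X ∧ |ll a b m x - Real.log (TG F m)| < ε := by
  have h := Pool.Agent.TH45.J4502.t_ivt_window (g := ll a b m) (by simpa using ll_incr (a := a) (b := b) m)
    (ll_floor_tendsto m) (δ := δ / 2) (δ' := δ) (by linarith) (by linarith) hδ1.le
    (c := Real.log (TG F m)) (ε := ε / 3) (by linarith)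
    (every_up H (by linarith) (by linarith) (by linarith))
    (every_down H hreal (by linarith) (by linarith) (by linarith))
  refine h.mono ?_
  rintro X ⟨x, k1, k2, k3⟩
  exact ⟨x, k1, k2, by linarith⟩

/-- if there are complex but no real zeros: all values are taken approximately in every window -/
theorem every_value {m : ℕ} (H : Hyp a b F m) (hreal : ∀ s : ℝ, 1 < s → F s ≠ 0)
    (hz : ∃ ρ : ℂ, 1 < ρ.re ∧ F ρ = 0) (c : ℝ) {δ : ℝ} (hδ : 0 < δ)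
    (hδ1 : δ < 1) {ε : ℝ} (hε : 0 < ε) :
    ∀ᶠ X : ℝ in atTop, ∃ x : ℝ, X ^ (1 - δ) ≤ x ∧ x ≤ X ∧ |ll a b m x - c| < ε := by
  obtain ⟨ρ, h1, h2⟩ := hz
  have h := Pool.Agent.TH45.J4502.t_ivt_window (g := ll a b m) (by simpa using ll_incr (a := a) (b := b) m)
    (ll_floor_tendsto m) (δ := δ / 2) (δ' := δ) (by linarith) (by linarith) hδ1.le
    (c := c) (ε := ε / 3) (by linarith)
    (zero_up H.lser h1 h2 m _ (by linarith) (by linarith))
    (zero_down H.lser hreal h1 h2 m _ (by linarith) (by linarith))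
  refine h.mono ?_
  rintro X ⟨x, k1, k2, k3⟩
  exact ⟨x, k1, k2, by linarith⟩

/-- `|v - log c| < ε'` implies `|e^v - c| < ε` -/
theorem exp_close {c : ℝ} (hc : 0 < c) {ε : ℝ} (hε : 0 < ε) :
    ∃ ε' : ℝ, 0 < ε' ∧ ∀ v : ℝ, |v - Real.log c| < ε' → |Real.exp v - c| < ε := by
  obtain ⟨ε', h1, h2⟩ := Metric.continuousAt_iff.1 (Real.continuous_exp.continuousAt (x := Real.log c)) ε hε
  refine ⟨ε', h1, fun v hv => ?_⟩
  have := h2 (show dist v (Real.log c) < ε' by rwa [Real.dist_eq])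
  rwa [Real.dist_eq, Real.exp_log hc] at this

theorem log_close {c : ℝ} (hc : 0 < c) {ε : ℝ} (hε : 0 < ε) :
    ∃ ε' : ℝ, 0 < ε' ∧ ∀ v : ℝ, |v - c| < ε' → |Real.log v - Real.log c| < ε := by
  obtain ⟨ε', h1, h2⟩ := Metric.continuousAt_iff.1 (Real.continuousAt_log hc.ne') ε hε
  refine ⟨ε', h1, fun v hv => ?_⟩
  have := h2 (show dist v c < ε' by rwa [Real.dist_eq])
  rwa [Real.dist_eq] at this

/-- **Goldfeld's theorem on one sequence of windows.** -/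
theorem goldfeld_window {m : ℕ} (H : Hyp a b F m) (hT : 0 < TG F m) {δ : ℝ} (hδ : 0 < δ) {ρ A : ℝ} (hA : A ≠ 0)
    (h : ∀ ε : ℝ, 0 < ε → ∃ᶠ X : ℝ in atTop, ∀ x : ℝ, X ^ (1 - δ) ≤ x → x ≤ X →
      |bsdProduct a b x / Real.log x ^ ρ - A| < ε) :
    (∀ s : ℂ, 1 < s.re → F s ≠ 0) ∧ ρ = m ∧ A = TG F m := by
  set δ1 : ℝ := min δ (1 / 2) with hδ1
  have hd0 : 0 < δ1 := by rw [hδ1]; positivity
  have hd1 : δ1 < 1 := lt_of_le_of_lt (min_le_right _ _) (by norm_num)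
  have hdd : δ1 ≤ δ := min_le_left _ _
  have h' : ∀ ε : ℝ, 0 < ε → ∃ᶠ X : ℝ in atTop, ∀ x : ℝ, X ^ (1 - δ1) ≤ x → x ≤ X →
      |bsdProduct a b x / Real.log x ^ ρ - A| < ε := by
    intro ε hε
    refine ((h ε hε).and_eventually (eventually_ge_atTop 1)).mono ?_
    rintro X ⟨hX, hX1⟩ x k1 k2
    exact hX x ((Real.rpow_le_rpow_of_exponent_le hX1 (by linarith)).trans k1) k2
  -- positivity of `A`
  have hA0 : 0 < A := by
    by_contra hcon
    have hA1 : A < 0 := lt_of_le_of_ne (not_lt.1 hcon) hA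
    obtain ⟨X, hX, hX1⟩ := ((h' (-A) (by linarith)).and_eventually (eventually_gt_atTop 1)).exists
    have k1 := hX X (by
      conv_rhs => rw [← Real.rpow_one X]
      exact Real.rpow_le_rpow_of_exponent_le hX1.le (by linarith)) le_rfl
    have k2 : 0 < bsdProduct a b X / Real.log X ^ ρ :=
      div_pos (bsdProduct_pos _) (Real.rpow_pos_of_pos (Real.log_pos hX1) _)
    rw [abs_lt] at k1
    linarith [k1.2]
  -- the Riemann hypothesis
  have hRH : ∀ s : ℂ, 1 < s.re → F s ≠ 0 := by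
    intro s hs h0
    obtain ⟨n, hn⟩ := exists_nat_ge |ρ|
    have k1 := window_and hd1 (zero_up H.lser hs h0 n (Real.log (A + 1)) hd0 hd1)
      (eventually_ge_atTop (Real.exp 1))
    obtain ⟨X, hX, x, k2, k3, k4, k5⟩ := ((h' 1 one_pos).and_eventually k1).exists
    have k6 := (abs_lt.1 (hX x k2 k3)).2
    have hx0 : 0 < x := lt_of_lt_of_le (Real.exp_pos 1) k5
    have hl1 : 1 ≤ Real.log x := by rwa [Real.le_log_iff_exp_le hx0]
    have hl0 : 0 < Real.log x := by linarith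
    unfold ll at k4
    have k7 : Real.log (A + 1) + n * Real.log (Real.log x) < Real.log (bsdProduct a b x) := by linarith
    have k8 : bsdProduct a b x / Real.log x ^ ρ < A + 1 := by linarith
    rw [div_lt_iff₀ (Real.rpow_pos_of_pos hl0 _)] at k8
    have k9 := Real.log_lt_log (bsdProduct_pos x) k8
    rw [Real.log_mul (by linarith) (Real.rpow_pos_of_pos hl0 _).ne', Real.log_rpow hl0] at k9
    have k10 : ρ * Real.log (Real.log x) ≤ n * Real.log (Real.log x) :=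
      mul_le_mul_of_nonneg_right ((le_abs_self ρ).trans hn) (Real.log_nonneg hl1)
    linarith
  refine ⟨hRH, ?_⟩
  have hreal : ∀ s : ℝ, 1 < s → F s ≠ 0 := fun s hs => hRH s (by simpa using hs)
  -- comparison
  have key : ∀ ε : ℝ, 0 < ε → ∀ x0 : ℝ, ∃ x : ℝ, x0 ≤ x ∧ Real.exp 1 ≤ x ∧
      |((m : ℝ) - ρ) * Real.log (Real.log x) - (Real.log A - Real.log (TG F m))| < 2 * ε := by
    intro ε hε x0
    obtain ⟨ε', hε', hcl⟩ := log_close hA0 hε
    have k1 := window_and hd1 (every_mid H hreal hd0 hd1 hε)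
      ((eventually_ge_atTop (Real.exp 1)).and (eventually_ge_atTop x0))
    obtain ⟨X, hX, x, k2, k3, k4, k5, k6⟩ := ((h' ε' hε').and_eventually k1).exists
    have k7 := hcl _ (hX x k2 k3)
    have hx0 : 0 < x := lt_of_lt_of_le (Real.exp_pos 1) k5
    have hl1 : 1 ≤ Real.log x := by rwa [Real.le_log_iff_exp_le hx0]
    have hl0 : 0 < Real.log x := by linarith
    rw [Real.log_div (bsdProduct_pos _).ne' (Real.rpow_pos_of_pos hl0 _).ne', Real.log_rpow hl0] at k7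
    unfold ll at k4
    refine ⟨x, k6, k5, ?_⟩
    rw [abs_lt] at k4 k7 ⊢
    constructor <;> nlinarith [k4.1, k4.2, k7.1, k7.2]
  have hρ : ρ = m := by
    by_contra hne
    have hne' : 0 < |(m : ℝ) - ρ| := abs_pos.2 (sub_ne_zero.2 fun h => hne h.symm)
    have h1 : Tendsto (fun x : ℝ => Real.log (Real.log x)) atTop atTop :=
      Real.tendsto_log_atTop.comp Real.tendsto_log_atTop
    obtain ⟨x0, hx0⟩ := eventually_atTop.1 (h1.eventually (eventually_ge_atTop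
      ((|Real.log A - Real.log (TG F m)| + 2) / |(m : ℝ) - ρ|)))
    obtain ⟨x, k1, k2, k3⟩ := key 1 one_pos x0
    have k4 := hx0 x k1
    rw [div_le_iff₀ hne'] at k4
    have k5 := abs_sub_abs_le_abs_sub (((m : ℝ) - ρ) * Real.log (Real.log x)) (Real.log A - Real.log (TG F m))
    have k6 : |((m : ℝ) - ρ) * Real.log (Real.log x)| = Real.log (Real.log x) * |(m : ℝ) - ρ| := by
      have hxp : 0 < x := lt_of_lt_of_le (Real.exp_pos 1) k2
      have hl1 : 1 ≤ Real.log x := by rwa [Real.le_log_iff_exp_le hxp]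
      rw [abs_mul, abs_of_nonneg (Real.log_nonneg hl1), mul_comm]
    rw [k6] at k5
    linarith
  refine ⟨hρ, ?_⟩
  have hlog : Real.log A = Real.log (TG F m) := by
    by_contra hne
    have hpos : 0 < |Real.log A - Real.log (TG F m)| := abs_pos.2 (sub_ne_zero.2 hne)
    obtain ⟨x, -, -, k3⟩ := key (|Real.log A - Real.log (TG F m)| / 4) (by positivity) 0
    rw [hρ, sub_self, zero_mul, zero_sub, abs_neg] at k3
    linarith
  exact Real.log_injOn_pos (Set.mem_Ioi.2 hA0) (Set.mem_Ioi.2 hT) hlog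

end Pool.Agent.TH949.TX
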