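import Pool.Agent.W263.BSD.OrderFinal

/-! The increments of `log P(x) - r log log x` (the lemmas are those of
`Pool.Agent.Results.MP_3283e1_nt.LimitSet`, stated for `bsdProduct`). -/

set_option autoImplicit false

namespace Pool.Agent.TH949.TX

open Filter Topology Classical
open Pool.Agent.W263.BSD

variable {a b : ℤ}

/-- `log P(x) - r log log x` -/
noncomputable def ll (a b : ℤ) (r : ℕ) (x : ℝ) : ℝ :=
  Real.log (bsdProduct a b x) - r * Real.log (Real.log x)

theorem loglog_incr : Tendsto (fun n : ℕ => Real.log (Real.log ((n : ℝ) + 1)) -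
    Real.log (Real.log n)) atTop (𝓝 0) := by
  have h1 := Real.tendsto_log_nat_add_one_sub_log
  refine squeeze_zero' ?_ ?_ h1
  · filter_upwards [eventually_ge_atTop 3] with n hn
    have hn3 : (3 : ℝ) ≤ n := by exact_mod_cast hn
    have e1 : 0 < Real.log n := Real.log_pos (by linarith)
    have e2 : Real.log n ≤ Real.log ((n : ℝ) + 1) := Real.log_le_log (by linarith) (by linarith)
    have := Real.log_le_log e1 e2
    linarith
  · filter_upwards [eventually_ge_atTop 3] with n hn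
    have hn3 : (3 : ℝ) ≤ n := by exact_mod_cast hn
    have e1 : 1 ≤ Real.log n := by
      rw [Real.le_log_iff_exp_le (by linarith)]
      have := Real.exp_one_lt_d9
      linarith
    have e2 : Real.log n ≤ Real.log ((n : ℝ) + 1) := Real.log_le_log (by linarith) (by linarith)
    have e3 : 0 < Real.log n := by linarith
    rw [← Real.log_div (by linarith) (by linarith)]
    have e4 := Real.log_le_sub_one_of_pos
      (show 0 < Real.log ((n : ℝ) + 1) / Real.log n from div_pos (by linarith) e3)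
    refine e4.trans ?_
    have e5 : Real.log ((n : ℝ) + 1) / Real.log n - 1 =
        (Real.log ((n : ℝ) + 1) - Real.log n) / Real.log n := by
      field_simp
    rw [e5]
    exact div_le_self (by linarith) e1

theorem P_succ (n : ℕ) : bsdProduct a b ((n : ℝ) + 1) =
    bsdProduct a b n * (if GoodPrime a b (n + 1) then
      (((pointCount a b (n + 1) : ℝ) + 1) / ((n + 1 : ℕ) : ℝ)) else 1) := by
  unfold bsdProduct
  have e1 : ⌊((n : ℝ) + 1)⌋₊ = n + 1 := by
    have : ((n : ℝ) + 1) = ((n + 1 : ℕ) : ℝ) := by push_cast; ring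
    rw [this, Nat.floor_natCast]
  rw [e1, Nat.floor_natCast, Finset.range_add_one (n := n + 1), Finset.filter_insert]
  split_ifs with h
  · rw [Finset.prod_insert (by simp), mul_comm]
  · rw [mul_one]

theorem factor_tendsto : Tendsto (fun n : ℕ =>
    (if GoodPrime a b (n + 1) then (((pointCount a b (n + 1) : ℝ) + 1) / ((n + 1 : ℕ) : ℝ)) else 1)) atTop
    (𝓝 1) := by
  have h1 : Tendsto (fun n : ℕ => 3 / Real.sqrt ((n + 1 : ℕ) : ℝ)) atTop (𝓝 0) := by
    refine Tendsto.const_div_atTop ?_ 3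
    refine Real.tendsto_sqrt_atTop.comp ?_
    exact tendsto_natCast_atTop_atTop.comp (tendsto_add_atTop_nat 1)
  rw [tendsto_iff_norm_sub_tendsto_zero]
  refine squeeze_zero' (Eventually.of_forall fun n => norm_nonneg _) ?_ h1
  filter_upwards [eventually_ge_atTop 5] with n hn
  split_ifs with h
  · have hs := Pool.Agent.W263.BSD.hasse (a := a) (b := b) h (by omega)
    have e0 : (0 : ℝ) < ((n + 1 : ℕ) : ℝ) := by positivity
    have e1 : (1 : ℝ) ≤ Real.sqrt ((n + 1 : ℕ) : ℝ) := by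
      rw [show (1 : ℝ) = Real.sqrt 1 by simp]
      exact Real.sqrt_le_sqrt (by push_cast; linarith [(Nat.cast_nonneg n : (0 : ℝ) ≤ n)])
    have e2 : Real.sqrt ((n + 1 : ℕ) : ℝ) * Real.sqrt ((n + 1 : ℕ) : ℝ) = ((n + 1 : ℕ) : ℝ) :=
      Real.mul_self_sqrt e0.le
    rw [Real.norm_eq_abs]
    have e4 : ((pointCount a b (n + 1) : ℝ) + 1) / ((n + 1 : ℕ) : ℝ) - 1 =
        (1 - (((n + 1 : ℕ) : ℝ) - pointCount a b (n + 1))) /
          ((n + 1 : ℕ) : ℝ) := by
      field_simp
      ring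
    rw [e4, abs_div, abs_of_pos e0, div_le_div_iff₀ e0 (by positivity)]
    have e5 : |1 - (((n + 1 : ℕ) : ℝ) - pointCount a b (n + 1))| ≤
        3 * Real.sqrt ((n + 1 : ℕ) : ℝ) := by
      have e6 : |(((n + 1 : ℕ) : ℝ) - pointCount a b (n + 1))| ≤
          2 * Real.sqrt ((n + 1 : ℕ) : ℝ) := hs
      have e7 := abs_le.mp e6
      rw [abs_le]
      constructor <;> linarith
    nlinarith
  · rw [sub_self, norm_zero]
    positivity

theorem ll_incr (r : ℕ) : Tendsto (fun n : ℕ => ll a b r ((n + 1 : ℕ) : ℝ) - ll a b r (n : ℝ))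
    atTop (𝓝 0) := by
  have h1 := (factor_tendsto (a := a) (b := b)).log one_ne_zero
  rw [Real.log_one] at h1
  have h2 := h1.sub (loglog_incr.const_mul (r : ℝ))
  rw [mul_zero, sub_zero] at h2
  refine h2.congr' ?_
  filter_upwards [eventually_ge_atTop 3] with n hn
  unfold ll
  have hne : (if GoodPrime a b (n + 1) then
      (((pointCount a b (n + 1) : ℝ) + 1) / ((n + 1 : ℕ) : ℝ)) else 1) ≠ 0 := by
    have := bsdProduct_pos (a := a) (b := b) ((n : ℝ) + 1)
    rw [P_succ] at this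
    exact (pos_of_mul_pos_right this (bsdProduct_pos _).le).ne'
  have e1 : ((n + 1 : ℕ) : ℝ) = (n : ℝ) + 1 := by push_cast; ring
  have e2 : bsdProduct a b ((n + 1 : ℕ) : ℝ) = bsdProduct a b n *
      (if GoodPrime a b (n + 1) then
        (((pointCount a b (n + 1) : ℝ) + 1) / ((n + 1 : ℕ) : ℝ)) else 1) := by
    simpa only [e1] using P_succ (a := a) (b := b) n
  rw [e2, Real.log_mul (bsdProduct_pos _).ne' hne, e1]
  ring

theorem P_floor (x : ℝ) : bsdProduct a b (⌊x⌋₊ : ℝ) = bsdProduct a b x := by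
  unfold bsdProduct
  rw [Nat.floor_natCast]

/-- comparison of `ll` at `x` and at its integral part -/
theorem ll_floor (r : ℕ) {x : ℝ} (hx : 3 ≤ x) :
    ll a b r x ≤ ll a b r (⌊x⌋₊ : ℝ) ∧
    ll a b r (⌊x⌋₊ : ℝ) ≤ ll a b r x + r * (Real.log (Real.log ((⌊x⌋₊ : ℝ) + 1)) -
      Real.log (Real.log (⌊x⌋₊ : ℝ))) := by
  have h1 : (3 : ℝ) ≤ ⌊x⌋₊ := by
    have : 3 ≤ ⌊x⌋₊ := Nat.le_floor (by exact_mod_cast hx)
    exact_mod_cast this
  have h2 : (⌊x⌋₊ : ℝ) ≤ x := Nat.floor_le (by linarith)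
  have h3 : x ≤ (⌊x⌋₊ : ℝ) + 1 := (Nat.lt_floor_add_one x).le
  have h4 : 0 < Real.log (⌊x⌋₊ : ℝ) := Real.log_pos (by linarith)
  have h5 := Real.log_le_log h4 (Real.log_le_log (by linarith) h2)
  have h6 := Real.log_le_log (Real.log_pos (show 1 < x by linarith))
    (Real.log_le_log (by linarith) h3)
  unfold ll
  rw [P_floor]
  have hr : (0 : ℝ) ≤ r := Nat.cast_nonneg r
  constructor
  · nlinarith
  · nlinarith

theorem ll_floor_tendsto (r : ℕ) :
    Tendsto (fun x : ℝ => ll a b r x - ll a b r (⌊x⌋₊ : ℝ)) atTop (𝓝 0) := by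
  have hfl : Tendsto (fun x : ℝ => ⌊x⌋₊) atTop atTop := tendsto_nat_floor_atTop
  have h3 := (loglog_incr.const_mul (r : ℝ)).comp hfl
  rw [mul_zero] at h3
  have h4 : Tendsto (fun x : ℝ => ll a b r (⌊x⌋₊ : ℝ) - ll a b r x) atTop (𝓝 0) := by
    refine squeeze_zero' ?_ ?_ h3
    · filter_upwards [eventually_ge_atTop 3] with x hx
      linarith [(ll_floor (a := a) (b := b) r hx).1]
    · filter_upwards [eventually_ge_atTop 3] with x hx
      simp only [Function.comp_apply]
      linarith [(ll_floor (a := a) (b := b) r hx).2]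
  have h5 := h4.neg
  rw [neg_zero] at h5
  refine h5.congr fun x => ?_
  ring

theorem exp_ll (r : ℕ) {x : ℝ} (hx : 3 ≤ x) :
    Real.exp (ll a b r x) = bsdProduct a b x / (Real.log x) ^ r := by
  have h1 : 0 < Real.log x := Real.log_pos (by linarith)
  unfold ll
  rw [Real.exp_sub, Real.exp_log (bsdProduct_pos _), ← Real.log_pow, Real.exp_log (pow_pos h1 r)]

end Pool.Agent.TH949.TX
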