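import Pool.Agent.TH949.TX.BSDW
import Pool.Agent.TH949.TX.BSDI
import Pool.Agent.TH942.RZ.Curve
import Pool.Agent.TH720.TXW.Riesz
import Pool.Agent.TH231.RieszInt
import Pool.Agent.TH45.J.J4502

/-! The Birch and Swinnerton-Dyer product in every window. -/

set_option autoImplicit false

open Complex MeasureTheory Set Filter Topology Classical

namespace Pool.Agent.TH949.TX

open Pool.Agent.W263.BSD

variable {a b : ℤ} {F : ℂ → ℂ}

/-- Goldfeld's constant -/
noncomputable def TG (F : ℂ → ℂ) (r : ℕ) : ℝ :=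
  √2 * Real.exp (r * Real.eulerMascheroniConstant) * (r.factorial : ℝ) / ‖iteratedDeriv r F 1‖

/-- `Γ'(2)/Γ(2) = 1 - γ` -/
theorem psi_two : deriv Real.Gamma (1 + 1) / Real.Gamma (1 + 1) = 1 - Real.eulerMascheroniConstant := by
  have h1 := Real.deriv_Gamma_nat 1
  have h2 : Real.Gamma (1 + 1) = 1 := by
    have := Real.Gamma_nat_eq_factorial 1
    simpa using this
  rw [h2, div_one]
  have h3 : ((1 : ℕ) : ℝ) + 1 = 1 + 1 := by norm_num
  rw [h3] at h1
  rw [h1]
  simp [harmonic]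
  ring

/-- the Riesz mean of order one under the Riemann hypothesis -/
theorem riesz_one (hΔ : 4 * a ^ 3 + 27 * b ^ 2 ≠ 0) (hrs : Tendsto (rsSum a b) atTop (𝓝 0))
    (hgr : ∃ C : ℝ, ∀ s : ℂ, 0 < s.re → ‖PhiF a b F s‖ ≤ C * (1 + ‖s‖) * (1 + 1 / s.re) ^ 2)
    (hF : IsLSeries a b F) {m : ℕ} (hm : analyticOrderAt F 1 = m)
    (hz : ∀ s : ℂ, 1 < s.re → F s ≠ 0) : 0 < TG F m ∧
    Tendsto (fun U : ℝ => (∫ v in (0 : ℝ)..U, Real.log (bsdProduct a b (Real.exp v))) / U - m * Real.log U) atTop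
      (𝓝 (Real.log (TG F m) - m)) := by
  obtain ⟨κ, h1, h2⟩ := Pool.Agent.TH942.RZ.curve_riesz hΔ hrs hgr hF hm hz one_pos
  rw [psi_two] at h2
  have h3 := congrArg norm h2
  rw [norm_mul, norm_div, Complex.norm_natCast, Complex.norm_real, Complex.norm_real, Real.norm_eq_abs,
    Real.norm_eq_abs, abs_of_pos (Real.exp_pos κ),
    abs_of_pos (show 0 < √2 * Real.exp (-(m * (1 - Real.eulerMascheroniConstant))) by positivity)] at h3
  have hf0 : (0 : ℝ) < (m.factorial : ℝ) := by exact_mod_cast m.factorial_pos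
  have hE := Real.exp_pos κ
  have hN : 0 < ‖iteratedDeriv m F 1‖ := by
    rcases (norm_nonneg (iteratedDeriv m F 1)).eq_or_lt with h | h
    · rw [← h, zero_div, mul_zero] at h3
      have : 0 < √2 * Real.exp (-(m * (1 - Real.eulerMascheroniConstant))) := by positivity
      linarith
    · exact h
  have hT : TG F m = Real.exp (κ + m) := by
    unfold TG
    rw [div_eq_iff hN.ne']
    have e1 : Real.exp (κ + m) = Real.exp κ * Real.exp m := Real.exp_add _ _
    have e2 : Real.exp (-(m * (1 - Real.eulerMascheroniConstant))) * Real.exp m =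
        Real.exp (m * Real.eulerMascheroniConstant) := by
      rw [← Real.exp_add]
      congr 1
      ring
    rw [e1, ← e2]
    have h5 : Real.exp κ * ‖iteratedDeriv m F 1‖ =
        √2 * Real.exp (-(m * (1 - Real.eulerMascheroniConstant))) * m.factorial := by
      rw [← h3]
      field_simp
    linear_combination (-Real.exp m) * h5
  refine ⟨by rw [hT]; exact Real.exp_pos _, ?_⟩
  have h6 : Real.log (TG F m) - m = κ := by
    rw [hT, Real.log_exp]
    ring
  rw [h6]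
  refine h1.congr' ?_
  filter_upwards [eventually_gt_atTop 0] with U hU
  have h7 := Pool.Agent.TH942.RZ.rz_eq (a := a) (b := b) one_pos (X := Real.exp U) (Real.one_lt_exp_iff.2 hU)
  rw [Real.log_exp] at h7
  rw [← h7]
  congr 1
  have h8 := (Pool.Agent.TH231.RieszInt.t_riesz_integral (G := GoodPrime a b)
    (fun p hp => hp.1.one_le) (fun p => Real.log (((pointCount a b p : ℝ) + 1) / p)) hU).2
  unfold Pool.Agent.TH942.RZ.rz
  simp only [Real.rpow_one, Real.log_exp]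
  rw [h8]
  congr 1
  refine intervalIntegral.integral_congr fun v _ => ?_
  rw [log_bsdProduct]
  unfold rieszMean
  simp only [pow_zero, one_mul]

theorem S_int (a b : ℤ) {U : ℝ} (hU : 0 < U) :
    IntervalIntegrable (fun v => Real.log (bsdProduct a b (Real.exp v))) volume 0 U := by
  have h8 := (Pool.Agent.TH231.RieszInt.t_riesz_integral (G := GoodPrime a b)
    (fun p hp => hp.1.one_le) (fun p => Real.log (((pointCount a b p : ℝ) + 1) / p)) hU).1
  refine h8.congr fun v _ => ?_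
  rw [log_bsdProduct]
  unfold rieszMean
  simp only [pow_zero, one_mul]

/-- under the Riemann hypothesis the product exceeds `(T - ε) (log x)^m` in every window -/
theorem rh_up (hΔ : 4 * a ^ 3 + 27 * b ^ 2 ≠ 0) (hrs : Tendsto (rsSum a b) atTop (𝓝 0))
    (hgr : ∃ C : ℝ, ∀ s : ℂ, 0 < s.re → ‖PhiF a b F s‖ ≤ C * (1 + ‖s‖) * (1 + 1 / s.re) ^ 2)
    (hF : IsLSeries a b F) {m : ℕ} (hm : analyticOrderAt F 1 = m)
    (hz : ∀ s : ℂ, 1 < s.re → F s ≠ 0) {δ : ℝ} (hδ : 0 < δ) (hδ1 : δ < 1) {ε : ℝ} (hε : 0 < ε) :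
    ∀ᶠ X : ℝ in atTop, ∃ x : ℝ, X ^ (1 - δ) ≤ x ∧ x ≤ X ∧ Real.log (TG F m) - ε < ll a b m x := by
  obtain ⟨-, h⟩ := riesz_one hΔ hrs hgr hF hm hz
  have h1 := Pool.Agent.TH720.TXW.t_riesz_window (fun U hU => S_int a b hU) h hδ hδ1
    (A := Real.log (TG F m) - ε) (by linarith)
  have h3 := Real.tendsto_log_atTop.eventually h1
  filter_upwards [h3, eventually_gt_atTop (0 : ℝ)] with X h4 hX
  obtain ⟨v, k1, k2, k3⟩ := h4
  refine ⟨Real.exp v, ?_, ?_, ?_⟩
  · rw [Real.rpow_def_of_pos hX, mul_comm]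
    exact Real.exp_le_exp.2 k1
  · rwa [← Real.le_log_iff_exp_le hX]
  · unfold ll
    rw [Real.log_exp]
    linarith

/-- under the Riemann hypothesis the product is below `(T + ε) (log x)^m` in every window -/
theorem rh_down (hΔ : 4 * a ^ 3 + 27 * b ^ 2 ≠ 0) (hrs : Tendsto (rsSum a b) atTop (𝓝 0))
    (hgr : ∃ C : ℝ, ∀ s : ℂ, 0 < s.re → ‖PhiF a b F s‖ ≤ C * (1 + ‖s‖) * (1 + 1 / s.re) ^ 2)
    (hF : IsLSeries a b F) {m : ℕ} (hm : analyticOrderAt F 1 = m)
    (hz : ∀ s : ℂ, 1 < s.re → F s ≠ 0) {δ : ℝ} (hδ : 0 < δ) (hδ1 : δ < 1) {ε : ℝ} (hε : 0 < ε) :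
    ∀ᶠ X : ℝ in atTop, ∃ x : ℝ, X ^ (1 - δ) ≤ x ∧ x ≤ X ∧ ll a b m x < Real.log (TG F m) + ε := by
  obtain ⟨-, h⟩ := riesz_one hΔ hrs hgr hF hm hz
  have h' : Tendsto (fun U : ℝ => (∫ v in (0 : ℝ)..U, -Real.log (bsdProduct a b (Real.exp v))) / U -
      (-(m : ℝ)) * Real.log U) atTop (𝓝 (-(Real.log (TG F m) - m))) := by
    refine h.neg.congr fun U => ?_
    rw [intervalIntegral.integral_neg]
    ring
  have h1 := Pool.Agent.TH720.TXW.t_riesz_window (fun U hU => (S_int a b hU).neg) h' hδ hδ1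
    (A := -(Real.log (TG F m) + ε)) (by linarith)
  have h3 := Real.tendsto_log_atTop.eventually h1
  filter_upwards [h3, eventually_gt_atTop (0 : ℝ)] with X h4 hX
  obtain ⟨v, k1, k2, k3⟩ := h4
  refine ⟨Real.exp v, ?_, ?_, ?_⟩
  · rw [Real.rpow_def_of_pos hX, mul_comm]
    exact Real.exp_le_exp.2 k1
  · rwa [← Real.le_log_iff_exp_le hX]
  · unfold ll
    rw [Real.log_exp]
    simp only [Pi.neg_apply] at k3
    linarith

end Pool.Agent.TH949.TX
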