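import Pool.Agent.TH949.TX.ESum2
import Pool.Agent.W263.BSD.OrderFinal

/-! The Birch and Swinnerton-Dyer product is large (small) in every window if the Riemann hypothesis fails. -/

set_option autoImplicit false

open Complex MeasureTheory Set Filter Topology Classical

namespace Pool.Agent.TH949.TX

open Pool.Agent.W263.BSD

variable {a b : ℤ}

/-- the angle -/
noncomputable def th (a b : ℤ) (p : ℕ) : ℝ := Real.arccos (Ap a b p / (2 * √p))

/-- the parameters `p^(-1/2) e^{± iθ}` -/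
noncomputable def pr (a b : ℤ) (p : ℕ) (i : Fin 2) : ℂ :=
  ((((√p)⁻¹ : ℝ)) : ℂ) * cexp ((((if i = 0 then 1 else -1) * th a b p : ℝ) : ℂ) * I)

theorem pr_norm (p : ℕ) (i : Fin 2) : ‖pr a b p i‖ = (√p)⁻¹ := by
  unfold pr
  rw [norm_mul, Complex.norm_exp_ofReal_mul_I, mul_one, Complex.norm_real, Real.norm_eq_abs, abs_of_nonneg]
  positivity

theorem pr_norm_le (p : ℕ) (i : Fin 2) : ‖pr a b p i‖ ≤ (p : ℝ) ^ (-(1 / 2) : ℝ) := by
  rw [pr_norm, Real.sqrt_eq_rpow, Real.rpow_neg (Nat.cast_nonneg p)]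

theorem pr_pow (p : ℕ) (i : Fin 2) (k : ℕ) : pr a b p i ^ (k + 1) =
    ((((√p)⁻¹ ^ (k + 1) : ℝ)) : ℂ) * cexp ((((k + 1) * ((if i = 0 then 1 else -1) * th a b p) : ℝ) : ℂ) * I) := by
  unfold pr
  rw [mul_pow, ← Complex.exp_nat_mul]
  push_cast
  ring_nf

theorem pr_im (p k : ℕ) : (∑ i, pr a b p i ^ (k + 1)).im = 0 := by
  rw [Fin.sum_univ_two, pr_pow, pr_pow, Complex.add_im, Complex.im_ofReal_mul, Complex.im_ofReal_mul,
    Complex.exp_ofReal_mul_I_im, Complex.exp_ofReal_mul_I_im]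
  simp only [if_true]
  rw [if_neg (by norm_num)]
  rw [show ((k : ℝ) + 1) * (-1 * th a b p) = -(((k : ℝ) + 1) * (1 * th a b p)) by ring, Real.sin_neg]
  ring

theorem pr_fac {p : ℕ} (hp : p ∈ SS a b) (X : ℂ) : ∏ i, (1 - pr a b p i * X) = fac (Ap a b) p X := by
  have hp0 : (0 : ℝ) < p := by exact_mod_cast hp.1.1.pos
  have hs : 0 < √(p : ℝ) := Real.sqrt_pos.2 hp0
  have h1 : |Ap a b p| ≤ 2 * √p := (eData a b).hasse p hp
  have h2 := abs_le.1 h1
  have h3 : Real.cos (th a b p) = Ap a b p / (2 * √p) := by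
    unfold th
    rw [Real.cos_arccos]
    · rw [le_div_iff₀ (by positivity)]
      linarith [h2.1]
    · rw [div_le_one (by positivity)]
      exact h2.2
  have e5 : pr a b p 0 = ((((√p)⁻¹ : ℝ)) : ℂ) * cexp (th a b p * I) := by
    unfold pr
    simp
  have e6 : pr a b p 1 = ((((√p)⁻¹ : ℝ)) : ℂ) * cexp (-th a b p * I) := by
    unfold pr
    simp
  have e7 : Complex.exp (th a b p * Complex.I) * Complex.exp (-th a b p * Complex.I) = 1 := by
    rw [← Complex.exp_add]
    simp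
  have e8 : Complex.exp (th a b p * Complex.I) + Complex.exp (-th a b p * Complex.I) =
      ((2 * Real.cos (th a b p) : ℝ) : ℂ) := by
    push_cast
    rw [Complex.cos]
    ring
  have e9 : pr a b p 0 + pr a b p 1 = ((tt (Ap a b) p : ℝ) : ℂ) := by
    rw [e5, e6, ← mul_add, e8, ← Complex.ofReal_mul, h3]
    congr 1
    unfold tt
    have : √(p : ℝ) * √(p : ℝ) = p := Real.mul_self_sqrt hp0.le
    field_simp
    rw [sq, this]
    ring
  have e10 : pr a b p 0 * pr a b p 1 = ((dl p ^ 2 : ℝ) : ℂ) := by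
    rw [e5, e6]
    calc ((((√p)⁻¹ : ℝ)) : ℂ) * cexp (th a b p * I) * (((((√p)⁻¹ : ℝ)) : ℂ) * cexp (-th a b p * I)) =
        ((((√p)⁻¹ : ℝ)) : ℂ) ^ 2 * (cexp (th a b p * I) * cexp (-th a b p * I)) := by ring
      _ = _ := by
        rw [e7, mul_one, ← Complex.ofReal_pow]
        unfold dl
        rw [one_div]
  unfold fac
  rw [Fin.prod_univ_two]
  rw [Complex.ofReal_pow] at e10
  linear_combination (-X) * e9 + X ^ 2 * e10

/-- the product over the small primes is bounded -/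
theorem log_prod_approx (a b : ℤ) : ∃ B : ℝ, 0 ≤ B ∧ ∀ u : ℝ,
    |Real.log (bsdProduct a b (Real.exp u)) -
      ∑ p ∈ (Finset.range (⌊Real.exp u⌋₊ + 1)).filter (fun p => p ∈ SS a b), Real.log (∏ i, ‖1 - pr a b p i‖)| ≤ B := by
  refine ⟨∑ p ∈ Finset.range 25, |Real.log (((pointCount a b p : ℝ) + 1) / p)|,
    Finset.sum_nonneg fun _ _ => abs_nonneg _, fun u => ?_⟩
  set M : ℕ := ⌊Real.exp u⌋₊ + 1 with hM
  have h1 : Real.log (bsdProduct a b (Real.exp u)) =
      ∑ p ∈ (Finset.range M).filter (GoodPrime a b), Real.log (((pointCount a b p : ℝ) + 1) / p) := by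
    rw [log_bsdProduct]
    unfold rieszMean
    simp only [pow_zero, one_mul]
    rfl
  have h2 : ∑ p ∈ (Finset.range M).filter (fun p => p ∈ SS a b), Real.log (∏ i, ‖1 - pr a b p i‖) =
      ∑ p ∈ (Finset.range M).filter (fun p => p ∈ SS a b), Real.log (((pointCount a b p : ℝ) + 1) / p) := by
    refine Finset.sum_congr rfl fun p hp => ?_
    have hp' := (Finset.mem_filter.1 hp).2
    have hp0 : (0 : ℝ) < p := by exact_mod_cast hp'.1.1.pos
    have h3 := pr_fac hp' 1
    have h4 : fac (Ap a b) p 1 = (((((pointCount a b p : ℝ) + 1) / p : ℝ)) : ℂ) := by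
      unfold fac tt Ap
      have : ((dl p : ℝ) : ℂ) ^ 2 = 1 / p := by
        rw [← Complex.ofReal_pow, dl_sq hp'.1.1.one_le]
        push_cast; rfl
      rw [this]
      have hpc : (p : ℂ) ≠ 0 := by exact_mod_cast hp'.1.1.ne_zero
      push_cast
      field_simp
      ring
    rw [h4] at h3
    rw [← norm_prod]
    simp only [mul_one] at h3
    rw [h3, Complex.norm_real, Real.norm_eq_abs, abs_of_pos (by positivity)]
  rw [h1, h2]
  have h5 : ∑ p ∈ (Finset.range M).filter (GoodPrime a b), Real.log (((pointCount a b p : ℝ) + 1) / p) =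
      ∑ p ∈ (Finset.range M).filter (fun p => p ∈ SS a b), Real.log (((pointCount a b p : ℝ) + 1) / p) +
      ∑ p ∈ (Finset.range M).filter (fun p => GoodPrime a b p ∧ p < 25),
        Real.log (((pointCount a b p : ℝ) + 1) / p) := by
    rw [← Finset.sum_union]
    · refine Finset.sum_congr ?_ fun _ _ => rfl
      ext p
      simp only [Finset.mem_filter, Finset.mem_union]
      constructor
      · rintro ⟨h1, h2⟩
        by_cases h3 : 25 ≤ p
        · exact Or.inl ⟨h1, h2, h3⟩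
        · exact Or.inr ⟨h1, h2, by omega⟩
      · rintro (⟨h1, h2⟩ | ⟨h1, h2, -⟩)
        · exact ⟨h1, h2.1⟩
        · exact ⟨h1, h2⟩
    · rw [Finset.disjoint_left]
      intro p h1 h2
      rw [Finset.mem_filter] at h1 h2
      have := h1.2.2
      omega
  rw [h5, add_sub_cancel_left]
  refine (Finset.abs_sum_le_sum_abs _ _).trans ?_
  refine Finset.sum_le_sum_of_subset_of_nonneg ?_ fun _ _ _ => abs_nonneg _
  intro p hp
  rw [Finset.mem_filter] at hp
  rw [Finset.mem_range]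
  exact hp.2.2

/-- the sums `AA` and the logarithm of the product -/
theorem AA_approx (a b : ℤ) : ∃ B : ℝ, 0 ≤ B ∧ ∀ u : ℝ, 0 ≤ u →
    |AA (dP (T := SS a b) (pr a b)) LP u - Real.log (bsdProduct a b (Real.exp u))| ≤ B * (1 + u) := by
  obtain ⟨B1, hB1, h1⟩ := log_prod_approx a b
  obtain ⟨B2, hB2, h2⟩ := Pool.Agent.TH75.Pow2.t_pow2 (T := SS a b) (α := pr a b) (fun p hp => hp.1.1)
    (fun p _ i => pr_norm_le p i)
  refine ⟨B1 + B2, by positivity, fun u hu => ?_⟩
  have e1 := abs_le.1 (h1 u)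
  have e2 := abs_le.1 (h2 u hu)
  have e3 : B1 * 1 ≤ B1 * (1 + u) := by gcongr; linarith
  rw [abs_le]
  constructor <;> nlinarith [e1.1, e1.2, e2.1, e2.2]

/-- the Euler product in the form used here -/
theorem bsd_hasProd {F : ℂ → ℂ} (hF : IsLSeries a b F) {s : ℂ} (hs : 1 < s.re) :
    HasProd (fun p : SS a b => ∏ i, (1 - pr a b (p : ℕ) i * ((p : ℕ) : ℂ) ^ (-s))⁻¹) (PhiF a b F s) := by
  have h1 := PhiF_hasProd hF hs
  have h2 : HasProd ((fun p : ℕ => ∏ i, (1 - pr a b p i * (p : ℂ) ^ (-s))⁻¹) ∘ ((↑) : SS a b → ℕ))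
      (PhiF a b F s) := by
    rw [hasProd_subtype_iff_mulIndicator]
    convert h1 using 1
    funext p
    by_cases hp : p ∈ SS a b
    · rw [Set.mulIndicator_of_mem hp, if_pos hp, ← pr_fac hp, ← Finset.prod_inv_distrib]
      rfl
    · rw [Set.mulIndicator_of_notMem hp, if_neg hp]
  exact h2

/-- zeros make the product large in every window -/
theorem bsd_up {F : ℂ → ℂ} (hF : IsLSeries a b F) {c : ℝ} (hc0 : 0 ≤ c) {ρ : ℂ} (hρ : 1 + c < ρ.re) (h0 : F ρ = 0)
    {δ C : ℝ} (hδ : 0 < δ) : ∀ᶠ X : ℝ in atTop, ∃ x : ℝ, X ^ (1 - δ) ≤ x ∧ x ≤ X ∧ 1 ≤ x ∧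
      C * x ^ c < Real.log (bsdProduct a b x) := by
  obtain ⟨B, hB, h1⟩ := AA_approx a b
  have hT : ∀ p ∈ SS a b, p.Prime := fun p hp => hp.1.1
  have hα1 : ∀ p ∈ SS a b, ∀ i, ‖pr a b p i‖ ≤ 1 := by
    intro p hp i
    refine (pr_norm_le p i).trans ?_
    refine Real.rpow_le_one_of_one_le_of_nonpos ?_ (by norm_num)
    exact_mod_cast hp.1.1.one_le
  have h2 := omega_up hT hα1 (fun p _ k => pr_im p k) (PhiF_differentiable hF) (fun s hs => bsd_hasProd hF hs)
    hc0 (ρ := ρ - 1) (by rw [Complex.sub_re, Complex.one_re]; linarith) (by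
      unfold PhiF
      rw [add_sub_cancel, h0, zero_mul]) (C := |C| + B) hδ
  have h3 := Real.tendsto_log_atTop.eventually h2
  filter_upwards [h3, eventually_gt_atTop (0 : ℝ)] with X h4 hX
  obtain ⟨u, k1, k2, k3, k4⟩ := h4
  refine ⟨Real.exp u, ?_, ?_, Real.one_le_exp k3, ?_⟩
  · rw [Real.rpow_def_of_pos hX, mul_comm]
    exact Real.exp_le_exp.2 k1
  · rwa [← Real.le_log_iff_exp_le hX]
  · have k5 := (abs_le.1 (h1 u k3)).2
    have k6 : Real.exp u ^ c = Real.exp (c * u) := by rw [← Real.exp_mul, mul_comm]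
    rw [k6]
    have k7 : 1 ≤ Real.exp (c * u) := Real.one_le_exp (by positivity)
    have k8 : B * (1 + u) * 1 ≤ B * (1 + u) * Real.exp (c * u) := by gcongr
    have k9 : C * Real.exp (c * u) ≤ |C| * (1 + u) * Real.exp (c * u) := by
      have e1 := le_abs_self C
      have e2 : |C| * 1 ≤ |C| * (1 + u) := by gcongr; linarith
      have e3 := Real.exp_pos (c * u)
      nlinarith
    linarith

/-- without real zeros, zeros make the product small in every window -/
theorem bsd_down {F : ℂ → ℂ} (hF : IsLSeries a b F) {c : ℝ} (hc0 : 0 ≤ c)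
    (hreal : ∀ s : ℝ, 1 + c < s → F s ≠ 0) {ρ : ℂ} (hρ : 1 + c < ρ.re) (h0 : F ρ = 0)
    {δ C : ℝ} (hδ : 0 < δ) : ∀ᶠ X : ℝ in atTop, ∃ x : ℝ, X ^ (1 - δ) ≤ x ∧ x ≤ X ∧ 1 ≤ x ∧
      Real.log (bsdProduct a b x) < -(C * x ^ c) := by
  obtain ⟨B, hB, h1⟩ := AA_approx a b
  have hT : ∀ p ∈ SS a b, p.Prime := fun p hp => hp.1.1
  have hα1 : ∀ p ∈ SS a b, ∀ i, ‖pr a b p i‖ ≤ 1 := by
    intro p hp i
    refine (pr_norm_le p i).trans ?_
    refine Real.rpow_le_one_of_one_le_of_nonpos ?_ (by norm_num)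
    exact_mod_cast hp.1.1.one_le
  have hreal' : ∀ x : ℝ, c < x → PhiF a b F x ≠ 0 := by
    intro x hx
    unfold PhiF
    refine mul_ne_zero ?_ (small_ne_zero_real (by linarith))
    have := hreal (1 + x) (by linarith)
    push_cast at this
    exact this
  have h2 := omega_down hT hα1 (fun p _ k => pr_im p k) (PhiF_differentiable hF) (fun s hs => bsd_hasProd hF hs)
    hc0 hreal' (ρ := ρ - 1) (by rw [Complex.sub_re, Complex.one_re]; linarith) (by
      unfold PhiF
      rw [add_sub_cancel, h0, zero_mul]) (C := |C| + B) hδ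
  have h3 := Real.tendsto_log_atTop.eventually h2
  filter_upwards [h3, eventually_gt_atTop (0 : ℝ)] with X h4 hX
  obtain ⟨u, k1, k2, k3, k4⟩ := h4
  refine ⟨Real.exp u, ?_, ?_, Real.one_le_exp k3, ?_⟩
  · rw [Real.rpow_def_of_pos hX, mul_comm]
    exact Real.exp_le_exp.2 k1
  · rwa [← Real.le_log_iff_exp_le hX]
  · have k5 := (abs_le.1 (h1 u k3)).1
    have k6 : Real.exp u ^ c = Real.exp (c * u) := by rw [← Real.exp_mul, mul_comm]
    rw [k6]
    have k7 : 1 ≤ Real.exp (c * u) := Real.one_le_exp (by positivity)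
    have k8 : B * (1 + u) * 1 ≤ B * (1 + u) * Real.exp (c * u) := by gcongr
    have k9 : C * Real.exp (c * u) ≤ |C| * (1 + u) * Real.exp (c * u) := by
      have e1 := le_abs_self C
      have e2 : |C| * 1 ≤ |C| * (1 + u) := by gcongr; linarith
      have e3 := Real.exp_pos (c * u)
      nlinarith
    linarith

end Pool.Agent.TH949.TX
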