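import Pool.Agent.TH949.TX.SMain
import Pool.Agent.TH720.TXEuler
import Pool.Agent.TH75.Pow2
import Pool.Agent.TH169.TX.Pow1

/-! Zeros of Euler products and one-sided bounds for sums over primes on one sequence of windows. -/

set_option autoImplicit false

open Complex MeasureTheory Set Filter Topology

namespace Pool.Agent.TH949.TX

variable {T : Set ℕ} {n : ℕ} {α : ℕ → Fin n → ℂ}

/-- a zero of the Euler product makes the sums of the coefficients large in every window -/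
theorem euler_sum (hT : ∀ p ∈ T, p.Prime) (hα : ∀ p ∈ T, ∀ i, ‖α p i‖ ≤ 1)
    (him : ∀ p ∈ T, ∀ k : ℕ, (∑ i, α p i ^ (k + 1)).im = 0)
    {Φ : ℂ → ℂ} (hΦ : Differentiable ℂ Φ)
    (hP : ∀ s : ℂ, 1 < s.re →
      HasProd (fun p : T => ∏ i, (1 - α (p : ℕ) i * ((p : ℕ) : ℂ) ^ (-s))⁻¹) (Φ s))
    {c : ℝ} (hc0 : 0 ≤ c) {ρ : ℂ} (hρ : c < ρ.re) (h0 : Φ ρ = 0)
    {lam : ℝ} (hlam : 0 < lam) (hlam1 : lam ≤ 1) :
    ∀ᶠ Y : ℝ in atTop, ∃ u : ℝ, |u - Y| ≤ lam * Y ∧
      Real.exp (c * u) ≤ AA (dP (T := T) α) LP u := by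
  obtain ⟨hs, he⟩ := Pool.Agent.TH720.TXE.t_euler hT hα him
  have hL : ∀ x : T × ℕ, 0 ≤ LP x := by
    intro x
    unfold LP
    have : (1 : ℝ) ≤ ((x.1 : ℕ) : ℝ) := by exact_mod_cast (hT _ x.1.2).one_le
    have := Real.log_nonneg this
    positivity
  have hfin : ∀ s : ℂ, ∃ k : ℕ, analyticOrderAt Φ s = k := by
    intro s
    have hne : analyticOrderAt Φ s ≠ ⊤ := by
      intro htop
      rw [analyticOrderAt_eq_top] at htop
      have h1 : AnalyticOnNhd ℂ Φ univ := hΦ.differentiableOn.analyticOnNhd isOpen_univ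
      have h2 := h1.eqOn_zero_of_preconnected_of_eventuallyEq_zero isPreconnected_univ
        (mem_univ s) htop
      have h3 : Φ 2 = 0 := h2 (mem_univ _)
      have h4 := he 2 (by norm_num) _ (hP 2 (by norm_num))
      rw [h3, inv_zero] at h4
      exact (Complex.exp_ne_zero _) h4.symm
    exact ⟨_, (ENat.natCast_toNat hne).symm⟩
  have hord : ∀ s : ℂ, ∃ k : ℕ, analyticOrderAt Φ s = k ∧
      meromorphicOrderAt Φ⁻¹ s = ((-(k : ℤ) : ℤ) : WithTop ℤ) := by
    intro s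
    obtain ⟨k, hk⟩ := hfin s
    refine ⟨k, hk, ?_⟩
    rw [meromorphicOrderAt_inv, (hΦ.analyticAt s).meromorphicOrderAt_eq, hk]
    rfl
  refine main_sum hL hs (F := Φ⁻¹) (fun s _ => (hΦ.analyticAt s).meromorphicAt.inv)
    (fun s hs => he s hs _ (hP s hs)) hc0 ?_ ⟨ρ, hρ, ?_⟩ hlam hlam1
  · intro x _
    obtain ⟨k, -, hk⟩ := hord (x : ℂ)
    rw [hk]
    have : -(k : ℤ) ≤ 0 := by omega
    exact_mod_cast this
  · obtain ⟨k, hk1, hk⟩ := hord ρ
    rw [hk]
    intro h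
    have h1 : (-(k : ℤ)) = 0 := by exact_mod_cast h
    have h2 : k = 0 := by omega
    rw [h2, Nat.cast_zero, (hΦ.analyticAt ρ).analyticOrderAt_eq_zero] at hk1
    exact hk1 h0

/-- the number `u` of `euler_sum` gives a point of the window `[X^(1-δ), X]` -/
theorem window_point {lam Λ u : ℝ} (hlam : 0 < lam) (hlam1 : lam ≤ 1 / 2) (hΛ : 0 ≤ Λ)
    (h : |u - (1 - lam) * Λ| ≤ lam * ((1 - lam) * Λ)) : (1 - 2 * lam) * Λ ≤ u ∧ u ≤ Λ ∧ Λ / 4 ≤ u := by
  rw [abs_le] at h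
  refine ⟨?_, ?_, ?_⟩
  · nlinarith [mul_nonneg (sq_nonneg lam) hΛ]
  · nlinarith [mul_nonneg (sq_nonneg lam) hΛ]
  · have h1 : (1 - lam) * ((1 - lam) * Λ) ≤ u := by linarith [h.1]
    have h2 : (1 / 2 : ℝ) * ((1 / 2) * Λ) ≤ (1 - lam) * ((1 - lam) * Λ) := by
      have : (1 / 2 : ℝ) ≤ 1 - lam := by linarith
      gcongr
    linarith

/-- a bound for the sums on one sequence of windows excludes zeros -/
theorem zero_free_AA (hT : ∀ p ∈ T, p.Prime) (hα : ∀ p ∈ T, ∀ i, ‖α p i‖ ≤ 1)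
    (him : ∀ p ∈ T, ∀ k : ℕ, (∑ i, α p i ^ (k + 1)).im = 0)
    {Φ : ℂ → ℂ} (hΦ : Differentiable ℂ Φ)
    (hP : ∀ s : ℂ, 1 < s.re →
      HasProd (fun p : T => ∏ i, (1 - α (p : ℕ) i * ((p : ℕ) : ℂ) ^ (-s))⁻¹) (Φ s))
    {c : ℝ} (hc0 : 0 ≤ c) {δ C : ℝ} (hδ : 0 < δ)
    (hW : ∃ᶠ X : ℝ in atTop, ∀ u : ℝ, (1 - δ) * X ≤ u → u ≤ X →
      AA (dP (T := T) α) LP u ≤ C * (1 + u) * Real.exp (c * u)) {ρ : ℂ} (hρ : c < ρ.re) : Φ ρ ≠ 0 := by
  intro h0
  set c' : ℝ := (c + ρ.re) / 2 with hc'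
  set lam : ℝ := min δ 1 / 2 with hlam
  have hl0 : 0 < lam := by rw [hlam]; positivity
  have hl1 : lam ≤ 1 / 2 := by
    rw [hlam]
    have := min_le_right δ 1
    linarith
  have h1 := euler_sum hT hα him hΦ hP (c := c') (by rw [hc']; linarith) (ρ := ρ) (by rw [hc']; linarith) h0
    hl0 (by linarith)
  have h2 : Tendsto (fun Λ : ℝ => (1 - lam) * Λ) atTop atTop :=
    Tendsto.const_mul_atTop (by linarith) tendsto_id
  have h3 := h2.eventually h1
  -- the exponential wins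
  have h4 : Tendsto (fun u : ℝ => |C| * ((1 + u) * Real.exp (-((c' - c) * u)))) atTop (𝓝 0) := by
    have hk : 0 < c' - c := by rw [hc']; linarith
    have e1 : Tendsto (fun u : ℝ => Real.exp (-((c' - c) * u))) atTop (𝓝 0) := by
      refine Real.tendsto_exp_neg_atTop_nhds_zero.comp ?_
      exact Tendsto.const_mul_atTop hk tendsto_id
    have e2 : Tendsto (fun u : ℝ => u * Real.exp (-((c' - c) * u))) atTop (𝓝 0) := by
      have e3 := (Real.tendsto_pow_mul_exp_neg_atTop_nhds_zero 1).comp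
        (Tendsto.const_mul_atTop hk tendsto_id : Tendsto (fun u : ℝ => (c' - c) * u) atTop atTop)
      have e4 := e3.const_mul (c' - c)⁻¹
      rw [mul_zero] at e4
      refine e4.congr fun u => ?_
      simp only [Function.comp_apply, pow_one]
      field_simp
    have e5 := (e1.add e2).const_mul |C|
    rw [add_zero, mul_zero] at e5
    refine e5.congr fun u => ?_
    ring
  have h5 := (h4.eventually (gt_mem_nhds (show (0 : ℝ) < 1 by norm_num))).and (eventually_ge_atTop (0 : ℝ))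
  have h6 : Tendsto (fun Λ : ℝ => Λ / 4) atTop atTop := tendsto_id.atTop_div_const (by norm_num)
  rw [eventually_atTop] at h5
  obtain ⟨u0, hu0⟩ := h5
  have h7 := h6.eventually (eventually_ge_atTop u0)
  obtain ⟨Λ, hΛ, h8, h9, h10⟩ := (hW.and_eventually (h3.and (h7.and (eventually_ge_atTop (0 : ℝ))))).exists
  obtain ⟨u, hu1, hu2⟩ := h8
  obtain ⟨k1, k2, k3⟩ := window_point hl0 hl1 h10 hu1
  have k4 := hΛ u (by
    refine le_trans ?_ k1
    have : 2 * lam ≤ δ := by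
      rw [hlam]
      have := min_le_left δ 1
      linarith
    have : 1 - δ ≤ 1 - 2 * lam := by linarith
    exact mul_le_mul_of_nonneg_right this h10) k2
  obtain ⟨k5, k6⟩ := hu0 u (h9.trans k3)
  have k7 : Real.exp (c' * u) ≤ |C| * (1 + u) * Real.exp (c * u) := by
    refine (hu2.trans k4).trans ?_
    have := le_abs_self C
    gcongr
  have k8 : Real.exp (c' * u) * Real.exp (-(c' * u)) ≤ |C| * (1 + u) * Real.exp (c * u) * Real.exp (-(c' * u)) := by
    gcongr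
  rw [← Real.exp_add, add_neg_cancel, Real.exp_zero, mul_assoc (|C| * (1 + u)), ← Real.exp_add] at k8
  have k9 : c * u + -(c' * u) = -((c' - c) * u) := by ring
  rw [k9, mul_assoc] at k8
  linarith

open Classical in
/-- **Traces on one sequence of windows**: a one-sided bound for the sums of the traces over primes. -/
theorem zero_free_trace (hT : ∀ p ∈ T, p.Prime) (hα : ∀ p ∈ T, ∀ i, ‖α p i‖ ≤ 1)
    (him : ∀ p ∈ T, ∀ k : ℕ, (∑ i, α p i ^ (k + 1)).im = 0)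
    {Φ : ℂ → ℂ} (hΦ : Differentiable ℂ Φ)
    (hP : ∀ s : ℂ, 1 < s.re →
      HasProd (fun p : T => ∏ i, (1 - α (p : ℕ) i * ((p : ℕ) : ℂ) ^ (-s))⁻¹) (Φ s))
    {c : ℝ} (hc0 : 1 / 2 ≤ c) {δ C : ℝ} (hδ : 0 < δ)
    (hW : ∃ᶠ X : ℝ in atTop, ∀ x : ℝ, X ^ (1 - δ) ≤ x → x ≤ X →
      -(C * x ^ c) ≤ ∑ p ∈ (Finset.range (⌊x⌋₊ + 1)).filter (fun p => p ∈ T), (∑ i, α p i).re)
    {ρ : ℂ} (hρ : c < ρ.re) : Φ ρ ≠ 0 := by
  obtain ⟨C1, hC1, h1⟩ := Pool.Agent.TH169.TX.t_pow1 hT hα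
  have hev : ∃ᶠ Λ : ℝ in atTop, ∀ u : ℝ, (1 - δ) * Λ ≤ u → u ≤ Λ → 0 ≤ u →
      AA (dP (T := T) α) LP u ≤ (C1 + |C|) * (1 + u) * Real.exp (c * u) := by
    have h2 : ∃ᶠ X : ℝ in atTop, ∀ u : ℝ, (1 - δ) * Real.log X ≤ u → u ≤ Real.log X → 0 ≤ u →
      AA (dP (T := T) α) LP u ≤ (C1 + |C|) * (1 + u) * Real.exp (c * u) := by
      refine (hW.and_eventually (eventually_gt_atTop 0)).mono ?_
      rintro X ⟨hX, hX0⟩ u hu1 hu2 hu0
      have k1 := hX (Real.exp u) (by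
        rw [Real.rpow_def_of_pos hX0, mul_comm]
        exact Real.exp_le_exp.2 hu1) (by rwa [← Real.le_log_iff_exp_le hX0])
      have k2 := (abs_le.1 (h1 u hu0)).2
      have k3 : Real.exp u ^ c = Real.exp (c * u) := by
        rw [← Real.exp_mul, mul_comm]
      rw [k3] at k1
      have k4 : C1 * (1 + u) * Real.exp (u / 2) ≤ C1 * (1 + u) * Real.exp (c * u) := by
        have : u / 2 ≤ c * u := by nlinarith
        gcongr
      have k5 : C * Real.exp (c * u) ≤ |C| * (1 + u) * Real.exp (c * u) := by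
        have e1 := le_abs_self C
        have e2 : |C| * 1 ≤ |C| * (1 + u) := by gcongr; linarith
        have e3 := Real.exp_pos (c * u)
        nlinarith
      linarith
    intro hcon
    apply h2
    have := Real.tendsto_log_atTop.eventually hcon
    exact this
  refine zero_free_AA hT hα him hΦ hP (by linarith : (0 : ℝ) ≤ c) (δ := min δ 1) (C := C1 + |C|) (by positivity)
    ?_ hρ
  refine (hev.and_eventually (eventually_ge_atTop (0 : ℝ))).mono ?_
  rintro X ⟨hX, hX0⟩ u hu1 hu2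
  have e1 : 0 ≤ (1 - min δ 1) * X := by
    have := min_le_right δ 1
    have : 0 ≤ 1 - min δ 1 := by linarith
    positivity
  refine hX u (le_trans ?_ hu1) hu2 (e1.trans hu1)
  have : 1 - δ ≤ 1 - min δ 1 := by
    have := min_le_left δ 1
    linarith
  exact mul_le_mul_of_nonneg_right this hX0

open Classical in
/-- **Products on one sequence of windows**: a one-sided bound for products over primes of the values
of the Euler factors at `s = 0`, if the parameters are at most `p^(-1/2)` -/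
theorem zero_free_prod (hT : ∀ p ∈ T, p.Prime) (hα : ∀ p ∈ T, ∀ i, ‖α p i‖ ≤ (p : ℝ) ^ (-(1 / 2) : ℝ))
    (him : ∀ p ∈ T, ∀ k : ℕ, (∑ i, α p i ^ (k + 1)).im = 0)
    {Φ : ℂ → ℂ} (hΦ : Differentiable ℂ Φ)
    (hP : ∀ s : ℂ, 1 < s.re →
      HasProd (fun p : T => ∏ i, (1 - α (p : ℕ) i * ((p : ℕ) : ℂ) ^ (-s))⁻¹) (Φ s))
    {c : ℝ} (hc0 : 0 ≤ c) {δ C : ℝ} (hδ : 0 < δ)
    (hW : ∃ᶠ X : ℝ in atTop, ∀ x : ℝ, X ^ (1 - δ) ≤ x → x ≤ X →
      ∑ p ∈ (Finset.range (⌊x⌋₊ + 1)).filter (fun p => p ∈ T), Real.log (∏ i, ‖1 - α p i‖) ≤ C * x ^ c)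
    {ρ : ℂ} (hρ : c < ρ.re) : Φ ρ ≠ 0 := by
  have hα1 : ∀ p ∈ T, ∀ i, ‖α p i‖ ≤ 1 := by
    intro p hp i
    refine (hα p hp i).trans ?_
    refine Real.rpow_le_one_of_one_le_of_nonpos ?_ (by norm_num)
    exact_mod_cast (hT p hp).one_le
  obtain ⟨C1, hC1, h1⟩ := Pool.Agent.TH75.Pow2.t_pow2 hT hα
  have hev : ∃ᶠ Λ : ℝ in atTop, ∀ u : ℝ, (1 - δ) * Λ ≤ u → u ≤ Λ → 0 ≤ u →
      AA (dP (T := T) α) LP u ≤ (C1 + |C|) * (1 + u) * Real.exp (c * u) := by
    have h2 : ∃ᶠ X : ℝ in atTop, ∀ u : ℝ, (1 - δ) * Real.log X ≤ u → u ≤ Real.log X → 0 ≤ u →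
      AA (dP (T := T) α) LP u ≤ (C1 + |C|) * (1 + u) * Real.exp (c * u) := by
      refine (hW.and_eventually (eventually_gt_atTop 0)).mono ?_
      rintro X ⟨hX, hX0⟩ u hu1 hu2 hu0
      have k1 := hX (Real.exp u) (by
        rw [Real.rpow_def_of_pos hX0, mul_comm]
        exact Real.exp_le_exp.2 hu1) (by rwa [← Real.le_log_iff_exp_le hX0])
      have k2 := (abs_le.1 (h1 u hu0)).2
      have k3 : Real.exp u ^ c = Real.exp (c * u) := by
        rw [← Real.exp_mul, mul_comm]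
      rw [k3] at k1
      have k4 : C1 * (1 + u) * 1 ≤ C1 * (1 + u) * Real.exp (c * u) := by
        have : 1 ≤ Real.exp (c * u) := Real.one_le_exp (by positivity)
        gcongr
      have k5 : C * Real.exp (c * u) ≤ |C| * (1 + u) * Real.exp (c * u) := by
        have e1 := le_abs_self C
        have e2 : |C| * 1 ≤ |C| * (1 + u) := by gcongr; linarith
        have e3 := Real.exp_pos (c * u)
        nlinarith
      linarith
    intro hcon
    apply h2
    have := Real.tendsto_log_atTop.eventually hcon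
    exact this
  refine zero_free_AA hT hα1 him hΦ hP hc0 (δ := min δ 1) (C := C1 + |C|) (by positivity)
    ?_ hρ
  refine (hev.and_eventually (eventually_ge_atTop (0 : ℝ))).mono ?_
  rintro X ⟨hX, hX0⟩ u hu1 hu2
  have e1 : 0 ≤ (1 - min δ 1) * X := by
    have := min_le_right δ 1
    have : 0 ≤ 1 - min δ 1 := by linarith
    positivity
  refine hX u (le_trans ?_ hu1) hu2 (e1.trans hu1)
  have : 1 - δ ≤ 1 - min δ 1 := by
    have := min_le_left δ 1
    linarith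
  exact mul_le_mul_of_nonneg_right this hX0

end Pool.Agent.TH949.TX
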