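import Pool.Agent.TH949.TX.ESum

/-! Zeros of Euler products and large values of sums over primes in every window, in both directions. -/

set_option autoImplicit false

open Complex MeasureTheory Set Filter Topology

namespace Pool.Agent.TH949.TX

/-- from balls around `Y` to windows -/
theorem window_core {B : ℝ → ℝ} {c c' : ℝ} (hcc : c < c')
    (h : ∀ lam : ℝ, 0 < lam → lam ≤ 1 → ∀ᶠ Y : ℝ in atTop, ∃ u : ℝ, |u - Y| ≤ lam * Y ∧ Real.exp (c' * u) ≤ B u)
    {δ C : ℝ} (hδ : 0 < δ) :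
    ∀ᶠ X : ℝ in atTop, ∃ u : ℝ, (1 - δ) * X ≤ u ∧ u ≤ X ∧ 0 ≤ u ∧ C * (1 + u) * Real.exp (c * u) < B u := by
  set lam : ℝ := min δ 1 / 2 with hlam
  have hl0 : 0 < lam := by rw [hlam]; positivity
  have hl1 : lam ≤ 1 / 2 := by
    rw [hlam]
    have := min_le_right δ 1
    linarith
  have h1 := h lam hl0 (by linarith)
  have h2 : Tendsto (fun Λ : ℝ => (1 - lam) * Λ) atTop atTop :=
    Tendsto.const_mul_atTop (by linarith) tendsto_id
  have h3 := h2.eventually h1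
  -- the exponential wins
  have h4 : Tendsto (fun u : ℝ => |C| * ((1 + u) * Real.exp (-((c' - c) * u)))) atTop (𝓝 0) := by
    have hk : 0 < c' - c := by linarith
    have e1 : Tendsto (fun u : ℝ => Real.exp (-((c' - c) * u))) atTop (𝓝 0) := by
      refine Real.tendsto_exp_neg_atTop_nhds_zero.comp ?_
      exact Tendsto.const_mul_atTop hk tendsto_id
    have e2 : Tendsto (fun u : ℝ => u * Real.exp (-((c' - c) * u))) atTop (𝓝 0) := by
      have e3 := (Real.tendsto_pow_mul_exp_neg_atTop_nhds_zero 1).comp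
        (Tendsto.const_mul_atTop hk tendsto_id : Tendsto (fun u : ℝ => (c' - c) * u) atTop atTop)
      have e4 := e3.const_mul (c' - c)⁻¹
      rw [mul_zero] at e4
      refine e4.congr fun u => ?_
      simp only [Function.comp_apply, pow_one]
      field_simp
    have e5 := (e1.add e2).const_mul |C|
    rw [add_zero, mul_zero] at e5
    refine e5.congr fun u => ?_
    ring
  have h5 := (h4.eventually (gt_mem_nhds (show (0 : ℝ) < 1 by norm_num))).and (eventually_ge_atTop (0 : ℝ))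
  have h6 : Tendsto (fun Λ : ℝ => Λ / 4) atTop atTop := tendsto_id.atTop_div_const (by norm_num)
  rw [eventually_atTop] at h5
  obtain ⟨u0, hu0⟩ := h5
  have h7 := h6.eventually (eventually_ge_atTop u0)
  filter_upwards [h3, h7, eventually_ge_atTop (0 : ℝ)] with Λ h8 h9 h10
  obtain ⟨u, hu1, hu2⟩ := h8
  obtain ⟨k1, k2, k3⟩ := window_point hl0 hl1 h10 hu1
  have k0 : (1 - δ) * Λ ≤ (1 - 2 * lam) * Λ := by
    have : 2 * lam ≤ δ := by
      rw [hlam]
      have := min_le_left δ 1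
      linarith
    have : 1 - δ ≤ 1 - 2 * lam := by linarith
    exact mul_le_mul_of_nonneg_right this h10
  obtain ⟨k5, k6⟩ := hu0 u (h9.trans k3)
  refine ⟨u, k0.trans k1, k2, k6, lt_of_lt_of_le ?_ hu2⟩
  have k7 : C * (1 + u) * Real.exp (c * u) ≤ |C| * (1 + u) * Real.exp (c * u) := by
    have := le_abs_self C
    gcongr
  refine lt_of_le_of_lt k7 ?_
  have k8 : Real.exp (c * u) = Real.exp (-((c' - c) * u)) * Real.exp (c' * u) := by
    rw [← Real.exp_add]
    congr 1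
    ring
  rw [k8]
  calc |C| * (1 + u) * (Real.exp (-((c' - c) * u)) * Real.exp (c' * u)) =
      |C| * ((1 + u) * Real.exp (-((c' - c) * u))) * Real.exp (c' * u) := by ring
    _ < 1 * Real.exp (c' * u) := mul_lt_mul_of_pos_right k5 (Real.exp_pos _)
    _ = _ := one_mul _

variable {T : Set ℕ} {n : ℕ} {α : ℕ → Fin n → ℂ}

/-- a zero makes the sums large in every window -/
theorem omega_up (hT : ∀ p ∈ T, p.Prime) (hα : ∀ p ∈ T, ∀ i, ‖α p i‖ ≤ 1)
    (him : ∀ p ∈ T, ∀ k : ℕ, (∑ i, α p i ^ (k + 1)).im = 0)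
    {Φ : ℂ → ℂ} (hΦ : Differentiable ℂ Φ)
    (hP : ∀ s : ℂ, 1 < s.re →
      HasProd (fun p : T => ∏ i, (1 - α (p : ℕ) i * ((p : ℕ) : ℂ) ^ (-s))⁻¹) (Φ s))
    {c : ℝ} (hc0 : 0 ≤ c) {ρ : ℂ} (hρ : c < ρ.re) (h0 : Φ ρ = 0) {δ C : ℝ} (hδ : 0 < δ) :
    ∀ᶠ X : ℝ in atTop, ∃ u : ℝ, (1 - δ) * X ≤ u ∧ u ≤ X ∧ 0 ≤ u ∧
      C * (1 + u) * Real.exp (c * u) < AA (dP (T := T) α) LP u := by
  refine window_core (c' := (c + ρ.re) / 2) (by linarith) (fun lam hl hl1 => ?_) hδ
  exact euler_sum hT hα him hΦ hP (c := (c + ρ.re) / 2) (by linarith) (ρ := ρ) (by linarith) h0 hl hl1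

/-- without real zeros a zero makes the sums small, too -/
theorem omega_down (hT : ∀ p ∈ T, p.Prime) (hα : ∀ p ∈ T, ∀ i, ‖α p i‖ ≤ 1)
    (him : ∀ p ∈ T, ∀ k : ℕ, (∑ i, α p i ^ (k + 1)).im = 0)
    {Φ : ℂ → ℂ} (hΦ : Differentiable ℂ Φ)
    (hP : ∀ s : ℂ, 1 < s.re →
      HasProd (fun p : T => ∏ i, (1 - α (p : ℕ) i * ((p : ℕ) : ℂ) ^ (-s))⁻¹) (Φ s))
    {c : ℝ} (hc0 : 0 ≤ c) (hreal : ∀ x : ℝ, c < x → Φ x ≠ 0) {ρ : ℂ} (hρ : c < ρ.re) (h0 : Φ ρ = 0)
    {δ C : ℝ} (hδ : 0 < δ) :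
    ∀ᶠ X : ℝ in atTop, ∃ u : ℝ, (1 - δ) * X ≤ u ∧ u ≤ X ∧ 0 ≤ u ∧
      AA (dP (T := T) α) LP u < -(C * (1 + u) * Real.exp (c * u)) := by
  obtain ⟨hs, he⟩ := Pool.Agent.TH720.TXE.t_euler hT hα him
  have hL : ∀ x : T × ℕ, 0 ≤ LP x := by
    intro x
    unfold LP
    have : (1 : ℝ) ≤ ((x.1 : ℕ) : ℝ) := by exact_mod_cast (hT _ x.1.2).one_le
    have := Real.log_nonneg this
    positivity
  have hne : ∀ s : ℂ, 1 < s.re → Φ s ≠ 0 := by
    intro s hs h
    have h4 := he s hs _ (hP s hs)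
    rw [h, inv_zero] at h4
    exact (Complex.exp_ne_zero _) h4.symm
  have hfin : ∀ s : ℂ, ∃ k : ℕ, analyticOrderAt Φ s = k := by
    intro s
    have hne : analyticOrderAt Φ s ≠ ⊤ := by
      intro htop
      rw [analyticOrderAt_eq_top] at htop
      have h1 : AnalyticOnNhd ℂ Φ univ := hΦ.differentiableOn.analyticOnNhd isOpen_univ
      have h2 := h1.eqOn_zero_of_preconnected_of_eventuallyEq_zero isPreconnected_univ
        (mem_univ s) htop
      exact hne 2 (by norm_num) (h2 (mem_univ _))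
    exact ⟨_, (ENat.natCast_toNat hne).symm⟩
  have hord : ∀ s : ℂ, ∃ k : ℕ, analyticOrderAt Φ s = k ∧
      meromorphicOrderAt Φ s = (((k : ℤ) : ℤ) : WithTop ℤ) := by
    intro s
    obtain ⟨k, hk⟩ := hfin s
    refine ⟨k, hk, ?_⟩
    rw [(hΦ.analyticAt s).meromorphicOrderAt_eq, hk]
    rfl
  have hs' : ∀ t : ℝ, 1 < t → Summable fun x : T × ℕ => |(fun x => -dP α x) x| * Real.exp (-(t * LP x)) := by
    intro t ht
    simpa only [abs_neg] using hs t ht
  have hE' : ∀ s : ℂ, 1 < s.re → Φ s = cexp (Pool.Agent.W189.TP.DS (fun x : T × ℕ => -dP α x) LP s) := by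
    intro s hs
    have h1 := he s hs _ (hP s hs)
    have h2 : Pool.Agent.W189.TP.DS (fun x : T × ℕ => -dP α x) LP s =
        -Pool.Agent.W189.TP.DS (dP (T := T) α) LP s := by
      unfold Pool.Agent.W189.TP.DS
      rw [← tsum_neg]
      refine tsum_congr fun x => ?_
      push_cast
      ring
    rw [h2, Complex.exp_neg, ← h1, inv_inv]
  have hAA : ∀ u : ℝ, AA (fun x : T × ℕ => -dP α x) LP u = -AA (dP (T := T) α) LP u := by
    intro u
    unfold AA
    rw [← tsum_neg]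
    refine tsum_congr fun x => ?_
    split_ifs <;> simp
  have key := window_core (B := fun u => AA (fun x : T × ℕ => -dP α x) LP u) (c := c) (c' := (c + ρ.re) / 2)
    (by linarith) (fun lam hl hl1 => ?_) (δ := δ) (C := C) hδ
  · refine key.mono ?_
    rintro X ⟨u, h1, h2, h3, h4⟩
    refine ⟨u, h1, h2, h3, ?_⟩
    rw [hAA] at h4
    linarith
  · refine main_sum hL hs' (F := Φ) (fun s _ => (hΦ.analyticAt s).meromorphicAt) hE'
      (c := (c + ρ.re) / 2) (by linarith) ?_ ⟨ρ, by linarith, ?_⟩ hl hl1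
    · intro x hx
      obtain ⟨k, hk1, hk⟩ := hord (x : ℂ)
      rw [hk]
      have h1 : Φ x ≠ 0 := hreal x (by linarith)
      rw [← (hΦ.analyticAt (x : ℂ)).analyticOrderAt_eq_zero] at h1
      rw [h1] at hk1
      have h2 : k = 0 := by exact_mod_cast hk1.symm
      rw [h2]
      simp
    · obtain ⟨k, hk1, hk⟩ := hord ρ
      rw [hk]
      intro h
      have h1 : (k : ℤ) = 0 := by exact_mod_cast h
      have h2 : k = 0 := by omega
      rw [h2, Nat.cast_zero, (hΦ.analyticAt ρ).analyticOrderAt_eq_zero] at hk1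
      exact hk1 h0

end Pool.Agent.TH949.TX
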