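import Mathlib
import Pool.Agent.TH113.TXS_AA
import Pool.Agent.TH406.TX.USum
import Pool.Agent.TH645.TX.Parts
import Pool.Agent.TH480.TX.Prim
import Pool.Agent.TH554.TX.Ulog

/-! Tools for the summatory version of project TX (work of helpers 113, 406, 645, 480, 554). -/

set_option autoImplicit false

open Complex MeasureTheory Set Filter Topology
open Pool.Agent.W189.TP (DS)

namespace Pool.Agent.TH949.TX

/-- basic facts on the summatory function -/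
theorem t_AA {ι : Type*} [Countable ι] {d L : ι → ℝ} (hL : ∀ i, 0 ≤ L i)
    (h2 : Summable fun i => |d i| * Real.exp (-(2 * L i))) :
    Measurable (AA d L) ∧ (∀ u : ℝ, u < 0 → AA d L u = 0) ∧
    ∀ u : ℝ, |AA d L u| ≤ (∑' i, |d i| * Real.exp (-(2 * L i))) * Real.exp (2 * u) := by
  exact Pool.Agent.TH113.TXS_AA.t_AA hL h2

/-- the Gaussian line integral of `D(s) / s` -/
theorem t_usum {ι : Type*} [Countable ι] {d L : ι → ℝ} (hL : ∀ i, 0 ≤ L i) {κ : ℝ} (hκ : 0 < κ) {s : ℂ} {a : ℝ}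
    (ha : 0 < s.re + a) (hs : Summable fun i => |d i| * Real.exp (-((s.re + a) * L i))) (Y : ℝ) :
    Integrable (fun v : ℝ => DS d L (s + ((a : ℂ) + v * I)) / (s + ((a : ℂ) + v * I)) * EE κ Y a v) ∧
    ∫ v : ℝ, DS d L (s + ((a : ℂ) + v * I)) / (s + ((a : ℂ) + v * I)) * EE κ Y a v =
      2 * Real.pi * JA d L s κ Y := by
  exact Pool.Agent.TH406.TXU.t_usum hL hκ ha hs Y

/-- partial summation -/
theorem t_parts {ι : Type*} [Countable ι] {d L : ι → ℝ} (hL : ∀ i, 0 ≤ L i)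
    (h2 : Summable fun i => |d i| * Real.exp (-(2 * L i))) {s : ℂ} (hs : 0 ≤ s.re) {κ : ℝ} (hκ : 0 < κ) (Y : ℝ) :
    Integrable (fun u : ℝ => |AA d L u| * (Real.exp (-(s.re * u)) * gk κ (u - Y)) *
      ‖1 - s * u - (u : ℂ) * (u - Y) / (2 * κ)‖) ∧
    ‖JJ d L s κ Y‖ ≤ ∫ u : ℝ, |AA d L u| * (Real.exp (-(s.re * u)) * gk κ (u - Y)) *
      ‖1 - s * u - (u : ℂ) * (u - Y) / (2 * κ)‖ := by
  exact Pool.Agent.TH645.TX.t_parts hL h2 hs hκ Y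

/-- primitives -/
theorem t_prim {c c1 V : ℝ} (hc : c < c1) (hc1 : c1 < 2) (hV : 0 < V) :
    ∃ H : ℝ, V ≤ H ∧ ∀ h g : ℂ → ℂ, (∀ s ∈ Icc c 2 ×ℂ Icc (-H) H, DifferentiableAt ℂ h s) →
      (∀ s : ℂ, 1 < s.re → DifferentiableAt ℂ g s) →
      (∀ s : ℂ, 1 < s.re → s.re ≤ 2 → |s.im| ≤ H → deriv g s = h s) →
      ∃ k : ℂ → ℂ, (∀ s ∈ Icc c1 2 ×ℂ Icc (-V) V, DifferentiableAt ℂ k s) ∧
        ∀ s : ℂ, 1 < s.re → s.re ≤ 2 → |s.im| ≤ V → k s = g s := by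
  exact Pool.Agent.TH480.TX.t_prim hc hc1 hV

/-- the Gaussian line integral of `log(s - ρ) / s` -/
theorem t_ulog {η σ a x0 : ℝ} (hη : 0 < η) (hη1 : η ≤ 1 / 4) (hσ0 : 0 < σ) (hσ1 : σ < 1) (ha : a = 2 - σ)
    (hx0 : 0 < x0) (hx0σ : x0 < σ) {ρ : ℂ} (hρ : x0 ≤ ρ.re) (hρ1 : ρ.re ≤ 1) :
    (∀ Y : ℝ, 0 < Y → Integrable (fun v : ℝ => Complex.log ((σ : ℂ) + ((a : ℂ) + v * I) - ρ) /
      ((σ : ℂ) + ((a : ℂ) + v * I)) * EE (η * Y) Y a v)) ∧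
    Tendsto (fun Y : ℝ => (∫ v : ℝ, Complex.log ((σ : ℂ) + ((a : ℂ) + v * I) - ρ) /
        ((σ : ℂ) + ((a : ℂ) + v * I)) * EE (η * Y) Y a v) +
      2 * Real.pi * ∫ x in x0..ρ.re, cexp (Y * ex η (σ : ℂ) ((x : ℂ) + ρ.im * I)) / ((x : ℂ) + ρ.im * I))
      atTop (𝓝 0) := by
  exact Pool.Agent.TH554.TXU.t_ulog hη hη1 hσ0 hσ1 ha hx0 hx0σ hρ hρ1

end Pool.Agent.TH949.TX
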