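import Mathlib
import Pool.Agent.TH949.TX.Tools2
import Pool.Agent.TH949.TX.Sing

/-! The summatory function at a real base point. -/

set_option autoImplicit false

open Complex MeasureTheory Set Filter Topology
open Pool.Agent.W189.TP (DS DS_diff DS_norm_le summ_mono)

namespace Pool.Agent.TH949.TX

theorem norm_clog_le {z : ℂ} (hz : 1 ≤ ‖z‖) : ‖Complex.log z‖ ≤ ‖z‖ + Real.pi := by
  refine (Complex.norm_le_abs_re_add_abs_im _).trans ?_
  rw [Complex.log_re, Complex.log_im]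
  have h1 : 0 ≤ Real.log ‖z‖ := Real.log_nonneg hz
  rw [abs_of_nonneg h1]
  have h2 : Real.log ‖z‖ ≤ ‖z‖ := (Real.log_le_sub_one_of_pos (by linarith)).trans (by linarith)
  exact add_le_add h2 (Complex.abs_arg_le_pi z)

/-- the sum of the logarithms -/
noncomputable def PL (Z : Finset ℂ) (m : ℂ → ℤ) (s : ℂ) : ℂ := ∑ ρ ∈ Z, (m ρ : ℂ) * Complex.log (s - ρ)

theorem PL_diff {Z : Finset ℂ} {m : ℂ → ℤ} (hZ : ∀ ρ ∈ Z, ρ.re ≤ 1) {s : ℂ} (hs : 1 < s.re) :
    HasDerivAt (PL Z m) (∑ ρ ∈ Z, (m ρ : ℂ) / (s - ρ)) s := by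
  unfold PL
  refine HasDerivAt.fun_sum fun ρ hρ => ?_
  have h1 : s - ρ ∈ Complex.slitPlane := by
    refine Or.inl ?_
    rw [Complex.sub_re]
    linarith [hZ ρ hρ]
  have h2 := ((hasDerivAt_id s).sub_const ρ).clog h1
  have h3 := h2.const_mul (m ρ : ℂ)
  simp only [id] at h3
  rw [← mul_one_div]
  exact h3

/-- the integral along the horizontal segment ending at a singularity which is not real -/
theorem seg_small {η σ x0 : ℝ} (hη : 0 < η) (hη1 : η ≤ 1 / 4) (hσ1 : σ < 1) (hσ0 : 0 < σ)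
    (hx0 : 0 < x0) {ρ : ℂ} (hρ : x0 ≤ ρ.re)
    (hc : (ex η (σ : ℂ) ρ).re < 0) :
    Tendsto (fun Y : ℝ => ∫ x in x0..ρ.re, cexp (Y * ex η (σ : ℂ) ((x : ℂ) + ρ.im * I)) / ((x : ℂ) + ρ.im * I))
      atTop (𝓝 0) := by
  have h1 : Tendsto (fun Y : ℝ => Real.exp (Y * (ex η (σ : ℂ) ρ).re) / x0 * |ρ.re - x0|) atTop (𝓝 0) := by
    simpa using ((tend_neg hc).div_const x0).mul_const |ρ.re - x0|
  refine squeeze_zero_norm' ?_ h1
  filter_upwards [eventually_ge_atTop 0] with Y hY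
  refine intervalIntegral.norm_integral_le_of_norm_le_const fun x hx => ?_
  rw [uIoc_of_le hρ] at hx
  have hxp : 0 < x := hx0.trans hx.1
  rw [norm_div, Complex.norm_exp, Complex.re_ofReal_mul]
  have h2 : x0 ≤ ‖(x : ℂ) + ρ.im * I‖ := by
    have h3 := Complex.re_le_norm ((x : ℂ) + ρ.im * I)
    have h4 : ((x : ℂ) + ρ.im * I).re = x := by simp
    rw [h4] at h3
    linarith [hx.1]
  have h5 : (ex η (σ : ℂ) ((x : ℂ) + ρ.im * I)).re ≤ (ex η (σ : ℂ) ρ).re := by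
    rw [ex_re, ex_re]
    simp only [Complex.add_re, Complex.ofReal_re, Complex.mul_re, Complex.I_re, mul_zero, Complex.ofReal_im,
      Complex.I_im, mul_one, sub_self, add_zero, Complex.add_im, Complex.mul_im, zero_add, sub_zero]
    have h6 : x ≤ ρ.re := hx.2
    have h7 : 0 ≤ (ρ.re - x) * (η * (ρ.re + x - 2 * σ) + 1) := by
      refine mul_nonneg (by linarith) ?_
      nlinarith
    nlinarith
  gcongr

theorem seg_real {η σ x0 Y : ℝ} (hx0 : 0 < x0) {ρ : ℂ} (hρ : x0 ≤ ρ.re) (him : ρ.im = 0) :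
    ∃ r : ℝ, 0 ≤ r ∧
      ∫ x in x0..ρ.re, cexp (Y * ex η (σ : ℂ) ((x : ℂ) + ρ.im * I)) / ((x : ℂ) + ρ.im * I) = (r : ℂ) := by
  refine ⟨∫ x in x0..ρ.re, Real.exp (Y * (η * (x - σ) ^ 2 + (x - σ))) / x, ?_, ?_⟩
  · refine intervalIntegral.integral_nonneg hρ fun x hx => ?_
    have : 0 < x := hx0.trans_le hx.1
    positivity
  · rw [← intervalIntegral.integral_ofReal]
    refine intervalIntegral.integral_congr fun x _ => ?_
    rw [him]
    unfold ex
    push_cast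
    simp

/-- at a real base point to the right of all complex singularities, the summatory function has a nonnegative
average, if all real singularities are poles -/
theorem JA_real {ι : Type*} [Countable ι] {d L : ι → ℝ} (hL : ∀ i, 0 ≤ L i)
    (habs : ∀ t : ℝ, 1 < t → Summable fun i => |d i| * Real.exp (-(t * L i)))
    {x0 c1 σ η V : ℝ} (hx0 : 0 < x0) (hx0c : x0 < c1) (hc1σ : c1 < σ) (hσ1 : σ < 1)
    {Z : Finset ℂ} {m : ℂ → ℤ} (hZ : ∀ ρ ∈ Z, x0 ≤ ρ.re ∧ ρ.re ≤ 1)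
    {k : ℂ → ℂ} (hk : ∀ s ∈ Icc c1 2 ×ℂ Icc (-V) V, DifferentiableAt ℂ k s)
    (hkg : ∀ s : ℂ, 1 < s.re → s.re ≤ 2 → |s.im| ≤ V → k s = PL Z m s - DS d L s)
    (hη : 0 < η) (hη1 : η ≤ 1 / 4) (hV : 4 + 3 / η ≤ V ^ 2) (hV0 : 0 < V)
    (hr : ∀ ρ ∈ Z, ρ.im = 0 → m ρ < 0)
    (hc : ∀ ρ ∈ Z, ρ.im ≠ 0 → (ex η (σ : ℂ) ρ).re < 0) {ε : ℝ} (hε : 0 < ε) :
    ∀ᶠ Y : ℝ in atTop, -ε ≤ (JA d L (σ : ℂ) (η * Y) Y).re := by
  classical
  have hσ0 : 0 < σ := by linarith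
  set a : ℝ := 2 - σ with ha
  set b : ℝ := c1 - σ with hb
  have ha1 : 1 < a := by rw [ha]; linarith
  have ha2 : a < 2 := by rw [ha]; linarith
  have hb0 : b < 0 := by rw [hb]; linarith
  have hb1 : -1 < b := by rw [hb]; linarith
  have h2 := habs 2 (by norm_num)
  set sv : ℝ → ℂ := fun v => (σ : ℂ) + ((a : ℂ) + v * I) with hsv
  have hre : ∀ v : ℝ, (sv v).re = 2 := by
    intro v
    simp [hsv, ha]
  have him : ∀ v : ℝ, (sv v).im = v := by
    intro v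
    simp [hsv]
  have hsv2 : ∀ v : ℝ, 2 ≤ ‖sv v‖ := fun v => by
    have := Complex.re_le_norm (sv v)
    rw [hre] at this
    exact this
  have hsv0 : ∀ v : ℝ, sv v ≠ 0 := fun v h => by
    have := hsv2 v
    rw [h, norm_zero] at this
    linarith
  have hsvc : Continuous sv := by
    rw [hsv]
    fun_prop
  have hZ1 : ∀ ρ ∈ Z, ρ.re ≤ 1 := fun ρ hρ => (hZ ρ hρ).2
  set g : ℂ → ℂ := fun s => PL Z m s - DS d L s with hg
  have hgd : DifferentiableOn ℂ g {s : ℂ | 1 < s.re} := by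
    refine DifferentiableOn.sub (fun s hs => ?_) (DS_diff hL habs)
    exact (PL_diff hZ1 hs).differentiableAt.differentiableWithinAt
  set k1 : ℝ → ℂ := fun v => g (sv v) / sv v with hk1
  have hk1c : Continuous k1 := by
    refine Continuous.div ?_ hsvc hsv0
    refine hgd.continuousOn.comp_continuous hsvc fun v => ?_
    show 1 < (sv v).re
    rw [hre]
    norm_num
  set B0 : ℝ := ∑' i, |d i| * Real.exp (-(2 * L i)) with hB0
  have hB0n : 0 ≤ B0 := tsum_nonneg fun i => by positivity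
  have hlog : ∀ ρ ∈ Z, ∀ v : ℝ, ‖Complex.log (sv v - ρ)‖ ≤ ‖sv v‖ + ‖ρ‖ + Real.pi := by
    intro ρ hρ v
    have h3 : 1 ≤ ‖sv v - ρ‖ := by
      refine le_trans ?_ (Complex.re_le_norm _)
      rw [Complex.sub_re, hre]
      linarith [hZ1 ρ hρ]
    refine (norm_clog_le h3).trans ?_
    have := norm_sub_le (sv v) ρ
    linarith
  have hk1b : ∀ v, ‖k1 v‖ ≤ (∑ ρ ∈ Z, |(m ρ : ℝ)| * (1 + ‖ρ‖ + Real.pi)) + B0 := by
    intro v
    have hpos : 0 < ‖sv v‖ := by linarith [hsv2 v]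
    rw [hk1]
    simp only
    rw [norm_div, div_le_iff₀ hpos, hg]
    simp only
    refine (norm_sub_le _ _).trans ?_
    have e1 : ‖PL Z m (sv v)‖ ≤ (∑ ρ ∈ Z, |(m ρ : ℝ)| * (1 + ‖ρ‖ + Real.pi)) * ‖sv v‖ := by
      unfold PL
      rw [Finset.sum_mul]
      refine (norm_sum_le _ _).trans (Finset.sum_le_sum fun ρ hρ => ?_)
      rw [norm_mul, Complex.norm_intCast, mul_assoc]
      refine mul_le_mul_of_nonneg_left ((hlog ρ hρ v).trans ?_) (abs_nonneg _)
      have hpi := Real.pi_pos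
      have := norm_nonneg ρ
      nlinarith [hsv2 v]
    have e2 : ‖DS d L (sv v)‖ ≤ B0 := by
      have := DS_norm_le (d := d) (L := L) (s := sv v) (by rw [hre]; exact h2)
      rw [hre] at this
      exact this
    have e3 : B0 ≤ B0 * ‖sv v‖ := by nlinarith [hsv2 v]
    rw [add_mul]
    linarith
  have hshift := t_shift (k1 := k1) (k := fun w => k ((σ : ℂ) + w) / ((σ : ℂ) + w)) (a := a) (b := b) (V := V)
    (η := η) (B := (∑ ρ ∈ Z, |(m ρ : ℝ)| * (1 + ‖ρ‖ + Real.pi)) + B0) hη (by linarith) hV0 (by nlinarith) (by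
      have h3 : max (a ^ 2) (b ^ 2) ≤ 4 := by
        refine max_le (by nlinarith) (by nlinarith)
      have h4 : η * (4 + 3 / η) = 4 * η + 3 := by field_simp
      have h5 : η * (4 + 3 / η) ≤ η * V ^ 2 := mul_le_mul_of_nonneg_left hV hη.le
      nlinarith) hk1c hk1b
    (by
      intro w hw
      obtain ⟨⟨hw1, hw2⟩, hw3, hw4⟩ := Complex.mem_reProdIm.1 hw
      have h1 : DifferentiableAt ℂ k ((σ : ℂ) + w) := by
        refine hk _ (Complex.mem_reProdIm.2 ⟨⟨?_, ?_⟩, ?_, ?_⟩)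
        · rw [Complex.add_re, Complex.ofReal_re]; linarith
        · rw [Complex.add_re, Complex.ofReal_re]; linarith
        · rw [Complex.add_im, Complex.ofReal_im, zero_add]
          exact hw3
        · rw [Complex.add_im, Complex.ofReal_im, zero_add]
          exact hw4
      have h3 : (σ : ℂ) + w ≠ 0 := by
        intro h0
        have h4 := congrArg Complex.re h0
        rw [Complex.add_re, Complex.ofReal_re, Complex.zero_re] at h4
        linarith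
      exact (h1.comp w ((differentiableAt_const _).add differentiableAt_id)).div
        ((differentiableAt_const _).add differentiableAt_id) h3) (by
      intro v hv
      have h3 := hkg (sv v) (by rw [hre]; norm_num) (by rw [hre]) (by
        rw [him]
        exact abs_le.2 ⟨hv.1, hv.2⟩)
      show k (sv v) / sv v = k1 v
      rw [h3])
  -- the transforms of the logarithms
  have hT : ∀ ρ ∈ Z, _ := fun ρ hρ => t_ulog (η := η) (σ := σ) (a := a) (x0 := x0) hη hη1 hσ0 hσ1 ha hx0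
    (by linarith) (hZ ρ hρ).1 (hZ ρ hρ).2
  set T : ℂ → ℝ → ℂ := fun ρ Y => ∫ v : ℝ, Complex.log ((σ : ℂ) + ((a : ℂ) + v * I) - ρ) /
        ((σ : ℂ) + ((a : ℂ) + v * I)) * EE (η * Y) Y a v with hTdef
  set Ig : ℂ → ℝ → ℂ := fun ρ Y => ∫ x in x0..ρ.re, cexp (Y * ex η (σ : ℂ) ((x : ℂ) + ρ.im * I)) /
      ((x : ℂ) + ρ.im * I) with hIg
  have key : ∀ Y : ℝ, 0 < Y → 2 * Real.pi * JA d L (σ : ℂ) (η * Y) Y =
      ∑ ρ ∈ Z, (m ρ : ℂ) * T ρ Y - ∫ v : ℝ, k1 v * EE (η * Y) Y a v := by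
    intro Y hY
    have hu := t_usum hL (κ := η * Y) (by positivity) (s := (σ : ℂ)) (a := a) (by
      rw [Complex.ofReal_re, ha]; norm_num) (by
      rw [Complex.ofReal_re, ha, add_sub_cancel]
      exact h2) Y
    have hi : ∀ ρ ∈ Z, Integrable fun v : ℝ => (m ρ : ℂ) * (Complex.log (sv v - ρ) / sv v * EE (η * Y) Y a v) :=
      fun ρ hρ => ((hT ρ hρ).1 Y hY).const_mul _
    have e1 : ∀ v : ℝ, k1 v * EE (η * Y) Y a v = ∑ ρ ∈ Z, (m ρ : ℂ) * (Complex.log (sv v - ρ) / sv v *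
        EE (η * Y) Y a v) - DS d L (sv v) / sv v * EE (η * Y) Y a v := by
      intro v
      rw [hk1, hg]
      simp only
      unfold PL
      rw [sub_div, sub_mul, Finset.sum_div, Finset.sum_mul]
      congr 1
      refine Finset.sum_congr rfl fun ρ _ => ?_
      ring
    rw [← hu.2, integral_congr_ae (Eventually.of_forall e1), integral_sub (integrable_finsetSum _ hi) hu.1,
      integral_finsetSum _ hi]
    simp_rw [integral_const_mul]
    rw [hTdef, hsv]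
    simp only
    ring
  -- the error
  set err : ℝ → ℝ := fun Y => ∑ ρ ∈ Z, |(m ρ : ℝ)| * ‖T ρ Y + 2 * Real.pi * Ig ρ Y‖ +
    ∑ ρ ∈ Z, (if ρ.im = 0 then 0 else 2 * Real.pi * |(m ρ : ℝ)| * ‖Ig ρ Y‖) +
    ‖∫ v : ℝ, k1 v * EE (η * Y) Y a v‖ with herr
  have herr0 : Tendsto err atTop (𝓝 0) := by
    have l1 : Tendsto (fun Y : ℝ => ∑ ρ ∈ Z, |(m ρ : ℝ)| * ‖T ρ Y + 2 * Real.pi * Ig ρ Y‖) atTop (𝓝 0) := by
      have : Tendsto (fun Y : ℝ => ∑ ρ ∈ Z, |(m ρ : ℝ)| * ‖T ρ Y + 2 * Real.pi * Ig ρ Y‖) atTop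
          (𝓝 (∑ ρ ∈ Z, 0)) := by
        refine tendsto_finsetSum Z fun ρ hρ => ?_
        simpa using ((hT ρ hρ).2.norm).const_mul |(m ρ : ℝ)|
      simpa using this
    have l2 : Tendsto (fun Y : ℝ => ∑ ρ ∈ Z, (if ρ.im = 0 then 0 else 2 * Real.pi * |(m ρ : ℝ)| * ‖Ig ρ Y‖))
        atTop (𝓝 0) := by
      have : Tendsto (fun Y : ℝ => ∑ ρ ∈ Z, (if ρ.im = 0 then 0 else 2 * Real.pi * |(m ρ : ℝ)| * ‖Ig ρ Y‖))
          atTop (𝓝 (∑ ρ ∈ Z, 0)) := by
        refine tendsto_finsetSum Z fun ρ hρ => ?_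
        split_ifs with h
        · exact tendsto_const_nhds
        · have h3 := seg_small hη hη1 hσ1 hσ0 hx0 (hZ ρ hρ).1 (hc ρ hρ h)
          simpa using (h3.norm).const_mul (2 * Real.pi * |(m ρ : ℝ)|)
      simpa using this
    have l3 := hshift.norm
    rw [norm_zero] at l3
    simpa using (l1.add l2).add l3
  filter_upwards [herr0.eventually (gt_mem_nhds hε), eventually_gt_atTop 0] with Y hY hY0
  have h3 := key Y hY0
  have h4 : (2 * Real.pi * JA d L (σ : ℂ) (η * Y) Y).re = 2 * Real.pi * (JA d L (σ : ℂ) (η * Y) Y).re := by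
    rw [show (2 * (Real.pi : ℂ) * JA d L (σ : ℂ) (η * Y) Y) = ((2 * Real.pi : ℝ) : ℂ) * JA d L (σ : ℂ) (η * Y) Y by
      push_cast; ring, Complex.re_ofReal_mul]
  rw [h3, Complex.sub_re, Complex.re_sum] at h4
  have h5 : ∀ ρ ∈ Z, -(|(m ρ : ℝ)| * ‖T ρ Y + 2 * Real.pi * Ig ρ Y‖) -
      (if ρ.im = 0 then 0 else 2 * Real.pi * |(m ρ : ℝ)| * ‖Ig ρ Y‖) ≤ ((m ρ : ℂ) * T ρ Y).re := by
    intro ρ hρ
    have e1 : (m ρ : ℂ) * T ρ Y = (m ρ : ℂ) * (T ρ Y + 2 * Real.pi * Ig ρ Y) -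
        (m ρ : ℂ) * (2 * Real.pi * Ig ρ Y) := by ring
    rw [e1, Complex.sub_re]
    have e2 : -(|(m ρ : ℝ)| * ‖T ρ Y + 2 * Real.pi * Ig ρ Y‖) ≤
        ((m ρ : ℂ) * (T ρ Y + 2 * Real.pi * Ig ρ Y)).re := by
      have := Complex.abs_re_le_norm ((m ρ : ℂ) * (T ρ Y + 2 * Real.pi * Ig ρ Y))
      rw [norm_mul, Complex.norm_intCast] at this
      exact (abs_le.1 this).1
    have e3 : ((m ρ : ℂ) * (2 * Real.pi * Ig ρ Y)).re ≤
        (if ρ.im = 0 then 0 else 2 * Real.pi * |(m ρ : ℝ)| * ‖Ig ρ Y‖) := by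
      split_ifs with h
      · obtain ⟨r, hr0, hr1⟩ := seg_real (η := η) (σ := σ) (Y := Y) hx0 (hZ ρ hρ).1 h
        have e4 : Ig ρ Y = (r : ℂ) := hr1
        rw [e4]
        have e5 : ((m ρ : ℂ) * (2 * Real.pi * (r : ℂ))).re = (m ρ : ℝ) * (2 * Real.pi * r) := by
          rw [show ((m ρ : ℂ) * (2 * (Real.pi : ℂ) * (r : ℂ))) = (((m ρ : ℝ) * (2 * Real.pi * r) : ℝ) : ℂ) by
            push_cast; ring, Complex.ofReal_re]
        rw [e5]
        have e6 : (m ρ : ℝ) < 0 := by exact_mod_cast hr ρ hρ h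
        have e7 : 0 ≤ 2 * Real.pi * r := by
          have := Real.pi_pos
          positivity
        nlinarith
      · refine (Complex.re_le_norm _).trans (le_of_eq ?_)
        rw [norm_mul, norm_mul, norm_mul, Complex.norm_intCast, Complex.norm_real, Real.norm_of_nonneg Real.pi_pos.le]
        simp
        ring
    linarith
  have h6 := Finset.sum_le_sum h5
  rw [Finset.sum_sub_distrib, Finset.sum_neg_distrib] at h6
  have h7 : -‖∫ v : ℝ, k1 v * EE (η * Y) Y a v‖ ≤ -(∫ v : ℝ, k1 v * EE (η * Y) Y a v).re :=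
    neg_le_neg (Complex.re_le_norm _)
  have h8 : -ε < 2 * Real.pi * (JA d L (σ : ℂ) (η * Y) Y).re := by
    rw [← h4]
    have : err Y < ε := hY
    rw [herr] at this
    simp only at this
    linarith
  have hpi := Real.pi_gt_three
  by_contra hcon
  push Not at hcon
  nlinarith

end Pool.Agent.TH949.TX
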