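import Pool.Agent.TH949.TX.ESum
import Pool.Agent.TH574.TX.Koksma
import Pool.Agent.TH150.TX.Koksma1
import Pool.Agent.TH81.J4043

/-! The discrepancy of sequences of angles attached to the primes on one sequence of windows. -/

set_option autoImplicit false

open Complex MeasureTheory Set Filter Topology

namespace Pool.Agent.TH949.TX

/-- the parameters of the symmetric power `m`, for the sequence of angles `π x_k`, `k` = number of the
primes smaller than `p` -/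
noncomputable def al (x : ℕ → ℝ) (m : ℕ) (p : ℕ) (i : Fin (m + 1)) : ℂ :=
  cexp ((((((m : ℝ) - 2 * (i : ℕ)) * (Real.pi * x (Nat.count Nat.Prime p)) : ℝ)) : ℂ) * I)

theorem al_norm (x : ℕ → ℝ) (m p : ℕ) (i : Fin (m + 1)) : ‖al x m p i‖ = 1 := by
  unfold al
  exact Complex.norm_exp_ofReal_mul_I _

theorem al_pow (x : ℕ → ℝ) (m p : ℕ) (i : Fin (m + 1)) (k : ℕ) :
    al x m p i ^ (k + 1) =
      cexp (((((k : ℝ) + 1) * (((m : ℝ) - 2 * (i : ℕ)) * (Real.pi * x (Nat.count Nat.Prime p))) : ℝ) : ℂ) * I) := by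
  unfold al
  rw [← Complex.exp_nat_mul]
  congr 1
  push_cast
  ring

theorem al_im (x : ℕ → ℝ) (m p k : ℕ) : (∑ i, al x m p i ^ (k + 1)).im = 0 := by
  rw [Complex.im_sum]
  have h1 : ∀ i : Fin (m + 1), (al x m p i ^ (k + 1)).im =
      Real.sin (((k : ℝ) + 1) * (((m : ℝ) - 2 * (i : ℕ)) * (Real.pi * x (Nat.count Nat.Prime p)))) := by
    intro i
    rw [al_pow, Complex.exp_ofReal_mul_I_im]
  have h2 : ∑ i, (al x m p i ^ (k + 1)).im = - ∑ i, (al x m p i ^ (k + 1)).im := by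
    conv_lhs => rw [← Equiv.sum_comp Fin.revPerm]
    rw [← Finset.sum_neg_distrib]
    refine Finset.sum_congr rfl fun i _ => ?_
    rw [h1, h1, ← Real.sin_neg]
    congr 1
    have : ((Fin.revPerm i : Fin (m + 1)) : ℕ) = m - (i : ℕ) := by
      rw [Fin.revPerm_apply, Fin.val_rev]
      omega
    rw [this, Nat.cast_sub (by omega)]
    ring
  linarith

theorem al_re (x : ℕ → ℝ) (m p : ℕ) : (∑ i, al x m p i).re =
    ∑ i ∈ Finset.range (m + 1), Real.cos ((((m : ℝ) - 2 * i)) * (Real.pi * x (Nat.count Nat.Prime p))) := by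
  rw [Complex.re_sum, Finset.sum_range]
  refine Finset.sum_congr rfl fun i _ => ?_
  unfold al
  rw [Complex.exp_ofReal_mul_I_re]

open Classical in
/-- sums over the primes up to `N` and over their indices -/
theorem sum_index (f : ℕ → ℝ) (N : ℕ) :
    ∑ p ∈ (Finset.range N).filter Nat.Prime, f (Nat.count Nat.Prime p) =
      ∑ k ∈ Finset.range (Nat.count Nat.Prime N), f k := by
  refine Finset.sum_nbij' (fun p => Nat.count Nat.Prime p) (fun k => Nat.nth Nat.Prime k) ?_ ?_ ?_ ?_ ?_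
  · intro p hp
    rw [Finset.mem_filter, Finset.mem_range] at hp
    rw [Finset.mem_range]
    exact Nat.count_strict_mono hp.2 hp.1
  · intro k hk
    rw [Finset.mem_range] at hk
    rw [Finset.mem_filter, Finset.mem_range]
    exact ⟨Nat.nth_lt_of_lt_count hk, Nat.prime_nth_prime k⟩
  · intro p hp
    rw [Finset.mem_filter] at hp
    exact Nat.nth_count hp.2
  · intro k _
    exact Nat.count_nth_of_infinite Nat.infinite_setOfPred_prime k
  · intro p _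
    rfl

open Classical in
/-- the sum over the primes in `T` and over all indices -/
theorem sum_T {T : Set ℕ} (hT : ∀ p ∈ T, p.Prime) (hfin : {p : ℕ | p.Prime ∧ p ∉ T}.Finite) (f : ℕ → ℝ) {M : ℝ}
    (hM : ∀ k, |f k| ≤ M) : ∃ B : ℝ, 0 ≤ B ∧ ∀ N : ℕ,
      |∑ p ∈ (Finset.range N).filter (fun p => p ∈ T), f (Nat.count Nat.Prime p) -
        ∑ k ∈ Finset.range (Nat.count Nat.Prime N), f k| ≤ B := by
  have hM0 : 0 ≤ M := (abs_nonneg _).trans (hM 0)
  refine ⟨hfin.toFinset.card * M, by positivity, fun N => ?_⟩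
  rw [← sum_index f N]
  have h1 : ∑ p ∈ (Finset.range N).filter Nat.Prime, f (Nat.count Nat.Prime p) =
      ∑ p ∈ (Finset.range N).filter (fun p => p ∈ T), f (Nat.count Nat.Prime p) +
      ∑ p ∈ (Finset.range N).filter (fun p => p.Prime ∧ p ∉ T), f (Nat.count Nat.Prime p) := by
    rw [← Finset.sum_union]
    · refine Finset.sum_congr ?_ fun _ _ => rfl
      ext p
      simp only [Finset.mem_filter, Finset.mem_union]
      constructor
      · rintro ⟨h1, h2⟩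
        by_cases h3 : p ∈ T
        · exact Or.inl ⟨h1, h3⟩
        · exact Or.inr ⟨h1, h2, h3⟩
      · rintro (⟨h1, h2⟩ | ⟨h1, h2, -⟩)
        · exact ⟨h1, hT p h2⟩
        · exact ⟨h1, h2⟩
    · rw [Finset.disjoint_left]
      intro p h1 h2
      rw [Finset.mem_filter] at h1 h2
      exact h2.2.2 h1.2
  rw [h1, sub_add_eq_sub_sub, sub_self, zero_sub, abs_neg]
  refine (Finset.abs_sum_le_sum_abs _ _).trans ?_
  have h2 : ∑ p ∈ (Finset.range N).filter (fun p => p.Prime ∧ p ∉ T), |f (Nat.count Nat.Prime p)| ≤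
      ∑ p ∈ (Finset.range N).filter (fun p => p.Prime ∧ p ∉ T), M :=
    Finset.sum_le_sum fun p _ => hM _
  rw [Finset.sum_const, nsmul_eq_mul] at h2
  refine h2.trans ?_
  refine mul_le_mul_of_nonneg_right ?_ hM0
  have : ((Finset.range N).filter (fun p => p.Prime ∧ p ∉ T)) ⊆ hfin.toFinset := by
    intro p hp
    rw [Finset.mem_filter] at hp
    rw [Set.Finite.mem_toFinset]
    exact hp.2
  exact_mod_cast Finset.card_le_card this

/-- from windows for the index to windows for the prime -/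
theorem index_windows {δ : ℝ} (hδ : 0 < δ) (hδ1 : δ ≤ 1) {P : ℕ → Prop}
    (h : ∃ᶠ Z : ℕ in atTop, ∀ K : ℕ, (Z : ℝ) ^ (1 - δ) ≤ K → K ≤ Z → P K) :
    ∃ᶠ X : ℝ in atTop, ∀ x : ℝ, X ^ (1 - δ / 2) ≤ x → x ≤ X → P (Nat.count Nat.Prime (⌊x⌋₊ + 1)) := by
  have h1 := Pool.Agent.TH81.J4043.t_pi (δ / 2) (by positivity)
  rw [eventually_atTop] at h1
  obtain ⟨x0, hx0⟩ := h1
  rw [Filter.frequently_atTop] at h ⊢
  intro A
  have h2 : Tendsto (fun Z : ℕ => (Z : ℝ) ^ (1 - δ / 2)) atTop atTop :=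
    (tendsto_rpow_atTop (by linarith)).comp tendsto_natCast_atTop_atTop
  obtain ⟨Z0, hZ0⟩ := eventually_atTop.1 (h2.eventually (eventually_ge_atTop x0))
  obtain ⟨Z, hZ, hP⟩ := h (max (max Z0 1) ⌈A⌉₊)
  have hZ1 : 1 ≤ Z := le_trans (le_trans (le_max_right _ _) (le_max_left _ _)) hZ
  have hZ1r : (1 : ℝ) ≤ Z := by exact_mod_cast hZ1
  have hZZ : Z0 ≤ Z := le_trans (le_trans (le_max_left _ _) (le_max_left _ _)) hZ
  have hn := Nat.add_two_le_nth_prime Z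
  have hnr : (Z : ℝ) + 2 ≤ (Nat.nth Nat.Prime Z : ℝ) := by exact_mod_cast hn
  have hA : A ≤ Z := (Nat.le_ceil A).trans (by exact_mod_cast le_trans (le_max_right _ _) hZ)
  set X : ℝ := (Nat.nth Nat.Prime Z : ℝ) - 1 with hX
  have hXZ : (Z : ℝ) ≤ X := by rw [hX]; linarith
  refine ⟨X, by linarith, fun x hx1 hx2 => ?_⟩
  have hx3 : (Z : ℝ) ^ (1 - δ / 2) ≤ x := (Real.rpow_le_rpow (by positivity) hXZ (by linarith)).trans hx1
  have hx1' : (1 : ℝ) ≤ x := (Real.one_le_rpow hZ1r (by linarith)).trans hx3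
  apply hP
  · have k1 := hx0 x ((hZ0 Z hZZ).trans hx3)
    have k2 : ((Nat.count Nat.Prime (⌊x⌋₊ + 1) : ℕ) : ℝ) = (Nat.primeCounting ⌊x⌋₊ : ℝ) := rfl
    rw [k2]
    refine le_trans ?_ k1
    have k3 : ((Z : ℝ) ^ (1 - δ / 2)) ^ (1 - δ / 2) ≤ x ^ (1 - δ / 2) :=
      Real.rpow_le_rpow (by positivity) hx3 (by linarith)
    refine le_trans ?_ k3
    rw [← Real.rpow_mul (by positivity)]
    refine Real.rpow_le_rpow_of_exponent_le hZ1r ?_
    nlinarith [sq_nonneg δ]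
  · have k1 : ⌊x⌋₊ + 1 ≤ Nat.nth Nat.Prime Z := by
      have e1 : (⌊x⌋₊ : ℝ) ≤ x := Nat.floor_le (by linarith)
      have e2 : (⌊x⌋₊ : ℝ) + 1 ≤ (Nat.nth Nat.Prime Z : ℝ) := by rw [hX] at hx2; linarith
      exact_mod_cast e2
    refine (Nat.count_monotone Nat.Prime k1).trans ?_
    rw [Nat.count_nth_of_infinite Nat.infinite_setOfPred_prime]

theorem count_le_x {x : ℝ} (hx : 0 ≤ x) : ((Nat.count Nat.Prime (⌊x⌋₊ + 1) : ℕ) : ℝ) ≤ x := by
  have h1 : Nat.count Nat.Prime (⌊x⌋₊ + 1) ≤ ⌊x⌋₊ := by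
    have h2 : Nat.count Nat.Prime (⌊x⌋₊ + 1) = Nat.count Nat.Prime 1 +
        Nat.count (fun k => Nat.Prime (1 + k)) ⌊x⌋₊ := by
      rw [add_comm ⌊x⌋₊ 1, Nat.count_add]
    have h3 : Nat.count Nat.Prime 1 = 0 := by
      rw [Nat.count_succ]
      simp [Nat.not_prime_zero]
    rw [h2, h3, zero_add]
    exact Nat.count_le _
  have h4 : (⌊x⌋₊ : ℝ) ≤ x := Nat.floor_le hx
  have h5 : ((Nat.count Nat.Prime (⌊x⌋₊ + 1) : ℕ) : ℝ) ≤ (⌊x⌋₊ : ℝ) := by exact_mod_cast h1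
  exact h5.trans h4

/-- the distribution function of the Sato-Tate measure -/
noncomputable def sF (w : ℝ) : ℝ := w - Real.sin (2 * Real.pi * w) / (2 * Real.pi)

open Classical in
/-- the number of `k < K` with `x k < w` -/
noncomputable def cnt (x : ℕ → ℝ) (w : ℝ) (K : ℕ) : ℕ := ((Finset.range K).filter (fun k => x k < w)).card

/-- **Main theorem, one-sided**, the standard representation. -/
theorem st_one {T : Set ℕ} (hT : ∀ p ∈ T, p.Prime) (hfin : {p : ℕ | p.Prime ∧ p ∉ T}.Finite)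
    {x : ℕ → ℝ} (hx : ∀ k, 0 ≤ x k ∧ x k ≤ 1) {Φ : ℂ → ℂ} (hΦ : Differentiable ℂ Φ)
    (hP : ∀ s : ℂ, 1 < s.re →
      HasProd (fun p : T => ∏ i, (1 - al x 1 (p : ℕ) i * ((p : ℕ) : ℂ) ^ (-s))⁻¹) (Φ s))
    {c : ℝ} (hc : 1 / 2 ≤ c) {δ C : ℝ} (hδ : 0 < δ)
    (hW : ∃ᶠ Z : ℕ in atTop, ∀ K : ℕ, (Z : ℝ) ^ (1 - δ) ≤ K → K ≤ Z → ∀ w : ℝ, 0 ≤ w → w ≤ 1 →
      -(C * (K : ℝ) ^ c) ≤ cnt x w K - K * sF w)
    {ρ : ℂ} (hρ : c < ρ.re) : Φ ρ ≠ 0 := by
  classical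
  set δ1 : ℝ := min δ 1 with hδ1
  have hd0 : 0 < δ1 := by rw [hδ1]; positivity
  have hd1 : δ1 ≤ 1 := min_le_right _ _
  have hW1 : ∃ᶠ Z : ℕ in atTop, ∀ K : ℕ, (Z : ℝ) ^ (1 - δ1) ≤ K → K ≤ Z → ∀ w : ℝ, 0 ≤ w → w ≤ 1 →
      -(C * (K : ℝ) ^ c) ≤ cnt x w K - K * sF w := by
    refine (hW.and_eventually (eventually_ge_atTop 1)).mono ?_
    rintro Z ⟨h, hZ⟩ K hK1 hK2
    refine h K (le_trans ?_ hK1) hK2
    refine Real.rpow_le_rpow_of_exponent_le (by exact_mod_cast hZ) ?_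
    have := min_le_left δ 1
    linarith
  have hW2 := index_windows hd0 hd1 hW1
  obtain ⟨B, hB0, hB⟩ := sum_T hT hfin (fun k => ∑ i ∈ Finset.range (1 + 1),
    Real.cos ((((1 : ℕ) : ℝ) - 2 * i) * (Real.pi * x k))) (M := 2) (by
      intro k
      refine (Finset.abs_sum_le_sum_abs _ _).trans ?_
      refine (Finset.sum_le_sum fun i _ => Real.abs_cos_le_one _).trans ?_
      simp)
  refine zero_free_trace hT (fun p _ i => (al_norm x 1 p i).le) (fun p _ k => al_im x 1 p k) hΦ hP hc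
    (δ := δ1 / 2) (C := 4 * |C| + B) (by positivity) ?_ hρ
  refine (hW2.and_eventually (eventually_ge_atTop 1)).mono ?_
  rintro X ⟨hX, hX1⟩ y hy1 hy2
  have hy3 : 1 ≤ y := (Real.one_le_rpow hX1 (by linarith)).trans hy1
  have h1 := hX y hy1 hy2
  set K : ℕ := Nat.count Nat.Prime (⌊y⌋₊ + 1) with hK
  have h2 := (abs_le.1 (hB (⌊y⌋₊ + 1))).1
  simp only [al_re]
  have h3 := Pool.Agent.TH150.TX.t_koksma1 (Finset.range K) x (fun j _ => hx j) (C * (K : ℝ) ^ c) (by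
    intro w hw0 hw1
    have := h1 w hw0 hw1
    rw [Finset.card_range]
    exact this)
  have h4 : ∑ j ∈ Finset.range K, 2 * Real.cos (Real.pi * x j) = ∑ k ∈ Finset.range K,
      ∑ i ∈ Finset.range (1 + 1), Real.cos ((((1 : ℕ) : ℝ) - 2 * i) * (Real.pi * x k)) := by
    refine Finset.sum_congr rfl fun k _ => ?_
    rw [Finset.sum_range_succ, Finset.sum_range_one]
    push_cast
    rw [show (1 - 2 * 0) * (Real.pi * x k) = Real.pi * x k by ring,
      show (1 - 2 * 1) * (Real.pi * x k) = -(Real.pi * x k) by ring, Real.cos_neg]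
    ring
  rw [h4] at h3
  have h5 : (K : ℝ) ^ c ≤ y ^ c := Real.rpow_le_rpow (by positivity) (count_le_x (by linarith)) (by linarith)
  have h6 : C * (K : ℝ) ^ c ≤ |C| * y ^ c := mul_le_mul (le_abs_self C) h5 (by positivity) (abs_nonneg C)
  have h7 : B ≤ B * y ^ c := by
    have : 1 ≤ y ^ c := Real.one_le_rpow hy3 (by linarith)
    nlinarith
  rw [← hK] at h2
  linarith

/-- **Main theorem, two-sided**, all symmetric powers. -/
theorem st_two {T : Set ℕ} (hT : ∀ p ∈ T, p.Prime) (hfin : {p : ℕ | p.Prime ∧ p ∉ T}.Finite)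
    {x : ℕ → ℝ} (hx : ∀ k, 0 ≤ x k ∧ x k ≤ 1) {m : ℕ} (hm : 1 ≤ m) {Φ : ℂ → ℂ} (hΦ : Differentiable ℂ Φ)
    (hP : ∀ s : ℂ, 1 < s.re →
      HasProd (fun p : T => ∏ i, (1 - al x m (p : ℕ) i * ((p : ℕ) : ℂ) ^ (-s))⁻¹) (Φ s))
    {c : ℝ} (hc : 1 / 2 ≤ c) {δ C : ℝ} (hδ : 0 < δ)
    (hW : ∃ᶠ Z : ℕ in atTop, ∀ K : ℕ, (Z : ℝ) ^ (1 - δ) ≤ K → K ≤ Z → ∀ w : ℝ, 0 ≤ w → w ≤ 1 →
      |(cnt x w K : ℝ) - K * sF w| ≤ C * (K : ℝ) ^ c)
    {ρ : ℂ} (hρ : c < ρ.re) : Φ ρ ≠ 0 := by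
  classical
  set δ1 : ℝ := min δ 1 with hδ1
  have hd0 : 0 < δ1 := by rw [hδ1]; positivity
  have hd1 : δ1 ≤ 1 := min_le_right _ _
  have hW1 : ∃ᶠ Z : ℕ in atTop, ∀ K : ℕ, (Z : ℝ) ^ (1 - δ1) ≤ K → K ≤ Z → ∀ w : ℝ, 0 ≤ w → w ≤ 1 →
      |(cnt x w K : ℝ) - K * sF w| ≤ C * (K : ℝ) ^ c := by
    refine (hW.and_eventually (eventually_ge_atTop 1)).mono ?_
    rintro Z ⟨h, hZ⟩ K hK1 hK2
    refine h K (le_trans ?_ hK1) hK2
    refine Real.rpow_le_rpow_of_exponent_le (by exact_mod_cast hZ) ?_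
    have := min_le_left δ 1
    linarith
  have hW2 := index_windows hd0 hd1 hW1
  obtain ⟨B, hB0, hB⟩ := sum_T hT hfin (fun k => ∑ i ∈ Finset.range (m + 1),
    Real.cos (((m : ℝ) - 2 * i) * (Real.pi * x k))) (M := (m : ℝ) + 1) (by
      intro k
      refine (Finset.abs_sum_le_sum_abs _ _).trans ?_
      refine (Finset.sum_le_sum fun i _ => Real.abs_cos_le_one _).trans ?_
      simp)
  obtain ⟨C2, hC2, hkok⟩ := Pool.Agent.TH574.TX.t_koksma m hm
  refine zero_free_trace hT (fun p _ i => (al_norm x m p i).le) (fun p _ k => al_im x m p k) hΦ hP hc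
    (δ := δ1 / 2) (C := C2 * |C| + B) (by positivity) ?_ hρ
  refine (hW2.and_eventually (eventually_ge_atTop 1)).mono ?_
  rintro X ⟨hX, hX1⟩ y hy1 hy2
  have hy3 : 1 ≤ y := (Real.one_le_rpow hX1 (by linarith)).trans hy1
  have h1 := hX y hy1 hy2
  set K : ℕ := Nat.count Nat.Prime (⌊y⌋₊ + 1) with hK
  have h2 := (abs_le.1 (hB (⌊y⌋₊ + 1))).1
  simp only [al_re]
  have h3 := hkok (Finset.range K) x (fun j _ => hx j) (C * (K : ℝ) ^ c) (by
    intro w hw0 hw1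
    have := h1 w hw0 hw1
    rw [Finset.card_range]
    exact this)
  have h3' := (abs_le.1 h3).1
  have h5 : (K : ℝ) ^ c ≤ y ^ c := Real.rpow_le_rpow (by positivity) (count_le_x (by linarith)) (by linarith)
  have h6 : C * (K : ℝ) ^ c ≤ |C| * y ^ c := mul_le_mul (le_abs_self C) h5 (by positivity) (abs_nonneg C)
  have h6' : C2 * (C * (K : ℝ) ^ c) ≤ C2 * (|C| * y ^ c) := mul_le_mul_of_nonneg_left h6 hC2.le
  have h7 : B ≤ B * y ^ c := by
    have : 1 ≤ y ^ c := Real.one_le_rpow hy3 (by linarith)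
    nlinarith
  rw [← hK] at h2
  linarith

end Pool.Agent.TH949.TX
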